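import Pool.Agent.Lib.MP_d8bd92_nt.T3.O3.Defs

set_option autoImplicit false

/-!
Phase 3, the tie (b)-(b), elementary route (page d8o3_tie_helper11.md).
-/

namespace Pool.Agent.Lib.MP_d8bd92_nt

namespace T3

namespace O3

open Finset

/-- a set of integers of diameter at most `L` -/
theorem T1_diam (S : Finset ℤ) (L : ℝ) (hL : 0 ≤ L) (h : ∀ x ∈ S, ∀ y ∈ S, |(x : ℝ) - y| ≤ L) :
    (S.card : ℝ) ≤ L + 1 := by
  rcases S.eq_empty_or_nonempty with rfl | hne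
  · simp only [Finset.card_empty, Nat.cast_zero]
    linarith
  · have h1 : S ⊆ Finset.Icc (S.min' hne) (S.max' hne) := fun x hx =>
      Finset.mem_Icc.2 ⟨Finset.min'_le S x hx, Finset.le_max' S x hx⟩
    have h2 := Finset.card_le_card h1
    rw [Int.card_Icc] at h2
    have h3 := h _ (Finset.max'_mem S hne) _ (Finset.min'_mem S hne)
    have h4 : S.min' hne ≤ S.max' hne := Finset.min'_le S _ (Finset.max'_mem S hne)
    have h5 : ((S.max' hne + 1 - S.min' hne).toNat : ℤ) = S.max' hne + 1 - S.min' hne :=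
      Int.toNat_of_nonneg (by omega)
    have h6 : (S.card : ℤ) ≤ S.max' hne + 1 - S.min' hne := by
      rw [← h5]; exact_mod_cast h2
    have h7 : (S.card : ℝ) ≤ (S.max' hne : ℝ) + 1 - (S.min' hne : ℝ) := by exact_mod_cast h6
    have h8 := le_abs_self ((S.max' hne : ℝ) - (S.min' hne : ℝ))
    linarith

/-- two cubes close to the same number -/
theorem T1_gap {Z Y x s t : ℝ} (hZ : 0 < Z) (hs : Z / 2 ≤ s) (ht : Z / 2 ≤ t) (h1 : |s ^ 3 - x| ≤ Y)
    (h2 : |t ^ 3 - x| ≤ Y) : |s - t| ≤ 8 / 3 * (Y / Z ^ 2) := by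
  have h3 : |s ^ 3 - t ^ 3| ≤ 2 * Y := by
    have h4 : s ^ 3 - t ^ 3 = (s ^ 3 - x) - (t ^ 3 - x) := by ring
    rw [h4]
    refine (abs_sub _ _).trans ?_
    linarith
  have h5 : s ^ 3 - t ^ 3 = (s - t) * (s ^ 2 + s * t + t ^ 2) := by ring
  have h6 : 3 / 4 * Z ^ 2 ≤ s ^ 2 + s * t + t ^ 2 := by nlinarith
  have h7 : 0 ≤ s ^ 2 + s * t + t ^ 2 := le_trans (by positivity) h6
  rw [h5, abs_mul, abs_of_nonneg h7] at h3
  have h8 : |s - t| * (3 / 4 * Z ^ 2) ≤ 2 * Y := (mul_le_mul_of_nonneg_left h6 (abs_nonneg _)).trans h3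
  have h9 : |s - t| ≤ 2 * Y / (3 / 4 * Z ^ 2) := by
    rw [le_div_iff₀ (by positivity)]
    exact h8
  refine h9.trans (le_of_eq ?_)
  field_simp
  ring

/-- (o3-T1) `|y|` small: given `x`, the cubes within `Y` of `x` -/
theorem tie_small (K : ℝ) (hK : 0 < K) (c : ℝ) (hc : 0 < c) (a b e f : ℕ) (hf : 1 ≤ f) (hfe : f < e) : ∃ δ H0 : ℝ, 0 < δ ∧ 1 ≤ H0 ∧
    ∀ H : ℝ, H0 ≤ H → ∀ (v w : ℤ) (X Y Z : ℝ) (F : Finset (ℕ × ℕ × ℕ × ℕ)) (z : ℕ × ℕ × ℕ × ℕ → ℤ),
    Tie K δ H a b e f v w X Y Z F z → Y ≤ Z ^ 2 * H ^ (1 - c) → (F.card : ℝ) ≤ H ^ (3 - δ) := by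
  classical
  have hc' : 0 < min c 1 := lt_min hc one_pos
  set c' : ℝ := min c 1 with hc'def
  have hcc : c' ≤ c := min_le_left _ _
  have hc1 : c' ≤ 1 := min_le_right _ _
  refine ⟨c' / 6, (32 : ℝ) ^ (2 / c'), by positivity, Real.one_le_rpow (by norm_num) (by positivity), ?_⟩
  intro H hH v w X Y Z F z hT hY
  have hH1 : 1 ≤ H := le_trans (Real.one_le_rpow (by norm_num) (by positivity)) hH
  have hH0 : 0 < H := by linarith
  rcases F.eq_empty_or_nonempty with rfl | ⟨t1, ht1⟩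
  · simp only [Finset.card_empty, Nat.cast_zero]
    positivity
  -- signs
  have hZ0 : 0 ≤ Z := (abs_nonneg _).trans (hT.zhi t1 ht1)
  have hY0 : 0 ≤ Y := le_trans (by positivity) (hT.yhi t1 ht1)
  have hZ : 0 < Z := by
    rcases hZ0.lt_or_eq with h | h
    · exact h
    · exfalso
      have h1 := hT.zhi t1 ht1
      rw [← h] at h1
      have h2 : (z t1 : ℝ) = 0 := abs_eq_zero.1 (le_antisymm h1 (abs_nonneg _))
      have h3 : z t1 = 0 := by exact_mod_cast h2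
      have h4 := hT.eq t1 ht1
      rw [h3] at h4
      have h5 := hT.cop t1 ht1
      have hPy : ((t1.2.2.1 : ℕ) : ℤ) ∣ w * t1.2.2.1 ^ e * t1.2.2.2 ^ f :=
        Dvd.dvd.mul_right (Dvd.dvd.mul_left (dvd_pow_self _ (by omega)) _) _
      have hPx : ((t1.2.2.1 : ℕ) : ℤ) ∣ v * t1.1 ^ a * t1.2.1 ^ b := by
        have h6 : v * (t1.1 : ℤ) ^ a * (t1.2.1 : ℤ) ^ b = -(w * (t1.2.2.1 : ℤ) ^ e * (t1.2.2.2 : ℤ) ^ f) := by
          have h7 : (0 : ℤ) ^ 3 = 0 := by norm_num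
          rw [h7] at h4
          linarith
        rw [h6]
        exact (dvd_neg).2 hPy
      have h6 := h5.isUnit_of_dvd' hPx hPy
      have h7 := (hT.prP t1 ht1).1
      rcases Int.isUnit_iff.1 h6 with h8 | h8
      · have : t1.2.2.1 = 1 := by exact_mod_cast h8
        exact h7.one_lt.ne' this
      · have := Int.natCast_nonneg t1.2.2.1
        omega
  -- the fibres over (p, q, z)
  set φ : ℕ × ℕ × ℕ × ℕ → ℕ × ℕ × ℤ := fun t => (t.1, t.2.1, z t) with hφ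
  have hF4 : F.card ≤ 4 * (F.image φ).card := by
    refine Finset.card_le_mul_card_image F 4 ?_
    intro g hg
    obtain ⟨t0, ht0, rfl⟩ := Finset.mem_image.1 hg
    have hsub : F.filter (fun t => φ t = φ t0) ⊆
        ((({t0.2.2.1, t0.2.2.2} : Finset ℕ) ×ˢ ({t0.2.2.1, t0.2.2.2} : Finset ℕ)).image
          (fun r => (t0.1, t0.2.1, r.1, r.2))) := by
      intro t ht
      obtain ⟨htF, hte⟩ := Finset.mem_filter.1 ht
      have e1 : t.1 = t0.1 := congrArg (fun g => g.1) hte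
      have e2 : t.2.1 = t0.2.1 := congrArg (fun g => g.2.1) hte
      have e3 : z t = z t0 := congrArg (fun g => g.2.2) hte
      have h1 := hT.eq t htF
      have h2 := hT.eq t0 ht0
      rw [e1, e2, e3, ← h2] at h1
      have h3 : w * ((t.2.2.1 : ℤ) ^ e * (t.2.2.2 : ℤ) ^ f) = w * ((t0.2.2.1 : ℤ) ^ e * (t0.2.2.2 : ℤ) ^ f) := by
        linarith
      have h4 := mul_left_cancel₀ hT.w0 h3
      have h5 : t.2.2.1 ^ e * t.2.2.2 ^ f = t0.2.2.1 ^ e * t0.2.2.2 ^ f := by exact_mod_cast h4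
      have p1 := (hT.prP t htF).1
      have p2 := (hT.prQ t htF).1
      have p3 := (hT.prP t0 ht0).1
      have p4 := (hT.prQ t0 ht0).1
      have hdiv : ∀ r : ℕ, r.Prime → r ∣ t.2.2.1 ^ e * t.2.2.2 ^ f → r = t0.2.2.1 ∨ r = t0.2.2.2 := by
        intro r hr hrd
        rw [h5] at hrd
        rcases (Nat.Prime.dvd_mul hr).1 hrd with h | h
        · exact Or.inl ((Nat.prime_dvd_prime_iff_eq hr p3).1 (hr.dvd_of_dvd_pow h))
        · exact Or.inr ((Nat.prime_dvd_prime_iff_eq hr p4).1 (hr.dvd_of_dvd_pow h))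
      have q1 := hdiv t.2.2.1 p1 (Dvd.dvd.mul_right (dvd_pow_self _ (by omega)) _)
      have q2 := hdiv t.2.2.2 p2 (Dvd.dvd.mul_left (dvd_pow_self _ (by omega)) _)
      refine Finset.mem_image.2 ⟨(t.2.2.1, t.2.2.2), ?_, ?_⟩
      · rw [Finset.mem_product]
        constructor
        · rw [Finset.mem_insert, Finset.mem_singleton]; exact q1
        · rw [Finset.mem_insert, Finset.mem_singleton]; exact q2
      · rw [← e1, ← e2]
    refine (Finset.card_le_card hsub).trans (Finset.card_image_le.trans ?_)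
    rw [Finset.card_product]
    have h1 : ({t0.2.2.1, t0.2.2.2} : Finset ℕ).card ≤ 2 := Finset.card_le_two
    calc _ ≤ 2 * 2 := Nat.mul_le_mul h1 h1
      _ = 4 := rfl
  set G : Finset (ℕ × ℕ × ℤ) := F.image φ with hG
  set L : ℝ := 8 / 3 * (Y / Z ^ 2) with hL
  have hL0 : 0 ≤ L := by positivity
  -- the cubes close to x
  have hfib : ∀ pq : ℕ × ℕ, ((G.filter (fun g => (g.1, g.2.1) = pq)).card : ℝ) ≤ 2 * (L + 1) := by
    intro pq
    have hinj : Set.InjOn (fun g : ℕ × ℕ × ℤ => g.2.2) (G.filter (fun g => (g.1, g.2.1) = pq)) := by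
      intro g hg g' hg' hgg
      have h1 := (Finset.mem_filter.1 (Finset.mem_coe.1 hg)).2
      have h2 := (Finset.mem_filter.1 (Finset.mem_coe.1 hg')).2
      rw [← h2] at h1
      have h3 : g.1 = g'.1 := congrArg (fun r => r.1) h1
      have h4 : g.2.1 = g'.2.1 := congrArg (fun r => r.2) h1
      exact Prod.ext h3 (Prod.ext h4 hgg)
    rw [← Finset.card_image_of_injOn hinj]
    set S : Finset ℤ := (G.filter (fun g => (g.1, g.2.1) = pq)).image (fun g => g.2.2) with hS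
    have hSm : ∀ s ∈ S, Z / 2 ≤ |(s : ℝ)| ∧ |(s : ℝ) ^ 3 - (v : ℝ) * (pq.1 : ℝ) ^ a * (pq.2 : ℝ) ^ b| ≤ Y := by
      intro s hs
      obtain ⟨g, hg, rfl⟩ := Finset.mem_image.1 hs
      obtain ⟨hgG, hgpq⟩ := Finset.mem_filter.1 hg
      obtain ⟨t, ht, rfl⟩ := Finset.mem_image.1 hgG
      have e1 : t.1 = pq.1 := congrArg (fun r => r.1) hgpq
      have e2 : t.2.1 = pq.2 := congrArg (fun r => r.2) hgpq
      refine ⟨hT.zlo t ht, ?_⟩
      have h1 := hT.eq t ht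
      rw [e1, e2] at h1
      have h2 : (z t : ℝ) ^ 3 - (v : ℝ) * (pq.1 : ℝ) ^ a * (pq.2 : ℝ) ^ b =
          (w : ℝ) * (t.2.2.1 : ℝ) ^ e * (t.2.2.2 : ℝ) ^ f := by
        have h3 : (v : ℝ) * (pq.1 : ℝ) ^ a * (pq.2 : ℝ) ^ b + (w : ℝ) * (t.2.2.1 : ℝ) ^ e * (t.2.2.2 : ℝ) ^ f =
            (z t : ℝ) ^ 3 := by exact_mod_cast h1
        linarith
      show |(z t : ℝ) ^ 3 - (v : ℝ) * (pq.1 : ℝ) ^ a * (pq.2 : ℝ) ^ b| ≤ Y
      rw [h2, abs_mul, abs_mul, abs_of_nonneg (by positivity : (0 : ℝ) ≤ (t.2.2.1 : ℝ) ^ e),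
        abs_of_nonneg (by positivity : (0 : ℝ) ≤ (t.2.2.2 : ℝ) ^ f)]
      exact hT.yhi t ht
    have hpos : ((S.filter (fun s => 0 < s)).card : ℝ) ≤ L + 1 := by
      refine T1_diam _ L hL0 ?_
      intro s hs s' hs'
      obtain ⟨h1, h2⟩ := Finset.mem_filter.1 hs
      obtain ⟨h3, h4⟩ := Finset.mem_filter.1 hs'
      have h5 := hSm s h1
      have h6 := hSm s' h3
      have h7 : (0 : ℝ) < s := by exact_mod_cast h2
      have h8 : (0 : ℝ) < s' := by exact_mod_cast h4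
      rw [abs_of_pos h7] at h5
      rw [abs_of_pos h8] at h6
      exact T1_gap hZ h5.1 h6.1 h5.2 h6.2
    have hneg : ((S.filter (fun s => ¬ 0 < s)).card : ℝ) ≤ L + 1 := by
      refine T1_diam _ L hL0 ?_
      intro s hs s' hs'
      obtain ⟨h1, h2⟩ := Finset.mem_filter.1 hs
      obtain ⟨h3, h4⟩ := Finset.mem_filter.1 hs'
      have h5 := hSm s h1
      have h6 := hSm s' h3
      have h7 : (s : ℝ) ≤ 0 := by exact_mod_cast (not_lt.1 h2)
      have h8 : (s' : ℝ) ≤ 0 := by exact_mod_cast (not_lt.1 h4)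
      rw [abs_of_nonpos h7] at h5
      rw [abs_of_nonpos h8] at h6
      have h9 := T1_gap (x := -((v : ℝ) * (pq.1 : ℝ) ^ a * (pq.2 : ℝ) ^ b)) (Y := Y) hZ h5.1 h6.1 (by
        have e : (-(s : ℝ)) ^ 3 - -((v : ℝ) * (pq.1 : ℝ) ^ a * (pq.2 : ℝ) ^ b) =
            -((s : ℝ) ^ 3 - (v : ℝ) * (pq.1 : ℝ) ^ a * (pq.2 : ℝ) ^ b) := by ring
        rw [e, abs_neg]
        exact h5.2) (by
        have e : (-(s' : ℝ)) ^ 3 - -((v : ℝ) * (pq.1 : ℝ) ^ a * (pq.2 : ℝ) ^ b) =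
            -((s' : ℝ) ^ 3 - (v : ℝ) * (pq.1 : ℝ) ^ a * (pq.2 : ℝ) ^ b) := by ring
        rw [e, abs_neg]
        exact h6.2)
      have h10 : -(s : ℝ) - -(s' : ℝ) = -((s : ℝ) - s') := by ring
      rw [h10, abs_neg] at h9
      exact h9
    have hadd := Finset.card_filter_add_card_filter_not (s := S) (fun s => 0 < s)
    have hadd' : ((S.filter (fun s => 0 < s)).card : ℝ) + ((S.filter (fun s => ¬ 0 < s)).card : ℝ) = (S.card : ℝ) := by
      exact_mod_cast hadd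
    linarith
  -- the pairs (p, q)
  have hpq : ((G.image (fun g => (g.1, g.2.1))).card : ℝ) ≤ H ^ (1 + c' / 6) * H ^ (1 + c' / 6) := by
    set n : ℕ := ⌊H ^ (1 + c' / 6)⌋₊ with hn
    have hsub : G.image (fun g => (g.1, g.2.1)) ⊆ Finset.Icc 1 n ×ˢ Finset.Icc 1 n := by
      intro r hr
      obtain ⟨g, hg, rfl⟩ := Finset.mem_image.1 hr
      obtain ⟨t, ht, rfl⟩ := Finset.mem_image.1 hg
      rw [Finset.mem_product, Finset.mem_Icc, Finset.mem_Icc]
      have h1 := hT.prp t ht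
      have h2 := hT.prq t ht
      exact ⟨⟨h1.1.one_lt.le, Nat.le_floor h1.2.2⟩, ⟨h2.1.one_lt.le, Nat.le_floor h2.2.2⟩⟩
    have h1 := Finset.card_le_card hsub
    rw [Finset.card_product, Nat.card_Icc, Nat.add_sub_cancel] at h1
    have h2 : (n : ℝ) ≤ H ^ (1 + c' / 6) := Nat.floor_le (by positivity)
    calc ((G.image (fun g => (g.1, g.2.1))).card : ℝ) ≤ (n : ℝ) * n := by exact_mod_cast h1
      _ ≤ H ^ (1 + c' / 6) * H ^ (1 + c' / 6) := mul_le_mul h2 h2 (Nat.cast_nonneg _) (by positivity)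
  have hGcard : (G.card : ℝ) ≤ H ^ (1 + c' / 6) * H ^ (1 + c' / 6) * (2 * (L + 1)) := by
    have h1 := Finset.card_eq_sum_card_image (fun g : ℕ × ℕ × ℤ => (g.1, g.2.1)) G
    have h2 : (G.card : ℝ) = ∑ r ∈ G.image (fun g : ℕ × ℕ × ℤ => (g.1, g.2.1)),
        ((G.filter (fun g => (g.1, g.2.1) = r)).card : ℝ) := by exact_mod_cast h1
    rw [h2]
    refine (Finset.sum_le_sum fun r _ => hfib r).trans ?_
    rw [Finset.sum_const, nsmul_eq_mul]
    exact mul_le_mul_of_nonneg_right hpq (by linarith)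
  have hLb : 2 * (L + 1) ≤ 8 * H ^ (1 - c') := by
    have h1 : Y / Z ^ 2 ≤ H ^ (1 - c) := by
      rw [div_le_iff₀ (by positivity)]
      linarith
    have h2 : H ^ (1 - c) ≤ H ^ (1 - c') := Real.rpow_le_rpow_of_exponent_le hH1 (by linarith)
    have h3 : (1 : ℝ) ≤ H ^ (1 - c') := Real.one_le_rpow hH1 (by linarith)
    rw [hL]
    linarith
  have hend : 32 ≤ H ^ (c' / 2) := by
    have h1 : ((32 : ℝ) ^ (2 / c')) ^ (c' / 2) ≤ H ^ (c' / 2) :=
      Real.rpow_le_rpow (by positivity) hH (by positivity)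
    rw [← Real.rpow_mul (by norm_num)] at h1
    have h2 : 2 / c' * (c' / 2) = 1 := by
      field_simp
    rw [h2, Real.rpow_one] at h1
    exact h1
  calc (F.card : ℝ) ≤ 4 * (G.card : ℝ) := by exact_mod_cast hF4
    _ ≤ 4 * (H ^ (1 + c' / 6) * H ^ (1 + c' / 6) * (2 * (L + 1))) := by linarith
    _ ≤ 4 * (H ^ (1 + c' / 6) * H ^ (1 + c' / 6) * (8 * H ^ (1 - c'))) := by
        have h1 : 0 ≤ H ^ (1 + c' / 6) * H ^ (1 + c' / 6) := by positivity
        have h2 := mul_le_mul_of_nonneg_left hLb h1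
        linarith
    _ = 32 * H ^ (3 - 2 * (c' / 3)) := by
        have h1 : H ^ (1 + c' / 6) * H ^ (1 + c' / 6) * H ^ (1 - c') = H ^ (3 - 2 * (c' / 3)) := by
          rw [← Real.rpow_add hH0, ← Real.rpow_add hH0]
          congr 1
          ring
        rw [← h1]
        ring
    _ ≤ H ^ (c' / 2) * H ^ (3 - 2 * (c' / 3)) := mul_le_mul_of_nonneg_right hend (by positivity)
    _ = H ^ (3 - c' / 6) := by
        rw [← Real.rpow_add hH0]
        congr 1
        ring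

end O3

end T3

end Pool.Agent.Lib.MP_d8bd92_nt
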