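import Pool.Agent.Lib.MP_d8bd92_nt.T3.O3.Defs

set_option autoImplicit false

/-!
Phase 3, the tie (b)-(b), elementary route (page d8o3_tie_helper11.md).
-/

namespace Pool.Agent.Lib.MP_d8bd92_nt

namespace T3

namespace O3

open Finset

theorem G0_quad (E : Finset (ℕ × ℕ)) (hE : E.Nonempty) (X : ℝ)
    (h1 : ((E.image Prod.fst).card : ℝ) ≤ X) (h2 : ((E.image Prod.snd).card : ℝ) ≤ X) :
    ∃ w0 ∈ E, (E.card : ℝ) ^ 3 ≤
      X ^ 4 * ((E.filter (fun w => (w0.1, w.2) ∈ E ∧ (w.1, w0.2) ∈ E)).card : ℝ) := by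
  classical
  set R := E.image Prod.fst with hR
  set C := E.image Prod.snd with hC
  let a : ℕ → ℕ → ℝ := fun P Q => if (P, Q) ∈ E then 1 else 0
  have hsub : E ⊆ R ×ˢ C := by
    intro w hw
    exact Finset.mem_product.2 ⟨Finset.mem_image_of_mem _ hw, Finset.mem_image_of_mem _ hw⟩
  have hcard : (E.card : ℝ) = ∑ Q ∈ C, ∑ P ∈ R, a P Q := by
    rw [Finset.sum_comm, ← Finset.sum_product' R C (fun P Q => a P Q)]
    show (E.card : ℝ) = ∑ x ∈ R ×ˢ C, if (x.1, x.2) ∈ E then (1 : ℝ) else 0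
    have : ∀ x : ℕ × ℕ, (if (x.1, x.2) ∈ E then (1 : ℝ) else 0) = if x ∈ E then (1 : ℝ) else 0 := fun x => rfl
    simp only [this]
    rw [Finset.sum_ite_mem, Finset.inter_eq_right.2 hsub]
    simp
  have hD : ∀ P0 Q0 : ℕ, (∑ P ∈ R, ∑ Q ∈ C, a P Q * a P0 Q * a P Q0) =
      ((E.filter (fun w => (P0, w.2) ∈ E ∧ (w.1, Q0) ∈ E)).card : ℝ) := by
    intro P0 Q0
    rw [← Finset.sum_product' R C (fun P Q => a P Q * a P0 Q * a P Q0)]
    have : ∀ x : ℕ × ℕ, a x.1 x.2 * a P0 x.2 * a x.1 Q0 =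
        if x ∈ E.filter (fun w => (P0, w.2) ∈ E ∧ (w.1, Q0) ∈ E) then (1 : ℝ) else 0 := by
      intro x
      simp only [a, Finset.mem_filter]
      by_cases c1 : x ∈ E <;> by_cases c2 : (P0, x.2) ∈ E <;> by_cases c3 : (x.1, Q0) ∈ E <;>
        simp [c1, c2, c3]
    simp only [this]
    rw [Finset.sum_ite_mem, Finset.inter_eq_right.2 ((Finset.filter_subset _ _).trans hsub)]
    simp
  -- first Cauchy-Schwarz
  have s1 : (E.card : ℝ) ^ 2 ≤ (C.card : ℝ) * ∑ Q ∈ C, (∑ P ∈ R, a P Q) ^ 2 := by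
    rw [hcard]; exact sq_sum_le_card_mul_sum_sq
  have s2 : ∑ Q ∈ C, (∑ P ∈ R, a P Q) ^ 2 = ∑ x ∈ R ×ˢ R, ∑ Q ∈ C, a x.1 Q * a x.2 Q := by
    rw [Finset.sum_comm]
    refine Finset.sum_congr rfl fun Q _ => ?_
    rw [sq, Finset.sum_mul_sum, ← Finset.sum_product' R R (fun P P0 => a P Q * a P0 Q)]
  have s3 : (∑ x ∈ R ×ˢ R, ∑ Q ∈ C, a x.1 Q * a x.2 Q) ^ 2 ≤
      ((R ×ˢ R).card : ℝ) * ∑ x ∈ R ×ˢ R, (∑ Q ∈ C, a x.1 Q * a x.2 Q) ^ 2 := sq_sum_le_card_mul_sum_sq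
  have s4 : ∑ x ∈ R ×ˢ R, (∑ Q ∈ C, a x.1 Q * a x.2 Q) ^ 2 =
      ∑ P0 ∈ R, ∑ Q0 ∈ C, a P0 Q0 * (∑ P ∈ R, ∑ Q ∈ C, a P Q * a P0 Q * a P Q0) := by
    rw [Finset.sum_product_right' R R (fun P P0 => (∑ Q ∈ C, a P Q * a P0 Q) ^ 2)]
    refine Finset.sum_congr rfl fun P0 _ => ?_
    have : ∀ P : ℕ, (∑ Q ∈ C, a P Q * a P0 Q) ^ 2 = ∑ Q0 ∈ C, a P0 Q0 * ∑ Q ∈ C, a P Q * a P0 Q * a P Q0 := by
      intro P
      rw [sq, Finset.sum_mul_sum, Finset.sum_comm]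
      refine Finset.sum_congr rfl fun Q0 _ => ?_
      rw [Finset.mul_sum]
      refine Finset.sum_congr rfl fun Q _ => ?_
      ring
    simp only [this]
    rw [Finset.sum_comm]
    refine Finset.sum_congr rfl fun Q0 _ => ?_
    rw [Finset.mul_sum]
  by_contra hcon
  push Not at hcon
  have hn : (0 : ℝ) < E.card := by exact_mod_cast hE.card_pos
  have hX : 0 < X := by
    refine lt_of_lt_of_le ?_ h1
    exact_mod_cast (hE.image _).card_pos
  -- the upper bound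
  have s5 : X ^ 4 * ∑ P0 ∈ R, ∑ Q0 ∈ C, a P0 Q0 * (∑ P ∈ R, ∑ Q ∈ C, a P Q * a P0 Q * a P Q0) <
      (E.card : ℝ) ^ 3 * E.card := by
    have e1 : ∑ P0 ∈ R, ∑ Q0 ∈ C, a P0 Q0 * (∑ P ∈ R, ∑ Q ∈ C, a P Q * a P0 Q * a P Q0) =
        ∑ w ∈ E, ((E.filter (fun u => (w.1, u.2) ∈ E ∧ (u.1, w.2) ∈ E)).card : ℝ) := by
      rw [← Finset.sum_product' R C (fun P0 Q0 => a P0 Q0 * (∑ P ∈ R, ∑ Q ∈ C, a P Q * a P0 Q * a P Q0))]
      simp only [hD]
      have : ∀ x : ℕ × ℕ, a x.1 x.2 * ((E.filter (fun w => (x.1, w.2) ∈ E ∧ (w.1, x.2) ∈ E)).card : ℝ) =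
          if x ∈ E then ((E.filter (fun w => (x.1, w.2) ∈ E ∧ (w.1, x.2) ∈ E)).card : ℝ) else 0 := by
        intro x
        simp only [a]
        by_cases c1 : x ∈ E <;> simp [c1]
      simp only [this]
      rw [Finset.sum_ite_mem, Finset.inter_eq_right.2 hsub]
    rw [e1, Finset.mul_sum]
    calc _ < ∑ w ∈ E, (E.card : ℝ) ^ 3 := Finset.sum_lt_sum_of_nonempty hE (fun w hw => hcon w hw)
      _ = (E.card : ℝ) ^ 3 * E.card := by rw [Finset.sum_const, nsmul_eq_mul]; ring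
  rw [← s4] at s5
  have hRR : ((R ×ˢ R).card : ℝ) ≤ X ^ 2 := by
    rw [Finset.card_product]; push_cast; rw [sq]
    exact mul_le_mul h1 h1 (Nat.cast_nonneg _) hX.le
  have p1 : (E.card : ℝ) ^ 2 ≤ X * ∑ x ∈ R ×ˢ R, ∑ Q ∈ C, a x.1 Q * a x.2 Q := by
    rw [← s2]
    exact s1.trans (mul_le_mul_of_nonneg_right h2 (Finset.sum_nonneg fun Q _ => sq_nonneg _))
  have p2 : (∑ x ∈ R ×ˢ R, ∑ Q ∈ C, a x.1 Q * a x.2 Q) ^ 2 ≤
      X ^ 2 * ∑ x ∈ R ×ˢ R, (∑ Q ∈ C, a x.1 Q * a x.2 Q) ^ 2 :=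
    s3.trans (mul_le_mul_of_nonneg_right hRR (Finset.sum_nonneg fun Q _ => sq_nonneg _))
  have p3 : ((E.card : ℝ) ^ 2) ^ 2 ≤ (X * ∑ x ∈ R ×ˢ R, ∑ Q ∈ C, a x.1 Q * a x.2 Q) ^ 2 :=
    pow_le_pow_left₀ (by positivity) p1 2
  have p4 : X ^ 2 * (∑ x ∈ R ×ˢ R, ∑ Q ∈ C, a x.1 Q * a x.2 Q) ^ 2 ≤
      X ^ 2 * (X ^ 2 * ∑ x ∈ R ×ˢ R, (∑ Q ∈ C, a x.1 Q * a x.2 Q) ^ 2) :=
    mul_le_mul_of_nonneg_left p2 (by positivity)
  nlinarith [p3, p4, s5]

theorem G0_card (δ H : ℝ) (S : Finset ℕ) (hH : 1 ≤ H) (hS : ∀ P ∈ S, PrH δ H P) : (S.card : ℝ) ≤ H ^ (1 + δ) := by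
  have hsub : S ⊆ Finset.Icc 1 ⌊H ^ (1 + δ)⌋₊ := by
    intro P hP
    obtain ⟨hp, _, h3⟩ := hS P hP
    exact Finset.mem_Icc.2 ⟨hp.one_lt.le, Nat.le_floor h3⟩
  have h1 : S.card ≤ ⌊H ^ (1 + δ)⌋₊ := by
    have := Finset.card_le_card hsub
    simpa using this
  exact (Nat.cast_le.2 h1).trans (Nat.floor_le (by positivity))

/-- the arithmetic: minors from a popular cube root of unity -/
theorem G0_arith (N : ℤ) (z00 om a b c d p q r s : ℤ) (h0 : IsCoprime z00 N)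
    (h1 : N ∣ a * z00 - om * (p * r)) (h2 : N ∣ d * z00 - om * (q * s))
    (h3 : N ∣ b * z00 - om * (q * r)) (h4 : N ∣ c * z00 - om * (p * s)) : N ∣ a * d - b * c := by
  have e : N ∣ z00 ^ 2 * (a * d - b * c) := by
    have : z00 ^ 2 * (a * d - b * c) = (a * z00 - om * (p * r)) * (d * z00) + (om * (p * r)) * (d * z00 - om * (q * s))
        - (b * z00 - om * (q * r)) * (c * z00) - (om * (q * r)) * (c * z00 - om * (p * s)) := by ring
    rw [this]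
    exact dvd_sub (dvd_sub (dvd_add (h1.mul_right _) (h2.mul_left _)) (h3.mul_right _)) (h4.mul_left _)
  exact (h0.symm.pow_right (n := 2)).dvd_of_dvd_mul_left e

/-- (o3-G0) cube roots: fix a popular corner `(P0, Q0)`; `z(P,Q) z(P0,Q0) = ω z(P0,Q) z(P,Q0)` modulo `N` with `ω^3 = 1`,
popular `ω` (Th.card_kth) -/
theorem minors (K ε : ℝ) (hK : 0 < K) (hε : 0 < ε) (e f : ℕ) : ∃ δ H0 : ℝ, 0 < δ ∧ 1 ≤ H0 ∧ ∀ H : ℝ, H0 ≤ H →
    ∀ (E : Finset (ℕ × ℕ)) (z : ℕ → ℕ → ℤ) (N : ℕ) (Z η κ : ℝ) (v : ℤ), Grid K δ H e f E z N Z η κ v →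
    H ^ (2 - δ) ≤ (E.card : ℝ) → ∃ E' : Finset (ℕ × ℕ), E' ⊆ E ∧ H ^ (2 - ε) ≤ (E'.card : ℝ) ∧ Minor E' z N := by
  classical
  obtain ⟨C, hC1, hC⟩ := Th.card_kth 3 (by norm_num) (ε / (4 * K)) (by positivity)
  refine ⟨ε / 28, C ^ (2 / ε), by positivity, Real.one_le_rpow hC1 (by positivity), ?_⟩
  intro H hH E z N Z η κ v hG hcard
  have hC0 : 0 < C := by linarith
  have hH1 : 1 ≤ H := (Real.one_le_rpow hC1 (by positivity)).trans hH
  have hH0 : 0 < H := by linarith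
  have hCH : C ≤ H ^ (ε / 2) := by
    have h := Real.rpow_le_rpow (by positivity) hH (by positivity : (0 : ℝ) ≤ ε / 2)
    rw [← Real.rpow_mul hC0.le] at h
    have e1 : 2 / ε * (ε / 2) = 1 := by field_simp
    rwa [e1, Real.rpow_one] at h
  have hEpos : (0 : ℝ) < E.card := lt_of_lt_of_le (by positivity) hcard
  have hE : E.Nonempty := Finset.card_pos.1 (by exact_mod_cast hEpos)
  obtain ⟨w0, hw0, hquad⟩ := G0_quad E hE (H ^ (1 + ε / 28))
    (G0_card (ε / 28) H _ hH1 (by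
      intro P hP
      obtain ⟨w, hw, rfl⟩ := Finset.mem_image.1 hP
      exact hG.pr1 w hw))
    (G0_card (ε / 28) H _ hH1 (by
      intro P hP
      obtain ⟨w, hw, rfl⟩ := Finset.mem_image.1 hP
      exact hG.pr2 w hw))
  obtain ⟨P0, Q0⟩ := w0
  simp only at hquad
  set F := E.filter (fun w => (P0, w.2) ∈ E ∧ (w.1, Q0) ∈ E) with hF
  have hFE : F ⊆ E := Finset.filter_subset _ _
  -- lower bound for F
  have hFc : H ^ (2 - ε / 4) ≤ (F.card : ℝ) := by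
    have h1 : (H ^ (2 - ε / 28)) ^ 3 ≤ (E.card : ℝ) ^ 3 := pow_le_pow_left₀ (by positivity) hcard 3
    have h2 : (H ^ (2 - ε / 28)) ^ 3 = (H ^ (1 + ε / 28)) ^ 4 * H ^ (2 - ε / 4) := by
      rw [← Real.rpow_natCast, ← Real.rpow_natCast, ← Real.rpow_mul hH0.le, ← Real.rpow_mul hH0.le,
        ← Real.rpow_add hH0]
      congr 1; push_cast; ring
    rw [h2] at h1
    exact le_of_mul_le_mul_left (h1.trans hquad) (by positivity)
  -- the cube root of unity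
  have hN1 : 1 ≤ N := hG.N1
  have hN0 : (0 : ℤ) < N := by exact_mod_cast hN1
  have key : ∀ w : ℕ × ℕ, ∃ om : ℤ, w ∈ F → 0 ≤ om ∧ om < N ∧ IsCoprime om (N : ℤ) ∧ (N : ℤ) ∣ om ^ 3 - 1 ∧
      (N : ℤ) ∣ z w.1 w.2 * z P0 Q0 - om * (z P0 w.2 * z w.1 Q0) := by
    intro w
    by_cases hw : w ∈ F
    · obtain ⟨hwE, hw1, hw2⟩ := Finset.mem_filter.1 hw
      have c1 := hG.copN w hwE
      have c0 := hG.copN _ hw0
      have c2 := hG.copN _ hw1
      have c3 := hG.copN _ hw2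
      simp only at c0 c2 c3
      have k1 := hG.cub w hwE
      have k0 := hG.cub _ hw0
      have k2 := hG.cub _ hw1
      have k3 := hG.cub _ hw2
      simp only at k0 k2 k3
      obtain ⟨x, y, hxy⟩ := c2.mul_left c3
      -- x * (z P0 w.2 * z w.1 Q0) + y * N = 1
      set A := z w.1 w.2 * z P0 Q0 with hA
      set B := z P0 w.2 * z w.1 Q0 with hB
      have hAB : (N : ℤ) ∣ A ^ 3 - B ^ 3 := by
        have : A ^ 3 - B ^ 3 =
          (z w.1 w.2 ^ 3 - v * w.1 ^ e * w.2 ^ f) * z P0 Q0 ^ 3 +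
          (v * w.1 ^ e * w.2 ^ f) * (z P0 Q0 ^ 3 - v * P0 ^ e * Q0 ^ f) -
          (z P0 w.2 ^ 3 - v * P0 ^ e * w.2 ^ f) * z w.1 Q0 ^ 3 -
          (v * P0 ^ e * w.2 ^ f) * (z w.1 Q0 ^ 3 - v * w.1 ^ e * Q0 ^ f) := by
          rw [hA, hB]; ring
        rw [this]
        exact dvd_sub (dvd_sub (dvd_add (k1.mul_right _) (k0.mul_left _)) (k2.mul_right _)) (k3.mul_left _)
      refine ⟨(A * x) % N, fun _ => ⟨Int.emod_nonneg _ hN0.ne', Int.emod_lt_of_pos _ hN0, ?_, ?_, ?_⟩⟩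
      · have cA : IsCoprime (A * x) (N : ℤ) := by
          refine (c1.mul_left c0).mul_left ?_
          exact ⟨B, y, by linarith [mul_comm x B]⟩
        have h5 : A * x = A * x % N + N * (A * x / N) := (Int.emod_add_mul_ediv _ _).symm
        rw [h5] at cA
        exact (IsCoprime.add_mul_left_left_iff).1 cA
      · have h5 : (N : ℤ) ∣ A * x % N - A * x := by
          refine ⟨-(A * x / N), ?_⟩
          have := Int.emod_add_mul_ediv (A * x) N
          linarith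
        have h6 : (N : ℤ) ∣ (A * x % N) ^ 3 - (A * x) ^ 3 := h5.trans (sub_dvd_pow_sub_pow _ _ 3)
        have h7 : (N : ℤ) ∣ (A * x) ^ 3 - 1 := by
          have h8 : (A * x) ^ 3 - 1 = (A ^ 3 - B ^ 3) * x ^ 3 + N * (-(y * ((x * B) ^ 2 + x * B + 1))) := by
            have h9 : y * N = 1 - x * B := by linarith
            have : (N : ℤ) * (-(y * ((x * B) ^ 2 + x * B + 1))) = -(y * N) * ((x * B) ^ 2 + x * B + 1) := by ring
            rw [this, h9]; ring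
          rw [h8]
          exact dvd_add (hAB.mul_right _) (dvd_mul_right _ _)
        have : (A * x % N) ^ 3 - 1 = ((A * x % N) ^ 3 - (A * x) ^ 3) + ((A * x) ^ 3 - 1) := by ring
        rw [this]
        exact dvd_add h6 h7
      · have h5 := Int.emod_add_mul_ediv (A * x) N
        have h6 : A - A * x % N * B = N * (A * y + A * x / N * B) := by
          have h7 : A * x % N = A * x - N * (A * x / N) := by linarith
          rw [h7]
          have h9 : x * B = 1 - y * N := by linarith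
          have : (A * x - N * (A * x / N)) * B = A * (x * B) - N * (A * x / N) * B := by ring
          rw [this, h9]; ring
        rw [h6]
        exact dvd_mul_right _ _
    · exact ⟨0, fun h => absurd h hw⟩
  choose om hom using key
  set T := F.image om with hT
  have hTc : (T.card : ℝ) ≤ C * (N : ℝ) ^ (ε / (4 * K)) * 1 := by
    refine hC N 1 T 1 hN1 zero_le_one ?_ ?_
    · intro s hs
      obtain ⟨w, hw, rfl⟩ := Finset.mem_image.1 hs
      obtain ⟨_, _, h3, h4, _⟩ := hom w hw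
      exact ⟨h3, h4⟩
    · intro x T' hT' hx
      have : T'.card ≤ 1 := by
        refine Finset.card_le_one.2 fun s hs t ht => ?_
        obtain ⟨w, hw, rfl⟩ := Finset.mem_image.1 (hT' hs)
        obtain ⟨u, hu, rfl⟩ := Finset.mem_image.1 (hT' ht)
        obtain ⟨a1, a2, _, _, _⟩ := hom w hw
        obtain ⟨b1, b2, _, _, _⟩ := hom u hu
        have hd : (N : ℤ) ∣ om w - om u := by
          have := dvd_sub (hx _ hs) (hx _ ht)
          have e1 : om w - x - (om u - x) = om w - om u := by ring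
          rwa [e1] at this
        have := Int.eq_zero_of_abs_lt_dvd hd (by rw [abs_lt]; constructor <;> linarith)
        linarith
      exact_mod_cast this
  have hTc2 : (T.card : ℝ) ≤ H ^ (3 * ε / 4) := by
    have h1 : (N : ℝ) ^ (ε / (4 * K)) ≤ (H ^ K) ^ (ε / (4 * K)) :=
      Real.rpow_le_rpow (Nat.cast_nonneg _) hG.NK (by positivity)
    rw [← Real.rpow_mul hH0.le] at h1
    have e1 : K * (ε / (4 * K)) = ε / 4 := by field_simp
    rw [e1] at h1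
    have h2 : H ^ (3 * ε / 4) = H ^ (ε / 2) * H ^ (ε / 4) := by
      rw [← Real.rpow_add hH0]; congr 1; ring
    rw [h2]
    refine hTc.trans ?_
    rw [mul_one]
    exact mul_le_mul hCH h1 (by positivity) (by positivity)
  -- popular value
  have hFpos : (0 : ℝ) < F.card := lt_of_lt_of_le (by positivity) hFc
  have hFne : F.Nonempty := Finset.card_pos.1 (by exact_mod_cast hFpos)
  have hTne : T.Nonempty := hFne.image _
  obtain ⟨o, hoT, ho⟩ : ∃ o ∈ T, (F.card : ℝ) ≤ (T.card : ℝ) * ((F.filter (fun w => om w = o)).card : ℝ) := by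
    by_contra hcon
    push Not at hcon
    have h1 : (F.card : ℝ) = ∑ o ∈ T, ((F.filter (fun w => om w = o)).card : ℝ) := by
      rw [← Nat.cast_sum, ← Finset.card_eq_sum_card_fiberwise (fun w hw => Finset.mem_image_of_mem om hw)]
    have h2 : (T.card : ℝ) * ∑ o ∈ T, ((F.filter (fun w => om w = o)).card : ℝ) < ∑ o ∈ T, (F.card : ℝ) := by
      rw [Finset.mul_sum]
      exact Finset.sum_lt_sum_of_nonempty hTne (fun o ho => hcon o ho)
    rw [← h1, Finset.sum_const, nsmul_eq_mul] at h2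
    exact lt_irrefl _ h2
  refine ⟨F.filter (fun w => om w = o), (Finset.filter_subset _ _).trans hFE, ?_, ?_⟩
  · have h1 : H ^ (3 * ε / 4) * H ^ (2 - ε) = H ^ (2 - ε / 4) := by
      rw [← Real.rpow_add hH0]; congr 1; ring
    have h2 : H ^ (3 * ε / 4) * H ^ (2 - ε) ≤ H ^ (3 * ε / 4) * ((F.filter (fun w => om w = o)).card : ℝ) := by
      rw [h1]
      exact hFc.trans (ho.trans (mul_le_mul_of_nonneg_right hTc2 (Nat.cast_nonneg _)))
    exact le_of_mul_le_mul_left h2 (by positivity)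
  · intro P P' Q Q' h1 h2 h3 h4
    obtain ⟨f1, g1⟩ := Finset.mem_filter.1 h1
    obtain ⟨f2, g2⟩ := Finset.mem_filter.1 h2
    obtain ⟨f3, g3⟩ := Finset.mem_filter.1 h3
    obtain ⟨f4, g4⟩ := Finset.mem_filter.1 h4
    have d1 := (hom _ f1).2.2.2.2
    have d2 := (hom _ f2).2.2.2.2
    have d3 := (hom _ f3).2.2.2.2
    have d4 := (hom _ f4).2.2.2.2
    rw [g1] at d1
    rw [g2] at d2
    rw [g3] at d3
    rw [g4] at d4
    exact G0_arith N (z P0 Q0) o _ _ _ _ (z P0 Q) (z P0 Q') (z P Q0) (z P' Q0) (hG.copN _ hw0) d1 d4 d2 d3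

end O3

end T3

end Pool.Agent.Lib.MP_d8bd92_nt
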