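import Pool.Agent.Lib.MP_d8bd92_nt.T3.O3.Defs
import Pool.Agent.Lib.MP_d8bd92_nt.T3.WeylD

set_option autoImplicit false

/-!
Phase 3, the tie (b)-(b), elementary route (page d8o3_tie_helper11.md).
-/

namespace Pool.Agent.Lib.MP_d8bd92_nt

namespace T3

namespace O3

open Finset

/-- (helper91, helper36) LEMMA W + corollary for primes -/
theorem weyl_primes (f : ℕ) (hf : 1 ≤ f) (c : ℝ) (hc : 0 < c) : ∃ d H0 : ℝ, 0 < d ∧ 1 ≤ H0 ∧ ∀ H : ℝ, H0 ≤ H →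
    ∀ S : Finset ℕ, (∀ Y ∈ S, Y.Prime ∧ H ^ (1 - d) ≤ (Y : ℝ) ∧ (Y : ℝ) ≤ H ^ (1 + d)) → H ^ (1 - d) ≤ (S.card : ℝ) →
    ∀ (N : ℕ) (lam : ℤ) (lam' : ℝ) (n : ℕ → ℤ), 1 ≤ N → (∀ Y ∈ S, (N : ℤ) ∣ n Y - lam * (Y : ℤ) ^ f) →
    (∀ Y ∈ S, |(n Y : ℝ) - lam' * (Y : ℝ) ^ f| ≤ N * H ^ (-c)) → ∃ h : ℤ, ∀ Y ∈ S, n Y = h * (Y : ℤ) ^ f :=
  T3.weyl_primes f hf c hc

end O3

end T3

end Pool.Agent.Lib.MP_d8bd92_nt
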