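import Pool.Agent.Lib.MP_d8bd92_nt.T3.O3.Defs
import Pool.Agent.Lib.MP_d8bd92_nt.T3.O3.W

set_option autoImplicit false

/-!
Phase 3, the tie (b)-(b), elementary route (page d8o3_tie_helper11.md).
-/

namespace Pool.Agent.Lib.MP_d8bd92_nt

namespace T3

namespace O3

open Finset

/-- the logarithm is smaller than any power -/
theorem G2_log (K δ : ℝ) (hK : 0 < K) (hδ : 0 < δ) :
    ∃ H0 : ℝ, 1 ≤ H0 ∧ ∀ H : ℝ, H0 ≤ H → K * Real.logb 2 H + 1 ≤ H ^ δ := by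
  have hl2 : 0 < Real.log 2 := Real.log_pos (by norm_num)
  have h1 := (isLittleO_log_rpow_atTop hδ).bound (c := Real.log 2 / (2 * K)) (by positivity)
  have h2 := (tendsto_rpow_atTop hδ).eventually_ge_atTop (2 : ℝ)
  have h3 := Filter.eventually_ge_atTop (1 : ℝ)
  obtain ⟨A, hA⟩ := Filter.eventually_atTop.1 (h1.and (h2.and h3))
  refine ⟨max A 1, le_max_right _ _, fun H hH => ?_⟩
  obtain ⟨g1, g2, g3⟩ := hA H (le_trans (le_max_left _ _) hH)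
  have hlog : 0 ≤ Real.log H := Real.log_nonneg g3
  have hpw : 0 ≤ H ^ δ := Real.rpow_nonneg (by linarith) _
  rw [Real.norm_of_nonneg hlog, Real.norm_of_nonneg hpw] at g1
  have e1 : K * Real.logb 2 H = (K / Real.log 2) * Real.log H := by
    unfold Real.logb
    field_simp
  have e2 : (K / Real.log 2) * Real.log H ≤ (K / Real.log 2) * (Real.log 2 / (2 * K) * H ^ δ) :=
    mul_le_mul_of_nonneg_left g1 (by positivity)
  have e3 : (K / Real.log 2) * (Real.log 2 / (2 * K) * H ^ δ) = H ^ δ / 2 := by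
    field_simp
  rw [e1]
  linarith

/-- a column with many rows -/
theorem G2_col {δ H : ℝ} (hH : 1 ≤ H) (E : Finset (ℕ × ℕ)) (h2 : ∀ w ∈ E, PrH δ H w.2)
    (hE : H ^ (2 - 2 * δ) ≤ (E.card : ℝ)) :
    ∃ Q : ℕ, ∃ R : Finset ℕ, (∀ P ∈ R, (P, Q) ∈ E) ∧ H ^ (1 - 3 * δ) ≤ (R.card : ℝ) := by
  have hH0 : 0 < H := by linarith
  have hpos : (0 : ℝ) < (E.card : ℝ) := lt_of_lt_of_le (Real.rpow_pos_of_pos hH0 _) hE
  have hne : E.Nonempty := Finset.card_pos.1 (by exact_mod_cast hpos)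
  have hcard : ((E.image Prod.snd).card : ℝ) ≤ H ^ (1 + δ) := by
    have hsub : E.image Prod.snd ⊆ Finset.Icc 1 ⌊H ^ (1 + δ)⌋₊ := by
      intro q hq
      obtain ⟨w, hw, rfl⟩ := Finset.mem_image.1 hq
      have hp := h2 w hw
      rw [Finset.mem_Icc]
      exact ⟨hp.1.one_lt.le, Nat.le_floor hp.2.2⟩
    have h3 := Finset.card_le_card hsub
    rw [Nat.card_Icc, Nat.add_sub_cancel] at h3
    have h4 : ((E.image Prod.snd).card : ℝ) ≤ (⌊H ^ (1 + δ)⌋₊ : ℝ) := by exact_mod_cast h3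
    exact h4.trans (Nat.floor_le (Real.rpow_nonneg hH0.le _))
  have hb : (E.image Prod.snd).card • (H ^ (1 - 3 * δ)) ≤ (E.card : ℝ) := by
    rw [nsmul_eq_mul]
    have h5 : ((E.image Prod.snd).card : ℝ) * H ^ (1 - 3 * δ) ≤ H ^ (1 + δ) * H ^ (1 - 3 * δ) :=
      mul_le_mul_of_nonneg_right hcard (Real.rpow_nonneg hH0.le _)
    rw [← Real.rpow_add hH0] at h5
    have h6 : (1 + δ) + (1 - 3 * δ) = 2 - 2 * δ := by ring
    rw [h6] at h5
    exact h5.trans hE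
  obtain ⟨Q, _, hQ⟩ := Finset.exists_le_card_fiber_of_nsmul_le_card_of_maps_to
    (f := Prod.snd) (t := E.image Prod.snd) (s := E)
    (fun w hw => Finset.mem_image_of_mem _ hw) (hne.image _) hb
  refine ⟨Q, (E.filter (fun w => w.2 = Q)).image Prod.fst, ?_, ?_⟩
  · intro P hP
    obtain ⟨w, hw, rfl⟩ := Finset.mem_image.1 hP
    rw [Finset.mem_filter] at hw
    have : (w.1, Q) = w := Prod.ext rfl hw.2.symm
    rw [this]
    exact hw.1
  · rw [Finset.card_image_of_injOn]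
    · exact hQ
    · intro a ha b hb hab
      have ha' := (Finset.mem_filter.1 (Finset.mem_coe.1 ha)).2
      have hb' := (Finset.mem_filter.1 (Finset.mem_coe.1 hb)).2
      exact Prod.ext hab (ha'.trans hb'.symm)

/-- one half of the argument: a fixed column -/
theorem G2_half (e : ℕ) (he : 1 ≤ e) : ∃ d H0 : ℝ, 0 < d ∧ 1 ≤ H0 ∧ ∀ H : ℝ, H0 ≤ H →
    ∀ (K δ : ℝ) (f : ℕ) (E : Finset (ℕ × ℕ)) (z : ℕ → ℕ → ℤ) (N : ℕ) (Z η κ : ℝ) (v : ℤ),
    0 < δ → 3 * δ ≤ d → Grid K δ H e f E z N Z η κ v → H ^ (2 - 2 * δ) ≤ (E.card : ℝ) →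
    ∀ s t : ℕ → ℤ, (∀ w ∈ E, z w.1 w.2 = s w.1 * t w.2) → ∀ B : ℝ, 0 < B →
    (∀ w ∈ E, B ≤ |(t w.2 : ℝ)|) → (N : ℝ) * H ^ (-(1 / 8 : ℝ)) < Z ^ 3 * η / B ^ 3 := by
  obtain ⟨d, H0, hd, hH0, hW⟩ := weyl_primes e he (1 / 8) (by norm_num)
  refine ⟨d, H0, hd, hH0, ?_⟩
  intro H hH K δ f E z N Z η κ v hδ hδd hG hE s t hst B hB hBt
  have hH1 : 1 ≤ H := hH0.trans hH
  have hHp : 0 < H := by linarith
  by_contra hcon
  rw [not_lt] at hcon
  obtain ⟨Q, R, hR, hRc⟩ := G2_col hH1 E hG.pr2 hE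
  have hRpos : (0 : ℝ) < (R.card : ℝ) := lt_of_lt_of_le (Real.rpow_pos_of_pos hHp _) hRc
  have hRne : R.Nonempty := Finset.card_pos.1 (by exact_mod_cast hRpos)
  obtain ⟨P0, hP0⟩ := hRne
  have htN : IsCoprime (t Q) (N : ℤ) := by
    have h1 := hG.copN _ (hR P0 hP0)
    have h2 := hst _ (hR P0 hP0)
    simp only at h1 h2
    rw [h2] at h1
    exact (IsCoprime.mul_left_iff.1 h1).2
  obtain ⟨a, b, hab⟩ := htN
  have ht0 : t Q ≠ 0 := by
    intro h0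
    have h1 := hBt _ (hR P0 hP0)
    simp only [h0, Int.cast_zero, abs_zero] at h1
    linarith
  have htR : (t Q : ℝ) ≠ 0 := by exact_mod_cast ht0
  obtain ⟨h, hh⟩ := hW H hH R
    (fun Y hY => by
      have hp := hG.pr1 _ (hR Y hY)
      refine ⟨hp.1, ?_, ?_⟩
      · exact (Real.rpow_le_rpow_of_exponent_le hH1 (by linarith)).trans hp.2.1
      · exact hp.2.2.trans (Real.rpow_le_rpow_of_exponent_le hH1 (by linarith)))
    ((Real.rpow_le_rpow_of_exponent_le hH1 (by linarith)).trans hRc)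
    N (v * (Q : ℤ) ^ f * a ^ 3) (κ * (Q : ℝ) ^ f / (t Q : ℝ) ^ 3) (fun P => s P ^ 3) hG.N1
    (fun Y hY => by
      have hc := hG.cub _ (hR Y hY)
      have hz := hst _ (hR Y hY)
      simp only at hc hz
      rw [hz] at hc
      obtain ⟨m, hm⟩ := hc
      -- a * t Q = 1 - b * N
      have hat : a * t Q = 1 - b * (N : ℤ) := by linarith
      have e1 : a ^ 3 * (s Y * t Q) ^ 3 = s Y ^ 3 * (1 - b * (N : ℤ)) ^ 3 := by
        rw [← hat]; ring
      refine ⟨a ^ 3 * m + s Y ^ 3 * (3 * b - 3 * b ^ 2 * N + b ^ 3 * N ^ 2), ?_⟩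
      have e2 : a ^ 3 * ((s Y * t Q) ^ 3 - v * (Y : ℤ) ^ e * (Q : ℤ) ^ f) = a ^ 3 * ((N : ℤ) * m) := by
        rw [hm]
      linear_combination e2 - e1)
    (fun Y hY => by
      have hc := hG.arch _ (hR Y hY)
      have hz := hst _ (hR Y hY)
      have hBY := hBt _ (hR Y hY)
      simp only at hc hz hBY
      rw [hz] at hc
      push_cast at hc
      have e1 : ((s Y ^ 3 : ℤ) : ℝ) - κ * (Q : ℝ) ^ f / (t Q : ℝ) ^ 3 * (Y : ℝ) ^ e =
          (((s Y : ℝ) * (t Q : ℝ)) ^ 3 - κ * (Y : ℝ) ^ e * (Q : ℝ) ^ f) / (t Q : ℝ) ^ 3 := by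
        push_cast
        field_simp
      rw [e1, abs_div, abs_pow]
      have e2 : B ^ 3 ≤ |(t Q : ℝ)| ^ 3 := pow_le_pow_left₀ hB.le hBY 3
      have e3 : (0 : ℝ) < B ^ 3 := by positivity
      calc |((s Y : ℝ) * (t Q : ℝ)) ^ 3 - κ * (Y : ℝ) ^ e * (Q : ℝ) ^ f| / |(t Q : ℝ)| ^ 3
          ≤ Z ^ 3 * η / |(t Q : ℝ)| ^ 3 := by
            exact div_le_div_of_nonneg_right hc (by positivity)
        _ ≤ Z ^ 3 * η / B ^ 3 := by
            have hZ := hG.Z0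
            have hη := hG.eta0
            exact div_le_div_of_nonneg_left (by positivity) e3 e2
        _ ≤ (N : ℝ) * H ^ (-(1 / 8 : ℝ)) := hcon)
  have h1 := hh P0 hP0
  have hp := (hG.pr1 _ (hR P0 hP0)).1
  simp only at hp h1
  have hpz : Prime (P0 : ℤ) := Nat.prime_iff_prime_int.1 hp
  have hdv : (P0 : ℤ) ∣ s P0 ^ 3 := by
    rw [h1]
    exact Dvd.dvd.mul_left (dvd_pow_self _ (by omega)) _
  have hds := hpz.dvd_of_dvd_pow hdv
  have hcop := hG.cop1 _ (hR P0 hP0)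
  have hz := hst _ (hR P0 hP0)
  simp only at hcop hz
  rw [hz] at hcop
  have hun : IsUnit (P0 : ℤ) := hcop.isUnit_of_dvd' (Dvd.dvd.mul_right hds _) dvd_rfl
  exact hpz.not_isUnit hun

/-- (o3-G2) rank one is impossible, (2.3) -/
theorem rank_one (K : ℝ) (hK : 0 < K) (e f : ℕ) (he : 1 ≤ e) (hf : 1 ≤ f) : ∃ δ H0 : ℝ, 0 < δ ∧ 1 ≤ H0 ∧ ∀ H : ℝ, H0 ≤ H →
    ∀ (E : Finset (ℕ × ℕ)) (z : ℕ → ℕ → ℤ) (N : ℕ) (Z η κ : ℝ) (v : ℤ), Grid K δ H e f E z N Z η κ v →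
    H ^ (2 - δ) ≤ (E.card : ℝ) → ∀ s t : ℕ → ℤ, ¬ ∀ w ∈ E, z w.1 w.2 = s w.1 * t w.2 := by
  obtain ⟨d1, H1, hd1, hH1, hA⟩ := G2_half e he
  obtain ⟨d2, H2, hd2, hH2, hB⟩ := G2_half f hf
  set δ : ℝ := min d1 d2 / 3 with hδdef
  have hδ : 0 < δ := by
    have := lt_min hd1 hd2
    rw [hδdef]; linarith
  have hδ1 : 3 * δ ≤ d1 := by
    rw [hδdef]; have := min_le_left d1 d2; linarith
  have hδ2 : 3 * δ ≤ d2 := by
    rw [hδdef]; have := min_le_right d1 d2; linarith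
  obtain ⟨H3, hH3, hL⟩ := G2_log K δ hK hδ
  refine ⟨δ, max (max H1 H2) (max H3 (64 ^ 4)), hδ, ?_, ?_⟩
  · exact hH1.trans ((le_max_left _ _).trans (le_max_left _ _))
  intro H hH E z N Z η κ v hG hE s t hst
  have g1 : H1 ≤ H := ((le_max_left _ _).trans (le_max_left _ _)).trans hH
  have g2 : H2 ≤ H := ((le_max_right _ _).trans (le_max_left _ _)).trans hH
  have g3 : H3 ≤ H := ((le_max_left _ _).trans (le_max_right _ _)).trans hH
  have g4 : (64 : ℝ) ^ 4 ≤ H := ((le_max_right _ _).trans (le_max_right _ _)).trans hH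
  have hH1' : 1 ≤ H := hH1.trans g1
  have hHp : 0 < H := by linarith
  have hZ0 := hG.Z0
  have hη0 := hG.eta0
  have hz0 : ∀ w ∈ E, z w.1 w.2 ≠ 0 := by
    intro w hw h0
    have h1 := hG.zlo w hw
    rw [h0] at h1
    simp only [Int.cast_zero, abs_zero] at h1
    linarith
  have hs0 : ∀ w ∈ E, s w.1 ≠ 0 := fun w hw h0 => hz0 w hw (by rw [hst w hw, h0, zero_mul])
  have ht0 : ∀ w ∈ E, t w.2 ≠ 0 := fun w hw h0 => hz0 w hw (by rw [hst w hw, h0, mul_zero])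
  have hprod : ∀ w ∈ E, |(z w.1 w.2 : ℝ)| = |(s w.1 : ℝ)| * |(t w.2 : ℝ)| := by
    intro w hw
    rw [hst w hw]; push_cast; rw [abs_mul]
  have ht1 : ∀ w ∈ E, (1 : ℝ) ≤ |(t w.2 : ℝ)| := by
    intro w hw
    have := Int.one_le_abs (ht0 w hw)
    exact_mod_cast this
  have hsZ : ∀ w ∈ E, |(s w.1 : ℝ)| ≤ H ^ K := by
    intro w hw
    have h1 := hG.zhi w hw
    rw [hprod w hw] at h1
    have h2 := ht1 w hw
    have h3 := abs_nonneg (s w.1 : ℝ)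
    have h4 : |(s w.1 : ℝ)| ≤ |(s w.1 : ℝ)| * |(t w.2 : ℝ)| := by nlinarith
    exact (h4.trans h1).trans hG.ZK
  -- dyadic classes
  set n : ℕ := ⌊K * Real.logb 2 H⌋₊ + 1 with hn
  have hlog0 : 0 ≤ K * Real.logb 2 H :=
    mul_nonneg hK.le (Real.logb_nonneg (by norm_num) hH1')
  have hnH : (n : ℝ) ≤ H ^ δ := by
    have h1 := Nat.floor_le hlog0
    have h2 := hL H g3
    rw [hn]; push_cast; linarith
  have hmaps : ∀ w ∈ E, Nat.log 2 (s w.1).natAbs ∈ Finset.range n := by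
    intro w hw
    rw [Finset.mem_range, hn, Nat.lt_succ_iff]
    apply Nat.le_floor
    have hne : (s w.1).natAbs ≠ 0 := Int.natAbs_ne_zero.2 (hs0 w hw)
    have h1 : ((2 ^ Nat.log 2 (s w.1).natAbs : ℕ) : ℝ) ≤ ((s w.1).natAbs : ℝ) := by
      exact_mod_cast Nat.pow_log_le_self 2 hne
    have h2 : (((s w.1).natAbs : ℕ) : ℝ) = |(s w.1 : ℝ)| := by
      rw [Nat.cast_natAbs]; push_cast; rfl
    rw [h2] at h1
    have h3 := h1.trans (hsZ w hw)
    push_cast at h3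
    have h4 : Real.logb 2 ((2 : ℝ) ^ Nat.log 2 (s w.1).natAbs) ≤ Real.logb 2 (H ^ K) :=
      Real.logb_le_logb_of_le (by norm_num) (by positivity) h3
    rw [← Real.rpow_natCast, Real.logb_rpow (by norm_num) (by norm_num), Real.logb_rpow_eq_mul_logb_of_pos hHp] at h4
    exact h4
  have hcls : (Finset.range n).card • (H ^ (2 - 2 * δ)) ≤ (E.card : ℝ) := by
    rw [nsmul_eq_mul, Finset.card_range]
    have h5 : (n : ℝ) * H ^ (2 - 2 * δ) ≤ H ^ δ * H ^ (2 - 2 * δ) :=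
      mul_le_mul_of_nonneg_right hnH (Real.rpow_nonneg hHp.le _)
    rw [← Real.rpow_add hHp] at h5
    have h6 : δ + (2 - 2 * δ) = 2 - δ := by ring
    rw [h6] at h5
    exact h5.trans hE
  obtain ⟨j, _, hj⟩ := Finset.exists_le_card_fiber_of_nsmul_le_card_of_maps_to
    (f := fun w : ℕ × ℕ => Nat.log 2 (s w.1).natAbs) (t := Finset.range n) (s := E)
    hmaps ⟨0, by rw [Finset.mem_range, hn]; omega⟩ hcls
  set E1 := E.filter (fun w => Nat.log 2 (s w.1).natAbs = j) with hE1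
  have hsub : E1 ⊆ E := Finset.filter_subset _ _
  have hG1 := hG.sub hsub
  set S : ℝ := (2 : ℝ) ^ j with hS
  have hSp : 0 < S := by rw [hS]; positivity
  have hslo : ∀ w ∈ E1, S ≤ |(s w.1 : ℝ)| := by
    intro w hw
    have hw' := Finset.mem_filter.1 hw
    have hne : (s w.1).natAbs ≠ 0 := Int.natAbs_ne_zero.2 (hs0 w hw'.1)
    have h1 : ((2 ^ Nat.log 2 (s w.1).natAbs : ℕ) : ℝ) ≤ ((s w.1).natAbs : ℝ) := by
      exact_mod_cast Nat.pow_log_le_self 2 hne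
    have h2 : (((s w.1).natAbs : ℕ) : ℝ) = |(s w.1 : ℝ)| := by
      rw [Nat.cast_natAbs]; push_cast; rfl
    rw [h2, hw'.2] at h1
    push_cast at h1
    exact h1
  have hshi : ∀ w ∈ E1, |(s w.1 : ℝ)| ≤ 2 * S := by
    intro w hw
    have hw' := Finset.mem_filter.1 hw
    have h1 : (((s w.1).natAbs : ℕ) : ℝ) < ((2 ^ (Nat.log 2 (s w.1).natAbs + 1) : ℕ) : ℝ) := by
      exact_mod_cast Nat.lt_pow_succ_log_self (by norm_num) _
    have h2 : (((s w.1).natAbs : ℕ) : ℝ) = |(s w.1 : ℝ)| := by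
      rw [Nat.cast_natAbs]; push_cast; rfl
    rw [h2, hw'.2] at h1
    push_cast at h1
    rw [pow_succ] at h1
    rw [hS]
    linarith
  have htlo : ∀ w ∈ E1, Z / (4 * S) ≤ |(t w.2 : ℝ)| := by
    intro w hw
    have h1 := hG.zlo w (hsub hw)
    rw [hprod w (hsub hw)] at h1
    have h2 := hshi w hw
    have h3 := abs_nonneg (t w.2 : ℝ)
    rw [div_le_iff₀ (by positivity)]
    nlinarith
  have hX := hA H g1 K δ f E1 z N Z η κ v hδ hδ1 hG1 hj s t (fun w hw => hst w (hsub hw))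
    (Z / (4 * S)) (by positivity) htlo
  have hcsw : ((E1.image Prod.swap).card : ℝ) = (E1.card : ℝ) := by
    rw [Finset.card_image_of_injective _ Prod.swap_injective]
  have hY := hB H g2 K δ e (E1.image Prod.swap) (fun Q P => z P Q) N Z η κ v hδ hδ2 hG1.swap
    (by rw [hcsw]; exact hj) t s
    (fun w hw => by
      obtain ⟨u, hu, rfl⟩ := Finset.mem_image.1 hw
      have := hst u (hsub hu)
      simp only [Prod.fst_swap, Prod.snd_swap]
      rw [this, mul_comm])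
    S hSp (fun w hw => by
      obtain ⟨u, hu, rfl⟩ := Finset.mem_image.1 hw
      simp only [Prod.snd_swap]
      exact hslo u hu)
  have hg4 := hG.g4
  have hη1 := hG.eta1
  have e1 : Z ^ 3 * η / (Z / (4 * S)) ^ 3 = 64 * S ^ 3 * η := by
    field_simp
    ring
  rw [e1] at hX
  set a : ℝ := (N : ℝ) * H ^ (-(1 / 8 : ℝ)) with ha
  have ha0 : 0 ≤ a := by rw [ha]; positivity
  have hprod2 : a * a < (64 * S ^ 3 * η) * (Z ^ 3 * η / S ^ 3) := by
    have h1 : 0 < 64 * S ^ 3 * η := by positivity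
    calc a * a ≤ a * (Z ^ 3 * η / S ^ 3) := mul_le_mul_of_nonneg_left hY.le ha0
      _ < (64 * S ^ 3 * η) * (Z ^ 3 * η / S ^ 3) := mul_lt_mul_of_pos_right hX (by positivity)
  have e2 : (64 * S ^ 3 * η) * (Z ^ 3 * η / S ^ 3) = 64 * (Z ^ 3 * η ^ 2) := by
    field_simp
  rw [e2] at hprod2
  have e3 : a * a = (N : ℝ) ^ 2 * H ^ (-(1 / 4 : ℝ)) := by
    rw [ha]
    have : H ^ (-(1 / 8 : ℝ)) * H ^ (-(1 / 8 : ℝ)) = H ^ (-(1 / 4 : ℝ)) := by
      rw [← Real.rpow_add hHp]; norm_num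
    rw [← this]; ring
  rw [e3] at hprod2
  have e4 : Z ^ 3 * η * H ^ (1 / 4 : ℝ) ≤ (N : ℝ) ^ 2 * H ^ (-(1 / 4 : ℝ)) := by
    have h1 := mul_le_mul_of_nonneg_right hg4 (Real.rpow_nonneg hHp.le (-(1 / 4 : ℝ)))
    have h2 : H ^ (1 / 2 : ℝ) * H ^ (-(1 / 4 : ℝ)) = H ^ (1 / 4 : ℝ) := by
      rw [← Real.rpow_add hHp]; norm_num
    rw [mul_assoc, h2] at h1
    exact h1
  have e5 : Z ^ 3 * η * H ^ (1 / 4 : ℝ) < Z ^ 3 * η * (64 * η) := by
    calc Z ^ 3 * η * H ^ (1 / 4 : ℝ) < 64 * (Z ^ 3 * η ^ 2) := lt_of_le_of_lt e4 hprod2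
      _ = Z ^ 3 * η * (64 * η) := by ring
  have e6 : H ^ (1 / 4 : ℝ) < 64 * η := lt_of_mul_lt_mul_left e5 (by positivity)
  have e7 : (64 : ℝ) ≤ H ^ (1 / 4 : ℝ) := by
    have h1 : ((64 : ℝ) ^ 4) ^ (1 / 4 : ℝ) ≤ H ^ (1 / 4 : ℝ) :=
      Real.rpow_le_rpow (by positivity) g4 (by norm_num)
    have h2 : ((64 : ℝ) ^ 4) ^ (1 / 4 : ℝ) = 64 := by
      rw [← Real.rpow_natCast, ← Real.rpow_mul (by norm_num)]; norm_num
    rw [h2] at h1
    exact h1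
  linarith

end O3

end T3

end Pool.Agent.Lib.MP_d8bd92_nt
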