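import Pool.Agent.Lib.MP_d8bd92_nt.T3.O3.Defs
import Pool.Agent.Lib.MP_d8bd92_nt.T3.O3.G2

set_option autoImplicit false

/-!
Phase 3, the tie (b)-(b), elementary route (page d8o3_tie_helper11.md).
-/

namespace Pool.Agent.Lib.MP_d8bd92_nt

namespace T3

namespace O3

open Finset

/-- a popular fibre -/
theorem G3_pop {α β : Type*} [DecidableEq β] (S : Finset α) (T : Finset β) (g : α → β) (X : ℝ) (hX : (T.card : ℝ) ≤ X)
    (hX0 : 0 < X) (hg : ∀ s ∈ S, g s ∈ T) (hS : S.Nonempty) :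
    ∃ t ∈ T, (S.card : ℝ) / X ≤ ((S.filter (fun s => g s = t)).card : ℝ) := by
  by_contra hcon
  push Not at hcon
  have h1 : (S.card : ℝ) = ∑ t ∈ T, ((S.filter (fun s => g s = t)).card : ℝ) := by
    exact_mod_cast Finset.card_eq_sum_card_fiberwise hg
  have hTne : T.Nonempty := by
    obtain ⟨s, hs⟩ := hS
    exact ⟨g s, hg s hs⟩
  have h2 : ∑ t ∈ T, ((S.filter (fun s => g s = t)).card : ℝ) < ∑ _t ∈ T, (S.card : ℝ) / X :=
    Finset.sum_lt_sum_of_nonempty hTne hcon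
  rw [← h1, Finset.sum_const, nsmul_eq_mul] at h2
  have hS0 : (0 : ℝ) ≤ (S.card : ℝ) / X := by positivity
  have h3 : (T.card : ℝ) * ((S.card : ℝ) / X) ≤ X * ((S.card : ℝ) / X) := mul_le_mul_of_nonneg_right hX hS0
  have h4 : X * ((S.card : ℝ) / X) = S.card := by field_simp
  linarith

/-- few primes up to `X` -/
theorem G3_card (S : Finset ℕ) (X : ℝ) (hX : 0 ≤ X) (h : ∀ P ∈ S, P.Prime ∧ (P : ℝ) ≤ X) : (S.card : ℝ) ≤ X := by
  have h1 : S ⊆ Icc 1 ⌊X⌋₊ := by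
    intro P hP
    obtain ⟨h1, h2⟩ := h P hP
    exact Finset.mem_Icc.2 ⟨h1.one_lt.le, Nat.le_floor h2⟩
  have h2 : S.card ≤ ⌊X⌋₊ := by
    simpa using Finset.card_le_card h1
  calc (S.card : ℝ) ≤ (⌊X⌋₊ : ℝ) := by exact_mod_cast h2
    _ ≤ X := Nat.floor_le hX

/-- a bad pair of columns: normalised direction -/
theorem G3_line {c H : ℝ} {E : Finset (ℕ × ℕ)} {z : ℕ → ℕ → ℤ} {Q Q' : ℕ} (hH : 0 < H)
    (hz : ∀ w ∈ E, z w.1 w.2 ≠ 0) (h : BadCol c H E z Q Q') :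
    ∃ (α β : ℤ) (R : Finset ℕ), 0 < α ∧ H ^ (1 - c) ≤ (R.card : ℝ) ∧
      ∀ P ∈ R, (P, Q) ∈ E ∧ (P, Q') ∈ E ∧ ∃ s : ℤ, z P Q = α * s ∧ z P Q' = β * s := by
  classical
  obtain ⟨α0, β0, hne, hcard⟩ := h
  have hcard' : H ^ (1 - c) ≤
      (((E.image Prod.fst).filter (fun P => (P, Q) ∈ E ∧ (P, Q') ∈ E ∧ β0 * z P Q = α0 * z P Q')).card : ℝ) := by
    convert hcard
  set R := (E.image Prod.fst).filter (fun P => (P, Q) ∈ E ∧ (P, Q') ∈ E ∧ β0 * z P Q = α0 * z P Q') with hR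
  have hRm : ∀ P ∈ R, (P, Q) ∈ E ∧ (P, Q') ∈ E ∧ β0 * z P Q = α0 * z P Q' := by
    intro P hP
    rw [hR, Finset.mem_filter] at hP
    exact hP.2
  have hpos : 0 < H ^ (1 - c) := by positivity
  have hRne : R.Nonempty := by
    rw [← Finset.card_pos]
    have : (0 : ℝ) < (R.card : ℝ) := lt_of_lt_of_le hpos hcard'
    exact_mod_cast this
  obtain ⟨P, hP⟩ := hRne
  obtain ⟨k1, k2, k3⟩ := hRm P hP
  have z1 : z P Q ≠ 0 := hz _ k1
  have z2 : z P Q' ≠ 0 := hz _ k2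
  have hα0 : α0 ≠ 0 := by
    intro h0
    rw [h0, zero_mul] at k3
    rcases mul_eq_zero.1 k3 with h | h
    · rcases hne with h' | h'
      · exact h' h0
      · exact h' h
    · exact z1 h
  have hg : 0 < Int.gcd α0 β0 := Int.gcd_pos_of_ne_zero_left _ hα0
  obtain ⟨α1, β1, hcop, ha, hb⟩ := Int.exists_gcd_one hg
  have hg' : ((Int.gcd α0 β0 : ℕ) : ℤ) ≠ 0 := by exact_mod_cast hg.ne'
  have hα1 : α1 ≠ 0 := by
    intro h0
    rw [h0, zero_mul] at ha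
    exact hα0 ha
  have hall : ∀ P ∈ R, β1 * z P Q = α1 * z P Q' := by
    intro P hP
    obtain ⟨_, _, k3⟩ := hRm P hP
    apply mul_right_cancel₀ hg'
    calc β1 * z P Q * (Int.gcd α0 β0 : ℤ) = (β1 * (Int.gcd α0 β0 : ℤ)) * z P Q := by ring
      _ = β0 * z P Q := by rw [← hb]
      _ = α0 * z P Q' := k3
      _ = (α1 * (Int.gcd α0 β0 : ℤ)) * z P Q' := by rw [← ha]
      _ = α1 * z P Q' * (Int.gcd α0 β0 : ℤ) := by ring
  have hcop' : IsCoprime α1 β1 := Int.isCoprime_iff_gcd_eq_one.2 hcop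
  have hfin : ∀ P ∈ R, ∃ s : ℤ, z P Q = α1 * s ∧ z P Q' = β1 * s := by
    intro P hP
    have h1 : α1 ∣ β1 * z P Q := ⟨z P Q', hall P hP⟩
    obtain ⟨s, hs⟩ := hcop'.dvd_of_dvd_mul_left h1
    refine ⟨s, hs, ?_⟩
    have h2 := hall P hP
    rw [hs] at h2
    apply mul_left_cancel₀ hα1
    rw [← h2]
    ring
  rcases lt_or_gt_of_ne hα1 with hlt | hgt
  · refine ⟨-α1, -β1, R, by omega, hcard', fun P hP => ?_⟩
    obtain ⟨k1, k2, _⟩ := hRm P hP
    obtain ⟨s, hs1, hs2⟩ := hfin P hP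
    exact ⟨k1, k2, -s, by rw [hs1]; ring, by rw [hs2]; ring⟩
  · refine ⟨α1, β1, R, hgt, hcard', fun P hP => ?_⟩
    obtain ⟨k1, k2, _⟩ := hRm P hP
    exact ⟨k1, k2, hfin P hP⟩

/-- (o3-G3) bad pairs of columns, (2.4).  Let `c ≤ c0 = δ(rank_one) / 10`.  Fix `Q1` with many bad partners `Q2`, fix a row `P0` on the line
of many `Q2`, popular divisor `α` of `z P0 Q1`; `rank_one` for `{(P, Q2)}` with `s P = z P Q1 / α`. -/
theorem bad_cols (K : ℝ) (hK : 0 < K) (e f : ℕ) (he : 1 ≤ e) (hf : 1 ≤ f) : ∃ c0 : ℝ, 0 < c0 ∧ ∀ c : ℝ, 0 < c → c ≤ c0 →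
    ∃ H0 : ℝ, 1 ≤ H0 ∧ ∀ H : ℝ, H0 ≤ H →
    ∀ (E : Finset (ℕ × ℕ)) (z : ℕ → ℕ → ℤ) (N : ℕ) (Z η κ : ℝ) (v : ℤ), Grid K c H e f E z N Z η κ v →
    ∀ B : Finset (ℕ × ℕ), (∀ b ∈ B, BadCol c H E z b.1 b.2) → (B.card : ℝ) ≤ H ^ (2 - c) := by
  classical
  obtain ⟨d1, H1, hd1, hH1, hr⟩ := rank_one K hK e f he hf
  refine ⟨d1 / 10, by positivity, fun c hc hc0 => ?_⟩
  obtain ⟨C, hC, hdiv⟩ := Hp.card_divisors_le (c / (2 * K)) (by positivity)
  refine ⟨max H1 (C ^ (2 / c)), le_max_of_le_left hH1, ?_⟩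
  intro H hH E z N Z η κ v hg B hB
  have hHH1 : H1 ≤ H := (le_max_left _ _).trans hH
  have hHC : C ^ (2 / c) ≤ H := (le_max_right _ _).trans hH
  have h1 : 1 ≤ H := hH1.trans hHH1
  have h0 : 0 < H := by linarith
  have hC2 : C ≤ H ^ (c / 2) := by
    calc C = (C ^ (2 / c)) ^ (c / 2) := by
          rw [← Real.rpow_mul hC.le]
          have : 2 / c * (c / 2) = 1 := by field_simp
          rw [this, Real.rpow_one]
      _ ≤ H ^ (c / 2) := Real.rpow_le_rpow (by positivity) hHC (by positivity)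
  by_contra hcon
  push Not at hcon
  have hz : ∀ w ∈ E, z w.1 w.2 ≠ 0 := by
    intro w hw h
    have h2 := hg.zlo w hw
    rw [h, Int.cast_zero, abs_zero] at h2
    linarith [hg.Z0]
  have key : ∀ b ∈ B, ∃ (α β : ℤ) (R : Finset ℕ), 0 < α ∧ H ^ (1 - c) ≤ (R.card : ℝ) ∧
      ∀ P ∈ R, (P, b.1) ∈ E ∧ (P, b.2) ∈ E ∧ ∃ s : ℤ, z P b.1 = α * s ∧ z P b.2 = β * s :=
    fun b hb => G3_line h0 hz (hB b hb)
  choose! al be R hal hR hall using key
  have hpos1 : 0 < H ^ (1 - c) := by positivity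
  have hRne : ∀ b ∈ B, (R b).Nonempty := by
    intro b hb
    rw [← Finset.card_pos]
    have : (0 : ℝ) < ((R b).card : ℝ) := lt_of_lt_of_le hpos1 (hR b hb)
    exact_mod_cast this
  have hX0 : 0 < H ^ (1 + c) := by positivity
  have hfst : ((E.image Prod.fst).card : ℝ) ≤ H ^ (1 + c) := by
    apply G3_card _ _ hX0.le
    intro P hP
    obtain ⟨w, hw, rfl⟩ := Finset.mem_image.1 hP
    exact ⟨(hg.pr1 w hw).1, (hg.pr1 w hw).2.2⟩
  have hsnd : ((E.image Prod.snd).card : ℝ) ≤ H ^ (1 + c) := by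
    apply G3_card _ _ hX0.le
    intro P hP
    obtain ⟨w, hw, rfl⟩ := Finset.mem_image.1 hP
    exact ⟨(hg.pr2 w hw).1, (hg.pr2 w hw).2.2⟩
  have hBne : B.Nonempty := by
    rw [← Finset.card_pos]
    have : (0 : ℝ) < (B.card : ℝ) := lt_trans (by positivity) hcon
    exact_mod_cast this
  -- popular column
  obtain ⟨Q1, _, hB1⟩ := G3_pop B (E.image Prod.snd) Prod.fst (H ^ (1 + c)) hsnd hX0 (fun b hb => by
    obtain ⟨P, hP⟩ := hRne b hb
    exact Finset.mem_image.2 ⟨(P, b.1), (hall b hb P hP).1, rfl⟩) hBne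
  have hB1c : H ^ (1 - 2 * c) ≤ ((B.filter (fun b => b.1 = Q1)).card : ℝ) := by
    refine le_trans ?_ hB1
    rw [le_div_iff₀ hX0, ← Real.rpow_add h0]
    refine le_trans (le_of_eq ?_) hcon.le
    congr 1
    ring
  set B1 := B.filter (fun b => b.1 = Q1) with hB1d
  have hB1m : ∀ b ∈ B1, b ∈ B ∧ b.1 = Q1 := fun b hb => Finset.mem_filter.1 hb
  -- popular row
  have hWc : H ^ (2 - 3 * c) ≤ ((B1.sigma R).card : ℝ) := by
    rw [Finset.card_sigma, Nat.cast_sum]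
    calc H ^ (2 - 3 * c) = H ^ (1 - 2 * c) * H ^ (1 - c) := by
          rw [← Real.rpow_add h0]
          congr 1
          ring
      _ ≤ (B1.card : ℝ) * H ^ (1 - c) := mul_le_mul_of_nonneg_right hB1c hpos1.le
      _ = ∑ _b ∈ B1, H ^ (1 - c) := by rw [Finset.sum_const, nsmul_eq_mul]
      _ ≤ ∑ b ∈ B1, ((R b).card : ℝ) := Finset.sum_le_sum fun b hb => hR b (hB1m b hb).1
  have hWne : (B1.sigma R).Nonempty := by
    rw [← Finset.card_pos]
    have : (0 : ℝ) < ((B1.sigma R).card : ℝ) := lt_of_lt_of_le (by positivity) hWc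
    exact_mod_cast this
  obtain ⟨P0, _, hW⟩ := G3_pop (B1.sigma R) (E.image Prod.fst) (fun w => w.2) (H ^ (1 + c)) hfst hX0 (fun w hw => by
    rw [Finset.mem_sigma] at hw
    exact Finset.mem_image.2 ⟨(w.2, w.1.1), (hall w.1 (hB1m _ hw.1).1 w.2 hw.2).1, rfl⟩) hWne
  have hB2c : H ^ (1 - 4 * c) ≤ ((B1.filter (fun b => P0 ∈ R b)).card : ℝ) := by
    have k1 : H ^ (1 - 4 * c) ≤ (((B1.sigma R).filter (fun w => w.2 = P0)).card : ℝ) := by
      refine le_trans ?_ hW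
      rw [le_div_iff₀ hX0, ← Real.rpow_add h0]
      refine le_trans (le_of_eq ?_) hWc
      congr 1
      ring
    refine k1.trans ?_
    have k2 : ((B1.sigma R).filter (fun w => w.2 = P0)).card ≤ (B1.filter (fun b => P0 ∈ R b)).card := by
      apply Finset.card_le_card_of_injOn (fun w => w.1)
      · intro w hw
        rw [Finset.mem_coe, Finset.mem_filter, Finset.mem_sigma] at hw
        rw [Finset.mem_coe, Finset.mem_filter]
        refine ⟨hw.1.1, ?_⟩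
        rw [← hw.2]
        exact hw.1.2
      · intro w hw w' hw' heq
        rw [Finset.mem_coe, Finset.mem_filter] at hw hw'
        obtain ⟨b, x⟩ := w
        obtain ⟨b', x'⟩ := w'
        simp only at heq hw hw'
        subst heq
        rw [hw.2, hw'.2]
    exact_mod_cast k2
  set B2 := B1.filter (fun b => P0 ∈ R b) with hB2d
  have hB2m : ∀ b ∈ B2, b ∈ B1 ∧ P0 ∈ R b := fun b hb => Finset.mem_filter.1 hb
  have hB2ne : B2.Nonempty := by
    rw [← Finset.card_pos]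
    have : (0 : ℝ) < (B2.card : ℝ) := lt_of_lt_of_le (by positivity) hB2c
    exact_mod_cast this
  -- popular divisor
  have hE0 : (P0, Q1) ∈ E := by
    obtain ⟨b, hb⟩ := hB2ne
    have := (hall b (hB1m b (hB2m b hb).1).1 P0 (hB2m b hb).2).1
    rw [(hB1m b (hB2m b hb).1).2] at this
    exact this
  have hz0 : z P0 Q1 ≠ 0 := hz _ hE0
  have hdv : (((z P0 Q1).natAbs.divisors).card : ℝ) ≤ H ^ c := by
    have k1 : (((z P0 Q1).natAbs : ℕ) : ℝ) ≤ H ^ K := by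
      have k2 := (hg.zhi _ hE0).trans hg.ZK
      simp only at k2
      rw [Nat.cast_natAbs, Int.cast_abs]
      exact k2
    refine (hdiv (H ^ K) _ (Nat.one_le_iff_ne_zero.2 (Int.natAbs_ne_zero.2 hz0)) k1).trans ?_
    rw [← Real.rpow_mul h0.le]
    have k3 : K * (c / (2 * K)) = c / 2 := by field_simp
    rw [k3]
    calc C * H ^ (c / 2) ≤ H ^ (c / 2) * H ^ (c / 2) := mul_le_mul_of_nonneg_right hC2 (by positivity)
      _ = H ^ c := by
        rw [← Real.rpow_add h0]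
        congr 1
        ring
  have hHc0 : 0 < H ^ c := by positivity
  obtain ⟨a, ha, hB3⟩ := G3_pop B2 (z P0 Q1).natAbs.divisors (fun b => (al b).natAbs) (H ^ c) hdv hHc0 (fun b hb => by
    rw [Nat.mem_divisors]
    refine ⟨?_, Int.natAbs_ne_zero.2 hz0⟩
    have hb1 := hB1m b (hB2m b hb).1
    obtain ⟨_, _, s, hs, _⟩ := hall b hb1.1 P0 (hB2m b hb).2
    rw [hb1.2] at hs
    rw [Int.natAbs_dvd_natAbs]
    exact ⟨s, hs⟩) hB2ne
  have hB3c : H ^ (1 - 5 * c) ≤ ((B2.filter (fun b => (al b).natAbs = a)).card : ℝ) := by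
    refine le_trans ?_ hB3
    rw [le_div_iff₀ hHc0, ← Real.rpow_add h0]
    refine le_trans (le_of_eq ?_) hB2c
    congr 1
    ring
  set B3 := B2.filter (fun b => (al b).natAbs = a) with hB3d
  have hB3m : ∀ b ∈ B3, b ∈ B2 ∧ (al b).natAbs = a := fun b hb => Finset.mem_filter.1 hb
  have ha0 : (a : ℤ) ≠ 0 := by
    have := Nat.pos_of_mem_divisors ha
    exact_mod_cast this.ne'
  set E' := (B3.sigma R).image (fun w => (w.2, w.1.2)) with hE'
  have hE'c : H ^ (2 - d1) ≤ (E'.card : ℝ) := by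
    have k1 : E'.card = (B3.sigma R).card := by
      rw [hE']
      apply Finset.card_image_of_injOn
      intro w hw w' hw' heq
      rw [Finset.mem_coe, Finset.mem_sigma] at hw hw'
      obtain ⟨⟨b1, b2⟩, x⟩ := w
      obtain ⟨⟨b1', b2'⟩, x'⟩ := w'
      have e1 := (hB1m _ (hB2m _ (hB3m _ hw.1).1).1).2
      have e2 := (hB1m _ (hB2m _ (hB3m _ hw'.1).1).1).2
      simp only [Prod.mk.injEq] at heq e1 e2
      obtain ⟨h3, h4⟩ := heq
      subst h3 h4 e1 e2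
      rfl
    rw [k1, Finset.card_sigma, Nat.cast_sum]
    calc H ^ (2 - d1) ≤ H ^ (2 - 6 * c) := Real.rpow_le_rpow_of_exponent_le h1 (by linarith)
      _ = H ^ (1 - 5 * c) * H ^ (1 - c) := by
          rw [← Real.rpow_add h0]
          congr 1
          ring
      _ ≤ (B3.card : ℝ) * H ^ (1 - c) := mul_le_mul_of_nonneg_right hB3c hpos1.le
      _ = ∑ _b ∈ B3, H ^ (1 - c) := by rw [Finset.sum_const, nsmul_eq_mul]
      _ ≤ ∑ b ∈ B3, ((R b).card : ℝ) :=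
        Finset.sum_le_sum fun b hb => hR b (hB1m b (hB2m b (hB3m b hb).1).1).1
  have hsub : E' ⊆ E := by
    intro w hw
    rw [hE', Finset.mem_image] at hw
    obtain ⟨⟨b, x⟩, hw', rfl⟩ := hw
    rw [Finset.mem_sigma] at hw'
    exact (hall b (hB1m b (hB2m b (hB3m b hw'.1).1).1).1 x hw'.2).2.1
  refine hr H hHH1 E' z N Z η κ v ((hg.mono h1 (by linarith)).sub hsub) hE'c (fun P => z P Q1 / (a : ℤ))
    (fun Q => be (Q1, Q)) ?_
  intro w hw
  rw [hE', Finset.mem_image] at hw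
  obtain ⟨⟨b, x⟩, hw', rfl⟩ := hw
  rw [Finset.mem_sigma] at hw'
  have hb3 := hB3m b hw'.1
  have hb1 := hB1m b (hB2m b hb3.1).1
  obtain ⟨_, _, s, hs1, hs2⟩ := hall b hb1.1 x hw'.2
  have hala : al b = (a : ℤ) := by
    have k1 := hal b hb1.1
    have k2 := hb3.2
    omega
  have hbb : b = (Q1, b.2) := by
    rw [← hb1.2]
  simp only
  rw [← hbb, hs2]
  rw [hb1.2, hala] at hs1
  rw [hs1, Int.mul_ediv_cancel_left _ ha0]
  ring

end O3

end T3

end Pool.Agent.Lib.MP_d8bd92_nt
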