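import Pool.Agent.Lib.MP_d8bd92_nt.T3.O3.Defs
import Pool.Agent.Lib.MP_d8bd92_nt.T3.O3.G3

set_option autoImplicit false

/-!
Phase 3, the tie (b)-(b), elementary route (page d8o3_tie_helper11.md).
-/

namespace Pool.Agent.Lib.MP_d8bd92_nt

namespace T3

namespace O3

open Finset

theorem G3b_mem {E : Finset (ℕ × ℕ)} {P Q : ℕ} : (Q, P) ∈ E.image Prod.swap ↔ (P, Q) ∈ E := by
  constructor
  · intro h
    obtain ⟨⟨a, b⟩, hu, he⟩ := Finset.mem_image.1 h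
    simp only [Prod.swap_prod_mk, Prod.mk.injEq] at he
    obtain ⟨rfl, rfl⟩ := he
    exact hu
  · intro h
    exact Finset.mem_image.2 ⟨(P, Q), h, rfl⟩

/-- a bad pair of rows is a bad pair of columns of the transposed grid -/
theorem G3b_bad {c H : ℝ} {E : Finset (ℕ × ℕ)} {z : ℕ → ℕ → ℤ} {P P' : ℕ} (h : BadRow c H E z P P') :
    BadCol c H (E.image Prod.swap) (fun Q P => z P Q) P P' := by
  classical
  obtain ⟨α, β, h0, h1⟩ := h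
  refine ⟨α, β, h0, h1.trans ?_⟩
  refine Nat.cast_le.2 (Finset.card_le_card ?_)
  intro Q hQ
  rw [Finset.mem_filter] at hQ ⊢
  refine ⟨?_, G3b_mem.2 hQ.2.1, G3b_mem.2 hQ.2.2.1, hQ.2.2.2⟩
  have h2 : (Q, P) ∈ E.image Prod.swap := G3b_mem.2 hQ.2.1
  exact Finset.mem_image.2 ⟨(Q, P), h2, rfl⟩

/-- (o3-G3b) rows, by `Grid.swap` -/
theorem bad_rows (K : ℝ) (hK : 0 < K) (e f : ℕ) (he : 1 ≤ e) (hf : 1 ≤ f) : ∃ c0 : ℝ, 0 < c0 ∧ ∀ c : ℝ, 0 < c → c ≤ c0 →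
    ∃ H0 : ℝ, 1 ≤ H0 ∧ ∀ H : ℝ, H0 ≤ H →
    ∀ (E : Finset (ℕ × ℕ)) (z : ℕ → ℕ → ℤ) (N : ℕ) (Z η κ : ℝ) (v : ℤ), Grid K c H e f E z N Z η κ v →
    ∀ B : Finset (ℕ × ℕ), (∀ b ∈ B, BadRow c H E z b.1 b.2) → (B.card : ℝ) ≤ H ^ (2 - c) := by
  obtain ⟨c0, hc0, h⟩ := bad_cols K hK f e hf he
  refine ⟨c0, hc0, fun c hc hcc => ?_⟩
  obtain ⟨H0, hH0, h2⟩ := h c hc hcc
  refine ⟨H0, hH0, fun H hH E z N Z η κ v hg B hB => ?_⟩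
  exact h2 H hH (E.image Prod.swap) (fun Q P => z P Q) N Z η κ v hg.swap B fun b hb => G3b_bad (hB b hb)

end O3

end T3

end Pool.Agent.Lib.MP_d8bd92_nt
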