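import Pool.Agent.Lib.MP_d8bd92_nt.T3.O3.Defs

set_option autoImplicit false

/-!
Phase 3, the tie (b)-(b), elementary route (page d8o3_tie_helper11.md).
-/

namespace Pool.Agent.Lib.MP_d8bd92_nt

namespace T3

namespace O3

open Finset

/-- common neighbours of two rows -/
def G4a_cn (Q : Finset ℕ) (E : Finset (ℕ × ℕ)) (p1 p2 : ℕ) : Finset ℕ :=
  Q.filter (fun q => (p1, q) ∈ E ∧ (p2, q) ∈ E)

/-- two rows and three columns, all six pairs in `E` -/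
def G4a_k23 (P Q : Finset ℕ) (E : Finset (ℕ × ℕ)) : Finset ((ℕ × ℕ) × ℕ × ℕ × ℕ) :=
  ((P ×ˢ P) ×ˢ (Q ×ˢ Q ×ˢ Q)).filter (fun t => t.2.1 ∈ G4a_cn Q E t.1.1 t.1.2 ∧ t.2.2.1 ∈ G4a_cn Q E t.1.1 t.1.2 ∧
    t.2.2.2 ∈ G4a_cn Q E t.1.1 t.1.2)

theorem G4a_k23_card (P Q : Finset ℕ) (E : Finset (ℕ × ℕ)) :
    ((G4a_k23 P Q E).card : ℝ) = ∑ p ∈ P ×ˢ P, ((G4a_cn Q E p.1 p.2).card : ℝ) ^ 3 := by
  have h1 : G4a_k23 P Q E = (P ×ˢ P).biUnion (fun p => (({p} : Finset (ℕ × ℕ)) ×ˢ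
      ((G4a_cn Q E p.1 p.2) ×ˢ (G4a_cn Q E p.1 p.2) ×ˢ (G4a_cn Q E p.1 p.2)))) := by
    ext ⟨p, q1, q2, q3⟩
    simp only [G4a_k23, mem_filter, mem_product, mem_biUnion, mem_singleton]
    constructor
    · rintro ⟨⟨hp, -⟩, h1, h2, h3⟩
      exact ⟨p, hp, rfl, h1, h2, h3⟩
    · rintro ⟨a, ha, rfl, h1, h2, h3⟩
      exact ⟨⟨ha, (mem_filter.1 h1).1, (mem_filter.1 h2).1, (mem_filter.1 h3).1⟩, h1, h2, h3⟩
  rw [h1, card_biUnion]
  · push_cast [card_product, card_singleton]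
    refine sum_congr rfl fun p _ => ?_
    ring
  · intro p _ p' _ hne
    rw [Function.onFun, disjoint_left]
    rintro ⟨x, y⟩ hx hx'
    rw [mem_product, mem_singleton] at hx hx'
    exact hne (hx.1.symm.trans hx'.1)

theorem G4a_cn_sum (P Q : Finset ℕ) (E : Finset (ℕ × ℕ)) (hE : E ⊆ P ×ˢ Q) :
    (E.card : ℝ) ^ 2 ≤ (Q.card : ℝ) * ∑ p ∈ P ×ˢ P, ((G4a_cn Q E p.1 p.2).card : ℝ) := by
  have h1 : ∑ p ∈ P ×ˢ P, ((G4a_cn Q E p.1 p.2).card : ℝ) =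
      ∑ q ∈ Q, (((P.filter (fun x => (x, q) ∈ E)).card : ℝ)) ^ 2 := by
    have e1 : ∀ p : ℕ × ℕ, ((G4a_cn Q E p.1 p.2).card : ℝ) =
        ∑ q ∈ Q, (if (p.1, q) ∈ E then (1 : ℝ) else 0) * (if (p.2, q) ∈ E then 1 else 0) := by
      intro p
      unfold G4a_cn
      rw [card_filter]
      push_cast
      refine sum_congr rfl fun q _ => ?_
      by_cases h1 : (p.1, q) ∈ E <;> by_cases h2 : (p.2, q) ∈ E <;> simp [h1, h2]
    have e2 : ∀ q, (((P.filter (fun x => (x, q) ∈ E)).card : ℝ)) = ∑ x ∈ P, (if (x, q) ∈ E then (1 : ℝ) else 0) := by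
      intro q
      rw [card_filter]
      push_cast
      rfl
    simp only [e1, e2, sq]
    rw [sum_comm]
    refine sum_congr rfl fun q _ => ?_
    rw [sum_product, sum_mul_sum]
  have h2 : (E.card : ℝ) = ∑ q ∈ Q, (((P.filter (fun x => (x, q) ∈ E)).card : ℝ)) := by
    have e1 : E.card = ∑ q ∈ Q, (E.filter (fun e => e.2 = q)).card :=
      card_eq_sum_card_fiberwise (fun e he => (mem_product.1 (hE he)).2)
    rw [e1]
    push_cast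
    refine sum_congr rfl fun q _ => ?_
    congr 1
    refine card_bij (fun e _ => e.1) ?_ ?_ ?_
    · intro e he
      obtain ⟨he1, he2⟩ := mem_filter.1 he
      refine mem_filter.2 ⟨(mem_product.1 (hE he1)).1, ?_⟩
      rw [← he2]
      exact he1
    · intro e he e' he' h
      exact Prod.ext h ((mem_filter.1 he).2.trans (mem_filter.1 he').2.symm)
    · intro x hx
      obtain ⟨-, hx2⟩ := mem_filter.1 hx
      exact ⟨(x, q), mem_filter.2 ⟨hx2, rfl⟩, rfl⟩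
  rw [h1, h2]
  exact sq_sum_le_card_mul_sum_sq

/-- many complete configurations -/
theorem G4a_k23_many (P Q : Finset ℕ) (E : Finset (ℕ × ℕ)) (hE : E ⊆ P ×ˢ Q) :
    (E.card : ℝ) ^ 6 ≤ (Q.card : ℝ) ^ 3 * (P.card : ℝ) ^ 4 * (G4a_k23 P Q E).card := by
  obtain ⟨s, hs⟩ : ∃ s : ℝ, s = ∑ p ∈ P ×ˢ P, ((G4a_cn Q E p.1 p.2).card : ℝ) := ⟨_, rfl⟩
  have hs0 : 0 ≤ s := by rw [hs]; exact sum_nonneg fun _ _ => Nat.cast_nonneg _
  have h1 : (E.card : ℝ) ^ 2 ≤ (Q.card : ℝ) * s := by rw [hs]; exact G4a_cn_sum P Q E hE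
  have h2 : s ^ 3 ≤ ((P ×ˢ P).card : ℝ) ^ 2 * (G4a_k23 P Q E).card := by
    rw [G4a_k23_card, hs]
    have h6 := pow_sum_div_card_le_sum_pow (s := P ×ˢ P) (f := fun p => ((G4a_cn Q E p.1 p.2).card : ℝ))
      (fun _ _ => Nat.cast_nonneg _) 2
    rcases (P ×ˢ P).eq_empty_or_nonempty with h0 | h0
    · rw [h0]
      simp
    · have h7 : (0 : ℝ) < ((P ×ˢ P).card : ℝ) ^ 2 := by
        have : 0 < (P ×ˢ P).card := card_pos.2 h0
        positivity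
      rw [div_le_iff₀ h7, mul_comm] at h6
      exact h6
  have h3 : ((E.card : ℝ) ^ 2) ^ 3 ≤ ((Q.card : ℝ) * s) ^ 3 := pow_le_pow_left₀ (by positivity) h1 3
  have h4 : (E.card : ℝ) ^ 6 = ((E.card : ℝ) ^ 2) ^ 3 := by ring
  rw [h4]
  refine h3.trans ?_
  rw [mul_pow]
  have h5 : (Q.card : ℝ) ^ 3 * s ^ 3 ≤ (Q.card : ℝ) ^ 3 * (((P ×ˢ P).card : ℝ) ^ 2 * (G4a_k23 P Q E).card) :=
    mul_le_mul_of_nonneg_left h2 (by positivity)
  refine h5.trans (le_of_eq ?_)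
  rw [card_product]
  push_cast
  ring

/-- (o3-G4a) the number of complete `K_{2,3}` (Cauchy and Hoelder) -/
theorem card_K23 (E : Finset (ℕ × ℕ)) (X : ℝ) (hX : 0 < X) (h1 : ((E.image Prod.fst).card : ℝ) ≤ X)
    (h2 : ((E.image Prod.snd).card : ℝ) ≤ X) : (E.card : ℝ) ^ 6 ≤ X ^ 7 * ((K23 E).card : ℝ) := by
  have h3 := G4a_k23_many (E.image Prod.fst) (E.image Prod.snd) E (fun w hw =>
    mem_product.2 ⟨mem_image_of_mem _ hw, mem_image_of_mem _ hw⟩)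
  have h4 : G4a_k23 (E.image Prod.fst) (E.image Prod.snd) E ⊆ K23 E := by
    intro t ht
    simp only [G4a_k23, G4a_cn, mem_filter] at ht
    obtain ⟨h5, ⟨-, a1, a2⟩, ⟨-, b1, b2⟩, -, c1, c2⟩ := ht
    exact mem_filter.2 ⟨h5, a1, b1, c1, a2, b2, c2⟩
  have h5 : ((G4a_k23 (E.image Prod.fst) (E.image Prod.snd) E).card : ℝ) ≤ ((K23 E).card : ℝ) := by
    exact_mod_cast card_le_card h4
  refine h3.trans ?_
  have h6 : ((E.image Prod.snd).card : ℝ) ^ 3 ≤ X ^ 3 := pow_le_pow_left₀ (Nat.cast_nonneg _) h2 3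
  have h7 : ((E.image Prod.fst).card : ℝ) ^ 4 ≤ X ^ 4 := pow_le_pow_left₀ (Nat.cast_nonneg _) h1 4
  have h8 : ((E.image Prod.snd).card : ℝ) ^ 3 * ((E.image Prod.fst).card : ℝ) ^ 4 ≤ X ^ 7 := by
    calc _ ≤ X ^ 3 * X ^ 4 := mul_le_mul h6 h7 (by positivity) (by positivity)
      _ = X ^ 7 := by ring
  exact mul_le_mul h8 h5 (Nat.cast_nonneg _) (by positivity)

end O3

end T3

end Pool.Agent.Lib.MP_d8bd92_nt
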