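import Pool.Agent.Lib.MP_d8bd92_nt.T3.O3.Defs

set_option autoImplicit false

/-!
Phase 3, the tie (b)-(b), elementary route (page d8o3_tie_helper11.md).
-/

namespace Pool.Agent.Lib.MP_d8bd92_nt

namespace T3

namespace O3

open Finset

theorem G1_real {a b c d m11 m12 m21 m22 Z η : ℝ} (hZ : 0 < Z) (he0 : 0 < η) (he1 : η ≤ 1)
    (hm : m11 * m22 = m12 * m21)
    (ha : |a| ≤ Z) (hb : |b| ≤ Z) (hc : |c| ≤ Z) (hd : |d| ≤ Z)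
    (hb' : Z / 2 ≤ |b|) (hc' : Z / 2 ≤ |c|)
    (ra : |a ^ 3 - m11| ≤ Z ^ 3 * η) (rb : |b ^ 3 - m12| ≤ Z ^ 3 * η)
    (rc : |c ^ 3 - m21| ≤ Z ^ 3 * η) (rd : |d ^ 3 - m22| ≤ Z ^ 3 * η) :
    |a * d - b * c| ≤ 300 * (Z ^ 2 * η) := by
  have hZ3 : 0 < Z ^ 3 := by positivity
  have hr0 : 0 ≤ Z ^ 3 * η := by positivity
  have hr1 : Z ^ 3 * η ≤ Z ^ 3 := by nlinarith
  have cube : ∀ x : ℝ, |x| ≤ Z → |x ^ 3| ≤ Z ^ 3 := by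
    intro x hx
    rw [abs_pow]
    exact pow_le_pow_left₀ (abs_nonneg x) hx 3
  have mb : ∀ x m : ℝ, |x| ≤ Z → |x ^ 3 - m| ≤ Z ^ 3 * η → |m| ≤ 2 * Z ^ 3 := by
    intro x m hx hxm
    have h1 := cube x hx
    have h2 : |m| ≤ |x ^ 3| + |x ^ 3 - m| := by
      have h3 : m = x ^ 3 - (x ^ 3 - m) := by ring
      calc |m| = |x ^ 3 - (x ^ 3 - m)| := by rw [← h3]
        _ ≤ |x ^ 3| + |x ^ 3 - m| := abs_sub _ _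
    linarith
  have key : |(a * d) ^ 3 - (b * c) ^ 3| ≤ 6 * (Z ^ 6 * η) := by
    have e1 : (a * d) ^ 3 - (b * c) ^ 3 =
        (a ^ 3 * (d ^ 3 - m22) + m22 * (a ^ 3 - m11)) - (b ^ 3 * (c ^ 3 - m21) + m21 * (b ^ 3 - m12)) := by
      linear_combination hm
    have t1 : |a ^ 3 * (d ^ 3 - m22)| ≤ Z ^ 3 * (Z ^ 3 * η) := by
      rw [abs_mul]
      exact mul_le_mul (cube a ha) rd (abs_nonneg _) hZ3.le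
    have t2 : |m22 * (a ^ 3 - m11)| ≤ 2 * Z ^ 3 * (Z ^ 3 * η) := by
      rw [abs_mul]
      exact mul_le_mul (mb d m22 hd rd) ra (abs_nonneg _) (by positivity)
    have t3 : |b ^ 3 * (c ^ 3 - m21)| ≤ Z ^ 3 * (Z ^ 3 * η) := by
      rw [abs_mul]
      exact mul_le_mul (cube b hb) rc (abs_nonneg _) hZ3.le
    have t4 : |m21 * (b ^ 3 - m12)| ≤ 2 * Z ^ 3 * (Z ^ 3 * η) := by
      rw [abs_mul]
      exact mul_le_mul (mb c m21 hc rc) rb (abs_nonneg _) (by positivity)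
    rw [e1]
    calc |(a ^ 3 * (d ^ 3 - m22) + m22 * (a ^ 3 - m11)) - (b ^ 3 * (c ^ 3 - m21) + m21 * (b ^ 3 - m12))|
        ≤ |a ^ 3 * (d ^ 3 - m22) + m22 * (a ^ 3 - m11)| + |b ^ 3 * (c ^ 3 - m21) + m21 * (b ^ 3 - m12)| :=
          abs_sub _ _
      _ ≤ (|a ^ 3 * (d ^ 3 - m22)| + |m22 * (a ^ 3 - m11)|) +
          (|b ^ 3 * (c ^ 3 - m21)| + |m21 * (b ^ 3 - m12)|) :=
          add_le_add (abs_add_le _ _) (abs_add_le _ _)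
      _ ≤ (Z ^ 3 * (Z ^ 3 * η) + 2 * Z ^ 3 * (Z ^ 3 * η)) + (Z ^ 3 * (Z ^ 3 * η) + 2 * Z ^ 3 * (Z ^ 3 * η)) :=
          add_le_add (add_le_add t1 t2) (add_le_add t3 t4)
      _ = 6 * (Z ^ 6 * η) := by ring
  set A := a * d with hA
  set B := b * c with hB
  have hBlow : Z ^ 2 / 4 ≤ |B| := by
    rw [hB, abs_mul]
    calc Z ^ 2 / 4 = Z / 2 * (Z / 2) := by ring
      _ ≤ |b| * |c| := mul_le_mul hb' hc' (by positivity) (abs_nonneg _)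
  have hB2 : Z ^ 4 / 16 ≤ B ^ 2 := by
    rw [← sq_abs B]
    calc Z ^ 4 / 16 = (Z ^ 2 / 4) ^ 2 := by ring
      _ ≤ |B| ^ 2 := pow_le_pow_left₀ (by positivity) hBlow 2
  have hq : 3 * Z ^ 4 / 64 ≤ A ^ 2 + A * B + B ^ 2 := by nlinarith [sq_nonneg (A + B / 2)]
  have hq0 : 0 < 3 * Z ^ 4 / 64 := by positivity
  have e2 : A ^ 3 - B ^ 3 = (A - B) * (A ^ 2 + A * B + B ^ 2) := by ring
  rw [e2, abs_mul, abs_of_pos (hq0.trans_le hq)] at key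
  have h5 : |A - B| * (3 * Z ^ 4 / 64) ≤ 6 * (Z ^ 6 * η) :=
    (mul_le_mul_of_nonneg_left hq (abs_nonneg _)).trans key
  have h6 : |A - B| * (3 * Z ^ 4 / 64) ≤ 300 * (Z ^ 2 * η) * (3 * Z ^ 4 / 64) := by
    refine h5.trans ?_
    have h7 : 0 ≤ Z ^ 6 * η := by positivity
    have h8 : 300 * (Z ^ 2 * η) * (3 * Z ^ 4 / 64) = 900 / 64 * (Z ^ 6 * η) := by ring
    rw [h8]
    nlinarith
  exact le_of_mul_le_mul_right h6 hq0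

/-- (o3-G1) 2 x 2 minors are small: `(z11 z22)^3 - (z12 z21)^3 = O(10 Z^6 η)` -/
theorem close {K δ H : ℝ} {e f : ℕ} {E : Finset (ℕ × ℕ)} {z : ℕ → ℕ → ℤ} {N : ℕ} {Z η κ : ℝ} {v : ℤ}
    (h : Grid K δ H e f E z N Z η κ v) (P P' Q Q' : ℕ) (h1 : (P, Q) ∈ E) (h2 : (P, Q') ∈ E) (h3 : (P', Q) ∈ E)
    (h4 : (P', Q') ∈ E) : |((z P Q * z P' Q' - z P Q' * z P' Q : ℤ) : ℝ)| ≤ 300 * (Z ^ 2 * η) := by
  push_cast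
  exact G1_real (m11 := κ * P ^ e * Q ^ f) (m12 := κ * P ^ e * Q' ^ f) (m21 := κ * P' ^ e * Q ^ f)
    (m22 := κ * P' ^ e * Q' ^ f) h.Z0 h.eta0 h.eta1 (by ring) (h.zhi _ h1) (h.zhi _ h2) (h.zhi _ h3)
    (h.zhi _ h4) (h.zlo _ h2) (h.zlo _ h3) (h.arch _ h1) (h.arch _ h2) (h.arch _ h3) (h.arch _ h4)

/-- (o3-G1) 3 x 3 minors vanish: `z11 det = m m' - m'' m'''` is divisible by `N^2`, `|det| ≤ 900 Z^3 η < N^2` -/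
theorem det3 {K δ H : ℝ} (hH : (10 : ℝ) ^ 6 ≤ H) {e f : ℕ} {E : Finset (ℕ × ℕ)} {z : ℕ → ℕ → ℤ} {N : ℕ} {Z η κ : ℝ} {v : ℤ}
    (h : Grid K δ H e f E z N Z η κ v) (hm : Minor E z N) (P1 P2 P3 Q1 Q2 Q3 : ℕ)
    (h11 : (P1, Q1) ∈ E) (h12 : (P1, Q2) ∈ E) (h13 : (P1, Q3) ∈ E) (h21 : (P2, Q1) ∈ E) (h22 : (P2, Q2) ∈ E)
    (h23 : (P2, Q3) ∈ E) (h31 : (P3, Q1) ∈ E) (h32 : (P3, Q2) ∈ E) (h33 : (P3, Q3) ∈ E) :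
    z P1 Q1 * (z P2 Q2 * z P3 Q3 - z P2 Q3 * z P3 Q2) - z P1 Q2 * (z P2 Q1 * z P3 Q3 - z P2 Q3 * z P3 Q1) +
      z P1 Q3 * (z P2 Q1 * z P3 Q2 - z P2 Q2 * z P3 Q1) = 0 := by
  set Dt : ℤ := z P1 Q1 * (z P2 Q2 * z P3 Q3 - z P2 Q3 * z P3 Q2) -
    z P1 Q2 * (z P2 Q1 * z P3 Q3 - z P2 Q3 * z P3 Q1) +
      z P1 Q3 * (z P2 Q1 * z P3 Q2 - z P2 Q2 * z P3 Q1) with hDt
  have hZ := h.Z0
  have hη := h.eta0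
  -- divisibility
  have hdiv : ((N : ℤ) ^ 2) ∣ Dt := by
    have m22 := hm P1 P2 Q1 Q2 h11 h12 h21 h22
    have m33 := hm P1 P3 Q1 Q3 h11 h13 h31 h33
    have m23 := hm P1 P2 Q1 Q3 h11 h13 h21 h23
    have m32 := hm P1 P3 Q1 Q2 h11 h12 h31 h32
    have e1 : z P1 Q1 * Dt = (z P1 Q1 * z P2 Q2 - z P1 Q2 * z P2 Q1) * (z P1 Q1 * z P3 Q3 - z P1 Q3 * z P3 Q1) -
        (z P1 Q1 * z P2 Q3 - z P1 Q3 * z P2 Q1) * (z P1 Q1 * z P3 Q2 - z P1 Q2 * z P3 Q1) := by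
      rw [hDt]; ring
    have e2 : (N : ℤ) ^ 2 ∣ z P1 Q1 * Dt := by
      rw [e1, sq]
      exact dvd_sub (mul_dvd_mul m22 m33) (mul_dvd_mul m23 m32)
    have hc : IsCoprime ((N : ℤ) ^ 2) (z P1 Q1) := ((h.copN _ h11).symm).pow_left
    exact hc.dvd_of_dvd_mul_left e2
  -- size
  have c1 := close h P2 P3 Q2 Q3 h22 h23 h32 h33
  have c2 := close h P2 P3 Q1 Q3 h21 h23 h31 h33
  have c3 := close h P2 P3 Q1 Q2 h21 h22 h31 h32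
  have z1 := h.zhi _ h11
  have z2 := h.zhi _ h12
  have z3 := h.zhi _ h13
  simp only at z1 z2 z3
  have hsize : |(Dt : ℝ)| ≤ 900 * (Z ^ 3 * η) := by
    have e3 : (Dt : ℝ) = (z P1 Q1 : ℝ) * ((z P2 Q2 * z P3 Q3 - z P2 Q3 * z P3 Q2 : ℤ) : ℝ) -
        (z P1 Q2 : ℝ) * ((z P2 Q1 * z P3 Q3 - z P2 Q3 * z P3 Q1 : ℤ) : ℝ) +
        (z P1 Q3 : ℝ) * ((z P2 Q1 * z P3 Q2 - z P2 Q2 * z P3 Q1 : ℤ) : ℝ) := by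
      rw [hDt]; push_cast; ring
    have b1 : |(z P1 Q1 : ℝ) * ((z P2 Q2 * z P3 Q3 - z P2 Q3 * z P3 Q2 : ℤ) : ℝ)| ≤ Z * (300 * (Z ^ 2 * η)) := by
      rw [abs_mul]; exact mul_le_mul z1 c1 (abs_nonneg _) hZ.le
    have b2 : |(z P1 Q2 : ℝ) * ((z P2 Q1 * z P3 Q3 - z P2 Q3 * z P3 Q1 : ℤ) : ℝ)| ≤ Z * (300 * (Z ^ 2 * η)) := by
      rw [abs_mul]; exact mul_le_mul z2 c2 (abs_nonneg _) hZ.le
    have b3 : |(z P1 Q3 : ℝ) * ((z P2 Q1 * z P3 Q2 - z P2 Q2 * z P3 Q1 : ℤ) : ℝ)| ≤ Z * (300 * (Z ^ 2 * η)) := by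
      rw [abs_mul]; exact mul_le_mul z3 c3 (abs_nonneg _) hZ.le
    rw [e3]
    calc _ ≤ |(z P1 Q1 : ℝ) * ((z P2 Q2 * z P3 Q3 - z P2 Q3 * z P3 Q2 : ℤ) : ℝ) -
        (z P1 Q2 : ℝ) * ((z P2 Q1 * z P3 Q3 - z P2 Q3 * z P3 Q1 : ℤ) : ℝ)| +
        |(z P1 Q3 : ℝ) * ((z P2 Q1 * z P3 Q2 - z P2 Q2 * z P3 Q1 : ℤ) : ℝ)| := abs_add_le _ _
      _ ≤ (|(z P1 Q1 : ℝ) * ((z P2 Q2 * z P3 Q3 - z P2 Q3 * z P3 Q2 : ℤ) : ℝ)| +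
        |(z P1 Q2 : ℝ) * ((z P2 Q1 * z P3 Q3 - z P2 Q3 * z P3 Q1 : ℤ) : ℝ)|) +
        |(z P1 Q3 : ℝ) * ((z P2 Q1 * z P3 Q2 - z P2 Q2 * z P3 Q1 : ℤ) : ℝ)| :=
          add_le_add (abs_sub _ _) le_rfl
      _ ≤ (Z * (300 * (Z ^ 2 * η)) + Z * (300 * (Z ^ 2 * η))) + Z * (300 * (Z ^ 2 * η)) :=
          add_le_add (add_le_add b1 b2) b3
      _ = 900 * (Z ^ 3 * η) := by ring
  have hroot : (1000 : ℝ) ≤ H ^ (1 / 2 : ℝ) := by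
    have h1 : ((10 : ℝ) ^ 6) ^ (1 / 2 : ℝ) ≤ H ^ (1 / 2 : ℝ) :=
      Real.rpow_le_rpow (by norm_num) hH (by norm_num)
    have h2 : ((10 : ℝ) ^ 6) ^ (1 / 2 : ℝ) = 1000 := by
      rw [← Real.sqrt_eq_rpow, show ((10 : ℝ) ^ 6) = 1000 ^ 2 by norm_num]
      exact Real.sqrt_sq (by norm_num)
    linarith
  have hlt : |(Dt : ℝ)| < (N : ℝ) ^ 2 := by
    have hp : 0 < Z ^ 3 * η := by positivity
    calc |(Dt : ℝ)| ≤ 900 * (Z ^ 3 * η) := hsize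
      _ < Z ^ 3 * η * H ^ (1 / 2 : ℝ) := by nlinarith
      _ ≤ (N : ℝ) ^ 2 := h.g4
  have hlt' : |Dt| < (N : ℤ) ^ 2 := by exact_mod_cast hlt
  exact Int.eq_zero_of_abs_lt_dvd hdiv hlt'

end O3

end T3

end Pool.Agent.Lib.MP_d8bd92_nt
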