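import Pool.Agent.Lib.MP_d8bd92_nt.T3.O3.Defs
import Pool.Agent.Lib.MP_d8bd92_nt.T3.O3.G1

set_option autoImplicit false

/-!
Phase 3, the tie (b)-(b), elementary route (page d8o3_tie_helper11.md).
-/

namespace Pool.Agent.Lib.MP_d8bd92_nt

namespace T3

namespace O3

open Finset

theorem G4b_prim (x1 x2 x3 : ℤ) (h3 : x3 ≠ 0) : ∃ k a1 a2 a3 : ℤ, k ≠ 0 ∧
    (∃ u1 u2 u3 : ℤ, u1 * a1 + u2 * a2 + u3 * a3 = 1) ∧ x1 = k * a1 ∧ x2 = k * a2 ∧ x3 = k * a3 := by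
  set g : ℤ := (Int.gcd x2 x3 : ℤ) with hg
  set k : ℤ := (Int.gcd x1 g : ℤ) with hk
  have hg0 : g ≠ 0 := by
    rw [hg]
    have : Int.gcd x2 x3 ≠ 0 := fun h => h3 (Int.gcd_eq_zero_iff.1 h).2
    exact_mod_cast this
  have hk0 : k ≠ 0 := by
    rw [hk]
    have : Int.gcd x1 g ≠ 0 := fun h => hg0 (Int.gcd_eq_zero_iff.1 h).2
    exact_mod_cast this
  have hkg : k ∣ g := Int.gcd_dvd_right _ _
  obtain ⟨a1, h1⟩ : k ∣ x1 := Int.gcd_dvd_left _ _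
  obtain ⟨a2, h2⟩ : k ∣ x2 := hkg.trans (Int.gcd_dvd_left _ _)
  obtain ⟨a3, h3'⟩ : k ∣ x3 := hkg.trans (Int.gcd_dvd_right _ _)
  refine ⟨k, a1, a2, a3, hk0, ?_, h1, h2, h3'⟩
  have e1 : g = x2 * Int.gcdA x2 x3 + x3 * Int.gcdB x2 x3 := Int.gcd_eq_gcd_ab x2 x3
  have e2 : k = x1 * Int.gcdA x1 g + g * Int.gcdB x1 g := Int.gcd_eq_gcd_ab x1 g
  refine ⟨Int.gcdA x1 g, Int.gcdA x2 x3 * Int.gcdB x1 g, Int.gcdB x2 x3 * Int.gcdB x1 g, ?_⟩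
  have e3 : k * (Int.gcdA x1 g * a1 + Int.gcdA x2 x3 * Int.gcdB x1 g * a2 +
      Int.gcdB x2 x3 * Int.gcdB x1 g * a3) = k * 1 := by
    have e4 : k * (Int.gcdA x1 g * a1 + Int.gcdA x2 x3 * Int.gcdB x1 g * a2 +
        Int.gcdB x2 x3 * Int.gcdB x1 g * a3) = (k * a1) * Int.gcdA x1 g +
        ((k * a2) * Int.gcdA x2 x3 + (k * a3) * Int.gcdB x2 x3) * Int.gcdB x1 g := by ring
    rw [e4, ← h1, ← h2, ← h3', ← e1, ← e2, mul_one]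
  exact mul_left_cancel₀ hk0 e3

/-- (o3-G4b) the relation between three columns.  `(X1, X2, X3)` = cross product of the rows `P1`, `P2`, `a = X / gcd`; `det3`. -/
theorem relation {K δ H : ℝ} (hH : (10 : ℝ) ^ 6 ≤ H) {e f : ℕ} {E : Finset (ℕ × ℕ)} {z : ℕ → ℕ → ℤ} {N : ℕ} {Z η κ : ℝ} {v : ℤ}
    (h : Grid K δ H e f E z N Z η κ v) (hm : Minor E z N) (P1 P2 Q1 Q2 Q3 : ℕ)
    (h11 : (P1, Q1) ∈ E) (h12 : (P1, Q2) ∈ E) (h13 : (P1, Q3) ∈ E) (h21 : (P2, Q1) ∈ E) (h22 : (P2, Q2) ∈ E)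
    (h23 : (P2, Q3) ∈ E) (hd : z P1 Q1 * z P2 Q2 - z P1 Q2 * z P2 Q1 ≠ 0) :
    ∃ a1 a2 a3 : ℤ, (∃ u1 u2 u3 : ℤ, u1 * a1 + u2 * a2 + u3 * a3 = 1) ∧
      (∃ k : ℤ, z P1 Q2 * z P2 Q3 - z P1 Q3 * z P2 Q2 = k * a1 ∧ z P1 Q3 * z P2 Q1 - z P1 Q1 * z P2 Q3 = k * a2 ∧
        z P1 Q1 * z P2 Q2 - z P1 Q2 * z P2 Q1 = k * a3) ∧
      ∀ P ∈ nb3 E Q1 Q2 Q3, a1 * z P Q1 + a2 * z P Q2 + a3 * z P Q3 = 0 := by
  obtain ⟨k, a1, a2, a3, hk, hu, e1, e2, e3⟩ := G4b_prim (z P1 Q2 * z P2 Q3 - z P1 Q3 * z P2 Q2)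
    (z P1 Q3 * z P2 Q1 - z P1 Q1 * z P2 Q3) (z P1 Q1 * z P2 Q2 - z P1 Q2 * z P2 Q1) hd
  refine ⟨a1, a2, a3, hu, ⟨k, e1, e2, e3⟩, ?_⟩
  intro P hP
  unfold nb3 at hP
  rw [mem_filter] at hP
  obtain ⟨-, hp1, hp2, hp3⟩ := hP
  have hdet := det3 hH h hm P P1 P2 Q1 Q2 Q3 hp1 hp2 hp3 h11 h12 h13 h21 h22 h23
  have e4 : k * (a1 * z P Q1 + a2 * z P Q2 + a3 * z P Q3) = k * 0 := by
    have e5 : k * (a1 * z P Q1 + a2 * z P Q2 + a3 * z P Q3) =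
        (k * a1) * z P Q1 + (k * a2) * z P Q2 + (k * a3) * z P Q3 := by ring
    rw [e5, ← e1, ← e2, ← e3, mul_zero, ← hdet]
    ring
  exact mul_left_cancel₀ hk e4

end O3

end T3

end Pool.Agent.Lib.MP_d8bd92_nt
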