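import Pool.Agent.Lib.MP_d8bd92_nt.T3.O3.Defs
import Pool.Agent.Lib.MP_d8bd92_nt.T3.O3.G4a
import Pool.Agent.Lib.MP_d8bd92_nt.T3.O3.G4b

set_option autoImplicit false

/-!
Phase 3, the tie (b)-(b), elementary route (page d8o3_tie_helper11.md).
-/

namespace Pool.Agent.Lib.MP_d8bd92_nt

namespace T3

namespace O3

open Finset

/-- counting by fibers -/
theorem G4c_fib {α β : Type*} [DecidableEq β] (s : Finset α) (T : Finset β) (f : α → β) (x : ℝ)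
    (hf : ∀ a ∈ s, f a ∈ T) (h : ∀ b ∈ T, ((s.filter (fun a => f a = b)).card : ℝ) ≤ x) :
    (s.card : ℝ) ≤ T.card * x := by
  rw [card_eq_sum_card_fiberwise hf]
  push_cast
  calc ∑ b ∈ T, ((s.filter (fun a => f a = b)).card : ℝ) ≤ ∑ _b ∈ T, x := sum_le_sum h
    _ = T.card * x := by rw [sum_const, nsmul_eq_mul]

/-- a popular value -/
theorem G4c_pop {α β : Type*} [DecidableEq β] (s : Finset α) (T : Finset β) (f : α → β) (x y : ℝ)
    (hy : 0 < y) (hf : ∀ a ∈ s, f a ∈ T) (hT : (T.card : ℝ) ≤ y) (hs : x ≤ (s.card : ℝ)) (hx : 0 < x) :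
    ∃ b ∈ T, x / y ≤ ((s.filter (fun a => f a = b)).card : ℝ) := by
  have hne : T.Nonempty := by
    have : (0 : ℝ) < s.card := hx.trans_le hs
    have h1 : 0 < s.card := by exact_mod_cast this
    obtain ⟨a, ha⟩ := card_pos.1 h1
    exact ⟨f a, hf a ha⟩
  apply Finset.exists_le_card_fiber_of_nsmul_le_card_of_maps_to hf hne
  rw [nsmul_eq_mul]
  calc (T.card : ℝ) * (x / y) ≤ y * (x / y) := by gcongr
    _ = x := by field_simp
    _ ≤ s.card := hs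

/-- cyclic shift of the three columns -/
def G4c_sh (t : (ℕ × ℕ) × (ℕ × ℕ × ℕ)) : (ℕ × ℕ) × (ℕ × ℕ × ℕ) := (t.1, (t.2.2.1, t.2.2.2, t.2.1))

theorem G4c_sh_mem {E : Finset (ℕ × ℕ)} {t : (ℕ × ℕ) × (ℕ × ℕ × ℕ)} (h : t ∈ K23 E) :
    G4c_sh t ∈ K23 E := by
  unfold K23 at h ⊢
  simp only [mem_filter, mem_product, G4c_sh] at h ⊢
  tauto

theorem G4c_sh_inj (s : Set ((ℕ × ℕ) × (ℕ × ℕ × ℕ))) : Set.InjOn G4c_sh s := by
  rintro ⟨⟨a, b⟩, ⟨c, d, e⟩⟩ - ⟨⟨a', b'⟩, ⟨c', d', e'⟩⟩ - h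
  simp only [G4c_sh, Prod.mk.injEq] at h ⊢
  tauto

open scoped Classical in
theorem G4c_shift (E : Finset (ℕ × ℕ)) (Pr : (ℕ × ℕ) × (ℕ × ℕ × ℕ) → Prop) :
    ((K23 E).filter (fun t => Pr (G4c_sh t))).card ≤ ((K23 E).filter Pr).card := by
  apply card_le_card_of_injOn G4c_sh
  · intro t ht
    rw [mem_coe, mem_filter] at ht ⊢
    exact ⟨G4c_sh_mem ht.1, ht.2⟩
  · exact G4c_sh_inj _

/-- the discarded configurations (for the first two columns) -/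
def G4c_bad (c κ c2 H : ℝ) (E : Finset (ℕ × ℕ)) (z : ℕ → ℕ → ℤ) (t : (ℕ × ℕ) × (ℕ × ℕ × ℕ)) : Prop :=
  ((nb3 E t.2.1 t.2.2.1 t.2.2.2).card : ℝ) < H ^ (1 - c) ∨ BadRow c2 H E z t.1.1 t.1.2 ∨
    BadCol c2 H E z t.2.1 t.2.2.1 ∨
    (¬ BadRow c2 H E z t.1.1 t.1.2 ∧
      z t.1.1 t.2.1 * z t.1.2 t.2.2.1 - z t.1.1 t.2.2.1 * z t.1.2 t.2.1 = 0) ∨
    H ^ κ ≤ (gc z t.1.1 t.1.2 t.2.1 t.2.2.1 : ℝ)

open scoped Classical in
/-- few discarded configurations -/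
theorem G4c_count (c κ c2 c4 H X : ℝ) (hH : 1 ≤ H) (hX : 0 < X) (E : Finset (ℕ × ℕ)) (z : ℕ → ℕ → ℤ)
    (hz : ∀ w ∈ E, z w.1 w.2 ≠ 0)
    (hA : ((E.image Prod.fst).card : ℝ) ≤ X) (hB : ((E.image Prod.snd).card : ℝ) ≤ X)
    (hheavy : ((heavy κ H E z).card : ℝ) ≤ H ^ (4 - c4))
    (hcol : ∀ B : Finset (ℕ × ℕ), (∀ b ∈ B, BadCol c2 H E z b.1 b.2) → (B.card : ℝ) ≤ H ^ (2 - c2))
    (hrow : ∀ B : Finset (ℕ × ℕ), (∀ b ∈ B, BadRow c2 H E z b.1 b.2) → (B.card : ℝ) ≤ H ^ (2 - c2)) :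
    (((K23 E).filter (G4c_bad c κ c2 H E z)).card : ℝ) ≤ X ^ 3 * (H ^ (1 - c)) ^ 2 +
      H ^ (2 - c2) * X ^ 3 + H ^ (2 - c2) * X ^ 3 + X ^ 4 * H ^ (1 - c2) + H ^ (4 - c4) * X := by
  have hH0 : 0 < H := by linarith
  set A := E.image Prod.fst with hAdef
  set B := E.image Prod.snd with hBdef
  have hmem : ∀ t ∈ K23 E, (t.1.1 ∈ A ∧ t.1.2 ∈ A) ∧ (t.2.1 ∈ B ∧ t.2.2.1 ∈ B ∧ t.2.2.2 ∈ B) ∧
      (t.1.1, t.2.1) ∈ E ∧ (t.1.1, t.2.2.1) ∈ E ∧ (t.1.1, t.2.2.2) ∈ E ∧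
      (t.1.2, t.2.1) ∈ E ∧ (t.1.2, t.2.2.1) ∈ E ∧ (t.1.2, t.2.2.2) ∈ E := by
    intro t ht
    unfold K23 at ht
    simp only [mem_filter, mem_product] at ht
    exact ⟨ht.1.1, ht.1.2, ht.2⟩
  set s1 := (K23 E).filter (fun t => ((nb3 E t.2.1 t.2.2.1 t.2.2.2).card : ℝ) < H ^ (1 - c)) with hs1
  set s2 := (K23 E).filter (fun t => BadRow c2 H E z t.1.1 t.1.2) with hs2
  set s3 := (K23 E).filter (fun t => BadCol c2 H E z t.2.1 t.2.2.1) with hs3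
  set s4 := (K23 E).filter (fun t => ¬ BadRow c2 H E z t.1.1 t.1.2 ∧
      z t.1.1 t.2.1 * z t.1.2 t.2.2.1 - z t.1.1 t.2.2.1 * z t.1.2 t.2.1 = 0) with hs4
  set s5 := (K23 E).filter (fun t => H ^ κ ≤ (gc z t.1.1 t.1.2 t.2.1 t.2.2.1 : ℝ)) with hs5
  have hsub : (K23 E).filter (G4c_bad c κ c2 H E z) ⊆ s1 ∪ (s2 ∪ (s3 ∪ (s4 ∪ s5))) := by
    intro t ht
    simp only [mem_filter, G4c_bad] at ht
    simp only [mem_union, hs1, hs2, hs3, hs4, hs5, mem_filter]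
    tauto
  have hcard : ((K23 E).filter (G4c_bad c κ c2 H E z)).card ≤ s1.card + (s2.card + (s3.card +
      (s4.card + s5.card))) := by
    refine (card_le_card hsub).trans ((card_union_le _ _).trans ?_)
    refine Nat.add_le_add_left ((card_union_le _ _).trans ?_) _
    refine Nat.add_le_add_left ((card_union_le _ _).trans ?_) _
    exact Nat.add_le_add_left (card_union_le _ _) _
  -- 1: few common rows
  have b1 : (s1.card : ℝ) ≤ X ^ 3 * (H ^ (1 - c)) ^ 2 := by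
    have h1 : (s1.card : ℝ) ≤ ((B ×ˢ (B ×ˢ B)).card : ℝ) * (H ^ (1 - c)) ^ 2 := by
      apply G4c_fib s1 (B ×ˢ (B ×ˢ B)) (fun t => t.2)
      · intro t ht
        rw [hs1, mem_filter] at ht
        obtain ⟨-, ⟨h1, h2, h3⟩, -⟩ := hmem t ht.1
        simp only [mem_product]
        exact ⟨h1, h2, h3⟩
      · rintro ⟨q1, q2, q3⟩ -
        by_cases hsm : ((nb3 E q1 q2 q3).card : ℝ) < H ^ (1 - c)
        · have h2 : (s1.filter (fun t => t.2 = (q1, q2, q3))).card ≤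
              (nb3 E q1 q2 q3 ×ˢ nb3 E q1 q2 q3).card := by
            apply card_le_card_of_injOn (fun t => t.1)
            · intro t ht
              rw [mem_coe, mem_filter, hs1, mem_filter] at ht
              obtain ⟨⟨ht1, -⟩, ht2⟩ := ht
              obtain ⟨⟨a1, a2⟩, -, e1, e2, e3, e4, e5, e6⟩ := hmem t ht1
              rw [ht2] at e1 e2 e3 e4 e5 e6
              rw [mem_coe, mem_product]
              unfold nb3
              rw [mem_filter, mem_filter]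
              exact ⟨⟨a1, e1, e2, e3⟩, ⟨a2, e4, e5, e6⟩⟩
            · intro t ht t' ht' he
              rw [mem_coe, mem_filter] at ht ht'
              exact Prod.ext he (ht.2.trans ht'.2.symm)
          rw [card_product] at h2
          calc ((s1.filter (fun t => t.2 = (q1, q2, q3))).card : ℝ)
              ≤ (((nb3 E q1 q2 q3).card * (nb3 E q1 q2 q3).card : ℕ) : ℝ) := by exact_mod_cast h2
            _ = ((nb3 E q1 q2 q3).card : ℝ) * ((nb3 E q1 q2 q3).card : ℝ) := by push_cast; ring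
            _ ≤ H ^ (1 - c) * H ^ (1 - c) :=
                mul_le_mul hsm.le hsm.le (Nat.cast_nonneg _) (Real.rpow_nonneg hH0.le _)
            _ = (H ^ (1 - c)) ^ 2 := by ring
        · have h2 : s1.filter (fun t => t.2 = (q1, q2, q3)) = ∅ := by
            rw [filter_eq_empty_iff]
            intro t ht he
            rw [hs1, mem_filter] at ht
            apply hsm
            have := ht.2
            rw [he] at this
            exact this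
          rw [h2, card_empty, Nat.cast_zero]
          positivity
    refine h1.trans ?_
    have h3 : ((B ×ˢ (B ×ˢ B)).card : ℝ) ≤ X ^ 3 := by
      rw [card_product, card_product]
      push_cast
      calc (B.card : ℝ) * (B.card * B.card) = (B.card : ℝ) ^ 3 := by ring
        _ ≤ X ^ 3 := pow_le_pow_left₀ (Nat.cast_nonneg _) hB 3
    exact mul_le_mul_of_nonneg_right h3 (by positivity)
  -- 2: bad pairs of rows
  have b2 : (s2.card : ℝ) ≤ H ^ (2 - c2) * X ^ 3 := by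
    have h1 : (s2.card : ℝ) ≤ (((A ×ˢ A).filter (fun p => BadRow c2 H E z p.1 p.2)).card : ℝ) * X ^ 3 := by
      apply G4c_fib s2 _ (fun t => t.1)
      · intro t ht
        rw [hs2, mem_filter] at ht
        obtain ⟨h1, -⟩ := hmem t ht.1
        rw [mem_filter, mem_product]
        exact ⟨h1, ht.2⟩
      · intro p _
        have h2 : (s2.filter (fun t => t.1 = p)).card ≤ (B ×ˢ (B ×ˢ B)).card := by
          apply card_le_card_of_injOn (fun t => t.2)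
          · intro t ht
            rw [mem_coe, mem_filter, hs2, mem_filter] at ht
            obtain ⟨-, ⟨h1, h2, h3⟩, -⟩ := hmem t ht.1.1
            rw [mem_coe]
            simp only [mem_product]
            exact ⟨h1, h2, h3⟩
          · intro t ht t' ht' he
            rw [mem_coe, mem_filter] at ht ht'
            exact Prod.ext (ht.2.trans ht'.2.symm) he
        rw [card_product, card_product] at h2
        calc ((s2.filter (fun t => t.1 = p)).card : ℝ) ≤ ((B.card * (B.card * B.card) : ℕ) : ℝ) := by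
              exact_mod_cast h2
          _ = (B.card : ℝ) ^ 3 := by push_cast; ring
          _ ≤ X ^ 3 := pow_le_pow_left₀ (Nat.cast_nonneg _) hB 3
    refine h1.trans (mul_le_mul_of_nonneg_right (hrow _ ?_) (by positivity))
    intro b hb
    exact (mem_filter.1 hb).2
  -- 3: bad pairs of columns
  have b3 : (s3.card : ℝ) ≤ H ^ (2 - c2) * X ^ 3 := by
    have h1 : (s3.card : ℝ) ≤ (((B ×ˢ B).filter (fun p => BadCol c2 H E z p.1 p.2)).card : ℝ) * X ^ 3 := by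
      apply G4c_fib s3 _ (fun t => (t.2.1, t.2.2.1))
      · intro t ht
        rw [hs3, mem_filter] at ht
        obtain ⟨-, ⟨h1, h2, -⟩, -⟩ := hmem t ht.1
        rw [mem_filter, mem_product]
        exact ⟨⟨h1, h2⟩, ht.2⟩
      · intro p _
        have h2 : (s3.filter (fun t => (t.2.1, t.2.2.1) = p)).card ≤ ((A ×ˢ A) ×ˢ B).card := by
          apply card_le_card_of_injOn (fun t => (t.1, t.2.2.2))
          · intro t ht
            rw [mem_coe, mem_filter, hs3, mem_filter] at ht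
            obtain ⟨⟨a1, a2⟩, ⟨h1, h2, h3⟩, -⟩ := hmem t ht.1.1
            rw [mem_coe]
            simp only [mem_product]
            exact ⟨⟨a1, a2⟩, h3⟩
          · rintro ⟨⟨x1, x2⟩, ⟨y1, y2, y3⟩⟩ ht ⟨⟨x1', x2'⟩, ⟨y1', y2', y3'⟩⟩ ht' he
            rw [mem_coe, mem_filter] at ht ht'
            have h5 := ht.2.trans ht'.2.symm
            simp only [Prod.mk.injEq] at he h5 ⊢
            tauto
        rw [card_product, card_product] at h2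
        calc ((s3.filter (fun t => (t.2.1, t.2.2.1) = p)).card : ℝ)
            ≤ ((A.card * A.card * B.card : ℕ) : ℝ) := by exact_mod_cast h2
          _ = (A.card : ℝ) * A.card * B.card := by push_cast; ring
          _ ≤ X * X * X := by gcongr
          _ = X ^ 3 := by ring
    refine h1.trans (mul_le_mul_of_nonneg_right (hcol _ ?_) (by positivity))
    intro b hb
    exact (mem_filter.1 hb).2
  -- 4: zero determinants
  have b4 : (s4.card : ℝ) ≤ X ^ 4 * H ^ (1 - c2) := by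
    have h1 : (s4.card : ℝ) ≤ (((A ×ˢ A) ×ˢ B).card : ℝ) * (H ^ (1 - c2) * X) := by
      apply G4c_fib s4 _ (fun t => (t.1, t.2.1))
      · intro t ht
        rw [hs4, mem_filter] at ht
        obtain ⟨⟨a1, a2⟩, ⟨h1, -, -⟩, -⟩ := hmem t ht.1
        simp only [mem_product]
        exact ⟨⟨a1, a2⟩, h1⟩
      · rintro ⟨⟨p1, p2⟩, q⟩ -
        by_cases hgood : ¬ BadRow c2 H E z p1 p2 ∧ (p1, q) ∈ E ∧ (p2, q) ∈ E
        · obtain ⟨hbr, hq1, hq2⟩ := hgood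
          set L := B.filter (fun q' => (p1, q') ∈ E ∧ (p2, q') ∈ E ∧
            z p2 q * z p1 q' = z p1 q * z p2 q') with hL
          have hLc : (L.card : ℝ) < H ^ (1 - c2) := by
            by_contra hcon
            push Not at hcon
            apply hbr
            refine ⟨z p1 q, z p2 q, Or.inl (hz _ hq1), ?_⟩
            rw [← hBdef]
            convert hcon using 2
          have h2 : (s4.filter (fun t => (t.1, t.2.1) = ((p1, p2), q))).card ≤ (L ×ˢ B).card := by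
            apply card_le_card_of_injOn (fun t => (t.2.2.1, t.2.2.2))
            · rintro ⟨⟨x1, x2⟩, ⟨y1, y2, y3⟩⟩ ht
              rw [mem_coe, mem_filter, hs4, mem_filter] at ht
              obtain ⟨⟨ht1, -, hdet⟩, he⟩ := ht
              obtain ⟨-, ⟨g1, g2, g3⟩, e1, e2, e3, e4, e5, e6⟩ := hmem _ ht1
              simp only [Prod.mk.injEq] at he g1 g2 g3 e1 e2 e3 e4 e5 e6 hdet
              obtain ⟨⟨rfl, rfl⟩, rfl⟩ := he
              rw [mem_coe, mem_product, hL, mem_filter]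
              refine ⟨⟨g2, e2, e5, ?_⟩, g3⟩
              linarith
            · rintro ⟨⟨x1, x2⟩, ⟨y1, y2, y3⟩⟩ ht ⟨⟨x1', x2'⟩, ⟨y1', y2', y3'⟩⟩ ht' he
              rw [mem_coe, mem_filter] at ht ht'
              have h5 := ht.2.trans ht'.2.symm
              simp only [Prod.mk.injEq] at he h5 ⊢
              tauto
          rw [card_product] at h2
          calc ((s4.filter (fun t => (t.1, t.2.1) = ((p1, p2), q))).card : ℝ)
              ≤ ((L.card * B.card : ℕ) : ℝ) := by exact_mod_cast h2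
            _ = (L.card : ℝ) * B.card := by push_cast; ring
            _ ≤ H ^ (1 - c2) * X :=
                mul_le_mul hLc.le hB (Nat.cast_nonneg _) (Real.rpow_nonneg hH0.le _)
        · have h2 : s4.filter (fun t => (t.1, t.2.1) = ((p1, p2), q)) = ∅ := by
            rw [filter_eq_empty_iff]
            rintro ⟨⟨x1, x2⟩, ⟨y1, y2, y3⟩⟩ ht he
            rw [hs4, mem_filter] at ht
            obtain ⟨-, -, e1, e2, e3, e4, e5, e6⟩ := hmem _ ht.1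
            simp only [Prod.mk.injEq] at he e1 e4
            obtain ⟨⟨rfl, rfl⟩, rfl⟩ := he
            exact hgood ⟨ht.2.1, e1, e4⟩
          rw [h2, card_empty, Nat.cast_zero]
          positivity
    refine h1.trans ?_
    have h3 : (((A ×ˢ A) ×ˢ B).card : ℝ) ≤ X ^ 3 := by
      rw [card_product, card_product]
      push_cast
      calc (A.card : ℝ) * A.card * B.card ≤ X * X * X := by gcongr
        _ = X ^ 3 := by ring
    calc (((A ×ˢ A) ×ˢ B).card : ℝ) * (H ^ (1 - c2) * X) ≤ X ^ 3 * (H ^ (1 - c2) * X) :=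
          mul_le_mul_of_nonneg_right h3 (by positivity)
      _ = X ^ 4 * H ^ (1 - c2) := by ring
  -- 5: heavy quadruples
  have b5 : (s5.card : ℝ) ≤ H ^ (4 - c4) * X := by
    have h1 : (s5.card : ℝ) ≤ ((heavy κ H E z).card : ℝ) * X := by
      apply G4c_fib s5 _ (fun t => ((t.1.1, t.2.1), (t.1.2, t.2.2.1)))
      · intro t ht
        rw [hs5, mem_filter] at ht
        obtain ⟨-, -, e1, e2, e3, e4, e5, e6⟩ := hmem t ht.1
        unfold heavy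
        rw [mem_filter, mem_product]
        exact ⟨⟨e1, e5⟩, e2, e4, ht.2⟩
      · intro w _
        have h2 : (s5.filter (fun t => ((t.1.1, t.2.1), (t.1.2, t.2.2.1)) = w)).card ≤ B.card := by
          apply card_le_card_of_injOn (fun t => t.2.2.2)
          · intro t ht
            rw [mem_coe, mem_filter, hs5, mem_filter] at ht
            exact (hmem t ht.1.1).2.1.2.2
          · rintro ⟨⟨x1, x2⟩, ⟨y1, y2, y3⟩⟩ ht ⟨⟨x1', x2'⟩, ⟨y1', y2', y3'⟩⟩ ht' he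
            rw [mem_coe, mem_filter] at ht ht'
            have h5 := ht.2.trans ht'.2.symm
            simp only [Prod.mk.injEq] at he h5 ⊢
            tauto
        exact (Nat.cast_le.2 h2).trans hB
    exact h1.trans (mul_le_mul_of_nonneg_right hheavy hX.le)
  have hfin : (((K23 E).filter (G4c_bad c κ c2 H E z)).card : ℝ) ≤ (s1.card : ℝ) + ((s2.card : ℝ) +
      ((s3.card : ℝ) + ((s4.card : ℝ) + (s5.card : ℝ)))) := by exact_mod_cast hcard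
  linarith

/-- the relation for one third column, with the coefficient of the third column positive and largest -/
theorem G4c_rel {K δ H : ℝ} (hH : (10 : ℝ) ^ 6 ≤ H) {e f : ℕ} {E : Finset (ℕ × ℕ)} {z : ℕ → ℕ → ℤ} {N : ℕ}
    {Z η κ : ℝ} {v : ℤ} (h : Grid K δ H e f E z N Z η κ v) (hm : Minor E z N) (P1 P2 Q1 Q2 Q3 : ℕ)
    (h11 : (P1, Q1) ∈ E) (h12 : (P1, Q2) ∈ E) (h13 : (P1, Q3) ∈ E) (h21 : (P2, Q1) ∈ E) (h22 : (P2, Q2) ∈ E)
    (h23 : (P2, Q3) ∈ E) (hd : z P1 Q1 * z P2 Q2 - z P1 Q2 * z P2 Q1 ≠ 0)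
    (ht1 : |z P1 Q2 * z P2 Q3 - z P1 Q3 * z P2 Q2| ≤ |z P1 Q1 * z P2 Q2 - z P1 Q2 * z P2 Q1|)
    (ht2 : |z P1 Q3 * z P2 Q1 - z P1 Q1 * z P2 Q3| ≤ |z P1 Q1 * z P2 Q2 - z P1 Q2 * z P2 Q1|) :
    ∃ (D : ℕ) (w : ℤ × ℤ), 1 ≤ D ∧ (D : ℤ) ∣ z P1 Q1 * z P2 Q2 - z P1 Q2 * z P2 Q1 ∧ |w.1| ≤ D ∧ |w.2| ≤ D ∧
      (∃ u1 u2 u3 : ℤ, u1 * w.1 + u2 * w.2 + u3 * (D : ℤ) = 1) ∧
      ∀ P ∈ nb3 E Q1 Q2 Q3, w.1 * z P Q1 + w.2 * z P Q2 + (D : ℤ) * z P Q3 = 0 := by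
  obtain ⟨a1, a2, a3, ⟨u1, u2, u3, hu⟩, ⟨k, e1, e2, e3⟩, hrel⟩ :=
    relation hH h hm P1 P2 Q1 Q2 Q3 h11 h12 h13 h21 h22 h23 hd
  rw [e3] at hd
  have hk : k ≠ 0 := left_ne_zero_of_mul hd
  have ha3 : a3 ≠ 0 := right_ne_zero_of_mul hd
  rw [e1, e3, abs_mul, abs_mul] at ht1
  rw [e2, e3, abs_mul, abs_mul] at ht2
  have hk' : 0 < |k| := abs_pos.2 hk
  have b1 : |a1| ≤ |a3| := le_of_mul_le_mul_left ht1 hk'
  have b2 : |a2| ≤ |a3| := le_of_mul_le_mul_left ht2 hk'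
  obtain ⟨s, hs, hsa⟩ : ∃ s : ℤ, (s = 1 ∨ s = -1) ∧ s * a3 = (a3.natAbs : ℤ) := by
    rcases le_or_gt 0 a3 with h0 | h0
    · exact ⟨1, Or.inl rfl, by rw [one_mul, Int.natAbs_of_nonneg h0]⟩
    · exact ⟨-1, Or.inr rfl, by omega⟩
  have hs2 : s * s = 1 := by rcases hs with rfl | rfl <;> norm_num
  have hsabs : |s| = 1 := by rcases hs with rfl | rfl <;> norm_num
  have hnat : ((a3.natAbs : ℕ) : ℤ) = |a3| := Int.natCast_natAbs a3
  refine ⟨a3.natAbs, (s * a1, s * a2), ?_, ?_, ?_, ?_, ⟨s * u1, s * u2, u3 * s, ?_⟩, ?_⟩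
  · exact Int.natAbs_pos.2 ha3
  · rw [e3, Int.natAbs_dvd]
    exact dvd_mul_left _ _
  · rw [hnat]
    show |s * a1| ≤ |a3|
    rw [abs_mul, hsabs, one_mul]
    exact b1
  · rw [hnat]
    show |s * a2| ≤ |a3|
    rw [abs_mul, hsabs, one_mul]
    exact b2
  · show s * u1 * (s * a1) + s * u2 * (s * a2) + u3 * s * ((a3.natAbs : ℕ) : ℤ) = 1
    rw [← hsa]
    have : s * u1 * (s * a1) + s * u2 * (s * a2) + u3 * s * (s * a3) =
        (s * s) * (u1 * a1 + u2 * a2 + u3 * a3) := by ring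
    rw [this, hs2, hu, one_mul]
  · intro P hP
    show s * a1 * z P Q1 + s * a2 * z P Q2 + ((a3.natAbs : ℕ) : ℤ) * z P Q3 = 0
    rw [← hsa]
    have : s * a1 * z P Q1 + s * a2 * z P Q2 + s * a3 * z P Q3 =
        s * (a1 * z P Q1 + a2 * z P Q2 + a3 * z P Q3) := by ring
    rw [this, hrel P hP, mul_zero]

/-- determinant of the first two columns -/
def G4c_dd (z : ℕ → ℕ → ℤ) (t : (ℕ × ℕ) × (ℕ × ℕ × ℕ)) : ℤ :=
  z t.1.1 t.2.1 * z t.1.2 t.2.2.1 - z t.1.1 t.2.2.1 * z t.1.2 t.2.1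

/-- the good configurations with the largest first determinant -/
def G4c_R (c κ c2 H : ℝ) (E : Finset (ℕ × ℕ)) (z : ℕ → ℕ → ℤ) (t : (ℕ × ℕ) × (ℕ × ℕ × ℕ)) : Prop :=
  (¬ G4c_bad c κ c2 H E z t ∧ ¬ G4c_bad c κ c2 H E z (G4c_sh t) ∧ ¬ G4c_bad c κ c2 H E z (G4c_sh (G4c_sh t))) ∧
  |G4c_dd z (G4c_sh t)| ≤ |G4c_dd z t| ∧ |G4c_dd z (G4c_sh (G4c_sh t))| ≤ |G4c_dd z t|

theorem G4c_sh3 (t : (ℕ × ℕ) × (ℕ × ℕ × ℕ)) : G4c_sh (G4c_sh (G4c_sh t)) = t := rfl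

open scoped Classical in
theorem G4c_many (c κ c2 H : ℝ) (E : Finset (ℕ × ℕ)) (z : ℕ → ℕ → ℤ) :
    (K23 E).card ≤ 3 * ((K23 E).filter (G4c_R c κ c2 H E z)).card +
      3 * ((K23 E).filter (G4c_bad c κ c2 H E z)).card := by
  set R := G4c_R c κ c2 H E z with hR
  set B := G4c_bad c κ c2 H E z with hB
  have r1 := G4c_shift E R
  have r2 := G4c_shift E (fun t => R (G4c_sh t))
  have k1 := G4c_shift E B
  have k2 := G4c_shift E (fun t => B (G4c_sh t))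
  have hsub : K23 E ⊆ (((K23 E).filter R ∪ (K23 E).filter (fun t => R (G4c_sh t))) ∪
      (K23 E).filter (fun t => R (G4c_sh (G4c_sh t)))) ∪
      (((K23 E).filter B ∪ (K23 E).filter (fun t => B (G4c_sh t))) ∪
      (K23 E).filter (fun t => B (G4c_sh (G4c_sh t)))) := by
    intro t ht
    simp only [mem_union, mem_filter]
    by_cases h1 : B t
    · exact Or.inr (Or.inl (Or.inl ⟨ht, h1⟩))
    by_cases h2 : B (G4c_sh t)
    · exact Or.inr (Or.inl (Or.inr ⟨ht, h2⟩))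
    by_cases h3 : B (G4c_sh (G4c_sh t))
    · exact Or.inr (Or.inr ⟨ht, h3⟩)
    left
    have key : R t ∨ R (G4c_sh t) ∨ R (G4c_sh (G4c_sh t)) := by
      simp only [hR, G4c_R, G4c_sh3]
      rcases le_total |G4c_dd z (G4c_sh t)| |G4c_dd z t| with a1 | a1 <;>
      rcases le_total |G4c_dd z (G4c_sh (G4c_sh t))| |G4c_dd z t| with a2 | a2 <;>
      rcases le_total |G4c_dd z (G4c_sh (G4c_sh t))| |G4c_dd z (G4c_sh t)| with a3 | a3
      · exact Or.inl ⟨⟨h1, h2, h3⟩, a1, a2⟩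
      · exact Or.inl ⟨⟨h1, h2, h3⟩, a1, a2⟩
      · exact Or.inr (Or.inr ⟨⟨h3, h1, h2⟩, a2, a1.trans a2⟩)
      · exact Or.inr (Or.inr ⟨⟨h3, h1, h2⟩, a2, a3⟩)
      · exact Or.inr (Or.inl ⟨⟨h2, h3, h1⟩, a3, a1⟩)
      · exact Or.inr (Or.inl ⟨⟨h2, h3, h1⟩, a2.trans a1, a1⟩)
      · exact Or.inr (Or.inl ⟨⟨h2, h3, h1⟩, a3, a1⟩)
      · exact Or.inr (Or.inr ⟨⟨h3, h1, h2⟩, a2, a3⟩)
    rcases key with k | k | k
    · exact Or.inl (Or.inl ⟨ht, k⟩)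
    · exact Or.inl (Or.inr ⟨ht, k⟩)
    · exact Or.inr ⟨ht, k⟩
  have hc := card_le_card hsub
  have u1 := card_union_le ((((K23 E).filter R ∪ (K23 E).filter (fun t => R (G4c_sh t))) ∪
      (K23 E).filter (fun t => R (G4c_sh (G4c_sh t))))) ((((K23 E).filter B ∪ (K23 E).filter (fun t => B (G4c_sh t))) ∪
      (K23 E).filter (fun t => B (G4c_sh (G4c_sh t)))))
  have u2 := card_union_le ((K23 E).filter R ∪ (K23 E).filter (fun t => R (G4c_sh t)))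
      ((K23 E).filter (fun t => R (G4c_sh (G4c_sh t))))
  have u3 := card_union_le ((K23 E).filter R) ((K23 E).filter (fun t => R (G4c_sh t)))
  have u4 := card_union_le ((K23 E).filter B ∪ (K23 E).filter (fun t => B (G4c_sh t)))
      ((K23 E).filter (fun t => B (G4c_sh (G4c_sh t))))
  have u5 := card_union_le ((K23 E).filter B) ((K23 E).filter (fun t => B (G4c_sh t)))
  omega

theorem G4c_ev (C x y : ℝ) (h : x < y) : ∃ Y0 : ℝ, 1 ≤ Y0 ∧ ∀ Y : ℝ, Y0 ≤ Y → C * Y ^ x < Y ^ y := by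
  have h1 := tendsto_rpow_atTop (show 0 < y - x by linarith)
  obtain ⟨Y1, hY1⟩ := Filter.eventually_atTop.1 (h1.eventually_gt_atTop C)
  refine ⟨max 1 Y1, le_max_left _ _, fun Y hY => ?_⟩
  have hY0 : 0 < Y := lt_of_lt_of_le one_pos ((le_max_left _ _).trans hY)
  have h2 := hY1 Y ((le_max_right _ _).trans hY)
  have h3 : 0 < Y ^ x := Real.rpow_pos_of_pos hY0 _
  calc C * Y ^ x < Y ^ (y - x) * Y ^ x := mul_lt_mul_of_pos_right h2 h3
    _ = Y ^ y := by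
        rw [← Real.rpow_add hY0]
        congr 1
        ring

/-- the numbers of the count -/
theorem G4c_num (c c2 c4 δ m H X : ℝ) (hH : 1 ≤ H) (hδ : 0 < δ) (hmc : m ≤ c) (hc : 0 < c) (hm2 : m ≤ c2)
    (hm4 : m ≤ c4) (hX : X = 2 * H ^ (1 + δ)) :
    X ^ 3 * (H ^ (1 - c)) ^ 2 + H ^ (2 - c2) * X ^ 3 + H ^ (2 - c2) * X ^ 3 + X ^ 4 * H ^ (1 - c2) +
      H ^ (4 - c4) * X ≤ 80 * H ^ (5 + 4 * δ - m) := by
  have hH0 : 0 < H := by linarith
  have x3 : X ^ 3 = 8 * H ^ (3 + 3 * δ) := by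
    rw [hX, mul_pow, ← Real.rpow_natCast (H ^ (1 + δ)), ← Real.rpow_mul hH0.le]
    push_cast
    norm_num
    congr 1
    ring
  have x4 : X ^ 4 = 16 * H ^ (4 + 4 * δ) := by
    rw [hX, mul_pow, ← Real.rpow_natCast (H ^ (1 + δ)), ← Real.rpow_mul hH0.le]
    push_cast
    norm_num
    congr 1
    ring
  have c2' : (H ^ (1 - c)) ^ 2 = H ^ (2 - 2 * c) := by
    rw [← Real.rpow_natCast (H ^ (1 - c)), ← Real.rpow_mul hH0.le]
    push_cast
    congr 1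
    ring
  have W0 : 0 < H ^ (5 + 4 * δ - m) := Real.rpow_pos_of_pos hH0 _
  have t1 : X ^ 3 * (H ^ (1 - c)) ^ 2 ≤ 16 * H ^ (5 + 4 * δ - m) := by
    rw [x3, c2', mul_assoc, ← Real.rpow_add hH0]
    have : H ^ (3 + 3 * δ + (2 - 2 * c)) ≤ H ^ (5 + 4 * δ - m) :=
      Real.rpow_le_rpow_of_exponent_le hH (by linarith)
    linarith
  have t2 : H ^ (2 - c2) * X ^ 3 ≤ 16 * H ^ (5 + 4 * δ - m) := by
    rw [x3, mul_left_comm, ← Real.rpow_add hH0]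
    have : H ^ (2 - c2 + (3 + 3 * δ)) ≤ H ^ (5 + 4 * δ - m) :=
      Real.rpow_le_rpow_of_exponent_le hH (by linarith)
    linarith
  have t4 : X ^ 4 * H ^ (1 - c2) ≤ 16 * H ^ (5 + 4 * δ - m) := by
    rw [x4, mul_assoc, ← Real.rpow_add hH0]
    have : H ^ (4 + 4 * δ + (1 - c2)) ≤ H ^ (5 + 4 * δ - m) :=
      Real.rpow_le_rpow_of_exponent_le hH (by linarith)
    linarith
  have t5 : H ^ (4 - c4) * X ≤ 16 * H ^ (5 + 4 * δ - m) := by
    rw [hX, mul_left_comm, ← Real.rpow_add hH0]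
    have : H ^ (4 - c4 + (1 + δ)) ≤ H ^ (5 + 4 * δ - m) :=
      Real.rpow_le_rpow_of_exponent_le hH (by linarith)
    linarith
  linarith

theorem G4c_image_card (s : Finset ℕ) (δ H : ℝ) (hH : 1 ≤ H) (hδ : 0 < δ) (h : ∀ x ∈ s, (x : ℝ) ≤ H ^ (1 + δ)) :
    (s.card : ℝ) ≤ 2 * H ^ (1 + δ) := by
  have h1 : s ⊆ range (⌊H ^ (1 + δ)⌋₊ + 1) := by
    intro x hx
    rw [mem_range, Nat.lt_succ_iff]
    exact Nat.le_floor (h x hx)
  have h2 := card_le_card h1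
  rw [card_range] at h2
  have h3 : (s.card : ℝ) ≤ (⌊H ^ (1 + δ)⌋₊ : ℝ) + 1 := by exact_mod_cast h2
  have h4 : (⌊H ^ (1 + δ)⌋₊ : ℝ) ≤ H ^ (1 + δ) := Nat.floor_le (by positivity)
  have h5 : (1 : ℝ) ≤ H ^ (1 + δ) := Real.one_le_rpow hH (by linarith)
  linarith

/-- (o3-G4c) THE CHOICE, (2.5).  From the `≥ H^(5-13δ)` elements of `K23 E` discard: few common rows (`< H^(1-c)`), bad pairs, zero
determinants, heavy quadruples; permute the columns so that `|a3|` is the largest; popular `(P1,P2,Q1,Q2)` and popular `D = |a3|`,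
a divisor of the determinant. -/
theorem choice (K c κ c2 c4 : ℝ) (hK : 0 < K) (hc : 0 < c) (hc2 : 0 < c2) (hc4 : 0 < c4) (e f : ℕ) :
    ∃ δ H0 : ℝ, 0 < δ ∧ 1 ≤ H0 ∧ ∀ H : ℝ, H0 ≤ H →
    ∀ (E : Finset (ℕ × ℕ)) (z : ℕ → ℕ → ℤ) (N : ℕ) (Z η κ' : ℝ) (v : ℤ), Grid K δ H e f E z N Z η κ' v → Minor E z N →
    H ^ (2 - δ) ≤ (E.card : ℝ) → ((heavy κ H E z).card : ℝ) ≤ H ^ (4 - c4) →
    (∀ B : Finset (ℕ × ℕ), (∀ b ∈ B, BadCol c2 H E z b.1 b.2) → (B.card : ℝ) ≤ H ^ (2 - c2)) →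
    (∀ B : Finset (ℕ × ℕ), (∀ b ∈ B, BadRow c2 H E z b.1 b.2) → (B.card : ℝ) ≤ H ^ (2 - c2)) →
    ∃ (P1 P2 Q1 Q2 D : ℕ) (T : Finset ℕ) (ω : ℕ → ℤ × ℤ), Choice c κ c2 H E z P1 P2 Q1 Q2 D T ω := by
  classical
  set m : ℝ := min (min c c2) c4 with hm
  have hm0 : 0 < m := lt_min (lt_min hc hc2) hc4
  have hmc : m ≤ c := (min_le_left _ _).trans (min_le_left _ _)
  have hmc2 : m ≤ c2 := (min_le_left _ _).trans (min_le_right _ _)
  have hmc4 : m ≤ c4 := min_le_right _ _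
  set δ : ℝ := m / 40 with hδ
  have hδ0 : 0 < δ := by positivity
  set ε : ℝ := δ / (2 * K) with hε
  have hε0 : 0 < ε := by positivity
  obtain ⟨C, hC0, hC⟩ := Hp.card_divisors_le ε hε0
  obtain ⟨Y1, hY1, hev1⟩ := G4c_ev 61440 (5 + 4 * δ - m) (5 - 13 * δ) (by rw [hδ]; linarith)
  obtain ⟨Y2, hY2, hev2⟩ := G4c_ev (12288 * (C * 2 ^ ε)) (1 - c + δ) (1 - 17 * δ) (by rw [hδ]; linarith)
  refine ⟨δ, max (10 ^ 6) (max Y1 Y2), hδ0, ?_, ?_⟩
  · exact le_max_of_le_left (by norm_num)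
  intro H hH E z N Z η κ' v hG hMin hE hheavy hcol hrow
  have hH6 : (10 : ℝ) ^ 6 ≤ H := (le_max_left _ _).trans hH
  have hH1 : 1 ≤ H := le_trans (by norm_num) hH6
  have hH0 : 0 < H := by linarith
  have ev1 := hev1 H (((le_max_left _ _).trans (le_max_right _ _)).trans hH)
  have ev2 := hev2 H (((le_max_right _ _).trans (le_max_right _ _)).trans hH)
  set X : ℝ := 2 * H ^ (1 + δ) with hX
  have hX0 : 0 < X := by positivity
  have hA : ((E.image Prod.fst).card : ℝ) ≤ X := by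
    apply G4c_image_card _ δ H hH1 hδ0
    intro x hx
    obtain ⟨w, hw, rfl⟩ := mem_image.1 hx
    exact (hG.pr1 w hw).2.2
  have hB : ((E.image Prod.snd).card : ℝ) ≤ X := by
    apply G4c_image_card _ δ H hH1 hδ0
    intro x hx
    obtain ⟨w, hw, rfl⟩ := mem_image.1 hx
    exact (hG.pr2 w hw).2.2
  have hz : ∀ w ∈ E, z w.1 w.2 ≠ 0 := by
    intro w hw h0
    have h1 := hG.zlo w hw
    rw [h0] at h1
    have := hG.Z0
    simp at h1
    linarith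
  have hcount := G4c_count c κ c2 c4 H X hH1 hX0 E z hz hA hB hheavy hcol hrow
  have hnum := G4c_num c c2 c4 δ m H X hH1 hδ0 hmc hc hmc2 hmc4 hX
  -- the number of configurations
  have hK23 : H ^ (5 - 13 * δ) / 128 ≤ ((K23 E).card : ℝ) := by
    have h1 := card_K23 E X hX0 hA hB
    have h2 : (H ^ (2 - δ)) ^ 6 ≤ (E.card : ℝ) ^ 6 :=
      pow_le_pow_left₀ (Real.rpow_nonneg hH0.le _) hE 6
    have h3 : (H ^ (2 - δ)) ^ 6 = H ^ (12 - 6 * δ) := by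
      rw [← Real.rpow_natCast (H ^ (2 - δ)), ← Real.rpow_mul hH0.le]
      push_cast
      congr 1
      ring
    have h4 : X ^ 7 = 128 * H ^ (7 + 7 * δ) := by
      rw [hX, mul_pow, ← Real.rpow_natCast (H ^ (1 + δ)), ← Real.rpow_mul hH0.le]
      push_cast
      norm_num
      congr 1
      ring
    have h5 : H ^ (12 - 6 * δ) = H ^ (7 + 7 * δ) * H ^ (5 - 13 * δ) := by
      rw [← Real.rpow_add hH0]
      congr 1
      ring
    have h6 : 0 < H ^ (7 + 7 * δ) := Real.rpow_pos_of_pos hH0 _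
    have h7 : H ^ (7 + 7 * δ) * H ^ (5 - 13 * δ) ≤ H ^ (7 + 7 * δ) * (128 * ((K23 E).card : ℝ)) := by
      calc H ^ (7 + 7 * δ) * H ^ (5 - 13 * δ) = (H ^ (2 - δ)) ^ 6 := by rw [h3, h5]
        _ ≤ (E.card : ℝ) ^ 6 := h2
        _ ≤ X ^ 7 * ((K23 E).card : ℝ) := h1
        _ = H ^ (7 + 7 * δ) * (128 * ((K23 E).card : ℝ)) := by rw [h4]; ring
    have h8 := le_of_mul_le_mul_left h7 h6
    linarith
  set GT := (K23 E).filter (G4c_R c κ c2 H E z) with hGT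
  have hGTc : H ^ (5 - 13 * δ) / 768 ≤ (GT.card : ℝ) := by
    have h1 := G4c_many c κ c2 H E z
    have h2 : ((K23 E).card : ℝ) ≤ 3 * (GT.card : ℝ) +
        3 * (((K23 E).filter (G4c_bad c κ c2 H E z)).card : ℝ) := by exact_mod_cast h1
    linarith
  -- popular rows and columns
  set A := E.image Prod.fst with hAdef
  set B := E.image Prod.snd with hBdef
  have hmem : ∀ t ∈ K23 E, (t.1.1 ∈ A ∧ t.1.2 ∈ A) ∧ (t.2.1 ∈ B ∧ t.2.2.1 ∈ B ∧ t.2.2.2 ∈ B) ∧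
      (t.1.1, t.2.1) ∈ E ∧ (t.1.1, t.2.2.1) ∈ E ∧ (t.1.1, t.2.2.2) ∈ E ∧
      (t.1.2, t.2.1) ∈ E ∧ (t.1.2, t.2.2.1) ∈ E ∧ (t.1.2, t.2.2.2) ∈ E := by
    intro t ht
    unfold K23 at ht
    simp only [mem_filter, mem_product] at ht
    exact ⟨ht.1.1, ht.1.2, ht.2⟩
  have hx4 : X ^ 4 = 16 * H ^ (4 + 4 * δ) := by
    rw [hX, mul_pow, ← Real.rpow_natCast (H ^ (1 + δ)), ← Real.rpow_mul hH0.le]
    push_cast
    norm_num
    congr 1
    ring
  obtain ⟨⟨⟨P1, P2⟩, ⟨Q1, Q2⟩⟩, -, hfib⟩ := G4c_pop GT ((A ×ˢ A) ×ˢ (B ×ˢ B))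
    (fun t => (t.1, (t.2.1, t.2.2.1))) (H ^ (5 - 13 * δ) / 768) (X ^ 4) (by positivity)
    (by
      intro t ht
      obtain ⟨h1, ⟨h2, h3, -⟩, -⟩ := hmem t (mem_filter.1 ht).1
      simp only [mem_product]
      exact ⟨h1, h2, h3⟩)
    (by
      rw [card_product, card_product, card_product]
      push_cast
      calc (A.card : ℝ) * A.card * (B.card * B.card) ≤ X * X * (X * X) := by gcongr
        _ = X ^ 4 := by ring)
    hGTc (by positivity)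
  set Fib := GT.filter (fun t => (t.1, (t.2.1, t.2.2.1)) = ((P1, P2), (Q1, Q2))) with hFib
  set T0 := Fib.image (fun t => t.2.2.2) with hT0
  have hT0c : T0.card = Fib.card := by
    rw [hT0]
    apply card_image_of_injOn
    rintro ⟨⟨x1, x2⟩, ⟨y1, y2, y3⟩⟩ ht ⟨⟨x1', x2'⟩, ⟨y1', y2', y3'⟩⟩ ht' he
    rw [mem_coe, hFib, mem_filter] at ht ht'
    have h5 := ht.2.trans ht'.2.symm
    simp only [Prod.mk.injEq] at he h5 ⊢
    tauto
  have hT0m : ∀ Q ∈ T0, (((P1, P2), (Q1, Q2, Q)) : (ℕ × ℕ) × (ℕ × ℕ × ℕ)) ∈ GT := by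
    intro Q hQ
    rw [hT0, mem_image] at hQ
    obtain ⟨⟨⟨x1, x2⟩, ⟨y1, y2, y3⟩⟩, ht, he⟩ := hQ
    rw [hFib, mem_filter] at ht
    obtain ⟨ht1, ht2⟩ := ht
    simp only [Prod.mk.injEq] at ht2 he
    obtain ⟨⟨rfl, rfl⟩, rfl, rfl⟩ := ht2
    subst he
    exact ht1
  -- properties of the elements
  have hprop : ∀ Q ∈ T0, (P1, Q1) ∈ E ∧ (P1, Q2) ∈ E ∧ (P1, Q) ∈ E ∧ (P2, Q1) ∈ E ∧ (P2, Q2) ∈ E ∧ (P2, Q) ∈ E ∧
      H ^ (1 - c) ≤ ((nb3 E Q1 Q2 Q).card : ℝ) ∧ ¬ BadRow c2 H E z P1 P2 ∧ ¬ BadCol c2 H E z Q1 Q2 ∧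
      z P1 Q1 * z P2 Q2 - z P1 Q2 * z P2 Q1 ≠ 0 ∧ (gc z P1 P2 Q1 Q2 : ℝ) < H ^ κ ∧
      |z P1 Q2 * z P2 Q - z P1 Q * z P2 Q2| ≤ |z P1 Q1 * z P2 Q2 - z P1 Q2 * z P2 Q1| ∧
      |z P1 Q * z P2 Q1 - z P1 Q1 * z P2 Q| ≤ |z P1 Q1 * z P2 Q2 - z P1 Q2 * z P2 Q1| := by
    intro Q hQ
    have h1 := hT0m Q hQ
    rw [hGT, mem_filter] at h1
    obtain ⟨h1, ⟨hb, -, -⟩, ht1, ht2⟩ := h1
    obtain ⟨-, -, e1, e2, e3, e4, e5, e6⟩ := hmem _ h1
    simp only [G4c_bad, not_or, not_lt, not_and, not_le] at hb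
    obtain ⟨b1, b2, b3, b4, b5⟩ := hb
    exact ⟨e1, e2, e3, e4, e5, e6, b1, b2, b3, b4 b2, b5, ht1, ht2⟩
  have hT0pos : 0 < (T0.card : ℝ) := by
    rw [hT0c]
    exact lt_of_lt_of_le (by positivity) hfib
  have hdet : z P1 Q1 * z P2 Q2 - z P1 Q2 * z P2 Q1 ≠ 0 := by
    have h1 : 0 < T0.card := by exact_mod_cast hT0pos
    obtain ⟨Q, hQ⟩ := card_pos.1 h1
    exact (hprop Q hQ).2.2.2.2.2.2.2.2.2.1
  have hex : ∀ Q : ℕ, ∃ (D : ℕ) (w : ℤ × ℤ), Q ∈ T0 → 1 ≤ D ∧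
      (D : ℤ) ∣ z P1 Q1 * z P2 Q2 - z P1 Q2 * z P2 Q1 ∧ |w.1| ≤ D ∧ |w.2| ≤ D ∧
      (∃ u1 u2 u3 : ℤ, u1 * w.1 + u2 * w.2 + u3 * (D : ℤ) = 1) ∧
      ∀ P ∈ nb3 E Q1 Q2 Q, w.1 * z P Q1 + w.2 * z P Q2 + (D : ℤ) * z P Q = 0 := by
    intro Q
    by_cases hQ : Q ∈ T0
    · obtain ⟨e1, e2, e3, e4, e5, e6, -, -, -, hd, -, t1, t2⟩ := hprop Q hQ
      obtain ⟨D, w, hw⟩ := G4c_rel hH6 hG hMin P1 P2 Q1 Q2 Q e1 e2 e3 e4 e5 e6 hd t1 t2
      exact ⟨D, w, fun _ => hw⟩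
    · exact ⟨1, 0, fun h => absurd h hQ⟩
  choose Dq ω hDω using hex
  set dn : ℕ := (z P1 Q1 * z P2 Q2 - z P1 Q2 * z P2 Q1).natAbs with hdn
  have hdn0 : 1 ≤ dn := Int.natAbs_pos.2 hdet
  -- the number of divisors
  have hdivc : ((dn.divisors.card : ℕ) : ℝ) ≤ C * 2 ^ ε * H ^ δ := by
    have h1 : (0 : ℕ) < T0.card := by exact_mod_cast hT0pos
    obtain ⟨Q, hQ⟩ := card_pos.1 h1
    obtain ⟨e1, e2, e3, e4, e5, e6, -⟩ := hprop Q hQ
    have z11 := (hG.zhi _ e1).trans hG.ZK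
    have z12 := (hG.zhi _ e2).trans hG.ZK
    have z21 := (hG.zhi _ e4).trans hG.ZK
    have z22 := (hG.zhi _ e5).trans hG.ZK
    have hHK : 0 ≤ H ^ K := Real.rpow_nonneg hH0.le _
    have h2 : (dn : ℝ) ≤ 2 * H ^ (2 * K) := by
      have h3 : (dn : ℝ) = |((z P1 Q1 * z P2 Q2 - z P1 Q2 * z P2 Q1 : ℤ) : ℝ)| := by
        rw [hdn, Nat.cast_natAbs, Int.cast_abs]
      rw [h3]
      push_cast
      calc |(z P1 Q1 : ℝ) * z P2 Q2 - z P1 Q2 * z P2 Q1| ≤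
            |(z P1 Q1 : ℝ) * z P2 Q2| + |(z P1 Q2 : ℝ) * z P2 Q1| := abs_sub _ _
        _ = |(z P1 Q1 : ℝ)| * |(z P2 Q2 : ℝ)| + |(z P1 Q2 : ℝ)| * |(z P2 Q1 : ℝ)| := by
            rw [abs_mul, abs_mul]
        _ ≤ H ^ K * H ^ K + H ^ K * H ^ K :=
            add_le_add (mul_le_mul z11 z22 (abs_nonneg _) hHK) (mul_le_mul z12 z21 (abs_nonneg _) hHK)
        _ = 2 * H ^ (2 * K) := by
            rw [two_mul K, Real.rpow_add hH0]
            ring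
    refine (hC _ dn hdn0 h2).trans (le_of_eq ?_)
    rw [Real.mul_rpow (by norm_num) (Real.rpow_nonneg hH0.le _), ← Real.rpow_mul hH0.le]
    have h4 : 2 * K * ε = δ := by
      rw [hε]
      field_simp
    rw [h4]
    ring
  have hxT : H ^ (1 - 17 * δ) / 12288 ≤ (T0.card : ℝ) := by
    rw [hT0c]
    refine le_trans (le_of_eq ?_) hfib
    rw [hx4, div_div]
    have h1 : H ^ (5 - 13 * δ) = H ^ (1 - 17 * δ) * H ^ (4 + 4 * δ) := by
      rw [← Real.rpow_add hH0]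
      congr 1
      ring
    rw [h1]
    have h2 : 0 < H ^ (4 + 4 * δ) := Real.rpow_pos_of_pos hH0 _
    field_simp
    norm_num
  obtain ⟨D, hD, hT⟩ := G4c_pop T0 dn.divisors Dq (H ^ (1 - 17 * δ) / 12288) (C * 2 ^ ε * H ^ δ)
    (by positivity)
    (by
      intro Q hQ
      rw [Nat.mem_divisors]
      refine ⟨?_, by omega⟩
      have h1 := (hDω Q hQ).2.1
      rw [hdn]
      exact Int.natCast_dvd.1 h1)
    hdivc hxT (by positivity)
  set T := T0.filter (fun Q => Dq Q = D) with hTdef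
  have hTc : H ^ (1 - c) ≤ (T.card : ℝ) := by
    refine le_trans ?_ hT
    rw [div_div, le_div_iff₀ (by positivity)]
    calc H ^ (1 - c) * (12288 * (C * 2 ^ ε * H ^ δ)) = 12288 * (C * 2 ^ ε) * (H ^ (1 - c) * H ^ δ) := by ring
      _ = 12288 * (C * 2 ^ ε) * H ^ (1 - c + δ) := by rw [Real.rpow_add hH0]
      _ ≤ H ^ (1 - 17 * δ) := ev2.le
  have hTT : ∀ Q ∈ T, Q ∈ T0 ∧ Dq Q = D := fun Q hQ => mem_filter.1 hQ
  have hTpos : 0 < T.card := by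
    have : (0 : ℝ) < T.card := lt_of_lt_of_le (Real.rpow_pos_of_pos hH0 _) hTc
    exact_mod_cast this
  obtain ⟨Q0, hQ0⟩ := card_pos.1 hTpos
  obtain ⟨e1, e2, e3, e4, e5, e6, -, nr, nc, hd, hl, -, -⟩ := hprop Q0 (hTT Q0 hQ0).1
  refine ⟨P1, P2, Q1, Q2, D, T, ω, ⟨e1, e2, e4, e5, ?_, hd, hl, nr, nc, hTc, ?_, ?_, ?_, ?_, ?_, ?_, ?_⟩⟩
  · have h1 := (hDω Q0 (hTT Q0 hQ0).1).1
    rwa [(hTT Q0 hQ0).2] at h1
  · intro Q hQ
    exact (hprop Q (hTT Q hQ).1).2.2.1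
  · intro Q hQ
    exact (hprop Q (hTT Q hQ).1).2.2.2.2.2.1
  · intro Q hQ
    exact (hprop Q (hTT Q hQ).1).2.2.2.2.2.2.1
  · intro Q hQ
    have h1 := (hDω Q (hTT Q hQ).1).2.2.1
    rwa [(hTT Q hQ).2] at h1
  · intro Q hQ
    have h1 := (hDω Q (hTT Q hQ).1).2.2.2.1
    rwa [(hTT Q hQ).2] at h1
  · intro Q hQ
    have h1 := (hDω Q (hTT Q hQ).1).2.2.2.2.1
    rwa [(hTT Q hQ).2] at h1
  · intro Q hQ P hP
    have h1 := (hDω Q (hTT Q hQ).1).2.2.2.2.2 P hP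
    rwa [(hTT Q hQ).2] at h1

end O3

end T3

end Pool.Agent.Lib.MP_d8bd92_nt
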