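import Pool.Agent.Lib.MP_d8bd92_nt.T3.O3.Defs
import Pool.Agent.Lib.MP_d8bd92_nt.T3.O3.W
import Pool.Agent.Lib.MP_d8bd92_nt.T3.FormF

set_option autoImplicit false

/-!
Phase 3, the tie (b)-(b), elementary route (page d8o3_tie_helper11.md).
-/

namespace Pool.Agent.Lib.MP_d8bd92_nt

namespace T3

namespace O3

open Finset

/-- (o3-F4) LEMMA F, from gauss, forms, cubic_lines (and: an additive function `a x + b y` integral on the `π s` is integral on the
closure) -/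
theorem lemF (e : ℕ) (he : 1 ≤ e) (c : ℝ) (hc : 0 < c) : ∃ δ H0 : ℝ, 0 < δ ∧ 1 ≤ H0 ∧ ∀ H : ℝ, H0 ≤ H →
    ∀ S : Finset ℕ, (∀ P ∈ S, PrH δ H P) → H ^ (1 - δ) ≤ (S.card : ℝ) →
    ∀ (N : ℕ) (lam : ℤ) (π : ℕ → ℤ × ℤ) (ξ : ℕ → ℤ) (a b : ℝ) (Δ0 : ℕ) (R0 : ℝ), 1 ≤ N → 1 ≤ Δ0 →
    (∀ s ∈ S, ∀ t ∈ S, (Δ0 : ℤ) ∣ dt (π s) (π t)) → (∀ s ∈ S, ∀ t ∈ S, |(dt (π s) (π t) : ℝ)| ≤ R0) →
    (∀ P ∈ S, (ξ P : ℝ) = a * (π P).1 + b * (π P).2) →
    (∀ P ∈ S, (N : ℤ) ∣ ξ P ^ 3 - lam * (P : ℤ) ^ e) → (∀ P ∈ S, IsCoprime (ξ P) (N : ℤ)) →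
    (3 * R0 / Δ0) ^ 6 ≤ N * H ^ (-(6 * c)) → (3 * R0 / Δ0) ^ 6 ≤ H ^ (e - 6 * c) →
    ∃ α β : ℤ, (α ≠ 0 ∨ β ≠ 0) ∧ S.card ≤ 4 * (S.filter (fun P => β * (π P).1 = α * (π P).2)).card := by
  classical
  obtain ⟨d, H0, hd, hH0, hF⟩ := lemma_F_of e he c hc (weyl_primes e he c hc)
  refine ⟨d, H0, hd, hH0, ?_⟩
  intro H hH S hS hcard N lam π ξ a b Δ0 R0 hN hΔ hdiv hR hξ hcub hcop hV1 hV2
  have hHpos : 0 < H := by linarith
  have hΔR : (0 : ℝ) < Δ0 := by exact_mod_cast hΔ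
  have hSne : S.Nonempty := by
    rw [← Finset.card_pos]
    have : (0 : ℝ) < S.card := (Real.rpow_pos_of_pos hHpos _).trans_le hcard
    exact_mod_cast this
  by_cases hcol : ∀ s ∈ S, ∀ t ∈ S, dt (π s) (π t) = 0
  · by_cases hz : ∃ s ∈ S, (π s).1 ≠ 0 ∨ (π s).2 ≠ 0
    · obtain ⟨s, hs, hs0⟩ := hz
      refine ⟨(π s).1, (π s).2, hs0, ?_⟩
      have : S.filter (fun P => (π s).2 * (π P).1 = (π s).1 * (π P).2) = S := by
        apply Finset.filter_true_of_mem
        intro t ht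
        have := hcol s hs t ht
        unfold dt at this
        linarith
      rw [this]; omega
    · push Not at hz
      refine ⟨1, 0, Or.inl one_ne_zero, ?_⟩
      have : S.filter (fun P => 0 * (π P).1 = 1 * (π P).2) = S := by
        apply Finset.filter_true_of_mem
        intro t ht
        rw [(hz t ht).2]; ring
      rw [this]; omega
  · push Not at hcol
    obtain ⟨s, hs, t, ht, hD⟩ := hcol
    have hR0 : 0 ≤ R0 := (abs_nonneg _).trans (hR s hs t ht)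
    have hVle : (R0 / Δ0) ^ 6 ≤ (3 * R0 / Δ0) ^ 6 := by
      apply pow_le_pow_left₀ (by positivity)
      rw [mul_div_assoc]
      have : 0 ≤ R0 / Δ0 := by positivity
      linarith
    obtain ⟨P0, hP0, h3⟩ := hF H hH S (fun P hP => hS P hP) hcard N lam
      (ξ s * (π t).2 - ξ t * (π s).2) (ξ t * (π s).1 - ξ s * (π t).1) (dt (π s) (π t)) ξ π (R0 / Δ0) Δ0 hN hΔ hD
      (by
        intro P hP P' hP'
        refine ⟨hdiv P hP P' hP', ?_⟩
        rw [div_mul_cancel₀ _ hΔR.ne']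
        exact hR P hP P' hP')
      (by
        intro P hP
        refine ⟨?_, hcub P hP, hcop P hP⟩
        have h1 := hξ s hs
        have h2 := hξ t ht
        have h3 := hξ P hP
        have : ((dt (π s) (π t) * ξ P : ℤ) : ℝ) =
            (((ξ s * (π t).2 - ξ t * (π s).2) * (π P).1 + (ξ t * (π s).1 - ξ s * (π t).1) * (π P).2 : ℤ) : ℝ) := by
          unfold dt
          push_cast
          rw [h1, h2, h3]
          ring
        exact_mod_cast this)
      (hVle.trans hV1) (hVle.trans hV2)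
    by_cases hz : (π P0).1 = 0 ∧ (π P0).2 = 0
    · -- impossible when ξ is a unit, but any line works: the set of points with `dt = 0` is everything
      refine ⟨1, 0, Or.inl one_ne_zero, ?_⟩
      exfalso
      have h1 : (ξ P0 : ℝ) = 0 := by rw [hξ P0 hP0, hz.1, hz.2]; simp
      have h2 : ξ P0 = 0 := by exact_mod_cast h1
      have h3 := hcop P0 hP0
      rw [h2] at h3
      have h4 : IsUnit (N : ℤ) := by rwa [isCoprime_zero_left] at h3
      have hN1 : N = 1 := by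
        have := Int.isUnit_iff.1 h4
        omega
      -- `(3 R0 / Δ0)^6 ≤ H^(-6c) ≤ 1` against `Δ0 ≤ |dt| ≤ R0`
      have h5 : (Δ0 : ℝ) ≤ R0 := by
        have h6 : (Δ0 : ℤ) ≤ |dt (π s) (π t)| :=
          Int.le_of_dvd (abs_pos.2 hD) ((dvd_abs _ _).2 (hdiv s hs t ht))
        have h7 : ((Δ0 : ℤ) : ℝ) ≤ ((|dt (π s) (π t)| : ℤ) : ℝ) := by exact_mod_cast h6
        push_cast at h7
        exact h7.trans (hR s hs t ht)
      have h6 : (1 : ℝ) ≤ R0 / Δ0 := by rw [le_div_iff₀ hΔR]; linarith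
      have h7 : (3 : ℝ) ≤ 3 * R0 / Δ0 := by rw [mul_div_assoc]; linarith
      have h8 : (3 : ℝ) ^ 6 ≤ (3 * R0 / Δ0) ^ 6 := pow_le_pow_left₀ (by norm_num) h7 6
      have h9 : (N : ℝ) * H ^ (-(6 * c)) ≤ 1 := by
        rw [hN1, Nat.cast_one, one_mul]
        exact Real.rpow_le_one_of_one_le_of_nonpos (by linarith) (by linarith)
      have h10 : (3 : ℝ) ^ 6 ≤ 1 := h8.trans (hV1.trans h9)
      norm_num at h10
    · refine ⟨(π P0).1, (π P0).2, ?_, ?_⟩
      · by_contra hcon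
        push Not at hcon
        exact hz hcon
      · have : S.filter (fun P => (π P).1 * (π P0).2 - (π P).2 * (π P0).1 = 0) =
            S.filter (fun P => (π P0).2 * (π P).1 = (π P0).1 * (π P).2) := by
          apply Finset.filter_congr
          intro P _
          constructor <;> intro h <;> linarith
        rw [this] at h3
        omega


end O3

end T3

end Pool.Agent.Lib.MP_d8bd92_nt
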