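import Pool.Agent.Lib.MP_d8bd92_nt.T3.O3.Defs
import Pool.Agent.Lib.MP_d8bd92_nt.T3.O3.F4
import Pool.Agent.Lib.MP_d8bd92_nt.T3.O3.G1

set_option autoImplicit false

/-!
Phase 3, the tie (b)-(b), elementary route (page d8o3_tie_helper11.md).
-/

namespace Pool.Agent.Lib.MP_d8bd92_nt

namespace T3

namespace O3

open Finset

/-- cross product of two vectors orthogonal to a primitive vector `(o1, o2, D)` -/
theorem G5_cross {N D o1 o2 a1 a2 a3 b1 b2 b3 u1 u2 u3 : ℤ} (hu : u1 * o1 + u2 * o2 + u3 * D = 1)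
    (ha : o1 * a1 + o2 * a2 + D * a3 = 0) (hb : o1 * b1 + o2 * b2 + D * b3 = 0)
    (h3 : N ∣ a1 * b2 - a2 * b1) (h1 : N ∣ a2 * b3 - a3 * b2) (h2 : N ∣ a3 * b1 - a1 * b3) :
    N * D ∣ a1 * b2 - a2 * b1 := by
  have hk : N ∣ u1 * (a2 * b3 - a3 * b2) + u2 * (a3 * b1 - a1 * b3) + u3 * (a1 * b2 - a2 * b1) :=
    dvd_add (dvd_add (Dvd.dvd.mul_left h1 _) (Dvd.dvd.mul_left h2 _)) (Dvd.dvd.mul_left h3 _)
  have he : a1 * b2 - a2 * b1 =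
      (u1 * (a2 * b3 - a3 * b2) + u2 * (a3 * b1 - a1 * b3) + u3 * (a1 * b2 - a2 * b1)) * D := by
    linear_combination (-(a1 * b2 - a2 * b1)) * hu + (u1 * b2 - u2 * b1) * ha + (-u1 * a2 + u2 * a1) * hb
  rw [he]
  exact mul_dvd_mul hk (dvd_refl D)

theorem G5_mem {E : Finset (ℕ × ℕ)} {Q1 Q2 Q3 P : ℕ} (h : P ∈ nb3 E Q1 Q2 Q3) :
    (P, Q1) ∈ E ∧ (P, Q2) ∈ E ∧ (P, Q3) ∈ E := by
  classical
  unfold nb3 at h
  exact (Finset.mem_filter.1 h).2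

/-- (o3-G5) ROWS, (2.6): `lemF` for `S = nb3 E Q1 Q2 Q`, `π P = (z P Q1, z P Q2)`, `ξ P = z P Q1`, `lam = v Q1^f`, `Δ0 = N D`,
`R0 = 300 Z^2 η`.  `N D | dt (π P) (π P')`: the cross product of the rows `P`, `P'` is `k (ω1, ω2, D)`, `N | k`. -/
theorem rows_F (K c c2 : ℝ) (hK : 0 < K) (hc : 0 < c) (hc2 : 0 < c2) (e f : ℕ) (he : 1 ≤ e) (hf : 1 ≤ f) :
    ∃ δ H0 : ℝ, 0 < δ ∧ 1 ≤ H0 ∧ ∀ H : ℝ, H0 ≤ H →
    ∀ (E : Finset (ℕ × ℕ)) (z : ℕ → ℕ → ℤ) (N : ℕ) (Z η κ' : ℝ) (v : ℤ), Grid K δ H e f E z N Z η κ' v → Minor E z N →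
    ∀ (κ : ℝ) (P1 P2 Q1 Q2 D : ℕ) (T : Finset ℕ) (ω : ℕ → ℤ × ℤ), Choice δ κ c2 H E z P1 P2 Q1 Q2 D T ω →
    min (N : ℝ) (H ^ e) * H ^ (-(6 * c)) < (900 * (Z ^ 2 * η) / (N * D)) ^ 6 := by
  classical
  obtain ⟨δF, HF, hδF, hHF, hF⟩ := lemF e he c hc
  refine ⟨min δF (c2 / 2), max HF ((4 : ℝ) ^ (2 / c2)), lt_min hδF (by linarith), hHF.trans (le_max_left _ _), ?_⟩
  intro H hH E z N Z η κ' v hG hM κ P1 P2 Q1 Q2 D T ω hC
  have hH1 : HF ≤ H := (le_max_left _ _).trans hH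
  have hH2 : (4 : ℝ) ^ (2 / c2) ≤ H := (le_max_right _ _).trans hH
  have h1H : 1 ≤ H := hHF.trans hH1
  have h0H : 0 < H := by linarith
  have hδ1 : min δF (c2 / 2) ≤ δF := min_le_left _ _
  have hδ2 : min δF (c2 / 2) ≤ c2 / 2 := min_le_right _ _
  obtain ⟨Q, hQ⟩ : T.Nonempty := by
    rw [← Finset.card_pos]
    have h : (0 : ℝ) < T.card := lt_of_lt_of_le (Real.rpow_pos_of_pos h0H _) hC.cT
    exact_mod_cast h
  by_contra hcon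
  rw [not_lt] at hcon
  have hS := hC.nb Q hQ
  obtain ⟨u1, u2, u3, hu⟩ := hC.prim Q hQ
  have hD1 := hC.D1
  have hN1 := hG.N1
  have hND : 1 ≤ N * D := Nat.one_le_iff_ne_zero.2 (Nat.mul_ne_zero (by omega) (by omega))
  have hfr : (900 * (Z ^ 2 * η) / ((N : ℝ) * D)) = 3 * (300 * (Z ^ 2 * η)) / ((N * D : ℕ) : ℝ) := by
    push_cast
    ring
  rw [hfr] at hcon
  have hpos : 0 ≤ H ^ (-(6 * c)) := (Real.rpow_pos_of_pos h0H _).le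
  obtain ⟨α, β, hαβ, hcard⟩ := hF H hH1 (nb3 E Q1 Q2 Q)
    (fun P hP => (hG.pr1 (P, Q1) (G5_mem hP).1).mono h1H hδ1)
    ((Real.rpow_le_rpow_of_exponent_le h1H (by linarith)).trans hS)
    N (v * (Q1 : ℤ) ^ f) (fun P => (z P Q1, z P Q2)) (fun P => z P Q1) 1 0 (N * D) (300 * (Z ^ 2 * η))
    hN1 hND
    (by
      intro s hs t ht
      obtain ⟨hs1, hs2, hs3⟩ := G5_mem hs
      obtain ⟨ht1, ht2, ht3⟩ := G5_mem ht
      have := G5_cross (N := (N : ℤ)) hu (hC.rel Q hQ s hs) (hC.rel Q hQ t ht)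
        (hM s t Q1 Q2 hs1 hs2 ht1 ht2) (hM s t Q2 Q hs2 hs3 ht2 ht3) (hM s t Q Q1 hs3 hs1 ht3 ht1)
      unfold dt
      push_cast
      exact this)
    (by
      intro s hs t ht
      obtain ⟨hs1, hs2, hs3⟩ := G5_mem hs
      obtain ⟨ht1, ht2, ht3⟩ := G5_mem ht
      exact close hG s t Q1 Q2 hs1 hs2 ht1 ht2)
    (by
      intro P _
      simp)
    (by
      intro P hP
      have := hG.cub (P, Q1) (G5_mem hP).1
      have h2 : z P Q1 ^ 3 - v * (Q1 : ℤ) ^ f * (P : ℤ) ^ e = z P Q1 ^ 3 - v * (P : ℤ) ^ e * (Q1 : ℤ) ^ f := by ring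
      rw [h2]
      exact this)
    (fun P hP => hG.copN (P, Q1) (G5_mem hP).1)
    (hcon.trans (mul_le_mul_of_nonneg_right (min_le_left _ _) hpos))
    (by
      refine hcon.trans ((mul_le_mul_of_nonneg_right (min_le_right _ _) hpos).trans (le_of_eq ?_))
      rw [← Real.rpow_natCast, ← Real.rpow_add h0H, ← sub_eq_add_neg])
  apply hC.ncol
  refine ⟨α, β, hαβ, ?_⟩
  have hsub : (nb3 E Q1 Q2 Q).filter (fun P => β * (z P Q1, z P Q2).1 = α * (z P Q1, z P Q2).2) ⊆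
      (E.image Prod.fst).filter (fun P => (P, Q1) ∈ E ∧ (P, Q2) ∈ E ∧ β * z P Q1 = α * z P Q2) := by
    intro P hP
    rw [Finset.mem_filter] at hP
    obtain ⟨hp1, hp2, hp3⟩ := G5_mem hP.1
    exact Finset.mem_filter.2 ⟨Finset.mem_image.2 ⟨(P, Q1), hp1, rfl⟩, hp1, hp2, hP.2⟩
  have hle := Finset.card_le_card hsub
  have h4 : (4 : ℝ) ≤ H ^ (c2 / 2) := by
    calc (4 : ℝ) = ((4 : ℝ) ^ (2 / c2)) ^ (c2 / 2) := by
          rw [← Real.rpow_mul (by norm_num)]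
          have : 2 / c2 * (c2 / 2) = 1 := by field_simp
          rw [this, Real.rpow_one]
      _ ≤ H ^ (c2 / 2) := Real.rpow_le_rpow (by positivity) hH2 (by linarith)
  have h5 : 4 * H ^ (1 - c2) ≤ H ^ (1 - min δF (c2 / 2)) := by
    calc 4 * H ^ (1 - c2) ≤ H ^ (c2 / 2) * H ^ (1 - c2) :=
          mul_le_mul_of_nonneg_right h4 (Real.rpow_pos_of_pos h0H _).le
      _ = H ^ (c2 / 2 + (1 - c2)) := (Real.rpow_add h0H _ _).symm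
      _ ≤ H ^ (1 - min δF (c2 / 2)) := Real.rpow_le_rpow_of_exponent_le h1H (by linarith)
  have h6 : ((nb3 E Q1 Q2 Q).card : ℝ) ≤
      4 * (((nb3 E Q1 Q2 Q).filter (fun P => β * (z P Q1, z P Q2).1 = α * (z P Q1, z P Q2).2)).card : ℝ) := by
    exact_mod_cast hcard
  have h7 : ((((nb3 E Q1 Q2 Q).filter (fun P => β * (z P Q1, z P Q2).1 = α * (z P Q1, z P Q2).2)).card : ℕ) : ℝ) ≤
      (((E.image Prod.fst).filter (fun P => (P, Q1) ∈ E ∧ (P, Q2) ∈ E ∧ β * z P Q1 = α * z P Q2)).card : ℝ) := by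
    exact_mod_cast hle
  have h8 : 4 * H ^ (1 - c2) ≤
      4 * (((E.image Prod.fst).filter (fun P => (P, Q1) ∈ E ∧ (P, Q2) ∈ E ∧ β * z P Q1 = α * z P Q2)).card : ℝ) := by
    linarith
  have h9 : H ^ (1 - c2) ≤
      (((E.image Prod.fst).filter (fun P => (P, Q1) ∈ E ∧ (P, Q2) ∈ E ∧ β * z P Q1 = α * z P Q2)).card : ℝ) := by
    linarith
  convert h9

end O3

end T3

end Pool.Agent.Lib.MP_d8bd92_nt
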