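import Pool.Agent.Lib.MP_d8bd92_nt.T3.O3.Defs
import Pool.Agent.Lib.MP_d8bd92_nt.T3.O3.F4

set_option autoImplicit false

/-!
Phase 3, the tie (b)-(b), elementary route (page d8o3_tie_helper11.md).
-/

namespace Pool.Agent.Lib.MP_d8bd92_nt

namespace T3

namespace O3

open Finset

theorem G6_gcd_dvd (z : ℕ → ℕ → ℤ) (P1 P2 Q1 Q2 : ℕ) (D x : ℤ) (h11 : D ∣ x * z P1 Q1) (h12 : D ∣ x * z P1 Q2)
    (h21 : D ∣ x * z P2 Q1) (h22 : D ∣ x * z P2 Q2) : D ∣ x * (gc z P1 P2 Q1 Q2 : ℤ) := by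
  have aux : ∀ u v : ℤ, D ∣ x * u → D ∣ x * v → D ∣ x * ((Int.gcd u v : ℕ) : ℤ) := by
    intro u v hu hv
    rw [Int.gcd_eq_gcd_ab]
    have e : x * (u * Int.gcdA u v + v * Int.gcdB u v) =
        (x * u) * Int.gcdA u v + (x * v) * Int.gcdB u v := by ring
    rw [e]
    exact dvd_add (hu.mul_right _) (hv.mul_right _)
  have h1 := aux _ _ h11 h12
  have h2 := aux _ _ h21 h22
  have h3 := aux _ _ h1 h2
  unfold gc
  simpa only [Int.gcd_natCast_natCast] using h3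

/-- (o3-G6) COLUMNS, (2.7): `lemF` for `S = T`, `π = ω`, `ξ Q = z P1 Q`, `a = - z P1 Q1 / D`, `b = - z P1 Q2 / D`, `lam = v P1^e`,
`Δ0 = D / gcd D g`, `g = gc z P1 P2 Q1 Q2 < H^κ`, `R0 = 2 D^2` -/
theorem cols_F (K c c2 κ : ℝ) (hK : 0 < K) (hc : 0 < c) (hc2 : 0 < c2) (e f : ℕ) (he : 1 ≤ e) (hf : 1 ≤ f) :
    ∃ δ H0 : ℝ, 0 < δ ∧ 1 ≤ H0 ∧ ∀ H : ℝ, H0 ≤ H →
    ∀ (E : Finset (ℕ × ℕ)) (z : ℕ → ℕ → ℤ) (N : ℕ) (Z η κ' : ℝ) (v : ℤ), Grid K δ H e f E z N Z η κ' v → Minor E z N →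
    ∀ (P1 P2 Q1 Q2 D : ℕ) (T : Finset ℕ) (ω : ℕ → ℤ × ℤ), Choice δ κ c2 H E z P1 P2 Q1 Q2 D T ω →
    min (N : ℝ) (H ^ f) * H ^ (-(6 * c)) < (6 * D * H ^ κ) ^ 6 := by
  classical
  obtain ⟨δF, HF, hδF, hHF, hF⟩ := lemF f hf c hc
  refine ⟨min δF (c2 / 2), max HF ((4 : ℝ) ^ (2 / c2)), lt_min hδF (by linarith), le_max_of_le_left hHF, ?_⟩
  intro H hH E z N Z η κ' v hG hM P1 P2 Q1 Q2 D T ω hC
  have hH1 : (1 : ℝ) ≤ H := hHF.trans ((le_max_left _ _).trans hH)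
  have hH0 : (0 : ℝ) < H := by linarith
  have hHF' : HF ≤ H := (le_max_left _ _).trans hH
  have hH4 : (4 : ℝ) ^ (2 / c2) ≤ H := (le_max_right _ _).trans hH
  have hδ1 : min δF (c2 / 2) ≤ δF := min_le_left _ _
  have hδ2 : min δF (c2 / 2) ≤ c2 / 2 := min_le_right _ _
  by_contra hcon
  push Not at hcon
  have hD1 : 1 ≤ D := hC.D1
  have hDpos : (0 : ℝ) < (D : ℝ) := by exact_mod_cast hD1
  have hDz : (D : ℤ) ≠ 0 := by exact_mod_cast (Nat.one_le_iff_ne_zero.1 hD1)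
  set g : ℕ := gc z P1 P2 Q1 Q2 with hg
  have hg0 : g ≠ 0 := by
    intro h0
    rw [hg] at h0
    unfold gc at h0
    rw [Nat.gcd_eq_zero_iff] at h0
    have h1 := Int.gcd_eq_zero_iff.1 h0.1
    exact hC.det (by rw [h1.1, h1.2]; ring)
  have hrel : ∀ Q ∈ T, (ω Q).1 * z P1 Q1 + (ω Q).2 * z P1 Q2 + (D : ℤ) * z P1 Q = 0 := by
    intro Q hQ
    refine hC.rel Q hQ P1 ?_
    unfold nb3
    rw [Finset.mem_filter]
    exact ⟨Finset.mem_image.2 ⟨(P1, Q1), hC.m11, rfl⟩, hC.m11, hC.m12, hC.m1 Q hQ⟩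
  have hrel2 : ∀ Q ∈ T, (ω Q).1 * z P2 Q1 + (ω Q).2 * z P2 Q2 + (D : ℤ) * z P2 Q = 0 := by
    intro Q hQ
    refine hC.rel Q hQ P2 ?_
    unfold nb3
    rw [Finset.mem_filter]
    exact ⟨Finset.mem_image.2 ⟨(P2, Q1), hC.m21, rfl⟩, hC.m21, hC.m22, hC.m2 Q hQ⟩
  -- divisibility
  set G : ℕ := Nat.gcd D g with hGd
  have hG0 : 0 < G := Nat.gcd_pos_of_pos_left _ (by omega)
  set Δ0 : ℕ := D / G with hΔ
  have hDG : G * Δ0 = D := Nat.mul_div_cancel' (Nat.gcd_dvd_left D g)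
  have hΔ1 : 1 ≤ Δ0 := by
    rcases Nat.eq_zero_or_pos Δ0 with h0 | h0
    · rw [h0, mul_zero] at hDG
      omega
    · exact h0
  have hdvd : ∀ s ∈ T, ∀ t ∈ T, (Δ0 : ℤ) ∣ dt (ω s) (ω t) := by
    intro s hs t ht
    have e1 := hrel s hs
    have e2 := hrel t ht
    have e3 := hrel2 s hs
    have e4 := hrel2 t ht
    have d11 : (D : ℤ) ∣ dt (ω s) (ω t) * z P1 Q1 := by
      refine ⟨(ω s).2 * z P1 t - (ω t).2 * z P1 s, ?_⟩
      unfold dt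
      linear_combination (ω t).2 * e1 - (ω s).2 * e2
    have d12 : (D : ℤ) ∣ dt (ω s) (ω t) * z P1 Q2 := by
      refine ⟨(ω t).1 * z P1 s - (ω s).1 * z P1 t, ?_⟩
      unfold dt
      linear_combination (ω s).1 * e2 - (ω t).1 * e1
    have d21 : (D : ℤ) ∣ dt (ω s) (ω t) * z P2 Q1 := by
      refine ⟨(ω s).2 * z P2 t - (ω t).2 * z P2 s, ?_⟩
      unfold dt
      linear_combination (ω t).2 * e3 - (ω s).2 * e4
    have d22 : (D : ℤ) ∣ dt (ω s) (ω t) * z P2 Q2 := by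
      refine ⟨(ω t).1 * z P2 s - (ω s).1 * z P2 t, ?_⟩
      unfold dt
      linear_combination (ω s).1 * e4 - (ω t).1 * e3
    have hd := G6_gcd_dvd z P1 P2 Q1 Q2 (D : ℤ) (dt (ω s) (ω t)) d11 d12 d21 d22
    rw [← hg] at hd
    have hcop : Nat.Coprime (D / G) (g / G) := Nat.coprime_div_gcd_div_gcd hG0
    have hgG : G * (g / G) = g := Nat.mul_div_cancel' (Nat.gcd_dvd_right D g)
    have h1 : ((G : ℤ) * (Δ0 : ℤ)) ∣ (G : ℤ) * (dt (ω s) (ω t) * ((g / G : ℕ) : ℤ)) := by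
      have e5 : (G : ℤ) * (Δ0 : ℤ) = (D : ℤ) := by exact_mod_cast hDG
      have e6 : (G : ℤ) * (dt (ω s) (ω t) * ((g / G : ℕ) : ℤ)) = dt (ω s) (ω t) * (g : ℤ) := by
        have e7 : (G : ℤ) * ((g / G : ℕ) : ℤ) = (g : ℤ) := by exact_mod_cast hgG
        rw [← e7]; ring
      rw [e5, e6]
      exact hd
    have h2 : (Δ0 : ℤ) ∣ dt (ω s) (ω t) * ((g / G : ℕ) : ℤ) :=
      Int.dvd_of_mul_dvd_mul_left (by exact_mod_cast hG0.ne') h1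
    have h3 : IsCoprime (Δ0 : ℤ) ((g / G : ℕ) : ℤ) := Nat.isCoprime_iff_coprime.2 hcop
    exact h3.dvd_of_dvd_mul_right h2
  have hR0 : ∀ s ∈ T, ∀ t ∈ T, |(dt (ω s) (ω t) : ℝ)| ≤ 2 * (D : ℝ) ^ 2 := by
    intro s hs t ht
    have a1 := hC.om1 s hs
    have a2 := hC.om2 s hs
    have a3 := hC.om1 t ht
    have a4 := hC.om2 t ht
    have h1 : |dt (ω s) (ω t)| ≤ 2 * (D : ℤ) ^ 2 := by
      unfold dt
      calc |(ω s).1 * (ω t).2 - (ω s).2 * (ω t).1| ≤ |(ω s).1 * (ω t).2| + |(ω s).2 * (ω t).1| := abs_sub _ _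
        _ = |(ω s).1| * |(ω t).2| + |(ω s).2| * |(ω t).1| := by rw [abs_mul, abs_mul]
        _ ≤ (D : ℤ) * D + (D : ℤ) * D := add_le_add
            (mul_le_mul a1 a4 (abs_nonneg _) (by positivity)) (mul_le_mul a2 a3 (abs_nonneg _) (by positivity))
        _ = 2 * (D : ℤ) ^ 2 := by ring
    have h2 : ((|dt (ω s) (ω t)| : ℤ) : ℝ) ≤ ((2 * (D : ℤ) ^ 2 : ℤ) : ℝ) := by exact_mod_cast h1
    rw [Int.cast_abs] at h2
    refine h2.trans (le_of_eq ?_)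
    push_cast
    ring
  have hlin : ∀ Q ∈ T, (z P1 Q : ℝ) = (-(z P1 Q1 : ℝ) / D) * (ω Q).1 + (-(z P1 Q2 : ℝ) / D) * (ω Q).2 := by
    intro Q hQ
    have e1 := hrel Q hQ
    have e2 : ((ω Q).1 : ℝ) * z P1 Q1 + (ω Q).2 * z P1 Q2 + (D : ℝ) * z P1 Q = 0 := by exact_mod_cast e1
    field_simp
    linear_combination e2
  have hbase : (3 * (2 * (D : ℝ) ^ 2) / (Δ0 : ℝ)) ^ 6 ≤ (6 * D * H ^ κ) ^ 6 := by
    have hΔpos : (0 : ℝ) < (Δ0 : ℝ) := by exact_mod_cast hΔ1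
    have hGΔ : (G : ℝ) * (Δ0 : ℝ) = (D : ℝ) := by exact_mod_cast hDG
    have hGg : (G : ℝ) ≤ H ^ κ := by
      have h1 : G ≤ g := Nat.gcd_le_right _ (Nat.pos_of_ne_zero hg0)
      have h2 : (G : ℝ) ≤ (g : ℝ) := by exact_mod_cast h1
      exact h2.trans hC.light.le
    have e1 : 3 * (2 * (D : ℝ) ^ 2) / (Δ0 : ℝ) = 6 * D * G := by
      rw [div_eq_iff hΔpos.ne']
      linear_combination -(6 * (D : ℝ)) * hGΔ
    rw [e1]
    apply pow_le_pow_left₀ (by positivity)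
    exact mul_le_mul_of_nonneg_left hGg (by positivity)
  have hmin : (6 * D * H ^ κ) ^ 6 ≤ min (N : ℝ) (H ^ f) * H ^ (-(6 * c)) := hcon
  have hHc : 0 ≤ H ^ (-(6 * c)) := (Real.rpow_pos_of_pos hH0 _).le
  have h1 : (3 * (2 * (D : ℝ) ^ 2) / (Δ0 : ℝ)) ^ 6 ≤ (N : ℝ) * H ^ (-(6 * c)) :=
    hbase.trans (hmin.trans (mul_le_mul_of_nonneg_right (min_le_left _ _) hHc))
  have h2 : (3 * (2 * (D : ℝ) ^ 2) / (Δ0 : ℝ)) ^ 6 ≤ H ^ ((f : ℝ) - 6 * c) := by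
    refine hbase.trans (hmin.trans ((mul_le_mul_of_nonneg_right (min_le_right _ _) hHc).trans (le_of_eq ?_)))
    rw [sub_eq_add_neg, Real.rpow_add hH0, Real.rpow_natCast]
  obtain ⟨α, β, hαβ, hcard⟩ := hF H hHF' T (fun Q hQ => (hG.pr2 (P1, Q) (hC.m1 Q hQ)).mono hH1 hδ1)
    ((Real.rpow_le_rpow_of_exponent_le hH1 (by linarith)).trans hC.cT)
    N (v * P1 ^ e) ω (fun Q => z P1 Q) (-(z P1 Q1 : ℝ) / D) (-(z P1 Q2 : ℝ) / D) Δ0 (2 * (D : ℝ) ^ 2) hG.N1 hΔ1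
    hdvd hR0 hlin (fun Q hQ => hG.cub (P1, Q) (hC.m1 Q hQ)) (fun Q hQ => hG.copN (P1, Q) (hC.m1 Q hQ)) h1 h2
  -- the line
  apply hC.nrow
  refine ⟨α * z P1 Q1 + β * z P1 Q2, α * z P2 Q1 + β * z P2 Q2, ?_, ?_⟩
  · by_contra hne
    push Not at hne
    obtain ⟨k1, k2⟩ := hne
    have ha : α * (z P1 Q1 * z P2 Q2 - z P1 Q2 * z P2 Q1) = 0 := by
      linear_combination z P2 Q2 * k1 - z P1 Q2 * k2
    have hb : β * (z P1 Q1 * z P2 Q2 - z P1 Q2 * z P2 Q1) = 0 := by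
      linear_combination z P1 Q1 * k2 - z P2 Q1 * k1
    rcases hαβ with h | h
    · exact (mul_ne_zero h hC.det) ha
    · exact (mul_ne_zero h hC.det) hb
  · have hsub : T.filter (fun Q => β * (ω Q).1 = α * (ω Q).2) ⊆
        (E.image Prod.snd).filter (fun Q => (P1, Q) ∈ E ∧ (P2, Q) ∈ E ∧
          (α * z P2 Q1 + β * z P2 Q2) * z P1 Q = (α * z P1 Q1 + β * z P1 Q2) * z P2 Q) := by
      intro Q hQ
      rw [Finset.mem_filter] at hQ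
      obtain ⟨hQT, hQl⟩ := hQ
      rw [Finset.mem_filter]
      refine ⟨Finset.mem_image.2 ⟨(P1, Q), hC.m1 Q hQT, rfl⟩, hC.m1 Q hQT, hC.m2 Q hQT, ?_⟩
      have e1 := hrel Q hQT
      have e2 := hrel2 Q hQT
      have e3 : (D : ℤ) * ((α * z P2 Q1 + β * z P2 Q2) * z P1 Q) =
          (D : ℤ) * ((α * z P1 Q1 + β * z P1 Q2) * z P2 Q) := by
        linear_combination (α * z P2 Q1 + β * z P2 Q2) * e1 - (α * z P1 Q1 + β * z P1 Q2) * e2 +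
          (z P1 Q2 * z P2 Q1 - z P1 Q1 * z P2 Q2) * hQl
      exact mul_left_cancel₀ hDz e3
    have hc1 : ((T.filter (fun Q => β * (ω Q).1 = α * (ω Q).2)).card : ℝ) ≤
        (((E.image Prod.snd).filter (fun Q => (P1, Q) ∈ E ∧ (P2, Q) ∈ E ∧
          (α * z P2 Q1 + β * z P2 Q2) * z P1 Q = (α * z P1 Q1 + β * z P1 Q2) * z P2 Q)).card : ℝ) := by
      exact_mod_cast Finset.card_le_card hsub
    refine le_trans ?_ hc1
    have hc2' : (T.card : ℝ) ≤ 4 * ((T.filter (fun Q => β * (ω Q).1 = α * (ω Q).2)).card : ℝ) := by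
      exact_mod_cast hcard
    have h4 : (4 : ℝ) * H ^ (1 - c2) ≤ H ^ (1 - min δF (c2 / 2)) := by
      have h5 : (4 : ℝ) ≤ H ^ (c2 / 2) := by
        have h6 : ((4 : ℝ) ^ (2 / c2)) ^ (c2 / 2) ≤ H ^ (c2 / 2) :=
          Real.rpow_le_rpow (by positivity) hH4 (by linarith)
        rw [← Real.rpow_mul (by norm_num)] at h6
        have h7 : 2 / c2 * (c2 / 2) = 1 := by field_simp
        rw [h7, Real.rpow_one] at h6
        exact h6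
      calc (4 : ℝ) * H ^ (1 - c2) ≤ H ^ (c2 / 2) * H ^ (1 - c2) :=
            mul_le_mul_of_nonneg_right h5 (Real.rpow_pos_of_pos hH0 _).le
        _ = H ^ (1 - c2 / 2) := by
            rw [← Real.rpow_add hH0]
            congr 1
            ring
        _ ≤ H ^ (1 - min δF (c2 / 2)) := Real.rpow_le_rpow_of_exponent_le hH1 (by linarith)
    have h8 := hC.cT
    linarith

end O3

end T3

end Pool.Agent.Lib.MP_d8bd92_nt
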