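import Pool.Agent.Lib.MP_d8bd92_nt.T3.O3.Defs
import Pool.Agent.Lib.MP_d8bd92_nt.T3.O3.G0
import Pool.Agent.Lib.MP_d8bd92_nt.T3.O3.G3b
import Pool.Agent.Lib.MP_d8bd92_nt.T3.O3.G4c
import Pool.Agent.Lib.MP_d8bd92_nt.T3.O3.G5
import Pool.Agent.Lib.MP_d8bd92_nt.T3.O3.G6

set_option autoImplicit false

/-!
Phase 3, the tie (b)-(b), elementary route (page d8o3_tie_helper11.md).
-/

namespace Pool.Agent.Lib.MP_d8bd92_nt

namespace T3

namespace O3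

open Finset

/-- a choice with a smaller constant is a choice with a larger constant -/
theorem G7_choice_mono {c c' κ c2 H : ℝ} {E : Finset (ℕ × ℕ)} {z : ℕ → ℕ → ℤ} {P1 P2 Q1 Q2 D : ℕ} {T : Finset ℕ}
    {ω : ℕ → ℤ × ℤ} (h : Choice c κ c2 H E z P1 P2 Q1 Q2 D T ω) (hH : 1 ≤ H) (hc : c ≤ c') :
    Choice c' κ c2 H E z P1 P2 Q1 Q2 D T ω where
  m11 := h.m11
  m12 := h.m12
  m21 := h.m21
  m22 := h.m22
  D1 := h.D1
  det := h.det
  light := h.light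
  nrow := h.nrow
  ncol := h.ncol
  cT := (Real.rpow_le_rpow_of_exponent_le hH (by linarith)).trans h.cT
  m1 := h.m1
  m2 := h.m2
  nb := fun Q hQ => (Real.rpow_le_rpow_of_exponent_le hH (by linarith)).trans (h.nb Q hQ)
  om1 := h.om1
  om2 := h.om2
  prim := h.prim
  rel := h.rel

open scoped Classical in
/-- heavy quadruples of a subset -/
theorem G7_heavy_mono {κ H : ℝ} {E E' : Finset (ℕ × ℕ)} {z : ℕ → ℕ → ℤ} (hE : E' ⊆ E) :
    (heavy κ H E' z).card ≤ (heavy κ H E z).card := by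
  apply Finset.card_le_card
  intro t ht
  unfold heavy at ht ⊢
  rw [Finset.mem_filter, Finset.mem_product] at ht ⊢
  exact ⟨⟨hE ht.1.1, hE ht.1.2⟩, hE ht.2.1, hE ht.2.2.1, ht.2.2.2⟩

/-- the numerical contradiction -/
theorem G7_num {H a b n D u : ℝ} (hH0 : (5400 : ℝ) ^ 12 ≤ H) (ha : 0 < a) (hb : 0 < b) (hn : 0 < n) (hD : 0 < D) (hu : 0 < u)
    (h1 : a * H ^ (-(6 * (1 / 48 : ℝ))) < (900 * u / (n * D)) ^ 6)
    (h2 : b * H ^ (-(6 * (1 / 48 : ℝ))) < (6 * D * H ^ (1 / 24 : ℝ)) ^ 6)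
    (h5 : H * u ^ 6 ≤ a * b * n ^ 6) : False := by
  have hH : 0 < H := lt_of_lt_of_le (by positivity) hH0
  set y : ℝ := H ^ (1 / 8 : ℝ) with hy
  have hy0 : 0 < y := Real.rpow_pos_of_pos hH _
  have e1 : H ^ (-(6 * (1 / 48 : ℝ))) = y⁻¹ := by
    rw [hy, ← Real.rpow_neg hH.le]
    norm_num
  have e2 : (H ^ (1 / 24 : ℝ)) ^ 6 = y ^ 2 := by
    rw [hy, ← Real.rpow_natCast, ← Real.rpow_natCast, ← Real.rpow_mul hH.le, ← Real.rpow_mul hH.le]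
    norm_num
  have e3 : H = y ^ 8 := by
    rw [hy, ← Real.rpow_natCast, ← Real.rpow_mul hH.le]
    norm_num
  have e4 : (6 * D * H ^ (1 / 24 : ℝ)) ^ 6 = (6 * D) ^ 6 * y ^ 2 := by
    rw [mul_pow, e2]
  rw [e1] at h1 h2
  rw [e4] at h2
  have h3 : (a * y⁻¹) * (b * y⁻¹) < (900 * u / (n * D)) ^ 6 * ((6 * D) ^ 6 * y ^ 2) :=
    mul_lt_mul'' h1 h2 (by positivity) (by positivity)
  have e5 : (900 * u / (n * D)) ^ 6 * ((6 * D) ^ 6 * y ^ 2) = 5400 ^ 6 * u ^ 6 * y ^ 2 / n ^ 6 := by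
    field_simp
    ring
  rw [e5] at h3
  have h4 : a * b * n ^ 6 < 5400 ^ 6 * u ^ 6 * y ^ 4 := by
    have e6 : (a * y⁻¹) * (b * y⁻¹) = a * b / y ^ 2 := by
      field_simp
    rw [e6, div_lt_div_iff₀ (by positivity) (by positivity)] at h3
    calc a * b * n ^ 6 < 5400 ^ 6 * u ^ 6 * y ^ 2 * y ^ 2 := h3
      _ = 5400 ^ 6 * u ^ 6 * y ^ 4 := by ring
  have h6 : y ^ 8 * u ^ 6 < 5400 ^ 6 * u ^ 6 * y ^ 4 := by
    rw [← e3]
    exact lt_of_le_of_lt h5 h4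
  have h7 : y ^ 4 < 5400 ^ 6 := by
    have h8 : (u ^ 6 * y ^ 4) * y ^ 4 < (u ^ 6 * y ^ 4) * 5400 ^ 6 := by
      calc (u ^ 6 * y ^ 4) * y ^ 4 = y ^ 8 * u ^ 6 := by ring
        _ < 5400 ^ 6 * u ^ 6 * y ^ 4 := h6
        _ = (u ^ 6 * y ^ 4) * 5400 ^ 6 := by ring
    exact lt_of_mul_lt_mul_left h8 (by positivity)
  have h9 : y ^ 8 < 5400 ^ 12 := by
    have e7 : y ^ 8 = (y ^ 4) ^ 2 := by ring
    have e8 : (5400 : ℝ) ^ 12 = (5400 ^ 6) ^ 2 := by ring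
    rw [e7, e8]
    exact pow_lt_pow_left₀ h7 (by positivity) (by norm_num)
  rw [e3] at hH0
  linarith

/-- (o3-G7) the grid theorem when there are few heavy quadruples: from minors, bad_cols, bad_rows, choice, rows_F, cols_F with
`c = 1/48` -/
theorem grid_light (K c4 : ℝ) (hK : 0 < K) (hc4 : 0 < c4) (e f : ℕ) (he : 1 ≤ e) (hf : 1 ≤ f) :
    ∃ δ H0 : ℝ, 0 < δ ∧ 1 ≤ H0 ∧ ∀ H : ℝ, H0 ≤ H →
    ∀ (E : Finset (ℕ × ℕ)) (z : ℕ → ℕ → ℤ) (N : ℕ) (Z η κ : ℝ) (v : ℤ), Grid K δ H e f E z N Z η κ v →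
    G5 H e f N Z η → H ^ (2 - δ) ≤ (E.card : ℝ) → H ^ (4 - c4) < ((heavy (1 / 24) H E z).card : ℝ) := by
  obtain ⟨c0a, hc0a, hbc⟩ := bad_cols K hK e f he hf
  obtain ⟨c0b, hc0b, hbr⟩ := bad_rows K hK e f he hf
  set c2 : ℝ := min c0a c0b with hc2def
  have hc2 : 0 < c2 := lt_min hc0a hc0b
  obtain ⟨H1, hH1, hbc⟩ := hbc c2 hc2 (min_le_left _ _)
  obtain ⟨H2, hH2, hbr⟩ := hbr c2 hc2 (min_le_right _ _)
  obtain ⟨δr, H3, hδr, hH3, hrow⟩ := rows_F K (1 / 48) c2 hK (by norm_num) hc2 e f he hf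
  obtain ⟨δc, H4, hδc, hH4, hcol⟩ := cols_F K (1 / 48) c2 (1 / 24) hK (by norm_num) hc2 e f he hf
  set c' : ℝ := min δr δc with hc'def
  have hc' : 0 < c' := lt_min hδr hδc
  obtain ⟨δh, H5, hδh, hH5, hch⟩ := choice K c' (1 / 24) c2 c4 hK hc' hc2 hc4 e f
  obtain ⟨δm, H6, hδm, hH6, hmin⟩ := minors K δh hK hδh e f
  refine ⟨min δm (min δh (min c' c2)), max ((5400 : ℝ) ^ 12) (max H1 (max H2 (max H3 (max H4 (max H5 H6))))),
    lt_min hδm (lt_min hδh (lt_min hc' hc2)), le_max_of_le_right (le_max_of_le_left hH1), ?_⟩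
  intro H hH E z N Z η κ v hG hG5 hE
  set δ : ℝ := min δm (min δh (min c' c2)) with hδdef
  have d1 : δ ≤ δm := min_le_left _ _
  have d2 : δ ≤ δh := (min_le_right _ _).trans (min_le_left _ _)
  have d3 : δ ≤ c' := (min_le_right _ _).trans ((min_le_right _ _).trans (min_le_left _ _))
  have d4 : δ ≤ c2 := (min_le_right _ _).trans ((min_le_right _ _).trans (min_le_right _ _))
  simp only [max_le_iff] at hH
  obtain ⟨hHa, hHb1, hHb2, hHb3, hHb4, hHb5, hHb6⟩ := hH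
  have hH1' : 1 ≤ H := hH1.trans hHb1
  have hHpos : 0 < H := by linarith
  by_contra hcon
  rw [not_lt] at hcon
  have hE1 : H ^ (2 - δm) ≤ (E.card : ℝ) :=
    (Real.rpow_le_rpow_of_exponent_le hH1' (by linarith)).trans hE
  obtain ⟨E', hE'E, hE'c, hE'm⟩ := hmin H hHb6 E z N Z η κ v (hG.mono hH1' d1) hE1
  have hG' : Grid K δ H e f E' z N Z η κ v := hG.sub hE'E
  have hheavy : ((heavy (1 / 24) H E' z).card : ℝ) ≤ H ^ (4 - c4) := by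
    have h1 : ((heavy (1 / 24) H E' z).card : ℝ) ≤ ((heavy (1 / 24) H E z).card : ℝ) := by
      exact_mod_cast G7_heavy_mono hE'E
    exact h1.trans hcon
  obtain ⟨P1, P2, Q1, Q2, D, T, ω, hCh⟩ := hch H hHb5 E' z N Z η κ v (hG'.mono hH1' d2) hE'm hE'c hheavy
    (hbc H hHb1 E' z N Z η κ v (hG'.mono hH1' d4)) (hbr H hHb2 E' z N Z η κ v (hG'.mono hH1' d4))
  have hA := hrow H hHb3 E' z N Z η κ v (hG'.mono hH1' (d3.trans (min_le_left _ _))) hE'm (1 / 24) P1 P2 Q1 Q2 D T ω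
    (G7_choice_mono hCh hH1' (min_le_left _ _))
  have hB := hcol H hHb4 E' z N Z η κ v (hG'.mono hH1' (d3.trans (min_le_right _ _))) hE'm P1 P2 Q1 Q2 D T ω
    (G7_choice_mono hCh hH1' (min_le_right _ _))
  have hN : (0 : ℝ) < (N : ℝ) := by exact_mod_cast hG.N1
  have hD : (0 : ℝ) < (D : ℝ) := by exact_mod_cast hCh.D1
  have hu : 0 < Z ^ 2 * η := mul_pos (pow_pos hG.Z0 2) hG.eta0
  exact G7_num hHa (lt_min hN (pow_pos hHpos e)) (lt_min hN (pow_pos hHpos f)) hN hD hu hA hB hG5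

end O3

end T3

end Pool.Agent.Lib.MP_d8bd92_nt
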