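import Pool.Agent.Lib.MP_d8bd92_nt.T3.O3.Defs

set_option autoImplicit false

/-!
Phase 3, the tie (b)-(b), elementary route (page d8o3_tie_helper11.md).
-/

namespace Pool.Agent.Lib.MP_d8bd92_nt

namespace T3

namespace O3

open Finset

theorem G8_card {K δ H : ℝ} {e f : ℕ} {E : Finset (ℕ × ℕ)} {z : ℕ → ℕ → ℤ} {N : ℕ} {Z η κ : ℝ} {v : ℤ}
    (h : Grid K δ H e f E z N Z η κ v) (hH : 0 ≤ H) : (E.card : ℝ) ≤ H ^ (1 + δ) * H ^ (1 + δ) := by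
  have hX : 0 ≤ H ^ (1 + δ) := Real.rpow_nonneg hH _
  have hsub : E ⊆ (Finset.Icc 1 ⌊H ^ (1 + δ)⌋₊) ×ˢ (Finset.Icc 1 ⌊H ^ (1 + δ)⌋₊) := by
    intro w hw
    obtain ⟨p1, -, b1⟩ := h.pr1 w hw
    obtain ⟨p2, -, b2⟩ := h.pr2 w hw
    rw [Finset.mem_product, Finset.mem_Icc, Finset.mem_Icc]
    exact ⟨⟨p1.one_lt.le, Nat.le_floor b1⟩, ⟨p2.one_lt.le, Nat.le_floor b2⟩⟩
  have h1 := Finset.card_le_card hsub
  rw [Finset.card_product, Nat.card_Icc, Nat.add_sub_cancel] at h1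
  have h2 : (E.card : ℝ) ≤ (⌊H ^ (1 + δ)⌋₊ : ℝ) * (⌊H ^ (1 + δ)⌋₊ : ℝ) := by exact_mod_cast h1
  exact h2.trans (mul_le_mul (Nat.floor_le hX) (Nat.floor_le hX) (Nat.cast_nonneg _) hX)

theorem G8_gc_left (z : ℕ → ℕ → ℤ) (P P' Q Q' : ℕ) : gc z P P' Q Q' ∣ (z P Q).natAbs :=
  (Nat.gcd_dvd_left _ _).trans (Int.gcd_dvd_natAbs_left _ _)

theorem G8_gc_right (z : ℕ → ℕ → ℤ) (P P' Q Q' : ℕ) : gc z P P' Q Q' ∣ (z P' Q').natAbs :=
  (Nat.gcd_dvd_right _ _).trans (Int.gcd_dvd_natAbs_right _ _)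

/-- the divided grid -/
theorem G8_grid {K δ H : ℝ} {e f : ℕ} {E : Finset (ℕ × ℕ)} {z : ℕ → ℕ → ℤ} {N : ℕ} {Z η κ : ℝ} {v : ℤ}
    (h : Grid K δ H e f E z N Z η κ v) (hH : 0 < H) (g : ℕ) (hg1 : 1 ≤ g) (E' : Finset (ℕ × ℕ))
    (hE' : E' ⊆ E) (hne : E'.Nonempty) (hg : ∀ w ∈ E', (g : ℤ) ∣ z w.1 w.2) :
    ∃ v' : ℤ, Grid K δ H e f E' (fun P Q => z P Q / g) N (Z / g) η (κ / g ^ 3) v' := by
  have hg0 : (g : ℤ) ≠ 0 := by exact_mod_cast (by omega : g ≠ 0)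
  have hgR : (0 : ℝ) < g := by exact_mod_cast hg1
  have hgR1 : (1 : ℝ) ≤ g := by exact_mod_cast hg1
  obtain ⟨w0, hw0⟩ := hne
  have hcop : IsCoprime (g : ℤ) (N : ℤ) :=
    IsCoprime.of_isCoprime_of_dvd_left (h.copN w0 (hE' hw0)) (hg w0 hw0)
  obtain ⟨a, b, hab⟩ := hcop
  have ha : IsCoprime a (N : ℤ) := ⟨g, b, by rw [mul_comm (g : ℤ) a]; exact hab⟩
  have hz : ∀ w ∈ E', z w.1 w.2 = g * (z w.1 w.2 / g) := fun w hw =>
    (Int.mul_ediv_cancel' (hg w hw)).symm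
  have hzR : ∀ w ∈ E', (z w.1 w.2 : ℝ) = g * ((z w.1 w.2 / g : ℤ) : ℝ) := fun w hw => by
    conv_lhs => rw [hz w hw]
    push_cast
    rfl
  have hdv : ∀ w ∈ E', (z w.1 w.2 / g) ∣ z w.1 w.2 := fun w hw =>
    ⟨g, by rw [mul_comm]; exact hz w hw⟩
  refine ⟨v * a ^ 3, ?_⟩
  refine
    { pr1 := fun w hw => h.pr1 w (hE' hw)
      pr2 := fun w hw => h.pr2 w (hE' hw)
      N1 := h.N1
      NK := h.NK
      Z0 := div_pos h.Z0 hgR
      ZK := (div_le_self h.Z0.le hgR1).trans h.ZK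
      eta0 := h.eta0
      eta1 := h.eta1
      zlo := fun w hw => ?_
      zhi := fun w hw => ?_
      copN := fun w hw => IsCoprime.of_isCoprime_of_dvd_left (h.copN w (hE' hw)) (hdv w hw)
      cop1 := fun w hw => IsCoprime.of_isCoprime_of_dvd_left (h.cop1 w (hE' hw)) (hdv w hw)
      cop2 := fun w hw => IsCoprime.of_isCoprime_of_dvd_left (h.cop2 w (hE' hw)) (hdv w hw)
      copv := fun w hw => ?_
      cub := fun w hw => ?_
      arch := fun w hw => ?_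
      g4 := ?_ }
  · have h1 := h.zlo w (hE' hw)
    rw [hzR w hw, abs_mul, abs_of_pos hgR] at h1
    have h2 : Z / g / 2 = Z / 2 / g := by ring
    rw [h2, div_le_iff₀ hgR, mul_comm]
    exact h1
  · have h1 := h.zhi w (hE' hw)
    rw [hzR w hw, abs_mul, abs_of_pos hgR] at h1
    rw [le_div_iff₀ hgR, mul_comm]
    exact h1
  · have h1 := h.copv w (hE' hw)
    have h2 : v * a ^ 3 * (w.1 : ℤ) * (w.2 : ℤ) = a ^ 3 * (v * w.1 * w.2) := by ring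
    rw [h2]
    exact IsCoprime.mul_left (ha.pow_left) h1
  · obtain ⟨t, ht⟩ := h.cub w (hE' hw)
    have hc3 : IsCoprime ((g : ℤ) ^ 3) (N : ℤ) := IsCoprime.pow_left ⟨a, b, hab⟩
    have hd : (N : ℤ) ∣ (g : ℤ) ^ 3 * ((z w.1 w.2 / g) ^ 3 - v * a ^ 3 * w.1 ^ e * w.2 ^ f) := by
      have e1 : (g : ℤ) ^ 3 * ((z w.1 w.2 / g) ^ 3 - v * a ^ 3 * w.1 ^ e * w.2 ^ f) =
          ((g : ℤ) * (z w.1 w.2 / g)) ^ 3 - v * (a * g) ^ 3 * w.1 ^ e * w.2 ^ f := by ring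
      have e2 : a * (g : ℤ) = 1 - b * N := by linarith
      rw [e1, ← hz w hw, e2]
      refine ⟨t + v * w.1 ^ e * w.2 ^ f * (3 * b - 3 * b ^ 2 * N + b ^ 3 * N ^ 2), ?_⟩
      linear_combination ht
    exact hc3.symm.dvd_of_dvd_mul_left hd
  · have h1 := h.arch w (hE' hw)
    have h2 : ((z w.1 w.2 / g : ℤ) : ℝ) ^ 3 - κ / g ^ 3 * w.1 ^ e * w.2 ^ f =
        ((z w.1 w.2 : ℝ) ^ 3 - κ * w.1 ^ e * w.2 ^ f) / g ^ 3 := by
      rw [hzR w hw]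
      field_simp
    have h3 : (Z / g) ^ 3 * η = Z ^ 3 * η / g ^ 3 := by
      field_simp
    show |((z w.1 w.2 / g : ℤ) : ℝ) ^ 3 - κ / g ^ 3 * w.1 ^ e * w.2 ^ f| ≤ (Z / g) ^ 3 * η
    rw [h2, h3, abs_div, abs_of_pos (by positivity : (0 : ℝ) < (g : ℝ) ^ 3)]
    exact div_le_div_of_nonneg_right h1 (by positivity)
  · refine le_trans ?_ h.g4
    have h1 : (Z / g) ^ 3 ≤ Z ^ 3 :=
      pow_le_pow_left₀ (div_nonneg h.Z0.le hgR.le) (div_le_self h.Z0.le hgR1) 3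
    have h2 : 0 ≤ H ^ (1 / 2 : ℝ) := Real.rpow_nonneg hH.le _
    exact mul_le_mul_of_nonneg_right (mul_le_mul_of_nonneg_right h1 h.eta0.le) h2

/-- (o3-G8) division by a popular gcd, (2.1): many heavy quadruples give a grid with `Z' = Z / g`, `g ≥ H^(1/24)` -/
theorem grid_divide (K ε : ℝ) (hK : 0 < K) (hε : 0 < ε) (e f : ℕ) :
    ∃ c4 δ0 H0 : ℝ, 0 < c4 ∧ 0 < δ0 ∧ 1 ≤ H0 ∧ ∀ δ : ℝ, δ ≤ δ0 → ∀ H : ℝ, H0 ≤ H →
    ∀ (E : Finset (ℕ × ℕ)) (z : ℕ → ℕ → ℤ) (N : ℕ) (Z η κ : ℝ) (v : ℤ), Grid K δ H e f E z N Z η κ v →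
    G5 H e f N Z η → H ^ (4 - c4) < ((heavy (1 / 24) H E z).card : ℝ) →
    ∃ (E' : Finset (ℕ × ℕ)) (z' : ℕ → ℕ → ℤ) (Z' κ' : ℝ) (v' : ℤ), Grid K δ H e f E' z' N Z' η κ' v' ∧
      G5 H e f N Z' η ∧ Z' * H ^ (1 / 24 : ℝ) ≤ Z ∧ H ^ (2 - ε) ≤ (E'.card : ℝ) := by
  classical
  obtain ⟨C, hC1, hC⟩ := card_divisors_le_rpow (ε / (8 * K)) (by positivity)
  refine ⟨ε / 4, ε / 16, max 1 (C ^ (2 / ε)), by positivity, by positivity, le_max_left _ _, ?_⟩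
  intro δ hδ H hH E z N Z η κ v hG h5 hT
  have hH1 : 1 ≤ H := (le_max_left _ _).trans hH
  have hH0 : 0 < H := lt_of_lt_of_le one_pos hH1
  have hCH : C ≤ H ^ (ε / 2) := by
    have h1 : C ^ (2 / ε) ≤ H := (le_max_right _ _).trans hH
    have h2 : (C ^ (2 / ε)) ^ (ε / 2) ≤ H ^ (ε / 2) :=
      Real.rpow_le_rpow (Real.rpow_nonneg (by linarith) _) h1 (by positivity)
    rw [← Real.rpow_mul (by linarith)] at h2
    have h3 : 2 / ε * (ε / 2) = 1 := by field_simp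
    rwa [h3, Real.rpow_one] at h2
  set T := heavy (1 / 24) H E z with hTdef
  have hTm : ∀ t ∈ T, t.1 ∈ E ∧ t.2 ∈ E ∧
      H ^ (1 / 24 : ℝ) ≤ (gc z t.1.1 t.2.1 t.1.2 t.2.2 : ℝ) := by
    intro t ht
    rw [hTdef, heavy, Finset.mem_filter, Finset.mem_product] at ht
    exact ⟨ht.1.1, ht.1.2, ht.2.2.2⟩
  -- first pigeonhole
  have hG' := hG.mono hH1 hδ
  have hEc := G8_card hG' hH0.le
  have hb1 : E.card • H ^ (2 - ε / 4 - ε / 8) < (T.card : ℝ) := by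
    rw [nsmul_eq_mul]
    refine lt_of_le_of_lt ?_ hT
    calc (E.card : ℝ) * H ^ (2 - ε / 4 - ε / 8)
        ≤ H ^ (1 + ε / 16) * H ^ (1 + ε / 16) * H ^ (2 - ε / 4 - ε / 8) :=
          mul_le_mul_of_nonneg_right hEc (Real.rpow_nonneg hH0.le _)
      _ = H ^ (4 - ε / 4) := by
          rw [← Real.rpow_add hH0, ← Real.rpow_add hH0]
          congr 1
          ring
  obtain ⟨w0, hw0, hT1⟩ := Finset.exists_lt_card_fiber_of_nsmul_lt_card_of_maps_to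
    (s := T) (t := E) (f := Prod.fst) (fun t ht => (hTm t ht).1) hb1
  set T1 := T.filter (fun t => t.1 = w0) with hT1def
  have hz0 : z w0.1 w0.2 ≠ 0 := by
    intro h0
    have h1 := hG.zlo w0 hw0
    rw [h0] at h1
    simp at h1
    linarith [hG.Z0]
  have hn0 : (z w0.1 w0.2).natAbs ≠ 0 := Int.natAbs_ne_zero.2 hz0
  have hn1 : ((z w0.1 w0.2).natAbs : ℝ) ≤ H ^ K := by
    have h1 := hG.zhi w0 hw0
    have h2 : ((z w0.1 w0.2).natAbs : ℝ) = |(z w0.1 w0.2 : ℝ)| := by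
      rw [Nat.cast_natAbs, Int.cast_abs]
    rw [h2]
    exact h1.trans hG.ZK
  -- second pigeonhole
  have hb2 : ((z w0.1 w0.2).natAbs.divisors.card) • H ^ (2 - ε) < (T1.card : ℝ) := by
    rw [nsmul_eq_mul]
    refine lt_of_le_of_lt ?_ hT1
    have h1 := hC _ hn0
    have h2 : ((z w0.1 w0.2).natAbs : ℝ) ^ (ε / (8 * K)) ≤ H ^ (ε / 8) := by
      have h3 := Real.rpow_le_rpow (Nat.cast_nonneg _) hn1
        (by positivity : 0 ≤ ε / (8 * K))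
      rw [← Real.rpow_mul hH0.le] at h3
      have h4 : K * (ε / (8 * K)) = ε / 8 := by field_simp
      rwa [h4] at h3
    calc (((z w0.1 w0.2).natAbs.divisors.card : ℕ) : ℝ) * H ^ (2 - ε)
        ≤ (C * ((z w0.1 w0.2).natAbs : ℝ) ^ (ε / (8 * K))) * H ^ (2 - ε) :=
          mul_le_mul_of_nonneg_right h1 (Real.rpow_nonneg hH0.le _)
      _ ≤ (H ^ (ε / 2) * H ^ (ε / 8)) * H ^ (2 - ε) :=
          mul_le_mul_of_nonneg_right (mul_le_mul hCH h2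
            (Real.rpow_nonneg (Nat.cast_nonneg _) _) (Real.rpow_nonneg hH0.le _))
            (Real.rpow_nonneg hH0.le _)
      _ = H ^ (2 - ε / 4 - ε / 8) := by
          rw [← Real.rpow_add hH0, ← Real.rpow_add hH0]
          congr 1
          ring
  obtain ⟨g, hgd, hT2⟩ := Finset.exists_lt_card_fiber_of_nsmul_lt_card_of_maps_to
    (s := T1) (t := (z w0.1 w0.2).natAbs.divisors)
    (f := fun t => gc z t.1.1 t.2.1 t.1.2 t.2.2) (fun t ht => by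
      rw [hT1def, Finset.mem_filter] at ht
      rw [Nat.mem_divisors]
      refine ⟨?_, hn0⟩
      have h1 := G8_gc_left z t.1.1 t.2.1 t.1.2 t.2.2
      rw [ht.2] at h1
      rw [ht.2]
      exact h1) hb2
  set T2 := T1.filter (fun t => gc z t.1.1 t.2.1 t.1.2 t.2.2 = g) with hT2def
  have hT2m : ∀ t ∈ T2, t ∈ T ∧ t.1 = w0 ∧ gc z t.1.1 t.2.1 t.1.2 t.2.2 = g := by
    intro t ht
    rw [hT2def, Finset.mem_filter, hT1def, Finset.mem_filter] at ht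
    exact ⟨ht.1.1, ht.1.2, ht.2⟩
  have hpos : 0 < H ^ (2 - ε) := Real.rpow_pos_of_pos hH0 _
  have hT2ne : T2.Nonempty := by
    rw [← Finset.card_pos]
    have : (0 : ℝ) < (T2.card : ℝ) := hpos.trans hT2
    exact_mod_cast this
  have hg24 : H ^ (1 / 24 : ℝ) ≤ (g : ℝ) := by
    obtain ⟨t, ht⟩ := hT2ne
    obtain ⟨h1, -, h3⟩ := hT2m t ht
    rw [← h3]
    exact (hTm t h1).2.2
  have hg1R : (1 : ℝ) ≤ g := (Real.one_le_rpow hH1 (by norm_num)).trans hg24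
  have hg1 : 1 ≤ g := by exact_mod_cast hg1R
  set E' := T2.image Prod.snd with hE'def
  have hE'c : E'.card = T2.card := by
    rw [hE'def]
    refine Finset.card_image_of_injOn ?_
    intro s hs t ht hst
    exact Prod.ext (((hT2m s hs).2.1).trans ((hT2m t ht).2.1).symm) hst
  have hE'E : E' ⊆ E := by
    intro w hw
    obtain ⟨t, ht, rfl⟩ := Finset.mem_image.1 hw
    exact (hTm t (hT2m t ht).1).2.1
  have hE'g : ∀ w ∈ E', (g : ℤ) ∣ z w.1 w.2 := by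
    intro w hw
    obtain ⟨t, ht, rfl⟩ := Finset.mem_image.1 hw
    have h1 := G8_gc_right z t.1.1 t.2.1 t.1.2 t.2.2
    rw [(hT2m t ht).2.2] at h1
    exact Int.natCast_dvd.2 h1
  obtain ⟨v', hv'⟩ := G8_grid hG hH0 g hg1 E' hE'E (hT2ne.image _) hE'g
  refine ⟨E', fun P Q => z P Q / g, Z / g, κ / g ^ 3, v', hv', ?_, ?_, ?_⟩
  · unfold G5 at h5 ⊢
    refine le_trans ?_ h5
    have h1 : (Z / g) ^ 2 ≤ Z ^ 2 :=
      pow_le_pow_left₀ (div_nonneg hG.Z0.le (by linarith)) (div_le_self hG.Z0.le hg1R) 2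
    have h2 : ((Z / g) ^ 2 * η) ^ 6 ≤ (Z ^ 2 * η) ^ 6 :=
      pow_le_pow_left₀ (mul_nonneg (sq_nonneg _) hG.eta0.le)
        (mul_le_mul_of_nonneg_right h1 hG.eta0.le) 6
    exact mul_le_mul_of_nonneg_left h2 hH0.le
  · rw [div_mul_eq_mul_div, div_le_iff₀ (by linarith)]
    exact mul_le_mul_of_nonneg_left hg24 hG.Z0.le
  · rw [hE'c]
    exact hT2.le

end O3

end T3

end Pool.Agent.Lib.MP_d8bd92_nt
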