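import Pool.Agent.Lib.MP_d8bd92_nt.T3.O3.Defs
import Pool.Agent.Lib.MP_d8bd92_nt.T3.O3.G7
import Pool.Agent.Lib.MP_d8bd92_nt.T3.O3.G8

set_option autoImplicit false

/-!
Phase 3, the tie (b)-(b), elementary route (page d8o3_tie_helper11.md).
-/

namespace Pool.Agent.Lib.MP_d8bd92_nt

namespace T3

namespace O3

open Finset

/-- the induction -/
theorem G9_ind (K : ℝ) (hK : 0 < K) (e f : ℕ) (he : 1 ≤ e) (hf : 1 ≤ f) (k : ℕ) :
    ∃ δ H0 : ℝ, 0 < δ ∧ 1 ≤ H0 ∧ ∀ H : ℝ, H0 ≤ H →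
    ∀ (E : Finset (ℕ × ℕ)) (z : ℕ → ℕ → ℤ) (N : ℕ) (Z η κ : ℝ) (v : ℤ), Grid K δ H e f E z N Z η κ v →
    G5 H e f N Z η → Z < H ^ ((k : ℝ) / 24) → (E.card : ℝ) ≤ H ^ (2 - δ) := by
  induction k with
  | zero =>
    refine ⟨1, 1, one_pos, le_rfl, fun H hH E z N Z η κ v hG _ hZ => ?_⟩
    have hZ1 : Z < 1 := by
      have h1 : (((0 : ℕ) : ℝ) / 24) = 0 := by norm_num
      rwa [h1, Real.rpow_zero] at hZ
    have hE : E = ∅ := by
      rw [Finset.eq_empty_iff_forall_notMem]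
      intro w hw
      have h1 := hG.zlo w hw
      have h2 := hG.zhi w hw
      have h3 : z w.1 w.2 = 0 := by
        have h4 : |(z w.1 w.2 : ℝ)| < 1 := lt_of_le_of_lt h2 hZ1
        have h5 : |z w.1 w.2| < 1 := by exact_mod_cast h4
        exact Int.abs_lt_one_iff.1 h5
      rw [h3, Int.cast_zero, abs_zero] at h1
      have := hG.Z0
      linarith
    rw [hE, Finset.card_empty, Nat.cast_zero]
    exact Real.rpow_nonneg (by linarith) _
  | succ k ih =>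
    obtain ⟨δk, Hk, hδk, hHk, hk⟩ := ih
    obtain ⟨c4, δ0, H0, hc4, hδ0, hH0, hdiv⟩ := grid_divide K (δk / 2) hK (by positivity) e f
    obtain ⟨δ1, H1, hδ1, hH1, hlight⟩ := grid_light K c4 hK hc4 e f he hf
    refine ⟨min δk (min δ0 δ1), max (max Hk H0) (max H1 2), lt_min hδk (lt_min hδ0 hδ1),
      (hHk.trans (le_max_left _ _)).trans (le_max_left _ _),
      fun H hH E z N Z η κ v hG hg5 hZ => ?_⟩
    set δ : ℝ := min δk (min δ0 δ1) with hδ
    have hHk' : Hk ≤ H := ((le_max_left _ _).trans (le_max_left _ _)).trans hH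
    have hH0' : H0 ≤ H := ((le_max_right _ _).trans (le_max_left _ _)).trans hH
    have hH1' : H1 ≤ H := ((le_max_left _ _).trans (le_max_right _ _)).trans hH
    have hH2 : 2 ≤ H := ((le_max_right _ _).trans (le_max_right _ _)).trans hH
    have hH1e : 1 ≤ H := by linarith
    have hHp : 0 < H := by linarith
    have d1 : δ ≤ δk := min_le_left _ _
    have d2 : δ ≤ δ0 := (min_le_right _ _).trans (min_le_left _ _)
    have d3 : δ ≤ δ1 := (min_le_right _ _).trans (min_le_right _ _)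
    by_contra hcon
    rw [not_le] at hcon
    have h1 : H ^ (2 - δ1) ≤ (E.card : ℝ) :=
      (Real.rpow_le_rpow_of_exponent_le hH1e (by linarith)).trans hcon.le
    have hheavy := hlight H hH1' E z N Z η κ v (hG.mono hH1e d3) hg5 h1
    obtain ⟨E', z', Z', κ', v', hG', hg5', hZ', hE'⟩ :=
      hdiv δ d2 H hH0' E z N Z η κ v hG hg5 hheavy
    have hZ'' : Z' < H ^ ((k : ℝ) / 24) := by
      have h2 : Z' * H ^ (1 / 24 : ℝ) < H ^ ((k : ℝ) / 24) * H ^ (1 / 24 : ℝ) := by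
        rw [← Real.rpow_add hHp]
        have h3 : (k : ℝ) / 24 + 1 / 24 = (((k + 1 : ℕ) : ℝ)) / 24 := by
          push_cast
          ring
        rw [h3]
        exact lt_of_le_of_lt hZ' hZ
      exact lt_of_mul_lt_mul_right h2 (Real.rpow_nonneg hHp.le _)
    have h4 := hk H hHk' E' z' N Z' η κ' v' (hG'.mono hH1e d1) hg5' hZ''
    have h5 : H ^ (2 - δk) < H ^ (2 - δk / 2) :=
      Real.rpow_lt_rpow_of_exponent_lt (by linarith) (by linarith)
    linarith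

/-- (o3-G9) GRID THEOREM, by induction on `k` with `Z < H^(k/24)` -/
theorem grid_thm (K : ℝ) (hK : 0 < K) (e f : ℕ) (he : 1 ≤ e) (hf : 1 ≤ f) :
    ∃ δ H0 : ℝ, 0 < δ ∧ 1 ≤ H0 ∧ ∀ H : ℝ, H0 ≤ H →
    ∀ (E : Finset (ℕ × ℕ)) (z : ℕ → ℕ → ℤ) (N : ℕ) (Z η κ : ℝ) (v : ℤ), Grid K δ H e f E z N Z η κ v →
    G5 H e f N Z η → (E.card : ℝ) ≤ H ^ (2 - δ) := by
  obtain ⟨k, hk⟩ := exists_nat_gt (24 * K)
  obtain ⟨δ, H0, hδ, hH0, hmain⟩ := G9_ind K hK e f he hf k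
  refine ⟨δ, max H0 2, hδ, hH0.trans (le_max_left _ _), fun H hH E z N Z η κ v hG hg5 => ?_⟩
  refine hmain H ((le_max_left _ _).trans hH) E z N Z η κ v hG hg5 ?_
  have hH2 : 2 ≤ H := (le_max_right _ _).trans hH
  refine lt_of_le_of_lt hG.ZK (Real.rpow_lt_rpow_of_exponent_lt (by linarith) ?_)
  linarith

end O3

end T3

end Pool.Agent.Lib.MP_d8bd92_nt
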