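import Pool.Agent.Lib.MP_d8bd92_nt.T3.O3.Defs
import Pool.Agent.Lib.MP_d8bd92_nt.T3.O3.G9

set_option autoImplicit false

/-!
Phase 3, the tie (b)-(b), elementary route (page d8o3_tie_helper11.md).
-/

namespace Pool.Agent.Lib.MP_d8bd92_nt

namespace T3

namespace O3

open Finset

/-- real fibre bound -/
theorem T2_card_fib {α β : Type*} [DecidableEq β] (f : α → β) (s : Finset α) (M : ℝ)
    (h : ∀ y ∈ s.image f, ((s.filter (fun x => f x = y)).card : ℝ) ≤ M) :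
    (s.card : ℝ) ≤ M * ((s.image f).card : ℝ) := by
  have h1 := Finset.card_eq_sum_card_image f s
  rw [h1, Nat.cast_sum]
  refine (Finset.sum_le_sum h).trans ?_
  rw [Finset.sum_const, nsmul_eq_mul, mul_comm]

/-- integers of absolute value at most `Z ≤ N` in one class modulo `N` -/
theorem T2_class (N : ℕ) (Z : ℝ) (hN : 1 ≤ N) (hZN : Z ≤ N) (x : ℤ) (T : Finset ℤ)
    (h1 : ∀ s ∈ T, |(s : ℝ)| ≤ Z) (h2 : ∀ s ∈ T, (N : ℤ) ∣ s - x) : (T.card : ℝ) ≤ 3 := by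
  rcases T.eq_empty_or_nonempty with h0 | hne
  · rw [h0]; norm_num
  have hm := T.min'_mem hne
  have hsub : T ⊆ (Finset.range 3).image (fun k : ℕ => T.min' hne + (N : ℤ) * k) := by
    intro s hs
    obtain ⟨k, hk⟩ : (N : ℤ) ∣ s - T.min' hne := by
      have := Int.dvd_sub (h2 s hs) (h2 _ hm)
      rwa [sub_sub_sub_cancel_right] at this
    have hle : T.min' hne ≤ s := T.min'_le s hs
    have hNpos : (0 : ℤ) < N := by exact_mod_cast hN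
    have hk0 : 0 ≤ k := by
      by_contra hcon
      have : (N : ℤ) * k < 0 := mul_neg_of_pos_of_neg hNpos (by omega)
      omega
    have hk2 : k ≤ 2 := by
      by_contra hcon
      have hk3 : 3 ≤ k := by omega
      have h3 : (N : ℤ) * 3 ≤ (N : ℤ) * k := mul_le_mul_of_nonneg_left hk3 hNpos.le
      have h4 : (N : ℤ) * 3 ≤ s - T.min' hne := by omega
      have h5 : ((N : ℝ)) * 3 ≤ (s : ℝ) - ((T.min' hne : ℤ) : ℝ) := by exact_mod_cast h4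
      have h6 := abs_le.1 (h1 s hs)
      have h7 := abs_le.1 (h1 _ hm)
      have h8 : (1 : ℝ) ≤ N := by exact_mod_cast hN
      linarith [h6.2, h7.1]
    rw [Finset.mem_image]
    refine ⟨k.toNat, ?_, ?_⟩
    · rw [Finset.mem_range]; omega
    · have : ((k.toNat : ℕ) : ℤ) = k := Int.toNat_of_nonneg hk0
      rw [this]
      omega
  have h3 := (Finset.card_le_card hsub).trans Finset.card_image_le
  rw [Finset.card_range] at h3
  exact_mod_cast h3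

theorem T2_fib (σ : ℝ) (hσ : 0 < σ) : ∃ C : ℝ, 1 ≤ C ∧ ∀ (N : ℕ) (t : ℤ) (Z : ℝ) (T : Finset ℤ), 1 ≤ N → Z ≤ N →
    (∀ s ∈ T, IsCoprime s (N : ℤ) ∧ (N : ℤ) ∣ s ^ 3 - t ∧ |(s : ℝ)| ≤ Z) → (T.card : ℝ) ≤ C * (N : ℝ) ^ σ * 3 := by
  obtain ⟨C, hC, h⟩ := Th.card_kth 3 (by norm_num) σ hσ
  refine ⟨C, hC, fun N t Z T hN hZ hT => ?_⟩
  exact h N t T 3 hN (by norm_num) (fun s hs => ⟨(hT s hs).1, (hT s hs).2.1⟩)
    (fun x T' hT' hx => T2_class N Z hN hZ x T' (fun s hs => (hT s (hT' hs)).2.2) hx)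

/-- arithmetic of one point -/
theorem T2_cop (v w : ℤ) (p q P Q a b e f : ℕ) (z : ℤ) (he : 1 ≤ e) (hf : 1 ≤ f)
    (hc : IsCoprime (v * (p : ℤ) ^ a * (q : ℤ) ^ b) (w * (P : ℤ) ^ e * (Q : ℤ) ^ f))
    (heq : v * (p : ℤ) ^ a * (q : ℤ) ^ b + w * (P : ℤ) ^ e * (Q : ℤ) ^ f = z ^ 3) :
    IsCoprime z ((v.natAbs * p ^ a : ℕ) : ℤ) ∧ IsCoprime z (P : ℤ) ∧ IsCoprime z (Q : ℤ) ∧
      IsCoprime (w * P * Q) ((v.natAbs * p ^ a : ℕ) : ℤ) ∧
      ((v.natAbs * p ^ a : ℕ) : ℤ) ∣ z ^ 3 - w * (P : ℤ) ^ e * (Q : ℤ) ^ f := by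
  have hNx : ((v.natAbs * p ^ a : ℕ) : ℤ) ∣ v * (p : ℤ) ^ a * (q : ℤ) ^ b := by
    have h1 : ((v.natAbs * p ^ a : ℕ) : ℤ) = |v| * (p : ℤ) ^ a := by push_cast; simp
    rw [h1]
    exact Dvd.dvd.mul_right (mul_dvd_mul ((abs_dvd v v).2 dvd_rfl) dvd_rfl) _
  have hPy : (P : ℤ) ∣ w * (P : ℤ) ^ e * (Q : ℤ) ^ f :=
    Dvd.dvd.mul_right (Dvd.dvd.mul_left (dvd_pow_self _ (by omega)) _) _
  have hQy : (Q : ℤ) ∣ w * (P : ℤ) ^ e * (Q : ℤ) ^ f := Dvd.dvd.mul_left (dvd_pow_self _ (by omega)) _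
  have hwPQ : w * P * Q ∣ w * (P : ℤ) ^ e * (Q : ℤ) ^ f :=
    mul_dvd_mul (mul_dvd_mul dvd_rfl (dvd_pow_self _ (by omega))) (dvd_pow_self _ (by omega))
  refine ⟨?_, ?_, ?_, ?_, ?_⟩
  · have h1 := hc.of_isCoprime_of_dvd_left hNx
    obtain ⟨c, hc'⟩ := hNx
    have h2 : IsCoprime ((v.natAbs * p ^ a : ℕ) : ℤ) (z ^ 3) := by
      rw [← heq, hc', add_comm]
      exact h1.add_mul_left_right c
    exact ((IsCoprime.pow_right_iff (by norm_num)).1 h2).symm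
  · have h1 := (hc.of_isCoprime_of_dvd_right hPy).symm
    obtain ⟨c, hc'⟩ := hPy
    have h2 : IsCoprime (P : ℤ) (z ^ 3) := by
      rw [← heq, hc']
      exact h1.add_mul_left_right c
    exact ((IsCoprime.pow_right_iff (by norm_num)).1 h2).symm
  · have h1 := (hc.of_isCoprime_of_dvd_right hQy).symm
    obtain ⟨c, hc'⟩ := hQy
    have h2 : IsCoprime (Q : ℤ) (z ^ 3) := by
      rw [← heq, hc']
      exact h1.add_mul_left_right c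
    exact ((IsCoprime.pow_right_iff (by norm_num)).1 h2).symm
  · exact ((hc.of_isCoprime_of_dvd_left hNx).of_isCoprime_of_dvd_right hwPQ).symm
  · rw [← heq, add_sub_cancel_right]
    exact hNx

/-- the size of `Z` -/
theorem T2_Z (v w : ℤ) (p q P Q a b e f : ℕ) (z : ℤ) (Z : ℝ)
    (heq : v * (p : ℤ) ^ a * (q : ℤ) ^ b + w * (P : ℤ) ^ e * (Q : ℤ) ^ f = z ^ 3)
    (hyx : |(w : ℝ)| * (P : ℝ) ^ e * (Q : ℝ) ^ f ≤ |(v : ℝ)| * (p : ℝ) ^ a * (q : ℝ) ^ b)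
    (hlo : Z / 2 ≤ |(z : ℝ)|) (hZ : 0 ≤ Z) : Z ^ 3 ≤ 16 * (|(v : ℝ)| * (p : ℝ) ^ a * (q : ℝ) ^ b) := by
  have h1 : (z : ℝ) ^ 3 = (v : ℝ) * (p : ℝ) ^ a * (q : ℝ) ^ b + (w : ℝ) * (P : ℝ) ^ e * (Q : ℝ) ^ f := by
    exact_mod_cast heq.symm
  have h2 : |(z : ℝ)| ^ 3 ≤ |(v : ℝ)| * (p : ℝ) ^ a * (q : ℝ) ^ b + |(w : ℝ)| * (P : ℝ) ^ e * (Q : ℝ) ^ f := by
    rw [← abs_pow, h1]
    refine (abs_add_le _ _).trans (le_of_eq ?_)
    rw [abs_mul, abs_mul, abs_mul, abs_mul]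
    rw [abs_of_nonneg (by positivity : (0 : ℝ) ≤ (p : ℝ) ^ a), abs_of_nonneg (by positivity : (0 : ℝ) ≤ (q : ℝ) ^ b),
      abs_of_nonneg (by positivity : (0 : ℝ) ≤ (P : ℝ) ^ e), abs_of_nonneg (by positivity : (0 : ℝ) ≤ (Q : ℝ) ^ f)]
  have h3 : (Z / 2) ^ 3 ≤ |(z : ℝ)| ^ 3 := pow_le_pow_left₀ (by positivity) hlo 3
  have h4 : (Z / 2) ^ 3 = Z ^ 3 / 8 := by ring
  rw [h4] at h3
  linarith

/-- the grid with `p` fixed -/
theorem T2_grid (K K' δ δ' H : ℝ) (hH1 : 1 ≤ H) (a b e f : ℕ) (hb : 1 ≤ b) (hba : b < a) (hf : 1 ≤ f) (hfe : f < e)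
    (hδ0 : 0 < δ) (hδ1 : δ ≤ 1) (hδ : δ ≤ δ') (hδb : δ * (2 * b + 1) ≤ 1 / 4) (hH16 : 16 ≤ H ^ (1 / 4 : ℝ))
    (hK' : K + 2 * a + 2 * b + 2 ≤ K') (v w : ℤ) (X Y Z : ℝ) (F : Finset (ℕ × ℕ × ℕ × ℕ)) (z : ℕ × ℕ × ℕ × ℕ → ℤ)
    (hT : Tie K δ H a b e f v w X Y Z F z) (hK0 : 0 < K) (p : ℕ) (E : Finset (ℕ × ℕ)) (z' : ℕ → ℕ → ℤ) (hne : E.Nonempty)
    (hE : ∀ u ∈ E, ∃ t ∈ F, t.1 = p ∧ t.2.2.1 = u.1 ∧ t.2.2.2 = u.2 ∧ z' u.1 u.2 = z t) :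
    Grid K' δ' H e f E z' (v.natAbs * p ^ a) Z 1 0 w ∧ Z ≤ ((v.natAbs * p ^ a : ℕ) : ℝ) ∧
      ((v.natAbs * p ^ a : ℕ) : ℝ) ≤ H ^ K' ∧ 1 ≤ v.natAbs * p ^ a ∧ ((v.natAbs * p ^ a : ℕ) : ℝ) = |(v : ℝ)| * (p : ℝ) ^ a := by
  have hH0 : (0 : ℝ) < H := by linarith
  obtain ⟨u0, hu0⟩ := hne
  obtain ⟨t0, ht0, hp0, -, -, -⟩ := hE u0 hu0
  have hpr := hT.prp t0 ht0
  rw [hp0] at hpr
  have hprq := hT.prq t0 ht0
  have hv1 : (1 : ℝ) ≤ |(v : ℝ)| := by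
    have := Int.one_le_abs hT.v0
    exact_mod_cast this
  have hN : ((v.natAbs * p ^ a : ℕ) : ℝ) = |(v : ℝ)| * (p : ℝ) ^ a := by
    push_cast [Nat.cast_natAbs]; simp
  have hp1 : (1 : ℝ) ≤ p := by exact_mod_cast hpr.1.one_lt.le
  have hq1 : (1 : ℝ) ≤ t0.2.1 := by exact_mod_cast hprq.1.one_lt.le
  have hp2 : (p : ℝ) ≤ H ^ (2 : ℝ) := hpr.2.2.trans (Real.rpow_le_rpow_of_exponent_le hH1 (by linarith))
  have hq2 : (t0.2.1 : ℝ) ≤ H ^ (2 : ℝ) := hprq.2.2.trans (Real.rpow_le_rpow_of_exponent_le hH1 (by linarith))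
  have hpa : (p : ℝ) ^ a ≤ H ^ (2 * (a : ℝ)) := by
    rw [Real.rpow_mul hH0.le, Real.rpow_natCast]
    exact pow_le_pow_left₀ (by positivity) hp2 a
  have hqb : (t0.2.1 : ℝ) ^ b ≤ H ^ (2 * (b : ℝ)) := by
    rw [Real.rpow_mul hH0.le, Real.rpow_natCast]
    exact pow_le_pow_left₀ (by positivity) hq2 b
  have hN1 : 1 ≤ v.natAbs * p ^ a := by
    have h1 : 0 < v.natAbs := Int.natAbs_pos.2 hT.v0
    have h2 : 0 < p ^ a := pow_pos hpr.1.pos a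
    exact Nat.mul_pos h1 h2
  have hN1r : (1 : ℝ) ≤ ((v.natAbs * p ^ a : ℕ) : ℝ) := by exact_mod_cast hN1
  have hNK : ((v.natAbs * p ^ a : ℕ) : ℝ) ≤ H ^ K' := by
    rw [hN]
    calc |(v : ℝ)| * (p : ℝ) ^ a ≤ H ^ K * H ^ (2 * (a : ℝ)) :=
          mul_le_mul hT.vK hpa (by positivity) (by positivity)
      _ = H ^ (K + 2 * a) := by rw [← Real.rpow_add hH0]
      _ ≤ H ^ K' := Real.rpow_le_rpow_of_exponent_le hH1 (by
          have : (0 : ℝ) ≤ b := by positivity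
          linarith)
  have hzne : ∀ t ∈ F, z t ≠ 0 := by
    intro t ht h0
    have h1 := hT.eq t ht
    have h2 := hT.cop t ht
    rw [h0] at h1
    have h3 : w * (t.2.2.1 : ℤ) ^ e * (t.2.2.2 : ℤ) ^ f = -(v * (t.1 : ℤ) ^ a * (t.2.1 : ℤ) ^ b) := by
      have : (0 : ℤ) ^ 3 = 0 := by norm_num
      rw [this] at h1
      linarith
    rw [h3, IsCoprime.neg_right_iff, isCoprime_self] at h2
    have h4 : (t.1 : ℤ) ∣ v * (t.1 : ℤ) ^ a * (t.2.1 : ℤ) ^ b :=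
      Dvd.dvd.mul_right (Dvd.dvd.mul_left (dvd_pow_self _ (by omega)) _) _
    exact (Nat.prime_iff_prime_int.1 (hT.prp t ht).1).not_isUnit (isUnit_of_dvd_unit h4 h2)
  have hZ0 : 0 < Z := by
    have h1 : (0 : ℝ) < |(z t0 : ℝ)| := by
      have := hzne t0 ht0
      positivity
    exact h1.trans_le (hT.zhi t0 ht0)
  have hZ3 : Z ^ 3 ≤ 16 * (|(v : ℝ)| * (p : ℝ) ^ a * (t0.2.1 : ℝ) ^ b) := by
    have := T2_Z v w t0.1 t0.2.1 t0.2.2.1 t0.2.2.2 a b e f (z t0) Z (hT.eq t0 ht0) (hT.yx t0 ht0) (hT.zlo t0 ht0) hZ0.le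
    rwa [hp0] at this
  have hH16' : (16 : ℝ) ≤ H := hH16.trans (by
    calc H ^ (1 / 4 : ℝ) ≤ H ^ (1 : ℝ) := Real.rpow_le_rpow_of_exponent_le hH1 (by norm_num)
      _ = H := Real.rpow_one H)
  have hZK : Z ≤ H ^ K' := by
    rcases le_or_gt Z 1 with h | h
    · exact h.trans (Real.one_le_rpow hH1 (by
        have h1 : (0 : ℝ) ≤ a := by positivity
        have h2 : (0 : ℝ) ≤ b := by positivity
        linarith))
    · have h1 : Z ≤ Z ^ 3 := by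
        have := pow_le_pow_right₀ h.le (by norm_num : 1 ≤ 3)
        rwa [pow_one] at this
      calc Z ≤ Z ^ 3 := h1
        _ ≤ 16 * (|(v : ℝ)| * (p : ℝ) ^ a * (t0.2.1 : ℝ) ^ b) := hZ3
        _ ≤ H * (H ^ K * H ^ (2 * (a : ℝ)) * H ^ (2 * (b : ℝ))) := by
            apply mul_le_mul hH16' _ (by positivity) hH0.le
            exact mul_le_mul (mul_le_mul hT.vK hpa (by positivity) (by positivity)) hqb (by positivity) (by positivity)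
        _ = H ^ (1 + (K + 2 * a + 2 * b)) := by
            rw [← Real.rpow_add hH0, ← Real.rpow_add hH0, Real.rpow_add hH0 1, Real.rpow_one]
        _ ≤ H ^ K' := Real.rpow_le_rpow_of_exponent_le hH1 (by linarith)
  have hg4 : Z ^ 3 * 1 * H ^ (1 / 2 : ℝ) ≤ ((v.natAbs * p ^ a : ℕ) : ℝ) ^ 2 := by
    have h1 : (t0.2.1 : ℝ) ^ b ≤ H ^ ((1 + δ) * (b : ℝ)) := by
      rw [Real.rpow_mul hH0.le, Real.rpow_natCast]
      exact pow_le_pow_left₀ (by positivity) hprq.2.2 b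
    have h2 : H ^ ((1 - δ) * ((b : ℝ) + 1)) ≤ (p : ℝ) ^ a := by
      have h3 : H ^ ((1 - δ) * ((b : ℝ) + 1)) = (H ^ (1 - δ)) ^ (b + 1) := by
        rw [Real.rpow_mul hH0.le, ← Real.rpow_natCast]
        push_cast
        rfl
      rw [h3]
      exact (pow_le_pow_left₀ (by positivity) hpr.2.1 (b + 1)).trans (pow_le_pow_right₀ hp1 (by omega))
    have h4 : 16 * (t0.2.1 : ℝ) ^ b * H ^ (1 / 2 : ℝ) ≤ (p : ℝ) ^ a := by
      calc 16 * (t0.2.1 : ℝ) ^ b * H ^ (1 / 2 : ℝ) ≤ H ^ (1 / 4 : ℝ) * H ^ ((1 + δ) * (b : ℝ)) * H ^ (1 / 2 : ℝ) :=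
            mul_le_mul_of_nonneg_right (mul_le_mul hH16 h1 (by positivity) (by positivity)) (by positivity)
        _ = H ^ (1 / 4 + (1 + δ) * (b : ℝ) + 1 / 2) := by rw [← Real.rpow_add hH0, ← Real.rpow_add hH0]
        _ ≤ H ^ ((1 - δ) * ((b : ℝ) + 1)) := Real.rpow_le_rpow_of_exponent_le hH1 (by linarith)
        _ ≤ (p : ℝ) ^ a := h2
    rw [hN]
    calc Z ^ 3 * 1 * H ^ (1 / 2 : ℝ) ≤ 16 * (|(v : ℝ)| * (p : ℝ) ^ a * (t0.2.1 : ℝ) ^ b) * 1 * H ^ (1 / 2 : ℝ) := by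
          gcongr
      _ = (|(v : ℝ)| * (p : ℝ) ^ a) * (16 * (t0.2.1 : ℝ) ^ b * H ^ (1 / 2 : ℝ)) := by ring
      _ ≤ (|(v : ℝ)| * (p : ℝ) ^ a) * (p : ℝ) ^ a := mul_le_mul_of_nonneg_left h4 (by positivity)
      _ ≤ (|(v : ℝ)| * (p : ℝ) ^ a) * (|(v : ℝ)| * (p : ℝ) ^ a) :=
          mul_le_mul_of_nonneg_left (le_mul_of_one_le_left (by positivity) hv1) (by positivity)
      _ = (|(v : ℝ)| * (p : ℝ) ^ a) ^ 2 := by ring
  have hZN : Z ≤ ((v.natAbs * p ^ a : ℕ) : ℝ) := by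
    have h1 : (1 : ℝ) ≤ H ^ (1 / 2 : ℝ) := Real.one_le_rpow hH1 (by norm_num)
    have h2 : Z ^ 3 ≤ ((v.natAbs * p ^ a : ℕ) : ℝ) ^ 3 := by
      calc Z ^ 3 = Z ^ 3 * 1 * 1 := by ring
        _ ≤ Z ^ 3 * 1 * H ^ (1 / 2 : ℝ) := mul_le_mul_of_nonneg_left h1 (by positivity)
        _ ≤ ((v.natAbs * p ^ a : ℕ) : ℝ) ^ 2 := hg4
        _ ≤ ((v.natAbs * p ^ a : ℕ) : ℝ) ^ 3 := pow_le_pow_right₀ hN1r (by norm_num)
    exact (pow_le_pow_iff_left₀ hZ0.le (by positivity) (by norm_num)).1 h2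
  have hfac : ∀ u ∈ E, IsCoprime (z' u.1 u.2) ((v.natAbs * p ^ a : ℕ) : ℤ) ∧ IsCoprime (z' u.1 u.2) (u.1 : ℤ) ∧
      IsCoprime (z' u.1 u.2) (u.2 : ℤ) ∧ IsCoprime (w * u.1 * u.2) ((v.natAbs * p ^ a : ℕ) : ℤ) ∧
      ((v.natAbs * p ^ a : ℕ) : ℤ) ∣ (z' u.1 u.2) ^ 3 - w * (u.1 : ℤ) ^ e * (u.2 : ℤ) ^ f := by
    intro u hu
    obtain ⟨t, ht, h1, h2, h3, h4⟩ := hE u hu
    rw [h4, ← h1, ← h2, ← h3]
    exact T2_cop v w t.1 t.2.1 t.2.2.1 t.2.2.2 a b e f (z t) (by omega) hf (hT.cop t ht) (hT.eq t ht)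
  refine ⟨?_, hZN, hNK, hN1, hN⟩
  exact
    { pr1 := fun u hu => by
        obtain ⟨t, ht, h1, h2, h3, h4⟩ := hE u hu
        rw [← h2]
        exact (hT.prP t ht).mono hH1 hδ
      pr2 := fun u hu => by
        obtain ⟨t, ht, h1, h2, h3, h4⟩ := hE u hu
        rw [← h3]
        exact (hT.prQ t ht).mono hH1 hδ
      N1 := hN1
      NK := hNK
      Z0 := hZ0
      ZK := hZK
      eta0 := one_pos
      eta1 := le_rfl
      zlo := fun u hu => by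
        obtain ⟨t, ht, h1, h2, h3, h4⟩ := hE u hu
        rw [h4]
        exact hT.zlo t ht
      zhi := fun u hu => by
        obtain ⟨t, ht, h1, h2, h3, h4⟩ := hE u hu
        rw [h4]
        exact hT.zhi t ht
      copN := fun u hu => (hfac u hu).1
      cop1 := fun u hu => (hfac u hu).2.1
      cop2 := fun u hu => (hfac u hu).2.2.1
      copv := fun u hu => (hfac u hu).2.2.2.1
      cub := fun u hu => (hfac u hu).2.2.2.2
      arch := fun u hu => by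
        obtain ⟨t, ht, h1, h2, h3, h4⟩ := hE u hu
        rw [h4, zero_mul, zero_mul, sub_zero, mul_one, abs_pow]
        exact pow_le_pow_left₀ (abs_nonneg _) (hT.zhi t ht) 3
      g4 := hg4 }

/-- (o3-T2) the grids with `p` fixed: `N = |v| p^a`, `η = 1`, `κ = 0` -/
theorem tie_grid_x (K : ℝ) (hK : 0 < K) (a b e f : ℕ) (hb : 1 ≤ b) (hba : b < a) (hf : 1 ≤ f) (hfe : f < e) :
    ∃ δ H0 : ℝ, 0 < δ ∧ 1 ≤ H0 ∧
    ∀ H : ℝ, H0 ≤ H → ∀ (v w : ℤ) (X Y Z : ℝ) (F : Finset (ℕ × ℕ × ℕ × ℕ)) (z : ℕ × ℕ × ℕ × ℕ → ℤ),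
    Tie K δ H a b e f v w X Y Z F z → (∀ t ∈ F, G5 H e f (|(v : ℝ)| * (t.1 : ℝ) ^ a) Z 1) →
    (F.card : ℝ) ≤ H ^ (3 - δ) := by
  classical
  set K' : ℝ := K + 2 * a + 2 * b + 2 with hK'
  have hK'0 : 0 < K' := by positivity
  obtain ⟨δ1, H1, hδ10, hH11, hgrid⟩ := grid_thm K' hK'0 e f (by omega) hf
  obtain ⟨C, hC1, hfib⟩ := T2_fib (δ1 / (4 * K')) (by positivity)
  have hC0 : 0 < C := by linarith
  set δ : ℝ := min (δ1 / 4) (1 / (4 * (2 * b + 1))) with hδdef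
  have hδ0 : 0 < δ := lt_min (by positivity) (by positivity)
  have hδle : δ ≤ δ1 / 4 := min_le_left _ _
  have hδb : δ * (2 * b + 1) ≤ 1 / 4 := by
    have h1 : δ ≤ 1 / (4 * (2 * (b : ℝ) + 1)) := min_le_right _ _
    have h2 : (0 : ℝ) < 2 * b + 1 := by positivity
    calc δ * (2 * b + 1) ≤ 1 / (4 * (2 * (b : ℝ) + 1)) * (2 * b + 1) := mul_le_mul_of_nonneg_right h1 h2.le
      _ = 1 / 4 := by field_simp
  have hδ1 : δ ≤ 1 := by
    have h2 : (0 : ℝ) ≤ b := by positivity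
    nlinarith
  refine ⟨δ, max H1 (max (16 ^ 4) ((3 * C) ^ (4 / δ1))), hδ0, hH11.trans (le_max_left _ _), ?_⟩
  intro H hH v w X Y Z F z hT hG
  have hHH1 : H1 ≤ H := (le_max_left _ _).trans hH
  have hH1 : 1 ≤ H := hH11.trans hHH1
  have hH0 : 0 < H := by linarith
  have hH164 : (16 : ℝ) ^ 4 ≤ H := (le_max_left _ _).trans ((le_max_right _ _).trans hH)
  have hHC : (3 * C) ^ (4 / δ1) ≤ H := (le_max_right _ _).trans ((le_max_right _ _).trans hH)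
  have hH16 : (16 : ℝ) ≤ H ^ (1 / 4 : ℝ) := by
    have h1 : ((16 : ℝ) ^ 4) ^ (1 / 4 : ℝ) ≤ H ^ (1 / 4 : ℝ) := Real.rpow_le_rpow (by positivity) hH164 (by norm_num)
    have h2 : ((16 : ℝ) ^ 4) ^ (1 / 4 : ℝ) = 16 := by
      rw [← Real.rpow_natCast, ← Real.rpow_mul (by norm_num)]
      norm_num
    rwa [h2] at h1
  have h3C : 3 * C ≤ H ^ (δ1 / 4) := by
    have h1 : ((3 * C) ^ (4 / δ1)) ^ (δ1 / 4) ≤ H ^ (δ1 / 4) := Real.rpow_le_rpow (by positivity) hHC (by positivity)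
    have h2 : ((3 * C) ^ (4 / δ1)) ^ (δ1 / 4) = 3 * C := by
      rw [← Real.rpow_mul (by positivity)]
      have : 4 / δ1 * (δ1 / 4) = 1 := by field_simp
      rw [this, Real.rpow_one]
    rwa [h2] at h1
  -- one prime
  have hone : ∀ p ∈ F.image (fun t => t.1), ((F.filter (fun t => t.1 = p)).card : ℝ) ≤
      (3 * C * H ^ (δ1 / 4)) * H ^ (2 - δ1) := by
    intro p hp
    set Fp := F.filter (fun t => t.1 = p) with hFp
    set E : Finset (ℕ × ℕ) := Fp.image (fun t => (t.2.2.1, t.2.2.2)) with hEdef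
    have hFpne : Fp.Nonempty := by
      obtain ⟨t, ht, htp⟩ := Finset.mem_image.1 hp
      exact ⟨t, Finset.mem_filter.2 ⟨ht, htp⟩⟩
    have hex : ∀ P Q : ℕ, ∃ s : ℤ, (P, Q) ∈ E → ∃ t ∈ F, t.1 = p ∧ t.2.2.1 = P ∧ t.2.2.2 = Q ∧ s = z t := by
      intro P Q
      by_cases h : (P, Q) ∈ E
      · obtain ⟨t, ht, htE⟩ := Finset.mem_image.1 h
        obtain ⟨ht1, ht2⟩ := Finset.mem_filter.1 ht
        have h1 : t.2.2.1 = P := congrArg Prod.fst htE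
        have h2 : t.2.2.2 = Q := congrArg Prod.snd htE
        exact ⟨z t, fun _ => ⟨t, ht1, ht2, h1, h2, rfl⟩⟩
      · exact ⟨0, fun h' => absurd h' h⟩
    choose z' hz' using hex
    obtain ⟨hGr, hZN, hNK, hN1, hN⟩ := T2_grid K K' δ δ1 H hH1 a b e f hb hba hf hfe hδ0 hδ1 (by linarith) hδb hH16
      (le_of_eq hK'.symm) v w X Y Z F z hT hK p E z' (hFpne.image _) (fun u hu => hz' u.1 u.2 hu)
    have hG5 : G5 H e f ((v.natAbs * p ^ a : ℕ) : ℝ) Z 1 := by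
      obtain ⟨t, ht, htp⟩ := Finset.mem_image.1 hp
      have := hG t ht
      rw [hN]
      rw [htp] at this
      exact this
    have hEc := hgrid H hHH1 E z' (v.natAbs * p ^ a) Z 1 0 w hGr hG5
    have hNσ : ((v.natAbs * p ^ a : ℕ) : ℝ) ^ (δ1 / (4 * K')) ≤ H ^ (δ1 / 4) := by
      have h1 := Real.rpow_le_rpow (by positivity) hNK (by positivity : 0 ≤ δ1 / (4 * K'))
      rw [← Real.rpow_mul hH0.le] at h1
      have h2 : K' * (δ1 / (4 * K')) = δ1 / 4 := by field_simp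
      rwa [h2] at h1
    have hfb : ∀ y ∈ Fp.image (fun t => (t.2.2.1, t.2.2.2)),
        ((Fp.filter (fun t => (t.2.2.1, t.2.2.2) = y)).card : ℝ) ≤ 3 * C * H ^ (δ1 / 4) := by
      intro y _
      set G := Fp.filter (fun t => (t.2.2.1, t.2.2.2) = y) with hGdef
      have hGm : ∀ t ∈ G, t ∈ F ∧ t.1 = p ∧ t.2.2.1 = y.1 ∧ t.2.2.2 = y.2 := by
        intro t ht
        obtain ⟨h1, h2⟩ := Finset.mem_filter.1 ht
        obtain ⟨h3, h4⟩ := Finset.mem_filter.1 h1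
        exact ⟨h3, h4, congrArg Prod.fst h2, congrArg Prod.snd h2⟩
      have hinj : Set.InjOn z G := by
        intro t ht t' ht' h
        obtain ⟨h1, h2, h3, h4⟩ := hGm t ht
        obtain ⟨k1, k2, k3, k4⟩ := hGm t' ht'
        have e1 := hT.eq t h1
        have e2 := hT.eq t' k1
        rw [h2, h3, h4] at e1
        rw [k2, k3, k4, ← h] at e2
        have e3 : v * (p : ℤ) ^ a * (t.2.1 : ℤ) ^ b = v * (p : ℤ) ^ a * (t'.2.1 : ℤ) ^ b := by linarith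
        have hp0 : (p : ℤ) ≠ 0 := by
          have := (hT.prp t h1).1.ne_zero
          rw [h2] at this
          exact_mod_cast this
        have e4 := mul_left_cancel₀ (mul_ne_zero hT.v0 (pow_ne_zero a hp0)) e3
        have e5 : t.2.1 ^ b = t'.2.1 ^ b := by exact_mod_cast e4
        have e6 : t.2.1 = t'.2.1 := Nat.pow_left_injective (by omega) e5
        exact Prod.ext (h2.trans k2.symm) (Prod.ext e6 (Prod.ext (h3.trans k3.symm) (h4.trans k4.symm)))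
      rw [← Finset.card_image_of_injOn hinj]
      have h1 := hfib (v.natAbs * p ^ a) (w * (y.1 : ℤ) ^ e * (y.2 : ℤ) ^ f) Z (G.image z) hN1 hZN ?_
      · refine h1.trans ?_
        have h2 : C * ((v.natAbs * p ^ a : ℕ) : ℝ) ^ (δ1 / (4 * K')) * 3 ≤ C * H ^ (δ1 / 4) * 3 := by
          gcongr
        linarith
      · intro s hs
        obtain ⟨t, ht, rfl⟩ := Finset.mem_image.1 hs
        obtain ⟨h1, h2, h3, h4⟩ := hGm t ht
        have h5 := T2_cop v w t.1 t.2.1 t.2.2.1 t.2.2.2 a b e f (z t) (by omega) hf (hT.cop t h1) (hT.eq t h1)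
        rw [h2, h3, h4] at h5
        exact ⟨h5.1, h5.2.2.2.2, hT.zhi t h1⟩
    have h1 := T2_card_fib (fun t : ℕ × ℕ × ℕ × ℕ => (t.2.2.1, t.2.2.2)) Fp (3 * C * H ^ (δ1 / 4)) hfb
    exact h1.trans (mul_le_mul_of_nonneg_left hEc (by positivity))
  have htot := T2_card_fib (fun t : ℕ × ℕ × ℕ × ℕ => t.1) F _ hone
  have himg : ((F.image (fun t => t.1)).card : ℝ) ≤ H ^ (1 + δ) := by
    have h1 : F.image (fun t => t.1) ⊆ Finset.Icc 1 ⌊H ^ (1 + δ)⌋₊ := by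
      intro p hp
      obtain ⟨t, ht, rfl⟩ := Finset.mem_image.1 hp
      rw [Finset.mem_Icc]
      exact ⟨(hT.prp t ht).1.pos, Nat.le_floor (hT.prp t ht).2.2⟩
    have h2 := Finset.card_le_card h1
    rw [Nat.card_Icc, Nat.add_sub_cancel] at h2
    exact (by exact_mod_cast h2 : ((F.image (fun t => t.1)).card : ℝ) ≤ (⌊H ^ (1 + δ)⌋₊ : ℝ)).trans
      (Nat.floor_le (by positivity))
  calc (F.card : ℝ) ≤ (3 * C * H ^ (δ1 / 4)) * H ^ (2 - δ1) * ((F.image (fun t => t.1)).card : ℝ) := htot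
    _ ≤ (H ^ (δ1 / 4) * H ^ (δ1 / 4)) * H ^ (2 - δ1) * H ^ (1 + δ) := by
        gcongr
    _ = H ^ (δ1 / 4 + δ1 / 4 + (2 - δ1) + (1 + δ)) := by
        rw [← Real.rpow_add hH0, ← Real.rpow_add hH0, ← Real.rpow_add hH0]
    _ ≤ H ^ (3 - δ) := Real.rpow_le_rpow_of_exponent_le hH1 (by linarith)

end O3

end T3

end Pool.Agent.Lib.MP_d8bd92_nt
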