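import Pool.Agent.Lib.MP_d8bd92_nt.T3.O3.Defs
import Pool.Agent.Lib.MP_d8bd92_nt.T3.O3.G9

set_option autoImplicit false

/-!
Phase 3, the tie (b)-(b), elementary route (page d8o3_tie_helper11.md).
-/

namespace Pool.Agent.Lib.MP_d8bd92_nt

namespace T3

namespace O3

open Finset

/-- integers of size at most `Z ≤ N` in one class modulo `N` -/
theorem T3_class (N : ℕ) (hN : 1 ≤ N) (Z : ℝ) (hZ : Z ≤ N) (x : ℤ) (T : Finset ℤ)
    (h1 : ∀ s ∈ T, |(s : ℝ)| ≤ Z) (h2 : ∀ s ∈ T, (N : ℤ) ∣ s - x) : (T.card : ℝ) ≤ 5 := by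
  classical
  rcases T.eq_empty_or_nonempty with h0 | ⟨s0, hs0⟩
  · subst h0; simp
  · have hsub : T ⊆ (Finset.Icc (-2 : ℤ) 2).image (fun k => s0 + N * k) := by
      intro s hs
      obtain ⟨c, hc⟩ := h2 s hs
      obtain ⟨c0, hc0⟩ := h2 s0 hs0
      have hd : s - s0 = N * (c - c0) := by
        have : s - s0 = (s - x) - (s0 - x) := by ring
        rw [this, hc, hc0]; ring
      have hN0 : (0 : ℝ) < N := by exact_mod_cast hN
      have h3 : |((s - s0 : ℤ) : ℝ)| ≤ 2 * N := by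
        push_cast
        calc |(s : ℝ) - s0| ≤ |(s : ℝ)| + |(s0 : ℝ)| := abs_sub _ _
          _ ≤ Z + Z := add_le_add (h1 s hs) (h1 s0 hs0)
          _ ≤ 2 * N := by linarith
      rw [hd] at h3
      push_cast at h3
      rw [abs_mul, abs_of_pos hN0] at h3
      have h4 : |(c : ℝ) - c0| ≤ 2 := by
        by_contra hcon
        push Not at hcon
        nlinarith
      have h5 : |c - c0| ≤ 2 := by exact_mod_cast h4
      rw [abs_le] at h5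
      exact Finset.mem_image.2 ⟨c - c0, Finset.mem_Icc.2 ⟨h5.1, h5.2⟩, by rw [← hd]; ring⟩
    have h6 : T.card ≤ 5 := by
      refine (Finset.card_le_card hsub).trans (Finset.card_image_le.trans ?_)
      simp
    exact_mod_cast h6

theorem T3_fib (σ : ℝ) (hσ : 0 < σ) : ∃ C : ℝ, 1 ≤ C ∧ ∀ (N : ℕ) (c : ℤ) (Z : ℝ) (T : Finset ℤ), 1 ≤ N →
    Z ≤ N → (∀ s ∈ T, |(s : ℝ)| ≤ Z) → (∀ s ∈ T, IsCoprime s (N : ℤ) ∧ (N : ℤ) ∣ s ^ 3 - c) →
    (T.card : ℝ) ≤ C * (N : ℝ) ^ σ := by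
  obtain ⟨C, hC1, hC⟩ := Th.card_kth 3 (by norm_num) σ hσ
  refine ⟨C * 5, by linarith, ?_⟩
  intro N c Z T hN hZ h1 h2
  have h3 := hC N c T 5 hN (by norm_num) h2 (fun x T' hT' hx =>
    T3_class N hN Z hZ x T' (fun s hs => h1 s (hT' hs)) hx)
  linarith

theorem T3_alg {a b e f : ℕ} (ha : 1 ≤ a) (hb : 1 ≤ b) (v w z : ℤ) (p q P Q : ℕ) (hp : p.Prime)
    (hcop : IsCoprime (v * (p : ℤ) ^ a * (q : ℤ) ^ b) (w * (P : ℤ) ^ e * (Q : ℤ) ^ f))
    (heq : v * (p : ℤ) ^ a * (q : ℤ) ^ b + w * (P : ℤ) ^ e * (Q : ℤ) ^ f = z ^ 3) :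
    IsCoprime z ((w.natAbs * P ^ e : ℕ) : ℤ) ∧ IsCoprime z (p : ℤ) ∧ IsCoprime z (q : ℤ) ∧
    IsCoprime (v * (p : ℤ) * (q : ℤ)) ((w.natAbs * P ^ e : ℕ) : ℤ) ∧
    ((w.natAbs * P ^ e : ℕ) : ℤ) ∣ z ^ 3 - v * (p : ℤ) ^ a * (q : ℤ) ^ b ∧ z ≠ 0 := by
  have hNy : ((w.natAbs * P ^ e : ℕ) : ℤ) ∣ w * (P : ℤ) ^ e * (Q : ℤ) ^ f := by
    push_cast
    refine Dvd.dvd.mul_right ?_ _
    refine mul_dvd_mul ?_ dvd_rfl
    exact (abs_dvd _ _).2 dvd_rfl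
  have hzy : IsCoprime z (w * (P : ℤ) ^ e * (Q : ℤ) ^ f) := by
    have h1 : IsCoprime (z ^ 3) (w * (P : ℤ) ^ e * (Q : ℤ) ^ f) := by
      rw [← heq]
      simpa using hcop.add_mul_left_left 1
    exact (IsCoprime.pow_left_iff (by norm_num)).1 h1
  have hzx : IsCoprime z (v * (p : ℤ) ^ a * (q : ℤ) ^ b) := by
    have h1 : IsCoprime (z ^ 3) (v * (p : ℤ) ^ a * (q : ℤ) ^ b) := by
      rw [← heq, add_comm]
      simpa using hcop.symm.add_mul_left_left 1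
    exact (IsCoprime.pow_left_iff (by norm_num)).1 h1
  have hpx : (p : ℤ) ∣ v * (p : ℤ) ^ a * (q : ℤ) ^ b :=
    Dvd.dvd.mul_right (Dvd.dvd.mul_left (dvd_pow_self _ (by omega)) _) _
  have hqx : (q : ℤ) ∣ v * (p : ℤ) ^ a * (q : ℤ) ^ b :=
    Dvd.dvd.mul_left (dvd_pow_self _ (by omega)) _
  have hvx : v * (p : ℤ) * (q : ℤ) ∣ v * (p : ℤ) ^ a * (q : ℤ) ^ b :=
    mul_dvd_mul (mul_dvd_mul dvd_rfl (dvd_pow_self _ (by omega))) (dvd_pow_self _ (by omega))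
  have hzp : IsCoprime z (p : ℤ) := hzx.of_isCoprime_of_dvd_right hpx
  refine ⟨hzy.of_isCoprime_of_dvd_right hNy, hzp, hzx.of_isCoprime_of_dvd_right hqx,
    (hcop.of_isCoprime_of_dvd_left hvx).of_isCoprime_of_dvd_right hNy, ?_, ?_⟩
  · rw [← heq]
    have : v * (p : ℤ) ^ a * (q : ℤ) ^ b + w * (P : ℤ) ^ e * (Q : ℤ) ^ f - v * (p : ℤ) ^ a * (q : ℤ) ^ b
        = w * (P : ℤ) ^ e * (Q : ℤ) ^ f := by ring
    rw [this]; exact hNy
  · intro hz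
    rw [hz, isCoprime_zero_left] at hzp
    have h2 := Int.isUnit_iff_natAbs_eq.1 hzp
    rw [Int.natAbs_natCast] at h2
    exact hp.one_lt.ne' h2

/-- power of a number at most `H ^ (1 + δ)` -/
theorem T3_pow_le {δ H : ℝ} (hH : 1 ≤ H) (hδ : δ ≤ 1) {P : ℕ} (h : PrH δ H P) (e : ℕ) :
    (P : ℝ) ^ e ≤ H ^ (2 * (e : ℝ)) := by
  have h1 : (P : ℝ) ≤ H ^ (2 : ℝ) := h.2.2.trans (Real.rpow_le_rpow_of_exponent_le hH (by linarith))
  calc (P : ℝ) ^ e ≤ (H ^ (2 : ℝ)) ^ e := pow_le_pow_left₀ (Nat.cast_nonneg _) h1 e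
    _ = H ^ (2 * (e : ℝ)) := by
      rw [← Real.rpow_natCast, ← Real.rpow_mul (by linarith)]

/-- (o3-T3) the grids with `P` fixed: `N = |w| P^e`, `η = min 1 (Y / Z^3)`, `κ = v` (`κ = 0` if `η = 1`) -/
theorem tie_grid_y (K : ℝ) (hK : 0 < K) (a b e f : ℕ) (hb : 1 ≤ b) (hba : b < a) (hf : 1 ≤ f) (hfe : f < e) :
    ∃ δ H0 : ℝ, 0 < δ ∧ 1 ≤ H0 ∧
    ∀ H : ℝ, H0 ≤ H → ∀ (v w : ℤ) (X Y Z : ℝ) (F : Finset (ℕ × ℕ × ℕ × ℕ)) (z : ℕ × ℕ × ℕ × ℕ → ℤ),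
    Tie K δ H a b e f v w X Y Z F z → Z ^ 2 * H ^ (9 / 10 : ℝ) ≤ Y →
    (∀ t ∈ F, G5 H a b (|(w : ℝ)| * (t.2.2.1 : ℝ) ^ e) Z (min 1 (Y / Z ^ 3))) →
    (F.card : ℝ) ≤ H ^ (3 - δ) := by
  classical
  obtain ⟨K', hK'⟩ : ∃ K' : ℝ, K' = K + 2 * ((a : ℝ) + b + e) + 1 := ⟨_, rfl⟩
  have hK'0 : 0 < K' := by rw [hK']; positivity
  obtain ⟨δ1, H1, hδ1, hH1, hG⟩ := grid_thm K' hK'0 a b (by omega) hb
  obtain ⟨σ, hσ⟩ : ∃ σ : ℝ, σ = δ1 / (4 * K') := ⟨_, rfl⟩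
  have hσ0 : 0 < σ := by rw [hσ]; positivity
  obtain ⟨C, hC1, hC⟩ := T3_fib σ hσ0
  obtain ⟨δ, hδ⟩ : ∃ δ : ℝ, δ = min (δ1 / 4) (1 / (8 * ((e : ℝ) + f))) := ⟨_, rfl⟩
  have he0 : (0 : ℝ) < (e : ℝ) + f := by
    have : (1 : ℝ) ≤ f := by exact_mod_cast hf
    positivity
  have hδ0 : 0 < δ := by rw [hδ]; exact lt_min (by positivity) (by positivity)
  have hδa : δ ≤ δ1 / 4 := by rw [hδ]; exact min_le_left _ _
  have hδb : ((e : ℝ) + f) * δ ≤ 1 / 8 := by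
    have h1 : δ ≤ 1 / (8 * ((e : ℝ) + f)) := by rw [hδ]; exact min_le_right _ _
    calc ((e : ℝ) + f) * δ ≤ ((e : ℝ) + f) * (1 / (8 * ((e : ℝ) + f))) := mul_le_mul_of_nonneg_left h1 he0.le
      _ = 1 / 8 := by field_simp
  have hδc : δ ≤ 1 := by
    have h1 : (1 : ℝ) ≤ (e : ℝ) + f := by
      have : (1 : ℝ) ≤ f := by exact_mod_cast hf
      have h2 : (0 : ℝ) ≤ e := Nat.cast_nonneg _
      linarith
    nlinarith
  refine ⟨δ, H1 + C ^ (4 / δ1) + 16, hδ0, ?_, ?_⟩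
  · have : 0 ≤ C ^ (4 / δ1) := Real.rpow_nonneg (by linarith) _
    linarith
  intro H hH v w X Y Z F z hT hZY hg5
  have hCp : 0 ≤ C ^ (4 / δ1) := Real.rpow_nonneg (by linarith) _
  have hH16 : 16 ≤ H := by linarith
  have hHH1 : H1 ≤ H := by linarith
  have hHC : C ^ (4 / δ1) ≤ H := by linarith
  have hH1' : 1 ≤ H := by linarith
  have hH0 : 0 < H := by linarith
  have hCH : C ≤ H ^ (δ1 / 4) := by
    have h1 := Real.rpow_le_rpow hCp hHC (show 0 ≤ δ1 / 4 by positivity)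
    rw [← Real.rpow_mul (by linarith)] at h1
    have h2 : 4 / δ1 * (δ1 / 4) = 1 := by field_simp
    rw [h2, Real.rpow_one] at h1
    exact h1
  have hH4 : 2 ≤ H ^ (1 / 4 : ℝ) := by
    have h1 := Real.rpow_le_rpow (by norm_num) hH16 (show (0 : ℝ) ≤ 1 / 4 by norm_num)
    have h2 : (16 : ℝ) ^ (1 / 4 : ℝ) = 2 := by
      rw [show (16 : ℝ) = 2 ^ (4 : ℝ) by norm_num, ← Real.rpow_mul (by norm_num)]
      norm_num
    rw [h2] at h1
    exact h1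
  -- facts for one element
  have halg : ∀ t ∈ F, IsCoprime (z t) ((w.natAbs * t.2.2.1 ^ e : ℕ) : ℤ) ∧ IsCoprime (z t) (t.1 : ℤ) ∧
      IsCoprime (z t) (t.2.1 : ℤ) ∧ IsCoprime (v * (t.1 : ℤ) * (t.2.1 : ℤ)) ((w.natAbs * t.2.2.1 ^ e : ℕ) : ℤ) ∧
      ((w.natAbs * t.2.2.1 ^ e : ℕ) : ℤ) ∣ z t ^ 3 - v * (t.1 : ℤ) ^ a * (t.2.1 : ℤ) ^ b ∧ z t ≠ 0 :=
    fun t ht => T3_alg (by omega) hb v w (z t) t.1 t.2.1 t.2.2.1 t.2.2.2 (hT.prp t ht).1 (hT.cop t ht) (hT.eq t ht)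
  have hNc : ∀ t ∈ F, ((w.natAbs * t.2.2.1 ^ e : ℕ) : ℝ) = |(w : ℝ)| * (t.2.2.1 : ℝ) ^ e := by
    intro t _
    push_cast
    rw [Nat.cast_natAbs]
    push_cast
    ring
  have hw1 : (1 : ℝ) ≤ |(w : ℝ)| := by
    have : (1 : ℤ) ≤ |w| := Int.one_le_abs hT.w0
    exact_mod_cast this
  have hN1 : ∀ t ∈ F, 1 ≤ w.natAbs * t.2.2.1 ^ e := by
    intro t ht
    have h1 : w.natAbs ≠ 0 := Int.natAbs_ne_zero.2 hT.w0
    have h2 : t.2.2.1 ^ e ≠ 0 := pow_ne_zero _ (hT.prP t ht).1.ne_zero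
    exact Nat.one_le_iff_ne_zero.2 (mul_ne_zero h1 h2)
  have hNK : ∀ t ∈ F, ((w.natAbs * t.2.2.1 ^ e : ℕ) : ℝ) ≤ H ^ K' := by
    intro t ht
    rw [hNc t ht]
    calc |(w : ℝ)| * (t.2.2.1 : ℝ) ^ e ≤ H ^ K * H ^ (2 * (e : ℝ)) :=
          mul_le_mul hT.wK (T3_pow_le hH1' hδc (hT.prP t ht) e) (by positivity) (by positivity)
      _ = H ^ (K + 2 * (e : ℝ)) := by rw [← Real.rpow_add hH0]
      _ ≤ H ^ K' := by
        refine Real.rpow_le_rpow_of_exponent_le hH1' ?_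
        rw [hK']
        have h1 : (0 : ℝ) ≤ a := Nat.cast_nonneg _
        have h2 : (0 : ℝ) ≤ b := Nat.cast_nonneg _
        linarith
  have hzt1 : ∀ t ∈ F, (1 : ℝ) ≤ |(z t : ℝ)| := by
    intro t ht
    have : (1 : ℤ) ≤ |z t| := Int.one_le_abs (halg t ht).2.2.2.2.2
    exact_mod_cast this
  have hZ0 : ∀ t ∈ F, 0 < Z := fun t ht => lt_of_lt_of_le (by norm_num) ((hzt1 t ht).trans (hT.zhi t ht))
  have hY0 : ∀ t ∈ F, 0 < Y := by
    intro t ht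
    refine lt_of_lt_of_le ?_ (hT.yhi t ht)
    have h1 : (0 : ℝ) < (t.2.2.1 : ℝ) := by exact_mod_cast (hT.prP t ht).1.pos
    have h2 : (0 : ℝ) < (t.2.2.2 : ℝ) := by exact_mod_cast (hT.prQ t ht).1.pos
    have h3 : (0 : ℝ) < |(w : ℝ)| := by linarith
    positivity
  have hZK : ∀ t ∈ F, Z ≤ H ^ K' := by
    intro t ht
    have h1 : |(z t : ℝ)| ≤ |(z t : ℝ)| ^ 3 := le_self_pow₀ (hzt1 t ht) (by norm_num)
    have h2 : |(z t : ℝ)| ^ 3 ≤ 2 * (|(v : ℝ)| * t.1 ^ a * t.2.1 ^ b) := by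
      rw [← abs_pow]
      have h3 : ((z t : ℝ)) ^ 3 = (v : ℝ) * t.1 ^ a * t.2.1 ^ b + (w : ℝ) * t.2.2.1 ^ e * t.2.2.2 ^ f := by
        have := hT.eq t ht
        exact_mod_cast this.symm
      rw [h3]
      refine (abs_add_le _ _).trans ?_
      have h4 : |(v : ℝ) * t.1 ^ a * t.2.1 ^ b| = |(v : ℝ)| * t.1 ^ a * t.2.1 ^ b := by
        rw [abs_mul, abs_mul, abs_of_nonneg (show (0 : ℝ) ≤ (t.1 : ℝ) ^ a by positivity),
          abs_of_nonneg (show (0 : ℝ) ≤ (t.2.1 : ℝ) ^ b by positivity)]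
      have h5 : |(w : ℝ) * t.2.2.1 ^ e * t.2.2.2 ^ f| = |(w : ℝ)| * t.2.2.1 ^ e * t.2.2.2 ^ f := by
        rw [abs_mul, abs_mul, abs_of_nonneg (show (0 : ℝ) ≤ (t.2.2.1 : ℝ) ^ e by positivity),
          abs_of_nonneg (show (0 : ℝ) ≤ (t.2.2.2 : ℝ) ^ f by positivity)]
      rw [h4, h5]
      have := hT.yx t ht
      linarith
    have h3 : |(v : ℝ)| * t.1 ^ a * t.2.1 ^ b ≤ H ^ (K + 2 * (a : ℝ) + 2 * (b : ℝ)) := by
      calc |(v : ℝ)| * t.1 ^ a * t.2.1 ^ b ≤ H ^ K * H ^ (2 * (a : ℝ)) * H ^ (2 * (b : ℝ)) := by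
            refine mul_le_mul (mul_le_mul hT.vK (T3_pow_le hH1' hδc (hT.prp t ht) a) (by positivity)
              (by positivity)) (T3_pow_le hH1' hδc (hT.prq t ht) b) (by positivity) (by positivity)
        _ = H ^ (K + 2 * (a : ℝ) + 2 * (b : ℝ)) := by rw [← Real.rpow_add hH0, ← Real.rpow_add hH0]
    have h4 := hT.zlo t ht
    calc Z ≤ 2 * |(z t : ℝ)| := by linarith
      _ ≤ 4 * H ^ (K + 2 * (a : ℝ) + 2 * (b : ℝ)) := by linarith
      _ ≤ H * H ^ (K + 2 * (a : ℝ) + 2 * (b : ℝ)) :=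
        mul_le_mul_of_nonneg_right (by linarith) (by positivity)
      _ = H ^ (1 + (K + 2 * (a : ℝ) + 2 * (b : ℝ))) := by
        rw [Real.rpow_add hH0 1 (K + 2 * (a : ℝ) + 2 * (b : ℝ)), Real.rpow_one]
      _ ≤ H ^ K' := by
        refine Real.rpow_le_rpow_of_exponent_le hH1' ?_
        rw [hK']
        have h1 : (0 : ℝ) ≤ e := Nat.cast_nonneg _
        linarith
  have hN2 : ∀ t ∈ F, Y / 2 * H ^ (7 / 8 : ℝ) ≤ ((w.natAbs * t.2.2.1 ^ e : ℕ) : ℝ) ^ 2 := by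
    intro t ht
    rw [hNc t ht]
    have hP := hT.prP t ht
    have hQ := hT.prQ t ht
    have h1 : (t.2.2.2 : ℝ) ^ f ≤ H ^ ((1 + δ) * (f : ℝ)) := by
      calc (t.2.2.2 : ℝ) ^ f ≤ (H ^ (1 + δ)) ^ f := pow_le_pow_left₀ (Nat.cast_nonneg _) hQ.2.2 f
        _ = H ^ ((1 + δ) * (f : ℝ)) := by
          rw [← Real.rpow_natCast, ← Real.rpow_mul hH0.le]
    have h2 : H ^ ((1 - δ) * (e : ℝ)) ≤ (t.2.2.1 : ℝ) ^ e := by
      calc H ^ ((1 - δ) * (e : ℝ)) = (H ^ (1 - δ)) ^ e := by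
            rw [← Real.rpow_natCast, ← Real.rpow_mul hH0.le]
        _ ≤ (t.2.2.1 : ℝ) ^ e := pow_le_pow_left₀ (by positivity) hP.2.1 e
    have h3 : (t.2.2.2 : ℝ) ^ f * H ^ (7 / 8 : ℝ) ≤ |(w : ℝ)| * (t.2.2.1 : ℝ) ^ e := by
      calc (t.2.2.2 : ℝ) ^ f * H ^ (7 / 8 : ℝ) ≤ H ^ ((1 + δ) * (f : ℝ)) * H ^ (7 / 8 : ℝ) :=
            mul_le_mul_of_nonneg_right h1 (by positivity)
        _ = H ^ ((1 + δ) * (f : ℝ) + 7 / 8) := by rw [← Real.rpow_add hH0]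
        _ ≤ H ^ ((1 - δ) * (e : ℝ)) := by
          refine Real.rpow_le_rpow_of_exponent_le hH1' ?_
          have h4 : (f : ℝ) + 1 ≤ e := by exact_mod_cast hfe
          nlinarith
        _ ≤ (t.2.2.1 : ℝ) ^ e := h2
        _ ≤ |(w : ℝ)| * (t.2.2.1 : ℝ) ^ e := le_mul_of_one_le_left (by positivity) hw1
    have h4 := hT.ylo t ht
    have h5 : 0 ≤ |(w : ℝ)| * (t.2.2.1 : ℝ) ^ e := by positivity
    calc Y / 2 * H ^ (7 / 8 : ℝ) ≤ (|(w : ℝ)| * t.2.2.1 ^ e * t.2.2.2 ^ f) * H ^ (7 / 8 : ℝ) :=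
          mul_le_mul_of_nonneg_right h4 (by positivity)
      _ = (|(w : ℝ)| * t.2.2.1 ^ e) * (t.2.2.2 ^ f * H ^ (7 / 8 : ℝ)) := by ring
      _ ≤ (|(w : ℝ)| * t.2.2.1 ^ e) * (|(w : ℝ)| * (t.2.2.1 : ℝ) ^ e) := mul_le_mul_of_nonneg_left h3 h5
      _ = (|(w : ℝ)| * (t.2.2.1 : ℝ) ^ e) ^ 2 := by ring
  have h78 : 2 * H ^ (1 / 2 : ℝ) ≤ H ^ (7 / 8 : ℝ) := by
    calc 2 * H ^ (1 / 2 : ℝ) ≤ H ^ (1 / 4 : ℝ) * H ^ (1 / 2 : ℝ) :=
          mul_le_mul_of_nonneg_right hH4 (by positivity)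
      _ = H ^ (3 / 4 : ℝ) := by rw [← Real.rpow_add hH0]; norm_num
      _ ≤ H ^ (7 / 8 : ℝ) := Real.rpow_le_rpow_of_exponent_le hH1' (by norm_num)
  have h910 : 2 ≤ H ^ (9 / 10 : ℝ) := hH4.trans (Real.rpow_le_rpow_of_exponent_le hH1' (by norm_num))
  have hZN : ∀ t ∈ F, Z ≤ ((w.natAbs * t.2.2.1 ^ e : ℕ) : ℝ) := by
    intro t ht
    have h1 := hN2 t ht
    have h2 : Z ^ 2 ≤ ((w.natAbs * t.2.2.1 ^ e : ℕ) : ℝ) ^ 2 := by
      refine le_trans ?_ h1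
      have h3 : (1 : ℝ) ≤ H ^ (7 / 8 : ℝ) := Real.one_le_rpow hH1' (by norm_num)
      have h4 : Z ^ 2 * 2 ≤ Y := (mul_le_mul_of_nonneg_left h910 (sq_nonneg _)).trans hZY
      have h5 : Y / 2 ≤ Y / 2 * H ^ (7 / 8 : ℝ) := le_mul_of_one_le_right (by linarith [sq_nonneg Z]) h3
      linarith
    exact (pow_le_pow_iff_left₀ (hZ0 t ht).le (Nat.cast_nonneg _) (by norm_num)).1 h2
  -- the sets with P fixed
  have hEP : ∀ P : ℕ, (((F.filter (fun t => t.2.2.1 = P)).image (fun t => (t.1, t.2.1))).card : ℝ)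
      ≤ H ^ (2 - δ1) := by
    intro P
    rcases (F.filter (fun t => t.2.2.1 = P)).eq_empty_or_nonempty with h0 | ⟨t0, ht0⟩
    · rw [h0, Finset.image_empty, Finset.card_empty, Nat.cast_zero]
      positivity
    rw [Finset.mem_filter] at ht0
    obtain ⟨ht0F, ht0P⟩ := ht0
    have hch : ∀ p q : ℕ, ∃ s : ℤ, (p, q) ∈ (F.filter (fun t => t.2.2.1 = P)).image (fun t => (t.1, t.2.1)) →
        ∃ t ∈ F, t.2.2.1 = P ∧ p = t.1 ∧ q = t.2.1 ∧ s = z t := by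
      intro p q
      by_cases h : (p, q) ∈ (F.filter (fun t => t.2.2.1 = P)).image (fun t => (t.1, t.2.1))
      · obtain ⟨t, ht, hteq⟩ := Finset.mem_image.1 h
        rw [Finset.mem_filter] at ht
        rw [Prod.mk.injEq] at hteq
        exact ⟨z t, fun _ => ⟨t, ht.1, ht.2, hteq.1.symm, hteq.2.symm, rfl⟩⟩
      · exact ⟨0, fun h' => absurd h' h⟩
    choose g hg using hch
    have key : ∀ u ∈ (F.filter (fun t => t.2.2.1 = P)).image (fun t => (t.1, t.2.1)),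
        ∃ t ∈ F, t.2.2.1 = P ∧ u.1 = t.1 ∧ u.2 = t.2.1 ∧ g u.1 u.2 = z t := fun u hu => hg u.1 u.2 hu
    have hη0 : 0 < min 1 (Y / Z ^ 3) := lt_min one_pos (div_pos (hY0 t0 ht0F) (pow_pos (hZ0 t0 ht0F) 3))
    have hZ30 : 0 < Z ^ 3 := pow_pos (hZ0 t0 ht0F) 3
    have hηY : Z ^ 3 * min 1 (Y / Z ^ 3) ≤ Y := by
      calc Z ^ 3 * min 1 (Y / Z ^ 3) ≤ Z ^ 3 * (Y / Z ^ 3) := mul_le_mul_of_nonneg_left (min_le_right _ _) hZ30.le
        _ = Y := by rw [mul_div_assoc', mul_div_cancel_left₀ _ hZ30.ne']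
    have hgrid : Grid K' δ1 H a b ((F.filter (fun t => t.2.2.1 = P)).image (fun t => (t.1, t.2.1))) g
        (w.natAbs * P ^ e) Z (min 1 (Y / Z ^ 3)) (if Y / Z ^ 3 < 1 then (v : ℝ) else 0) v := by
      refine ⟨?_, ?_, ?_, ?_, hZ0 t0 ht0F, hZK t0 ht0F, hη0, min_le_left _ _, ?_, ?_, ?_, ?_, ?_, ?_, ?_, ?_, ?_⟩
      · intro u hu
        obtain ⟨t, ht, hP, h1, h2, h3⟩ := key u hu
        rw [h1]
        exact (hT.prp t ht).mono hH1' (by linarith)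
      · intro u hu
        obtain ⟨t, ht, hP, h1, h2, h3⟩ := key u hu
        rw [h2]
        exact (hT.prq t ht).mono hH1' (by linarith)
      · rw [← ht0P]; exact hN1 t0 ht0F
      · rw [← ht0P]; exact hNK t0 ht0F
      · intro u hu
        obtain ⟨t, ht, hP, h1, h2, h3⟩ := key u hu
        rw [h3]
        exact hT.zlo t ht
      · intro u hu
        obtain ⟨t, ht, hP, h1, h2, h3⟩ := key u hu
        rw [h3]
        exact hT.zhi t ht
      · intro u hu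
        obtain ⟨t, ht, hP, h1, h2, h3⟩ := key u hu
        rw [h3, ← hP]
        exact (halg t ht).1
      · intro u hu
        obtain ⟨t, ht, hP, h1, h2, h3⟩ := key u hu
        rw [h3, h1]
        exact (halg t ht).2.1
      · intro u hu
        obtain ⟨t, ht, hP, h1, h2, h3⟩ := key u hu
        rw [h3, h2]
        exact (halg t ht).2.2.1
      · intro u hu
        obtain ⟨t, ht, hP, h1, h2, h3⟩ := key u hu
        rw [h1, h2, ← hP]
        exact (halg t ht).2.2.2.1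
      · intro u hu
        obtain ⟨t, ht, hP, h1, h2, h3⟩ := key u hu
        rw [h3, h1, h2, ← hP]
        exact (halg t ht).2.2.2.2.1
      · intro u hu
        obtain ⟨t, ht, hP, h1, h2, h3⟩ := key u hu
        rw [h3, h1, h2]
        by_cases hc : Y / Z ^ 3 < 1
        · rw [if_pos hc, min_eq_right hc.le]
          have h4 : ((z t : ℝ)) ^ 3 = (v : ℝ) * t.1 ^ a * t.2.1 ^ b + (w : ℝ) * t.2.2.1 ^ e * t.2.2.2 ^ f := by
            have := hT.eq t ht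
            exact_mod_cast this.symm
          rw [h4, add_sub_cancel_left]
          have h5 : |(w : ℝ) * t.2.2.1 ^ e * t.2.2.2 ^ f| = |(w : ℝ)| * t.2.2.1 ^ e * t.2.2.2 ^ f := by
            rw [abs_mul, abs_mul, abs_of_nonneg (show (0 : ℝ) ≤ (t.2.2.1 : ℝ) ^ e by positivity),
              abs_of_nonneg (show (0 : ℝ) ≤ (t.2.2.2 : ℝ) ^ f by positivity)]
          rw [h5]
          have h6 : Z ^ 3 * (Y / Z ^ 3) = Y := by rw [mul_div_assoc', mul_div_cancel_left₀ _ hZ30.ne']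
          rw [h6]
          exact hT.yhi t ht
        · rw [if_neg hc, min_eq_left (not_lt.1 hc)]
          have h7 : ((z t : ℝ)) ^ 3 - 0 * (t.1 : ℝ) ^ a * (t.2.1 : ℝ) ^ b = (z t : ℝ) ^ 3 := by ring
          rw [h7, mul_one, abs_pow]
          exact pow_le_pow_left₀ (abs_nonneg _) (hT.zhi t ht) 3
      · rw [← ht0P]
        refine le_trans ?_ (hN2 t0 ht0F)
        calc Z ^ 3 * min 1 (Y / Z ^ 3) * H ^ (1 / 2 : ℝ) ≤ Y * H ^ (1 / 2 : ℝ) :=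
              mul_le_mul_of_nonneg_right hηY (by positivity)
          _ = Y / 2 * (2 * H ^ (1 / 2 : ℝ)) := by ring
          _ ≤ Y / 2 * H ^ (7 / 8 : ℝ) := mul_le_mul_of_nonneg_left h78 (by have := hY0 t0 ht0F; linarith)
    refine hG H hHH1 _ _ _ _ _ _ _ hgrid ?_
    have h8 := hg5 t0 ht0F
    rw [← hNc t0 ht0F, ht0P] at h8
    exact h8
  -- fibers
  have hfib : ∀ P : ℕ, ((F.filter (fun t => t.2.2.1 = P)).card : ℝ) ≤ H ^ (2 - δ1) * (C * H ^ (δ1 / 4)) := by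
    intro P
    have h1 := Finset.card_eq_sum_card_image (fun t : ℕ × ℕ × ℕ × ℕ => (t.1, t.2.1))
      (F.filter (fun t => t.2.2.1 = P))
    rw [h1]
    push_cast
    calc ∑ u ∈ (F.filter (fun t => t.2.2.1 = P)).image (fun t => (t.1, t.2.1)),
          (((F.filter (fun t => t.2.2.1 = P)).filter (fun t => (t.1, t.2.1) = u)).card : ℝ)
        ≤ ∑ u ∈ (F.filter (fun t => t.2.2.1 = P)).image (fun t => (t.1, t.2.1)), C * H ^ (δ1 / 4) := by
          refine Finset.sum_le_sum ?_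
          intro u hu
          obtain ⟨t1, ht1, hu1⟩ := Finset.mem_image.1 hu
          rw [Finset.mem_filter] at ht1
          have hu1' : t1.1 = u.1 ∧ t1.2.1 = u.2 := ⟨congrArg Prod.fst hu1, congrArg Prod.snd hu1⟩
          have hmem : ∀ t ∈ (F.filter (fun t => t.2.2.1 = P)).filter (fun t => (t.1, t.2.1) = u),
              t ∈ F ∧ t.2.2.1 = P ∧ t.1 = u.1 ∧ t.2.1 = u.2 := by
            intro t ht
            rw [Finset.mem_filter, Finset.mem_filter] at ht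
            exact ⟨ht.1.1, ht.1.2, congrArg Prod.fst ht.2, congrArg Prod.snd ht.2⟩
          have hinj : Set.InjOn z (((F.filter (fun t => t.2.2.1 = P)).filter (fun t => (t.1, t.2.1) = u) :
              Finset (ℕ × ℕ × ℕ × ℕ)) : Set (ℕ × ℕ × ℕ × ℕ)) := by
            intro t ht t' ht' hzz
            obtain ⟨h1, h2, h3, h4⟩ := hmem t (Finset.mem_coe.1 ht)
            obtain ⟨h1', h2', h3', h4'⟩ := hmem t' (Finset.mem_coe.1 ht')
            have e1 := hT.eq t h1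
            have e2 := hT.eq t' h1'
            rw [← hzz, ← e1, h3', h4', h2', h3, h4, h2, add_right_inj] at e2
            have hwP : w * (P : ℤ) ^ e ≠ 0 := by
              refine mul_ne_zero hT.w0 (pow_ne_zero _ ?_)
              have := (hT.prP t h1).1.ne_zero
              rw [h2] at this
              exact_mod_cast this
            have e3 := mul_left_cancel₀ hwP e2
            have e4 : t'.2.2.2 ^ f = t.2.2.2 ^ f := by exact_mod_cast e3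
            have e5 : t'.2.2.2 = t.2.2.2 := Nat.pow_left_injective (by omega) e4
            obtain ⟨x1, x2, x3, x4⟩ := t
            obtain ⟨y1, y2, y3, y4⟩ := t'
            simp only at h2 h3 h4 h2' h3' h4' e5
            rw [h2, h3, h4, h2', h3', h4', e5]
          rw [← Finset.card_image_of_injOn hinj]
          have h5 := hC (w.natAbs * P ^ e) (v * (u.1 : ℤ) ^ a * (u.2 : ℤ) ^ b) Z
            (((F.filter (fun t => t.2.2.1 = P)).filter (fun t => (t.1, t.2.1) = u)).image z)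
            (by rw [← ht1.2]; exact hN1 t1 ht1.1) (by rw [← ht1.2]; exact hZN t1 ht1.1)
            (by
              intro s hs
              obtain ⟨t, ht, rfl⟩ := Finset.mem_image.1 hs
              exact hT.zhi t (hmem t ht).1)
            (by
              intro s hs
              obtain ⟨t, ht, rfl⟩ := Finset.mem_image.1 hs
              obtain ⟨h1, h2, h3, h4⟩ := hmem t ht
              have h6 := halg t h1
              rw [h2, h3, h4] at h6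
              exact ⟨h6.1, h6.2.2.2.2.1⟩)
          refine h5.trans (mul_le_mul_of_nonneg_left ?_ (by linarith))
          have h6 : ((w.natAbs * P ^ e : ℕ) : ℝ) ≤ H ^ K' := by rw [← ht1.2]; exact hNK t1 ht1.1
          calc ((w.natAbs * P ^ e : ℕ) : ℝ) ^ σ ≤ (H ^ K') ^ σ := Real.rpow_le_rpow (Nat.cast_nonneg _) h6 hσ0.le
            _ = H ^ (K' * σ) := by rw [← Real.rpow_mul hH0.le]
            _ = H ^ (δ1 / 4) := by
              congr 1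
              rw [hσ]
              field_simp
      _ = (((F.filter (fun t => t.2.2.1 = P)).image (fun t => (t.1, t.2.1))).card : ℝ) * (C * H ^ (δ1 / 4)) := by
          rw [Finset.sum_const, nsmul_eq_mul]
      _ ≤ H ^ (2 - δ1) * (C * H ^ (δ1 / 4)) := mul_le_mul_of_nonneg_right (hEP P) (by positivity)
  -- the primes P
  have hPcard : ((F.image (fun t => t.2.2.1)).card : ℝ) ≤ H ^ (1 + δ) := by
    have h1 : F.image (fun t => t.2.2.1) ⊆ Finset.Icc 1 ⌊H ^ (1 + δ)⌋₊ := by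
      intro P hP
      obtain ⟨t, ht, rfl⟩ := Finset.mem_image.1 hP
      exact Finset.mem_Icc.2 ⟨(hT.prP t ht).1.pos, Nat.le_floor (hT.prP t ht).2.2⟩
    have h2 := Finset.card_le_card h1
    rw [Nat.card_Icc, Nat.add_sub_cancel] at h2
    calc ((F.image (fun t => t.2.2.1)).card : ℝ) ≤ (⌊H ^ (1 + δ)⌋₊ : ℝ) := by exact_mod_cast h2
      _ ≤ H ^ (1 + δ) := Nat.floor_le (by positivity)
  have h1 := Finset.card_eq_sum_card_image (fun t : ℕ × ℕ × ℕ × ℕ => t.2.2.1) F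
  rw [h1]
  push_cast
  calc ∑ P ∈ F.image (fun t => t.2.2.1), ((F.filter (fun t => t.2.2.1 = P)).card : ℝ)
      ≤ ∑ P ∈ F.image (fun t => t.2.2.1), H ^ (2 - δ1) * (C * H ^ (δ1 / 4)) :=
        Finset.sum_le_sum (fun P _ => hfib P)
    _ = ((F.image (fun t => t.2.2.1)).card : ℝ) * (H ^ (2 - δ1) * (C * H ^ (δ1 / 4))) := by
        rw [Finset.sum_const, nsmul_eq_mul]
    _ ≤ H ^ (1 + δ) * (H ^ (2 - δ1) * (H ^ (δ1 / 4) * H ^ (δ1 / 4))) := by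
        refine mul_le_mul hPcard ?_ (by positivity) (by positivity)
        refine mul_le_mul_of_nonneg_left ?_ (by positivity)
        exact mul_le_mul_of_nonneg_right hCH (by positivity)
    _ = H ^ (1 + δ + (2 - δ1 + (δ1 / 4 + δ1 / 4))) := by
        rw [← Real.rpow_add hH0, ← Real.rpow_add hH0, ← Real.rpow_add hH0]
    _ ≤ H ^ (3 - δ) := Real.rpow_le_rpow_of_exponent_le hH1' (by linarith)

end O3

end T3

end Pool.Agent.Lib.MP_d8bd92_nt
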