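import Pool.Agent.Lib.MP_d8bd92_nt.T3.O3.Defs

set_option autoImplicit false

/-!
Phase 3, the tie (b)-(b), elementary route (page d8o3_tie_helper11.md).
-/

namespace Pool.Agent.Lib.MP_d8bd92_nt

namespace T3

namespace O3

open Finset

/-- (o3-T4) the linear arithmetic: logarithms to the base `H`.  `M = log |x|`, `M' = log |y|`, `ζ = log Z`, `A = log N`, `A' = log N'`,
`h = log η`, `s` the error.  No solution. -/
theorem ar (a b e f : ℕ) (hb : 1 ≤ b) (hba : b < a) (hf : 1 ≤ f) (hfe : f < e) (M M' ζ A A' h s : ℝ) (hs : 0 ≤ s)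
    (hs1 : s ≤ 1 / 1000) (h1 : |A - (M - b)| ≤ s) (h2 : |A' - (M' - f)| ≤ s) (h3 : M' ≤ M + s) (h4 : a + b ≤ M + s)
    (h5 : e + f ≤ M' + s) (h6 : 3 * ζ ≤ M + s) (h7 : h ≤ 0) (h8 : h ≤ M' - 3 * ζ + s) (h9 : M ≤ M' + s ∨ M ≤ 3 * ζ + s)
    (g1 : min A e + min A f + 6 * A < 1 + 12 * ζ)
    (g2 : min A' a + min A' b + 6 * A' < 1 + 6 * (2 * ζ + h)) : False := by
  have hb' : (1 : ℝ) ≤ b := by exact_mod_cast hb
  have hf' : (1 : ℝ) ≤ f := by exact_mod_cast hf
  have ha' : (b : ℝ) + 1 ≤ a := by exact_mod_cast hba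
  have he' : (f : ℝ) + 1 ≤ e := by exact_mod_cast hfe
  obtain ⟨h1a, h1b⟩ := abs_le.1 h1
  obtain ⟨h2a, h2b⟩ := abs_le.1 h2
  rcases min_choice A e with c1 | c1 <;> rcases min_choice A f with c2 | c2 <;> rcases min_choice A' a with c3 | c3 <;>
    rcases min_choice A' b with c4 | c4 <;> rw [c1, c2] at g1 <;> rw [c3, c4] at g2 <;>
    rcases h9 with h9 | h9 <;>
    [skip; skip; skip; skip; skip; skip; skip; skip; skip; skip; skip; skip; skip; skip; skip; skip; skip; skip; skip; skip; skip; skip; skip; skip; skip; skip; skip; skip; skip; skip; skip; skip] <;>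
    linarith [min_le_left A (e : ℝ), min_le_right A (e : ℝ), min_le_left A (f : ℝ), min_le_right A (f : ℝ), min_le_left A' (a : ℝ), min_le_right A' (a : ℝ), min_le_left A' (b : ℝ), min_le_right A' (b : ℝ)]

end O3

end T3

end Pool.Agent.Lib.MP_d8bd92_nt
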