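import Pool.Agent.Lib.MP_d8bd92_nt.T3.O3.Defs
import Pool.Agent.Lib.MP_d8bd92_nt.T3.O3.T4

set_option autoImplicit false

/-!
Phase 3, the tie (b)-(b), elementary route (page d8o3_tie_helper11.md).
-/

namespace Pool.Agent.Lib.MP_d8bd92_nt

namespace T3

namespace O3

open Finset

theorem T5_log_min (x y : ℝ) (hx : 0 < x) (hy : 0 < y) : Real.log (min x y) = min (Real.log x) (Real.log y) := by
  rcases le_total x y with h | h
  · rw [min_eq_left h, min_eq_left (Real.log_le_log hx h)]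
  · rw [min_eq_right h, min_eq_right (Real.log_le_log hy h)]

theorem T5_div_min (x y L : ℝ) (hL : 0 < L) : min x y / L = min (x / L) (y / L) := by
  rcases le_total x y with h | h
  · rw [min_eq_left h, min_eq_left (div_le_div_of_nonneg_right h hL.le)]
  · rw [min_eq_right h, min_eq_right (div_le_div_of_nonneg_right h hL.le)]

/-- logarithm of a prime of size `H^(1 ± δ)` -/
theorem T5_prime (δ H : ℝ) (hH : 1 < H) (p : ℕ) (hp : PrH δ H p) :
    0 < (p : ℝ) ∧ (1 - δ) * Real.log H ≤ Real.log p ∧ Real.log p ≤ (1 + δ) * Real.log H := by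
  obtain ⟨h1, h2, h3⟩ := hp
  have hp0 : 0 < (p : ℝ) := by exact_mod_cast h1.pos
  have hH0 : 0 < H := by linarith
  refine ⟨hp0, ?_, ?_⟩
  · rw [← Real.log_rpow hH0]
    exact Real.log_le_log (by positivity) h2
  · rw [← Real.log_rpow hH0]
    exact Real.log_le_log hp0 h3

/-- (o3-T5) for a tie one of the two conditions (g5) holds, from `ar` -/
theorem tie_arith (K : ℝ) (hK : 0 < K) (a b e f : ℕ) (hb : 1 ≤ b) (hba : b < a) (hf : 1 ≤ f) (hfe : f < e) :
    ∃ δ H0 : ℝ, 0 < δ ∧ 1 ≤ H0 ∧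
    ∀ H : ℝ, H0 ≤ H → ∀ (v w : ℤ) (X Y Z : ℝ) (F : Finset (ℕ × ℕ × ℕ × ℕ)) (z : ℕ × ℕ × ℕ × ℕ → ℤ),
    Tie K δ H a b e f v w X Y Z F z → ∀ t ∈ F, ∀ t' ∈ F, G5 H e f (|(v : ℝ)| * (t.1 : ℝ) ^ a) Z 1 ∨
      G5 H a b (|(w : ℝ)| * (t'.2.2.1 : ℝ) ^ e) Z (min 1 (Y / Z ^ 3)) := by
  obtain ⟨m, hm⟩ : ∃ m : ℝ, m = (a : ℝ) + b + e + f := ⟨_, rfl⟩
  have ha0 : (0 : ℝ) ≤ a := Nat.cast_nonneg _
  have hb0 : (1 : ℝ) ≤ b := by exact_mod_cast hb
  have he0 : (0 : ℝ) ≤ e := Nat.cast_nonneg _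
  have hf0 : (1 : ℝ) ≤ f := by exact_mod_cast hf
  have hm0 : 0 < m := by rw [hm]; linarith
  refine ⟨1 / (1000 * m), Real.exp (1000 * Real.log 16), by positivity, ?_, ?_⟩
  · rw [← Real.exp_zero]
    apply Real.exp_le_exp.2
    have : 0 ≤ Real.log 16 := Real.log_nonneg (by norm_num)
    positivity
  intro H hH v w X Y Z F z hT t ht t' ht'
  by_contra hcon
  rw [not_or] at hcon
  obtain ⟨n1, n2⟩ := hcon
  unfold G5 at n1 n2
  rw [not_le] at n1 n2
  have h16 : 0 < Real.log 16 := Real.log_pos (by norm_num)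
  have hH1 : 1 < H := by
    refine lt_of_lt_of_le ?_ hH
    rw [← Real.exp_zero]
    exact Real.exp_lt_exp.2 (by positivity)
  have hH0 : 0 < H := by linarith
  obtain ⟨L, hLdef⟩ : ∃ L : ℝ, L = Real.log H := ⟨_, rfl⟩
  have hL16 : 1000 * Real.log 16 ≤ L := by
    rw [hLdef]
    have := Real.log_le_log (Real.exp_pos _) hH
    rwa [Real.log_exp] at this
  have hL0 : 0 < L := by linarith
  have hlogs : Real.log 2 ≤ Real.log 16 / 4 ∧ Real.log 4 ≤ Real.log 16 / 2 := by
    have e1 : Real.log 16 = 4 * Real.log 2 := by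
      rw [show (16 : ℝ) = 2 ^ 4 by norm_num, Real.log_pow]
      norm_num
    have e2 : Real.log 4 = 2 * Real.log 2 := by
      rw [show (4 : ℝ) = 2 ^ 2 by norm_num, Real.log_pow]
      norm_num
    constructor
    · rw [e1]; linarith
    · rw [e1, e2]; linarith
  have hlog2 : 0 < Real.log 2 := Real.log_pos (by norm_num)
  obtain ⟨δ, hδ⟩ : ∃ δ : ℝ, δ = 1 / (1000 * m) := ⟨_, rfl⟩
  rw [← hδ] at hT
  have hδ0 : 0 < δ := by rw [hδ]; positivity
  have hδm : δ * m = 1 / 1000 := by rw [hδ]; field_simp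
  -- the sizes
  obtain ⟨x, hx⟩ : ∃ x : ℝ, x = |(v : ℝ)| * t.1 ^ a * t.2.1 ^ b := ⟨_, rfl⟩
  obtain ⟨x', hx'⟩ : ∃ x' : ℝ, x' = |(v : ℝ)| * t'.1 ^ a * t'.2.1 ^ b := ⟨_, rfl⟩
  obtain ⟨y, hy⟩ : ∃ y : ℝ, y = |(w : ℝ)| * t.2.2.1 ^ e * t.2.2.2 ^ f := ⟨_, rfl⟩
  obtain ⟨y', hy'⟩ : ∃ y' : ℝ, y' = |(w : ℝ)| * t'.2.2.1 ^ e * t'.2.2.2 ^ f := ⟨_, rfl⟩
  have v1 : (1 : ℝ) ≤ |(v : ℝ)| := by
    have := Int.one_le_abs hT.v0
    exact_mod_cast this
  have w1 : (1 : ℝ) ≤ |(w : ℝ)| := by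
    have := Int.one_le_abs hT.w0
    exact_mod_cast this
  obtain ⟨p0, p1, p2⟩ := T5_prime δ H hH1 _ (hT.prp t ht)
  obtain ⟨q0, q1, q2⟩ := T5_prime δ H hH1 _ (hT.prq t ht)
  obtain ⟨p0', _, _⟩ := T5_prime δ H hH1 _ (hT.prp t' ht')
  obtain ⟨q0', _, _⟩ := T5_prime δ H hH1 _ (hT.prq t' ht')
  obtain ⟨P0, P1, P2⟩ := T5_prime δ H hH1 _ (hT.prP t' ht')
  obtain ⟨Q0, Q1, Q2⟩ := T5_prime δ H hH1 _ (hT.prQ t' ht')
  obtain ⟨P0', _, _⟩ := T5_prime δ H hH1 _ (hT.prP t ht)
  obtain ⟨Q0', _, _⟩ := T5_prime δ H hH1 _ (hT.prQ t ht)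
  rw [← hLdef] at p1 p2 q1 q2 P1 P2 Q1 Q2
  have hv0 : 0 < |(v : ℝ)| := by linarith
  have hw0 : 0 < |(w : ℝ)| := by linarith
  have hxp : 0 < x := by rw [hx]; positivity
  have hxp' : 0 < x' := by rw [hx']; positivity
  have hyp : 0 < y := by rw [hy]; positivity
  have hyp' : 0 < y' := by rw [hy']; positivity
  have hXx : X ≤ 2 * x := by have := hT.xlo t ht; rw [← hx] at this; linarith
  have hxX : x ≤ X := by have := hT.xhi t ht; rwa [← hx] at this
  have hXx' : X ≤ 2 * x' := by have := hT.xlo t' ht'; rw [← hx'] at this; linarith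
  have hxX' : x' ≤ X := by have := hT.xhi t' ht'; rwa [← hx'] at this
  have hYy' : Y ≤ 2 * y' := by have := hT.ylo t' ht'; rw [← hy'] at this; linarith
  have hyY' : y' ≤ Y := by have := hT.yhi t' ht'; rwa [← hy'] at this
  have hyx : y ≤ x := by have := hT.yx t ht; rwa [← hx, ← hy] at this
  have hyx' : y' ≤ x' := by have := hT.yx t' ht'; rwa [← hx', ← hy'] at this
  have hY0 : 0 < Y := by linarith
  have hZnn : 0 ≤ Z := le_trans (abs_nonneg _) (hT.zhi t ht)
  have hZ0 : 0 < Z := by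
    rcases hZnn.eq_or_lt with h | h
    · exfalso
      rw [← h] at n1
      have : H * ((0 : ℝ) ^ 2 * 1) ^ 6 = 0 := by norm_num
      rw [this] at n1
      have h2 : 0 ≤ min (|(v : ℝ)| * (t.1 : ℝ) ^ a) (H ^ e) * min (|(v : ℝ)| * (t.1 : ℝ) ^ a) (H ^ f) *
          (|(v : ℝ)| * (t.1 : ℝ) ^ a) ^ 6 := by positivity
      linarith
    · exact h
  -- `Z^3 ≤ 16 x`
  have hZx : Z ^ 3 ≤ 16 * x := by
    have h1 := hT.zlo t ht
    have h2 : |(z t : ℝ)| ^ 3 ≤ 2 * x := by
      have h3 : ((z t : ℤ) : ℝ) ^ 3 = (v : ℝ) * t.1 ^ a * t.2.1 ^ b + (w : ℝ) * t.2.2.1 ^ e * t.2.2.2 ^ f := by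
        have := hT.eq t ht
        exact_mod_cast this.symm
      rw [← abs_pow, h3]
      refine (abs_add_le _ _).trans ?_
      have e1 : |(v : ℝ) * t.1 ^ a * t.2.1 ^ b| = x := by
        rw [hx, abs_mul, abs_mul, abs_pow, abs_pow, Nat.abs_cast, Nat.abs_cast]
      have e2 : |(w : ℝ) * t.2.2.1 ^ e * t.2.2.2 ^ f| = y := by
        rw [hy, abs_mul, abs_mul, abs_pow, abs_pow, Nat.abs_cast, Nat.abs_cast]
      rw [e1, e2]
      linarith
    have h4 : Z ≤ 2 * |(z t : ℝ)| := by linarith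
    calc Z ^ 3 ≤ (2 * |(z t : ℝ)|) ^ 3 := by gcongr
      _ = 8 * |(z t : ℝ)| ^ 3 := by ring
      _ ≤ _ := by linarith
  -- `x' ≤ y' + Z^3`
  have hxyz : x' ≤ y' + Z ^ 3 := by
    have h3 : ((z t' : ℤ) : ℝ) ^ 3 = (v : ℝ) * t'.1 ^ a * t'.2.1 ^ b + (w : ℝ) * t'.2.2.1 ^ e * t'.2.2.2 ^ f := by
      have := hT.eq t' ht'
      exact_mod_cast this.symm
    have e1 : |(v : ℝ) * t'.1 ^ a * t'.2.1 ^ b| = x' := by
      rw [hx', abs_mul, abs_mul, abs_pow, abs_pow, Nat.abs_cast, Nat.abs_cast]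
    have e2 : |(w : ℝ) * t'.2.2.1 ^ e * t'.2.2.2 ^ f| = y' := by
      rw [hy', abs_mul, abs_mul, abs_pow, abs_pow, Nat.abs_cast, Nat.abs_cast]
    have h5 : (v : ℝ) * t'.1 ^ a * t'.2.1 ^ b = ((z t' : ℤ) : ℝ) ^ 3 - (w : ℝ) * t'.2.2.1 ^ e * t'.2.2.2 ^ f := by
      rw [h3]; ring
    have h6 : |((z t' : ℤ) : ℝ) ^ 3| ≤ Z ^ 3 := by
      rw [abs_pow]
      have := hT.zhi t' ht'
      gcongr
    calc x' = |(v : ℝ) * t'.1 ^ a * t'.2.1 ^ b| := e1.symm
      _ = |((z t' : ℤ) : ℝ) ^ 3 - (w : ℝ) * t'.2.2.1 ^ e * t'.2.2.2 ^ f| := by rw [h5]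
      _ ≤ |((z t' : ℤ) : ℝ) ^ 3| + |(w : ℝ) * t'.2.2.1 ^ e * t'.2.2.2 ^ f| := abs_sub _ _
      _ ≤ y' + Z ^ 3 := by rw [e2]; linarith
  -- logarithms
  obtain ⟨N, hN⟩ : ∃ N : ℝ, N = |(v : ℝ)| * (t.1 : ℝ) ^ a := ⟨_, rfl⟩
  obtain ⟨N', hN'⟩ : ∃ N' : ℝ, N' = |(w : ℝ)| * (t'.2.2.1 : ℝ) ^ e := ⟨_, rfl⟩
  obtain ⟨η, hη⟩ : ∃ η : ℝ, η = min 1 (Y / Z ^ 3) := ⟨_, rfl⟩
  rw [← hN] at n1
  rw [← hN', ← hη] at n2
  have hN0 : 0 < N := by rw [hN]; positivity
  have hN0' : 0 < N' := by rw [hN']; positivity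
  have hη0 : 0 < η := by rw [hη]; exact lt_min one_pos (by positivity)
  have lx : Real.log x = Real.log N + b * Real.log t.2.1 := by
    rw [hx, ← hN, Real.log_mul hN0.ne' (by positivity), Real.log_pow]
  have ly : Real.log y' = Real.log N' + f * Real.log t'.2.2.2 := by
    rw [hy', ← hN', Real.log_mul hN0'.ne' (by positivity), Real.log_pow]
  have lN : Real.log N = Real.log |(v : ℝ)| + a * Real.log t.1 := by
    rw [hN, Real.log_mul hv0.ne' (by positivity), Real.log_pow]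
  have lN' : Real.log N' = Real.log |(w : ℝ)| + e * Real.log t'.2.2.1 := by
    rw [hN', Real.log_mul hw0.ne' (by positivity), Real.log_pow]
  have lv : 0 ≤ Real.log |(v : ℝ)| := Real.log_nonneg v1
  have lw : 0 ≤ Real.log |(w : ℝ)| := Real.log_nonneg w1
  have hδL : 0 ≤ δ * L := by positivity
  -- the inequalities multiplied by `L`
  have cδ : ∀ k : ℝ, 0 ≤ k → k ≤ m → k * (δ * L) ≤ 1 / 1000 * L := by
    intro k _ hk
    have h1 : k * (δ * L) ≤ m * (δ * L) := mul_le_mul_of_nonneg_right hk hδL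
    have h2 : m * (δ * L) = (δ * m) * L := by ring
    rw [h2, hδm] at h1
    exact h1
  have clog : Real.log 16 ≤ 1 / 1000 * L := by linarith
  have k1 : |Real.log N - (Real.log x - b * L)| ≤ 1 / 1000 * L := by
    rw [lx]
    have e1 : Real.log N - (Real.log N + b * Real.log t.2.1 - b * L) = b * (L - Real.log t.2.1) := by ring
    rw [e1, abs_mul, abs_of_nonneg (by linarith : (0 : ℝ) ≤ b)]
    have e2 : |L - Real.log t.2.1| ≤ δ * L := by
      rw [abs_le]
      constructor <;> linarith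
    exact (mul_le_mul_of_nonneg_left e2 (by linarith)).trans (cδ b (by linarith) (by rw [hm]; linarith))
  have k2 : |Real.log N' - (Real.log y' - f * L)| ≤ 1 / 1000 * L := by
    rw [ly]
    have e1 : Real.log N' - (Real.log N' + f * Real.log t'.2.2.2 - f * L) = f * (L - Real.log t'.2.2.2) := by ring
    rw [e1, abs_mul, abs_of_nonneg (by linarith : (0 : ℝ) ≤ f)]
    have e2 : |L - Real.log t'.2.2.2| ≤ δ * L := by
      rw [abs_le]
      constructor <;> linarith
    exact (mul_le_mul_of_nonneg_left e2 (by linarith)).trans (cδ f (by linarith) (by rw [hm]; linarith))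
  have k3 : Real.log y' ≤ Real.log x + 1 / 1000 * L := by
    have h1 : y' ≤ 2 * x := by linarith
    have h2 := Real.log_le_log hyp' h1
    rw [Real.log_mul (by norm_num) hxp.ne'] at h2
    linarith [hlogs.1]
  have k4 : ((a : ℝ) + b) * L ≤ Real.log x + 1 / 1000 * L := by
    have h1 : (a : ℝ) * ((1 - δ) * L) ≤ a * Real.log t.1 := mul_le_mul_of_nonneg_left p1 ha0
    have h2 : (b : ℝ) * ((1 - δ) * L) ≤ b * Real.log t.2.1 := mul_le_mul_of_nonneg_left q1 (by linarith)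
    have h3 := cδ ((a : ℝ) + b) (by linarith) (by rw [hm]; linarith)
    have h4 : ((a : ℝ) + b) * L = a * ((1 - δ) * L) + b * ((1 - δ) * L) + ((a : ℝ) + b) * (δ * L) := by ring
    rw [lx, lN, h4]
    linarith
  have k5 : ((e : ℝ) + f) * L ≤ Real.log y' + 1 / 1000 * L := by
    have h1 : (e : ℝ) * ((1 - δ) * L) ≤ e * Real.log t'.2.2.1 := mul_le_mul_of_nonneg_left P1 he0
    have h2 : (f : ℝ) * ((1 - δ) * L) ≤ f * Real.log t'.2.2.2 := mul_le_mul_of_nonneg_left Q1 (by linarith)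
    have h3 := cδ ((e : ℝ) + f) (by linarith) (by rw [hm]; linarith)
    have h4 : ((e : ℝ) + f) * L = e * ((1 - δ) * L) + f * ((1 - δ) * L) + ((e : ℝ) + f) * (δ * L) := by ring
    rw [ly, lN', h4]
    linarith
  have k6 : 3 * Real.log Z ≤ Real.log x + 1 / 1000 * L := by
    have h2 := Real.log_le_log (by positivity) hZx
    rw [Real.log_mul (by norm_num) hxp.ne', Real.log_pow] at h2
    push_cast at h2
    linarith
  have k7 : Real.log η ≤ 0 := by
    apply Real.log_nonpos hη0.le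
    rw [hη]
    exact min_le_left _ _
  have k8 : Real.log η ≤ Real.log y' - 3 * Real.log Z + 1 / 1000 * L := by
    have h1 : η ≤ 2 * y' / Z ^ 3 := by
      rw [hη]
      refine (min_le_right _ _).trans ?_
      gcongr
    have h2 := Real.log_le_log hη0 h1
    rw [Real.log_div (by positivity) (by positivity), Real.log_mul (by norm_num) hyp'.ne', Real.log_pow] at h2
    push_cast at h2
    linarith [hlogs.1]
  have k9 : Real.log x ≤ Real.log y' + 1 / 1000 * L ∨ Real.log x ≤ 3 * Real.log Z + 1 / 1000 * L := by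
    have h1 : x ≤ 2 * (y' + Z ^ 3) := by linarith
    rcases le_total y' (Z ^ 3) with h | h
    · right
      have h2 : x ≤ 4 * Z ^ 3 := by linarith
      have h3 := Real.log_le_log hxp h2
      rw [Real.log_mul (by norm_num) (by positivity), Real.log_pow] at h3
      push_cast at h3
      linarith [hlogs.2]
    · left
      have h2 : x ≤ 4 * y' := by linarith
      have h3 := Real.log_le_log hxp h2
      rw [Real.log_mul (by norm_num) hyp'.ne'] at h3
      linarith [hlogs.2]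
  have k10 : min (Real.log N) (e * L) + min (Real.log N) (f * L) + 6 * Real.log N < L + 12 * Real.log Z := by
    have h1 := Real.log_lt_log (by positivity) n1
    rw [Real.log_mul (by positivity) (by positivity), Real.log_mul (by positivity) (by positivity),
      T5_log_min _ _ hN0 (by positivity), T5_log_min _ _ hN0 (by positivity), Real.log_pow, Real.log_pow, Real.log_pow,
      Real.log_mul hH0.ne' (by positivity), Real.log_pow, Real.log_mul (by positivity) one_ne_zero, Real.log_pow,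
      Real.log_one, ← hLdef] at h1
    push_cast at h1
    linarith
  have k11 : min (Real.log N') (a * L) + min (Real.log N') (b * L) + 6 * Real.log N' < L + 6 * (2 * Real.log Z + Real.log η) := by
    have h1 := Real.log_lt_log (by positivity) n2
    rw [Real.log_mul (by positivity) (by positivity), Real.log_mul (by positivity) (by positivity),
      T5_log_min _ _ hN0' (by positivity), T5_log_min _ _ hN0' (by positivity), Real.log_pow, Real.log_pow, Real.log_pow,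
      Real.log_mul hH0.ne' (by positivity), Real.log_pow, Real.log_mul (by positivity) hη0.ne', Real.log_pow,
      ← hLdef] at h1
    push_cast at h1
    linarith
  -- divide by `L`
  have dv : ∀ u : ℝ, u * L / L = u := fun u => mul_div_cancel_right₀ u hL0.ne'
  have dle : ∀ u w : ℝ, u ≤ w → u / L ≤ w / L := fun u w h => div_le_div_of_nonneg_right h hL0.le
  refine ar a b e f hb hba hf hfe (Real.log x / L) (Real.log y' / L) (Real.log Z / L) (Real.log N / L) (Real.log N' / L)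
    (Real.log η / L) (1 / 1000) (by norm_num) le_rfl ?_ ?_ ?_ ?_ ?_ ?_ ?_ ?_ ?_ ?_ ?_
  · have e1 : Real.log N / L - (Real.log x / L - b) = (Real.log N - (Real.log x - b * L)) / L := by field_simp
    rw [e1, abs_div, abs_of_pos hL0, div_le_iff₀ hL0]
    exact k1
  · have e1 : Real.log N' / L - (Real.log y' / L - f) = (Real.log N' - (Real.log y' - f * L)) / L := by field_simp
    rw [e1, abs_div, abs_of_pos hL0, div_le_iff₀ hL0]
    exact k2
  · have := dle _ _ k3
    rwa [add_div, dv] at this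
  · have := dle _ _ k4
    rwa [add_div, dv, dv] at this
  · have := dle _ _ k5
    rwa [add_div, dv, dv] at this
  · have := dle _ _ k6
    rwa [add_div, dv, mul_div_assoc] at this
  · exact div_nonpos_of_nonpos_of_nonneg k7 hL0.le
  · have := dle _ _ k8
    rwa [add_div, dv, sub_div, mul_div_assoc] at this
  · rcases k9 with h | h
    · left
      have := dle _ _ h
      rwa [add_div, dv] at this
    · right
      have := dle _ _ h
      rwa [add_div, dv, mul_div_assoc] at this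
  · have h1 := div_lt_div_of_pos_right k10 hL0
    rw [add_div, add_div, add_div, T5_div_min _ _ _ hL0, T5_div_min _ _ _ hL0, dv, dv, div_self hL0.ne',
      mul_div_assoc, mul_div_assoc] at h1
    exact h1
  · have h1 := div_lt_div_of_pos_right k11 hL0
    rw [add_div, add_div, add_div, T5_div_min _ _ _ hL0, T5_div_min _ _ _ hL0, dv, dv, div_self hL0.ne',
      mul_div_assoc, mul_div_assoc, add_div, mul_div_assoc] at h1
    exact h1

end O3

end T3

end Pool.Agent.Lib.MP_d8bd92_nt
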