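import Pool.Agent.Lib.MP_d8bd92_nt.T3.O3.Defs
import Pool.Agent.Lib.MP_d8bd92_nt.T3.O3.T1
import Pool.Agent.Lib.MP_d8bd92_nt.T3.O3.T2
import Pool.Agent.Lib.MP_d8bd92_nt.T3.O3.T3
import Pool.Agent.Lib.MP_d8bd92_nt.T3.O3.T5

set_option autoImplicit false

/-!
Phase 3, the tie (b)-(b), elementary route (page d8o3_tie_helper11.md).
-/

namespace Pool.Agent.Lib.MP_d8bd92_nt

namespace T3

namespace O3

open Finset

theorem T6_ev (M ε : ℝ) (hM : 0 < M) (hε : 0 < ε) : ∃ H0 : ℝ, 1 ≤ H0 ∧ ∀ H : ℝ, H0 ≤ H →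
    (M * Real.log H / Real.log 2 + 1) ^ 3 ≤ H ^ ε := by
  have hl2 : 0 < Real.log 2 := Real.log_pos (by norm_num)
  have he6 : 0 < ε / 6 := by positivity
  set C : ℝ := M / (ε / 6 * Real.log 2) + 1 with hC
  have hC0 : 1 ≤ C := by
    have : 0 ≤ M / (ε / 6 * Real.log 2) := by positivity
    linarith
  refine ⟨max 1 ((C ^ 3) ^ (2 / ε)), le_max_left _ _, fun H hH => ?_⟩
  have hH1 : 1 ≤ H := (le_max_left _ _).trans hH
  have hH0 : 0 < H := by linarith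
  have hHC : (C ^ 3) ^ (2 / ε) ≤ H := (le_max_right _ _).trans hH
  have hCH : C ^ 3 ≤ H ^ (ε / 2) := by
    have h1 : ((C ^ 3) ^ (2 / ε)) ^ (ε / 2) ≤ H ^ (ε / 2) :=
      Real.rpow_le_rpow (Real.rpow_nonneg (by positivity) _) hHC (by positivity)
    rw [← Real.rpow_mul (by positivity)] at h1
    have h2 : 2 / ε * (ε / 2) = 1 := by field_simp
    rwa [h2, Real.rpow_one] at h1
  have hlog : Real.log H ≤ H ^ (ε / 6) / (ε / 6) := Real.log_le_rpow_div hH0.le he6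
  have hp1 : 1 ≤ H ^ (ε / 6) := Real.one_le_rpow hH1 he6.le
  have h3 : M * Real.log H / Real.log 2 + 1 ≤ C * H ^ (ε / 6) := by
    have h4 : M * Real.log H / Real.log 2 ≤ M / (ε / 6 * Real.log 2) * H ^ (ε / 6) := by
      rw [div_mul_eq_mul_div, div_le_div_iff₀ hl2 (by positivity)]
      have h5 := mul_le_mul_of_nonneg_left hlog hM.le
      have h6 : M * (H ^ (ε / 6) / (ε / 6)) * (ε / 6) = M * H ^ (ε / 6) := by
        field_simp
      have h7 := mul_le_mul_of_nonneg_right h5 he6.le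
      rw [h6] at h7
      have h8 := mul_le_mul_of_nonneg_right h7 hl2.le
      linarith
    rw [hC, add_mul]
    linarith
  have h0 : 0 ≤ M * Real.log H / Real.log 2 + 1 := by
    have := Real.log_nonneg hH1
    positivity
  calc (M * Real.log H / Real.log 2 + 1) ^ 3 ≤ (C * H ^ (ε / 6)) ^ 3 := pow_le_pow_left₀ h0 h3 3
    _ = C ^ 3 * H ^ (ε / 2) := by
        rw [mul_pow, ← Real.rpow_natCast (H ^ (ε / 6)) 3, ← Real.rpow_mul hH0.le]
        congr 2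
        push_cast
        ring
    _ ≤ H ^ (ε / 2) * H ^ (ε / 2) := mul_le_mul_of_nonneg_right hCH (Real.rpow_nonneg hH0.le _)
    _ = H ^ ε := by
        rw [← Real.rpow_add hH0]
        congr 1
        ring

theorem T6_log (M H : ℝ) (hH : 1 ≤ H) (n : ℕ) (hn : (n : ℝ) ≤ H ^ M) (hn0 : n ≠ 0) :
    Nat.log 2 n ≤ ⌊M * Real.log H / Real.log 2⌋₊ := by
  have hl2 : 0 < Real.log 2 := Real.log_pos (by norm_num)
  apply Nat.le_floor
  rw [le_div_iff₀ hl2]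
  have h1 : (2 : ℝ) ^ (Nat.log 2 n) ≤ n := by
    exact_mod_cast Nat.pow_log_le_self 2 hn0
  have h2 : Real.log ((2 : ℝ) ^ (Nat.log 2 n)) ≤ Real.log (H ^ M) :=
    Real.log_le_log (by positivity) (h1.trans hn)
  rw [Real.log_pow, Real.log_rpow (by linarith)] at h2
  exact h2

/-- a `Tie` with a larger `δ` -/
theorem T6_mono {K δ δ' H : ℝ} {a b e f : ℕ} {v w : ℤ} {X Y Z : ℝ} {F : Finset (ℕ × ℕ × ℕ × ℕ)}
    {z : ℕ × ℕ × ℕ × ℕ → ℤ} (h : Tie K δ H a b e f v w X Y Z F z) (hH : 1 ≤ H) (hδ : δ ≤ δ') :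
    Tie K δ' H a b e f v w X Y Z F z where
  prp := fun t ht => (h.prp t ht).mono hH hδ
  prq := fun t ht => (h.prq t ht).mono hH hδ
  prP := fun t ht => (h.prP t ht).mono hH hδ
  prQ := fun t ht => (h.prQ t ht).mono hH hδ
  v0 := h.v0
  w0 := h.w0
  vK := h.vK
  wK := h.wK
  cop := h.cop
  eq := h.eq
  xlo := h.xlo
  xhi := h.xhi
  ylo := h.ylo
  yhi := h.yhi
  yx := h.yx
  zlo := h.zlo
  zhi := h.zhi

/-- one dyadic piece -/
theorem T6_piece (K : ℝ) (hK : 0 < K) (a b e f : ℕ) (hb : 1 ≤ b) (hba : b < a) (hf : 1 ≤ f) (hfe : f < e) :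
    ∃ δ H0 : ℝ, 0 < δ ∧ δ ≤ 1 ∧ 1 ≤ H0 ∧
    ∀ H : ℝ, H0 ≤ H → ∀ (v w : ℤ) (X Y Z : ℝ) (F : Finset (ℕ × ℕ × ℕ × ℕ)) (z : ℕ × ℕ × ℕ × ℕ → ℤ),
    Tie K δ H a b e f v w X Y Z F z → (F.card : ℝ) ≤ H ^ (3 - δ) := by
  obtain ⟨d1, H1, hd1, hH1, h1⟩ := tie_small K hK (1 / 10) (by norm_num) a b e f hf hfe
  obtain ⟨d2, H2, hd2, hH2, h2⟩ := tie_grid_x K hK a b e f hb hba hf hfe
  obtain ⟨d3, H3, hd3, hH3, h3⟩ := tie_grid_y K hK a b e f hb hba hf hfe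
  obtain ⟨d4, H4, hd4, hH4, h4⟩ := tie_arith K hK a b e f hb hba hf hfe
  have e1 : min 1 (min (min d1 d2) (min d3 d4)) ≤ d1 :=
    (min_le_right _ _).trans ((min_le_left _ _).trans (min_le_left _ _))
  have e2 : min 1 (min (min d1 d2) (min d3 d4)) ≤ d2 :=
    (min_le_right _ _).trans ((min_le_left _ _).trans (min_le_right _ _))
  have e3 : min 1 (min (min d1 d2) (min d3 d4)) ≤ d3 :=
    (min_le_right _ _).trans ((min_le_right _ _).trans (min_le_left _ _))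
  have e4 : min 1 (min (min d1 d2) (min d3 d4)) ≤ d4 :=
    (min_le_right _ _).trans ((min_le_right _ _).trans (min_le_right _ _))
  refine ⟨min 1 (min (min d1 d2) (min d3 d4)), max (max H1 H2) (max H3 H4), ?_, min_le_left _ _,
    hH1.trans ((le_max_left _ _).trans (le_max_left _ _)), ?_⟩
  · exact lt_min one_pos (lt_min (lt_min hd1 hd2) (lt_min hd3 hd4))
  intro H hH v w X Y Z F z hT
  set δ := min 1 (min (min d1 d2) (min d3 d4))
  have g1 : H1 ≤ H := ((le_max_left _ _).trans (le_max_left _ _)).trans hH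
  have g2 : H2 ≤ H := ((le_max_right _ _).trans (le_max_left _ _)).trans hH
  have g3 : H3 ≤ H := ((le_max_left _ _).trans (le_max_right _ _)).trans hH
  have g4 : H4 ≤ H := ((le_max_right _ _).trans (le_max_right _ _)).trans hH
  have hHone : 1 ≤ H := hH1.trans g1
  have mono : ∀ d : ℝ, δ ≤ d → (F.card : ℝ) ≤ H ^ (3 - d) → (F.card : ℝ) ≤ H ^ (3 - δ) :=
    fun d hd h => h.trans (Real.rpow_le_rpow_of_exponent_le hHone (by linarith))
  by_cases hY : Y ≤ Z ^ 2 * H ^ (1 - 1 / 10 : ℝ)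
  · exact mono d1 e1 (h1 H g1 v w X Y Z F z (T6_mono hT hHone e1) hY)
  · have hY' : Z ^ 2 * H ^ (9 / 10 : ℝ) ≤ Y := by
      have h9 : (1 - 1 / 10 : ℝ) = 9 / 10 := by norm_num
      rw [h9] at hY
      exact (not_le.1 hY).le
    by_cases hx : ∀ t ∈ F, G5 H e f (|(v : ℝ)| * (t.1 : ℝ) ^ a) Z 1
    · exact mono d2 e2 (h2 H g2 v w X Y Z F z (T6_mono hT hHone e2) hx)
    · have hx' : ∃ t, t ∈ F ∧ ¬ G5 H e f (|(v : ℝ)| * (t.1 : ℝ) ^ a) Z 1 := by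
        by_contra hcon
        apply hx
        intro t ht
        by_contra hG
        exact hcon ⟨t, ht, hG⟩
      obtain ⟨t, ht, hG⟩ := hx'
      refine mono d3 e3 (h3 H g3 v w X Y Z F z (T6_mono hT hHone e3) hY' ?_)
      intro t' ht'
      rcases h4 H g4 v w X Y Z F z (T6_mono hT hHone e4) t ht t' ht' with h | h
      · exact absurd h hG
      · exact h

theorem T6_abs (v : ℤ) (p q a b : ℕ) :
    (((v * (p : ℤ) ^ a * (q : ℤ) ^ b).natAbs : ℕ) : ℝ) = |(v : ℝ)| * (p : ℝ) ^ a * (q : ℝ) ^ b := by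
  rw [Nat.cast_natAbs, Int.cast_abs]
  push_cast
  rw [abs_mul, abs_mul, abs_of_nonneg (by positivity : (0 : ℝ) ≤ (p : ℝ) ^ a),
    abs_of_nonneg (by positivity : (0 : ℝ) ≤ (q : ℝ) ^ b)]

/-- (o3-T6) dyadic pieces; `|y| ≤ |x|` -/
theorem tie_half (K : ℝ) (hK : 0 < K) (a b e f : ℕ) (hb : 1 ≤ b) (hba : b < a) (hf : 1 ≤ f) (hfe : f < e) :
    ∃ δ H0 : ℝ, 0 < δ ∧ 1 ≤ H0 ∧
    ∀ H : ℝ, H0 ≤ H → ∀ (v w : ℤ) (F : Finset (ℕ × ℕ × ℕ × ℕ)), v ≠ 0 → w ≠ 0 → |(v : ℝ)| ≤ H ^ K → |(w : ℝ)| ≤ H ^ K →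
    (∀ t ∈ F, PrH δ H t.1 ∧ PrH δ H t.2.1 ∧ PrH δ H t.2.2.1 ∧ PrH δ H t.2.2.2 ∧
      IsCoprime (v * (t.1 : ℤ) ^ a * (t.2.1 : ℤ) ^ b) (w * (t.2.2.1 : ℤ) ^ e * (t.2.2.2 : ℤ) ^ f) ∧
      (∃ z : ℤ, v * (t.1 : ℤ) ^ a * (t.2.1 : ℤ) ^ b + w * (t.2.2.1 : ℤ) ^ e * (t.2.2.2 : ℤ) ^ f = z ^ 3) ∧
      |w * (t.2.2.1 : ℤ) ^ e * (t.2.2.2 : ℤ) ^ f| ≤ |v * (t.1 : ℤ) ^ a * (t.2.1 : ℤ) ^ b|) →
    (F.card : ℝ) ≤ H ^ (3 - δ) := by
  obtain ⟨d, H1, hd, hd1, hH1, hmain⟩ := T6_piece K hK a b e f hb hba hf hfe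
  have hM0 : (0 : ℝ) < K + 2 * (a + b) + 1 := by positivity
  obtain ⟨H2, hH2, hev⟩ := T6_ev (K + 2 * (a + b) + 1) (d / 2) hM0 (by positivity)
  refine ⟨d / 2, max (max H1 H2) 2, by positivity, hH1.trans ((le_max_left _ _).trans (le_max_left _ _)), ?_⟩
  intro H hH v w F hv hw hvK hwK hF
  have g1 : H1 ≤ H := ((le_max_left _ _).trans (le_max_left _ _)).trans hH
  have g2 : H2 ≤ H := ((le_max_right _ _).trans (le_max_left _ _)).trans hH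
  have g3 : 2 ≤ H := (le_max_right _ _).trans hH
  have hHone : 1 ≤ H := hH1.trans g1
  have hHpos : 0 < H := by linarith
  set M : ℝ := K + 2 * (a + b) + 1 with hMdef
  -- the data
  let xx : ℕ × ℕ × ℕ × ℕ → ℤ := fun t => v * (t.1 : ℤ) ^ a * (t.2.1 : ℤ) ^ b
  let yy : ℕ × ℕ × ℕ × ℕ → ℤ := fun t => w * (t.2.2.1 : ℤ) ^ e * (t.2.2.2 : ℤ) ^ f
  let z : ℕ × ℕ × ℕ × ℕ → ℤ := fun t => Classical.epsilon (fun z : ℤ => xx t + yy t = z ^ 3)
  have hz : ∀ t ∈ F, xx t + yy t = z t ^ 3 := by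
    intro t ht
    have h := (hF t ht).2.2.2.2.2.1
    exact Classical.epsilon_spec (p := fun z : ℤ => xx t + yy t = z ^ 3) h
  have hxR : ∀ t, (((xx t).natAbs : ℕ) : ℝ) = |(v : ℝ)| * (t.1 : ℝ) ^ a * (t.2.1 : ℝ) ^ b :=
    fun t => T6_abs v t.1 t.2.1 a b
  have hyR : ∀ t, (((yy t).natAbs : ℕ) : ℝ) = |(w : ℝ)| * (t.2.2.1 : ℝ) ^ e * (t.2.2.2 : ℝ) ^ f :=
    fun t => T6_abs w t.2.2.1 t.2.2.2 e f
  have hx0 : ∀ t ∈ F, xx t ≠ 0 := by
    intro t ht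
    have hp := (hF t ht).1.1
    have hq := (hF t ht).2.1.1
    exact mul_ne_zero (mul_ne_zero hv (pow_ne_zero _ (by exact_mod_cast hp.ne_zero)))
      (pow_ne_zero _ (by exact_mod_cast hq.ne_zero))
  have hy0 : ∀ t ∈ F, yy t ≠ 0 := by
    intro t ht
    have hp := (hF t ht).2.2.1.1
    have hq := (hF t ht).2.2.2.1.1
    exact mul_ne_zero (mul_ne_zero hw (pow_ne_zero _ (by exact_mod_cast hp.ne_zero)))
      (pow_ne_zero _ (by exact_mod_cast hq.ne_zero))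
  have hz0 : ∀ t ∈ F, z t ≠ 0 := by
    intro t ht h0
    have h1 := hz t ht
    rw [h0] at h1
    have h2 : yy t = - xx t := by
      have : xx t + yy t = 0 := by rw [h1]; norm_num
      linarith
    have hc : IsCoprime (xx t) (yy t) := (hF t ht).2.2.2.2.1
    rw [h2, IsCoprime.neg_right_iff, isCoprime_self] at hc
    have hp := (hF t ht).1.1
    have hdvd : ((t.1 : ℕ) : ℤ) ∣ xx t :=
      Dvd.dvd.mul_right (Dvd.dvd.mul_left (dvd_pow_self _ (by omega)) _) _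
    exact (Nat.prime_iff_prime_int.1 hp).not_isUnit (isUnit_of_dvd_unit hdvd hc)
  have hyx : ∀ t ∈ F, (yy t).natAbs ≤ (xx t).natAbs := by
    intro t ht
    have h : |yy t| ≤ |xx t| := (hF t ht).2.2.2.2.2.2
    rw [Int.abs_eq_natAbs, Int.abs_eq_natAbs] at h
    exact_mod_cast h
  have hp2 : ∀ P : ℕ, PrH (d / 2) H P → (P : ℝ) ≤ H ^ (2 : ℝ) := fun P hP =>
    hP.2.2.trans (Real.rpow_le_rpow_of_exponent_le hHone (by linarith))
  have hpw : ∀ n : ℕ, (H ^ (2 : ℝ)) ^ n = H ^ (2 * n : ℝ) := fun n => by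
    rw [← Real.rpow_natCast (H ^ (2 : ℝ)) n, ← Real.rpow_mul hHpos.le]
  have hxB : ∀ t ∈ F, (((xx t).natAbs : ℕ) : ℝ) ≤ H ^ (K + 2 * (a + b)) := by
    intro t ht
    rw [hxR]
    have h1 := pow_le_pow_left₀ (Nat.cast_nonneg _) (hp2 _ (hF t ht).1) a
    have h2 := pow_le_pow_left₀ (Nat.cast_nonneg _) (hp2 _ (hF t ht).2.1) b
    have h3 : |(v : ℝ)| * (t.1 : ℝ) ^ a * (t.2.1 : ℝ) ^ b ≤
        H ^ K * (H ^ (2 : ℝ)) ^ a * (H ^ (2 : ℝ)) ^ b := by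
      have h4 : |(v : ℝ)| * (t.1 : ℝ) ^ a ≤ H ^ K * (H ^ (2 : ℝ)) ^ a :=
        mul_le_mul hvK h1 (by positivity) (by positivity)
      exact mul_le_mul h4 h2 (by positivity) (by positivity)
    refine h3.trans (le_of_eq ?_)
    rw [hpw, hpw, ← Real.rpow_add hHpos, ← Real.rpow_add hHpos]
    congr 1
    ring
  have hMM : H ^ (K + 2 * (a + b) : ℝ) ≤ H ^ M :=
    Real.rpow_le_rpow_of_exponent_le hHone (by rw [hMdef]; linarith)
  have hxM : ∀ t ∈ F, (((xx t).natAbs : ℕ) : ℝ) ≤ H ^ M := fun t ht => (hxB t ht).trans hMM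
  have hyM : ∀ t ∈ F, (((yy t).natAbs : ℕ) : ℝ) ≤ H ^ M := fun t ht =>
    (by exact_mod_cast hyx t ht : (((yy t).natAbs : ℕ) : ℝ) ≤ (((xx t).natAbs : ℕ) : ℝ)).trans (hxM t ht)
  have hzM : ∀ t ∈ F, (((z t).natAbs : ℕ) : ℝ) ≤ H ^ M := by
    intro t ht
    have h1 : (z t).natAbs ^ 3 ≤ 2 * (xx t).natAbs := by
      have h2 : (z t).natAbs ^ 3 = (xx t + yy t).natAbs := by
        rw [hz t ht, Int.natAbs_pow]
      rw [h2]
      have h3 := Int.natAbs_add_le (xx t) (yy t)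
      have h4 := hyx t ht
      omega
    have h5 : 1 ≤ (z t).natAbs := Int.natAbs_pos.2 (hz0 t ht)
    have h6 : (z t).natAbs ≤ (z t).natAbs ^ 3 := Nat.le_self_pow (by norm_num) _
    have h7 : (((z t).natAbs : ℕ) : ℝ) ≤ 2 * (((xx t).natAbs : ℕ) : ℝ) := by exact_mod_cast h6.trans h1
    calc (((z t).natAbs : ℕ) : ℝ) ≤ 2 * (((xx t).natAbs : ℕ) : ℝ) := h7
      _ ≤ H * H ^ (K + 2 * (a + b) : ℝ) := mul_le_mul g3 (hxB t ht) (by positivity) hHpos.le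
      _ = H ^ M := by
          rw [hMdef, Real.rpow_add hHpos (K + 2 * (a + b)) 1, Real.rpow_one, mul_comm]
  -- the classes
  let L : ℕ := ⌊M * Real.log H / Real.log 2⌋₊
  let R : Finset ℕ := Finset.range (L + 1)
  let φ : ℕ × ℕ × ℕ × ℕ → ℕ × ℕ × ℕ := fun t =>
    (Nat.log 2 (xx t).natAbs, Nat.log 2 (yy t).natAbs, Nat.log 2 (z t).natAbs)
  have hφ : ∀ t ∈ F, φ t ∈ R ×ˢ (R ×ˢ R) := by
    intro t ht
    have h1 := T6_log M H hHone _ (hxM t ht) (Int.natAbs_ne_zero.2 (hx0 t ht))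
    have h2 := T6_log M H hHone _ (hyM t ht) (Int.natAbs_ne_zero.2 (hy0 t ht))
    have h3 := T6_log M H hHone _ (hzM t ht) (Int.natAbs_ne_zero.2 (hz0 t ht))
    exact Finset.mem_product.2 ⟨Finset.mem_range.2 (Nat.lt_succ_of_le h1),
      Finset.mem_product.2 ⟨Finset.mem_range.2 (Nat.lt_succ_of_le h2), Finset.mem_range.2 (Nat.lt_succ_of_le h3)⟩⟩
  have hlog : ∀ n : ℕ, n ≠ 0 → (2 : ℝ) ^ (Nat.log 2 n + 1) / 2 ≤ n ∧ (n : ℝ) ≤ (2 : ℝ) ^ (Nat.log 2 n + 1) := by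
    intro n hn
    have h1 : (2 : ℝ) ^ (Nat.log 2 n) ≤ n := by exact_mod_cast Nat.pow_log_le_self 2 hn
    have h2 : (n : ℝ) < (2 : ℝ) ^ (Nat.log 2 n + 1) := by
      exact_mod_cast Nat.lt_pow_succ_log_self (by norm_num : 1 < 2) n
    refine ⟨?_, h2.le⟩
    rw [pow_succ]
    linarith
  have hzR : ∀ t, |(z t : ℝ)| = (((z t).natAbs : ℕ) : ℝ) := by
    intro t
    rw [Nat.cast_natAbs, Int.cast_abs]
  have hcls : ∀ u ∈ R ×ˢ (R ×ˢ R), (F.filter (fun t => φ t = u)).card ≤ ⌊H ^ (3 - d)⌋₊ := by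
    intro u _
    apply Nat.le_floor
    have hsub : ∀ t ∈ F.filter (fun t => φ t = u), t ∈ F ∧ φ t = u := fun t ht => Finset.mem_filter.1 ht
    refine hmain H g1 v w ((2 : ℝ) ^ (u.1 + 1)) ((2 : ℝ) ^ (u.2.1 + 1)) ((2 : ℝ) ^ (u.2.2 + 1)) _ z ?_
    have hdd : d / 2 ≤ d := by linarith
    refine ⟨?_, ?_, ?_, ?_, hv, hw, hvK, hwK, ?_, ?_, ?_, ?_, ?_, ?_, ?_, ?_, ?_⟩
    · exact fun t ht => (hF t (hsub t ht).1).1.mono hHone hdd
    · exact fun t ht => (hF t (hsub t ht).1).2.1.mono hHone hdd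
    · exact fun t ht => (hF t (hsub t ht).1).2.2.1.mono hHone hdd
    · exact fun t ht => (hF t (hsub t ht).1).2.2.2.1.mono hHone hdd
    · exact fun t ht => (hF t (hsub t ht).1).2.2.2.2.1
    · exact fun t ht => hz t (hsub t ht).1
    · intro t ht
      obtain ⟨h1, rfl⟩ := hsub t ht
      rw [← hxR]
      exact (hlog _ (Int.natAbs_ne_zero.2 (hx0 t h1))).1
    · intro t ht
      obtain ⟨h1, rfl⟩ := hsub t ht
      rw [← hxR]
      exact (hlog _ (Int.natAbs_ne_zero.2 (hx0 t h1))).2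
    · intro t ht
      obtain ⟨h1, rfl⟩ := hsub t ht
      rw [← hyR]
      exact (hlog _ (Int.natAbs_ne_zero.2 (hy0 t h1))).1
    · intro t ht
      obtain ⟨h1, rfl⟩ := hsub t ht
      rw [← hyR]
      exact (hlog _ (Int.natAbs_ne_zero.2 (hy0 t h1))).2
    · intro t ht
      rw [← hyR, ← hxR]
      exact_mod_cast hyx t (hsub t ht).1
    · intro t ht
      obtain ⟨h1, rfl⟩ := hsub t ht
      rw [hzR]
      exact (hlog _ (Int.natAbs_ne_zero.2 (hz0 t h1))).1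
    · intro t ht
      obtain ⟨h1, rfl⟩ := hsub t ht
      rw [hzR]
      exact (hlog _ (Int.natAbs_ne_zero.2 (hz0 t h1))).2
  have hcard := Finset.card_le_mul_card_image_of_maps_to hφ ⌊H ^ (3 - d)⌋₊ hcls
  have hR : (R ×ˢ (R ×ˢ R)).card = (L + 1) ^ 3 := by
    rw [Finset.card_product, Finset.card_product, Finset.card_range]
    ring
  rw [hR] at hcard
  have hl0 : 0 ≤ M * Real.log H / Real.log 2 := by
    have h1 := Real.log_nonneg hHone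
    have h2 : 0 < Real.log 2 := Real.log_pos (by norm_num)
    positivity
  have hL : (((L + 1) ^ 3 : ℕ) : ℝ) ≤ H ^ (d / 2) := by
    refine le_trans ?_ (hev H g2)
    push_cast
    exact pow_le_pow_left₀ (by positivity) (by linarith [Nat.floor_le hl0]) 3
  have hfl : ((⌊H ^ (3 - d)⌋₊ : ℕ) : ℝ) ≤ H ^ (3 - d) := Nat.floor_le (by positivity)
  calc (F.card : ℝ) ≤ ((⌊H ^ (3 - d)⌋₊ * (L + 1) ^ 3 : ℕ) : ℝ) := by exact_mod_cast hcard
    _ = ((⌊H ^ (3 - d)⌋₊ : ℕ) : ℝ) * (((L + 1) ^ 3 : ℕ) : ℝ) := by push_cast; ring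
    _ ≤ H ^ (3 - d) * H ^ (d / 2) := mul_le_mul hfl hL (by positivity) (by positivity)
    _ = H ^ (3 - d / 2) := by
        rw [← Real.rpow_add hHpos]
        congr 1
        ring

end O3

end T3

end Pool.Agent.Lib.MP_d8bd92_nt
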