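import Pool.Agent.Lib.MP_d8bd92_nt.T3.O3.Defs
import Pool.Agent.Lib.MP_d8bd92_nt.T3.O3.T6

set_option autoImplicit false

/-!
Phase 3, the tie (b)-(b), elementary route (page d8o3_tie_helper11.md).
-/

namespace Pool.Agent.Lib.MP_d8bd92_nt

namespace T3

namespace O3

open Finset

/-- (o3-T7) THE TIE, by symmetry from `tie_half` -/
theorem tie (K : ℝ) (hK : 0 < K) (a b e f : ℕ) (hb : 1 ≤ b) (hba : b < a) (hf : 1 ≤ f) (hfe : f < e) :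
    ∃ δ H0 : ℝ, 0 < δ ∧ 1 ≤ H0 ∧
    ∀ H : ℝ, H0 ≤ H → ∀ (v w : ℤ) (F : Finset (ℕ × ℕ × ℕ × ℕ)), v ≠ 0 → w ≠ 0 → |(v : ℝ)| ≤ H ^ K → |(w : ℝ)| ≤ H ^ K →
    (∀ t ∈ F, PrH δ H t.1 ∧ PrH δ H t.2.1 ∧ PrH δ H t.2.2.1 ∧ PrH δ H t.2.2.2 ∧
      IsCoprime (v * (t.1 : ℤ) ^ a * (t.2.1 : ℤ) ^ b) (w * (t.2.2.1 : ℤ) ^ e * (t.2.2.2 : ℤ) ^ f) ∧
      (∃ z : ℤ, v * (t.1 : ℤ) ^ a * (t.2.1 : ℤ) ^ b + w * (t.2.2.1 : ℤ) ^ e * (t.2.2.2 : ℤ) ^ f = z ^ 3)) →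
    (F.card : ℝ) ≤ H ^ (3 - δ) := by
  classical
  obtain ⟨δ1, H1, hδ1, hH1, h1⟩ := tie_half K hK a b e f hb hba hf hfe
  obtain ⟨δ2, H2, hδ2, hH2, h2⟩ := tie_half K hK e f a b hf hfe hb hba
  set m : ℝ := min δ1 δ2 with hm
  have hm0 : 0 < m := lt_min hδ1 hδ2
  have hm1 : m ≤ δ1 := min_le_left _ _
  have hm2 : m ≤ δ2 := min_le_right _ _
  refine ⟨m / 2, max (max H1 H2) ((2 : ℝ) ^ (2 / m)), by positivity,
    le_trans hH1 (le_trans (le_max_left _ _) (le_max_left _ _)), ?_⟩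
  intro H hH v w F hv hw hvK hwK hF
  have hHH1 : H1 ≤ H := le_trans (le_trans (le_max_left _ _) (le_max_left _ _)) hH
  have hHH2 : H2 ≤ H := le_trans (le_trans (le_max_right _ _) (le_max_left _ _)) hH
  have hH3 : (2 : ℝ) ^ (2 / m) ≤ H := le_trans (le_max_right _ _) hH
  have hHone : 1 ≤ H := le_trans hH1 hHH1
  have hH0 : 0 < H := by linarith
  set A : Finset (ℕ × ℕ × ℕ × ℕ) := F.filter (fun t =>
    |w * (t.2.2.1 : ℤ) ^ e * (t.2.2.2 : ℤ) ^ f| ≤ |v * (t.1 : ℤ) ^ a * (t.2.1 : ℤ) ^ b|) with hA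
  set B : Finset (ℕ × ℕ × ℕ × ℕ) := F.filter (fun t =>
    ¬ |w * (t.2.2.1 : ℤ) ^ e * (t.2.2.2 : ℤ) ^ f| ≤ |v * (t.1 : ℤ) ^ a * (t.2.1 : ℤ) ^ b|) with hB
  have hcard : F.card = A.card + B.card := by
    rw [hA, hB, Finset.card_filter_add_card_filter_not]
  have hcA : (A.card : ℝ) ≤ H ^ (3 - δ1) := by
    refine h1 H hHH1 v w A hv hw hvK hwK ?_
    intro t ht
    obtain ⟨htF, hle⟩ := Finset.mem_filter.1 ht
    obtain ⟨p1, p2, p3, p4, hc, hz⟩ := hF t htF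
    have hd : m / 2 ≤ δ1 := by linarith
    exact ⟨p1.mono hHone hd, p2.mono hHone hd, p3.mono hHone hd, p4.mono hHone hd, hc, hz, hle⟩
  set g : ℕ × ℕ × ℕ × ℕ → ℕ × ℕ × ℕ × ℕ := fun t => (t.2.2.1, t.2.2.2, t.1, t.2.1) with hg
  have hginj : Function.Injective g := by
    rintro ⟨p, q, P, Q⟩ ⟨p', q', P', Q'⟩ h
    simp only [hg, Prod.mk.injEq] at h ⊢
    tauto
  have hcB : (B.card : ℝ) ≤ H ^ (3 - δ2) := by
    rw [← Finset.card_image_of_injective B hginj]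
    refine h2 H hHH2 w v (B.image g) hw hv hwK hvK ?_
    intro t ht
    obtain ⟨u, hu, rfl⟩ := Finset.mem_image.1 ht
    obtain ⟨huF, hlt⟩ := Finset.mem_filter.1 hu
    obtain ⟨p1, p2, p3, p4, hc, z, hz⟩ := hF u huF
    have hd : m / 2 ≤ δ2 := by linarith
    refine ⟨p3.mono hHone hd, p4.mono hHone hd, p1.mono hHone hd, p2.mono hHone hd, hc.symm,
      ⟨z, ?_⟩, (not_le.1 hlt).le⟩
    rw [← hz]
    exact add_comm _ _
  have e1 : H ^ (3 - δ1) ≤ H ^ (3 - m) :=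
    Real.rpow_le_rpow_of_exponent_le hHone (by linarith)
  have e2 : H ^ (3 - δ2) ≤ H ^ (3 - m) :=
    Real.rpow_le_rpow_of_exponent_le hHone (by linarith)
  have e3 : (2 : ℝ) ≤ H ^ (m / 2) := by
    have h3 : ((2 : ℝ) ^ (2 / m)) ^ (m / 2) ≤ H ^ (m / 2) :=
      Real.rpow_le_rpow (by positivity) hH3 (by positivity)
    rw [← Real.rpow_mul (by norm_num : (0 : ℝ) ≤ 2)] at h3
    have h4 : 2 / m * (m / 2) = 1 := by field_simp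
    rw [h4, Real.rpow_one] at h3
    exact h3
  have e4 : H ^ (3 - m / 2) = H ^ (m / 2) * H ^ (3 - m) := by
    rw [← Real.rpow_add hH0]
    congr 1
    ring
  have e5 : 0 ≤ H ^ (3 - m) := by positivity
  rw [hcard, e4]
  push_cast
  nlinarith

end O3

end T3

end Pool.Agent.Lib.MP_d8bd92_nt
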