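import Pool.Agent.Lib.MP_d8bd92_nt.T3.BB
import Pool.Agent.Lib.MP_d8bd92_nt.T3.O3.T7

set_option autoImplicit false

/-!
Phase 3: the tie (b)-(b) for pairs, from `O3.tie`.
-/

namespace Pool.Agent.Lib.MP_d8bd92_nt

namespace T3

open Finset Pool.Agent.Lib.Szpiro Hp

theorem BB_mul {α p q : ℤ} {a b : ℕ} : α * p ^ a * q ^ b = α * (p ^ a * q ^ b) := by ring

/-- `O3.tie` in the form of `TieSet` -/
theorem BB_tie_all (K : ℝ) (a b e f : ℕ) (hb : 1 ≤ b) (hba : b < a) (hf : 1 ≤ f) (hfe : f < e) :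
    ∃ δ C : ℝ, 0 < δ ∧ 0 < C ∧ ∀ (H : ℝ) (α β : ℤ) (S : Finset ((ℕ × ℕ) × (ℕ × ℕ))), 1 ≤ H →
      TieSet K a b e f δ H α β S → (S.card : ℝ) ≤ C * H ^ (3 - 10 * δ) := by
  classical
  obtain ⟨δ, H0, hδ, hH0, hT⟩ := O3.tie (max K 1) (lt_max_of_lt_right one_pos) a b e f hb hba hf hfe
  obtain ⟨δ', hδ', hd1, hd2⟩ : ∃ δ' : ℝ, 0 < δ' ∧ 10 * δ' ≤ δ ∧ δ' ≤ 1 / 10 :=
    ⟨min (δ / 10) (1 / 10), lt_min (by positivity) (by norm_num), by
      have := min_le_left (δ / 10) (1 / 10)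
      linarith, min_le_right _ _⟩
  obtain ⟨n, hn⟩ : ∃ n : ℕ, n = ⌊H0 ^ (1 + δ')⌋₊ + 1 := ⟨_, rfl⟩
  refine ⟨δ', 1 + (n : ℝ) ^ 4, hδ', by positivity, ?_⟩
  intro H α β S hH hS
  have hH00 : 0 < H := by linarith
  obtain ⟨h1, h2, h3, h4, -, -, h7⟩ := hS
  have hpow : 1 ≤ H ^ (3 - 10 * δ') := Real.one_le_rpow hH (by linarith)
  rcases lt_or_ge H H0 with hs | hbig
  · -- small `H`
    have hle : ∀ m : ℕ, (m : ℝ) ≤ H ^ (1 + δ') → m ∈ Finset.range n := by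
      intro m hm
      have e1 : (m : ℝ) ≤ H0 ^ (1 + δ') := hm.trans (Real.rpow_le_rpow hH00.le hs.le (by linarith))
      have e2 := Nat.le_floor e1
      rw [Finset.mem_range, hn]
      omega
    have hsub : S ⊆ (Finset.range n ×ˢ Finset.range n) ×ˢ (Finset.range n ×ˢ Finset.range n) := by
      intro s hs'
      obtain ⟨⟨-, -, g1⟩, ⟨-, -, g2⟩, ⟨-, -, g3⟩, ⟨-, -, g4⟩, -⟩ := h7 s hs'
      rw [Finset.mem_product, Finset.mem_product, Finset.mem_product]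
      exact ⟨⟨hle _ g1, hle _ g2⟩, hle _ g3, hle _ g4⟩
    have hc := Finset.card_le_card hsub
    rw [Finset.card_product, Finset.card_product, Finset.card_range] at hc
    have hc' : (S.card : ℝ) ≤ (n : ℝ) ^ 4 := by
      have : S.card ≤ n ^ 4 := by
        refine hc.trans (le_of_eq ?_)
        ring
      exact_mod_cast this
    calc (S.card : ℝ) ≤ (n : ℝ) ^ 4 := hc'
      _ ≤ (1 + (n : ℝ) ^ 4) * 1 := by linarith
      _ ≤ _ := mul_le_mul_of_nonneg_left hpow (by positivity)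
  · -- large `H`
    have hKK : H ^ K ≤ H ^ max K 1 := Real.rpow_le_rpow_of_exponent_le hH (le_max_left _ _)
    have hpr : ∀ p : ℕ, (p.Prime ∧ H ^ (1 - δ') ≤ (p : ℝ) ∧ (p : ℝ) ≤ H ^ (1 + δ')) → O3.PrH δ H p := by
      rintro p ⟨q1, q2, q3⟩
      exact ⟨q1, (Real.rpow_le_rpow_of_exponent_le hH (by linarith)).trans q2,
        q3.trans (Real.rpow_le_rpow_of_exponent_le hH (by linarith))⟩
    have hinj : Function.Injective (fun s : (ℕ × ℕ) × (ℕ × ℕ) => (s.1.1, s.1.2, s.2.1, s.2.2)) := by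
      rintro ⟨⟨x1, x2⟩, x3, x4⟩ ⟨⟨y1, y2⟩, y3, y4⟩ h
      simp only [Prod.mk.injEq] at h
      obtain ⟨rfl, rfl, rfl, rfl⟩ := h
      rfl
    have hc := Finset.card_image_of_injective S hinj
    have hT' := hT H hbig α β (S.image (fun s => (s.1.1, s.1.2, s.2.1, s.2.2))) h1 h2 (h3.trans hKK) (h4.trans hKK) (by
      intro t ht
      obtain ⟨s, hs, rfl⟩ := Finset.mem_image.1 ht
      obtain ⟨g1, g2, g3, g4, g5, -, z, g7⟩ := h7 s hs
      refine ⟨hpr _ g1, hpr _ g2, hpr _ g3, hpr _ g4, ?_, z, ?_⟩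
      · simp only [BB_mul]
        exact g5
      · simp only [BB_mul]
        exact g7)
    rw [hc] at hT'
    have e1 : H ^ (3 - δ) ≤ H ^ (3 - 10 * δ') := Real.rpow_le_rpow_of_exponent_le hH (by linarith)
    refine hT'.trans (e1.trans ?_)
    have e2 : (0 : ℝ) ≤ (n : ℝ) ^ 4 := by positivity
    nlinarith

/-- (o3-BB) the tie (b)-(b), from `O3.tie` with `H = Y^(1/4)`, `v = ± 27 w1`, `w = ± w2`: fix the dusts (at most `Y^(3σ)` of them) and the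
signs; `3 ∤ y` because `IsCoprime (3 x) y` -/
theorem few3_BB (K : ℝ) (hK : 1 ≤ K) (a b e f : ℕ) (hb : 1 ≤ b) (hba : b < a) (hf : 1 ≤ f) (hfe : f < e) :
    ∃ σ : ℝ, 0 < σ ∧ Few3 K (fun Y w => IsB σ a b Y w.1 ∧ IsB σ e f Y w.2) :=
  few3_BB_of_tie (fun K a b e f hb hba hf hfe => BB_tie_all K a b e f hb hba hf hfe) K hK a b e f hb hba hf hfe

end T3

end Pool.Agent.Lib.MP_d8bd92_nt
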