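import Pool.Agent.Lib.MP_d8bd92_nt.ThD
import Pool.Agent.Lib.MP_d8bd92_nt.Hp.AlJ

set_option autoImplicit false

/-!
Phase 3, the tie (b)-(b), elementary route (page d8o3_tie_helper11.md): definitions.
-/

namespace Pool.Agent.Lib.MP_d8bd92_nt

namespace T3

namespace O3

open Finset

/-- a prime of size `H ^ (1 ± δ)` -/
def PrH (δ H : ℝ) (P : ℕ) : Prop := P.Prime ∧ H ^ (1 - δ) ≤ (P : ℝ) ∧ (P : ℝ) ≤ H ^ (1 + δ)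

theorem PrH.mono {δ δ' H : ℝ} {P : ℕ} (h : PrH δ H P) (hH : 1 ≤ H) (hδ : δ ≤ δ') : PrH δ' H P :=
  ⟨h.1, (Real.rpow_le_rpow_of_exponent_le hH (by linarith)).trans h.2.1,
    h.2.2.trans (Real.rpow_le_rpow_of_exponent_le hH (by linarith))⟩

/-- determinant of two vectors -/
def dt (x y : ℤ × ℤ) : ℤ := x.1 * y.2 - x.2 * y.1

/-- A grid: rows `w.1 = P`, columns `w.2 = Q`; entries `z P Q` with `z^3 = v P^e Q^f` modulo `N`, archimedean size `Z`,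
`|z^3 - κ P^e Q^f| ≤ Z^3 η`. -/
structure Grid (K δ H : ℝ) (e f : ℕ) (E : Finset (ℕ × ℕ)) (z : ℕ → ℕ → ℤ) (N : ℕ) (Z η κ : ℝ) (v : ℤ) : Prop where
  pr1 : ∀ w ∈ E, PrH δ H w.1
  pr2 : ∀ w ∈ E, PrH δ H w.2
  N1 : 1 ≤ N
  NK : (N : ℝ) ≤ H ^ K
  Z0 : 0 < Z
  ZK : Z ≤ H ^ K
  eta0 : 0 < η
  eta1 : η ≤ 1
  zlo : ∀ w ∈ E, Z / 2 ≤ |(z w.1 w.2 : ℝ)|
  zhi : ∀ w ∈ E, |(z w.1 w.2 : ℝ)| ≤ Z
  copN : ∀ w ∈ E, IsCoprime (z w.1 w.2) (N : ℤ)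
  cop1 : ∀ w ∈ E, IsCoprime (z w.1 w.2) (w.1 : ℤ)
  cop2 : ∀ w ∈ E, IsCoprime (z w.1 w.2) (w.2 : ℤ)
  copv : ∀ w ∈ E, IsCoprime (v * w.1 * w.2) (N : ℤ)
  cub : ∀ w ∈ E, (N : ℤ) ∣ z w.1 w.2 ^ 3 - v * w.1 ^ e * w.2 ^ f
  arch : ∀ w ∈ E, |(z w.1 w.2 : ℝ) ^ 3 - κ * w.1 ^ e * w.2 ^ f| ≤ Z ^ 3 * η
  g4 : Z ^ 3 * η * H ^ (1 / 2 : ℝ) ≤ (N : ℝ) ^ 2

theorem Grid.sub {K δ H : ℝ} {e f : ℕ} {E E' : Finset (ℕ × ℕ)} {z : ℕ → ℕ → ℤ} {N : ℕ} {Z η κ : ℝ} {v : ℤ}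
    (h : Grid K δ H e f E z N Z η κ v) (hE : E' ⊆ E) : Grid K δ H e f E' z N Z η κ v where
  pr1 := fun w hw => h.pr1 w (hE hw)
  pr2 := fun w hw => h.pr2 w (hE hw)
  N1 := h.N1
  NK := h.NK
  Z0 := h.Z0
  ZK := h.ZK
  eta0 := h.eta0
  eta1 := h.eta1
  zlo := fun w hw => h.zlo w (hE hw)
  zhi := fun w hw => h.zhi w (hE hw)
  copN := fun w hw => h.copN w (hE hw)
  cop1 := fun w hw => h.cop1 w (hE hw)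
  cop2 := fun w hw => h.cop2 w (hE hw)
  copv := fun w hw => h.copv w (hE hw)
  cub := fun w hw => h.cub w (hE hw)
  arch := fun w hw => h.arch w (hE hw)
  g4 := h.g4

theorem Grid.mono {K δ δ' H : ℝ} {e f : ℕ} {E : Finset (ℕ × ℕ)} {z : ℕ → ℕ → ℤ} {N : ℕ} {Z η κ : ℝ} {v : ℤ}
    (h : Grid K δ H e f E z N Z η κ v) (hH : 1 ≤ H) (hδ : δ ≤ δ') : Grid K δ' H e f E z N Z η κ v where
  pr1 := fun w hw => (h.pr1 w hw).mono hH hδ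
  pr2 := fun w hw => (h.pr2 w hw).mono hH hδ
  N1 := h.N1
  NK := h.NK
  Z0 := h.Z0
  ZK := h.ZK
  eta0 := h.eta0
  eta1 := h.eta1
  zlo := h.zlo
  zhi := h.zhi
  copN := h.copN
  cop1 := h.cop1
  cop2 := h.cop2
  copv := h.copv
  cub := h.cub
  arch := h.arch
  g4 := h.g4

/-- the transposed grid -/
theorem Grid.swap {K δ H : ℝ} {e f : ℕ} {E : Finset (ℕ × ℕ)} {z : ℕ → ℕ → ℤ} {N : ℕ} {Z η κ : ℝ} {v : ℤ}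
    (h : Grid K δ H e f E z N Z η κ v) :
    Grid K δ H f e (E.image Prod.swap) (fun Q P => z P Q) N Z η κ v where
  pr1 := fun w hw => by
    obtain ⟨u, hu, rfl⟩ := Finset.mem_image.1 hw
    exact h.pr2 u hu
  pr2 := fun w hw => by
    obtain ⟨u, hu, rfl⟩ := Finset.mem_image.1 hw
    exact h.pr1 u hu
  N1 := h.N1
  NK := h.NK
  Z0 := h.Z0
  ZK := h.ZK
  eta0 := h.eta0
  eta1 := h.eta1
  zlo := fun w hw => by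
    obtain ⟨u, hu, rfl⟩ := Finset.mem_image.1 hw
    exact h.zlo u hu
  zhi := fun w hw => by
    obtain ⟨u, hu, rfl⟩ := Finset.mem_image.1 hw
    exact h.zhi u hu
  copN := fun w hw => by
    obtain ⟨u, hu, rfl⟩ := Finset.mem_image.1 hw
    exact h.copN u hu
  cop1 := fun w hw => by
    obtain ⟨u, hu, rfl⟩ := Finset.mem_image.1 hw
    exact h.cop2 u hu
  cop2 := fun w hw => by
    obtain ⟨u, hu, rfl⟩ := Finset.mem_image.1 hw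
    exact h.cop1 u hu
  copv := fun w hw => by
    obtain ⟨u, hu, rfl⟩ := Finset.mem_image.1 hw
    have := h.copv u hu
    have h2 : v * ((u.swap.1 : ℕ) : ℤ) * ((u.swap.2 : ℕ) : ℤ) = v * u.1 * u.2 := by
      simp only [Prod.fst_swap, Prod.snd_swap]; ring
    rw [h2]; exact this
  cub := fun w hw => by
    obtain ⟨u, hu, rfl⟩ := Finset.mem_image.1 hw
    have := h.cub u hu
    have h2 : v * ((u.swap.1 : ℕ) : ℤ) ^ f * ((u.swap.2 : ℕ) : ℤ) ^ e = v * u.1 ^ e * u.2 ^ f := by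
      simp only [Prod.fst_swap, Prod.snd_swap]; ring
    rw [h2]; exact this
  arch := fun w hw => by
    obtain ⟨u, hu, rfl⟩ := Finset.mem_image.1 hw
    have := h.arch u hu
    have h2 : κ * ((u.swap.1 : ℕ) : ℝ) ^ f * ((u.swap.2 : ℕ) : ℝ) ^ e = κ * u.1 ^ e * u.2 ^ f := by
      simp only [Prod.fst_swap, Prod.snd_swap]; ring
    rw [h2]; exact this
  g4 := h.g4

/-- condition (g5) -/
def G5 (H : ℝ) (e f : ℕ) (N Z η : ℝ) : Prop :=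
  H * (Z ^ 2 * η) ^ 6 ≤ min N (H ^ e) * min N (H ^ f) * N ^ 6

theorem G5.swap {H : ℝ} {e f : ℕ} {N Z η : ℝ} (h : G5 H e f N Z η) : G5 H f e N Z η := by
  unfold G5 at h ⊢
  rw [mul_comm (min N (H ^ f))]; exact h

/-- all complete minors vanish modulo `N` -/
def Minor (E : Finset (ℕ × ℕ)) (z : ℕ → ℕ → ℤ) (N : ℕ) : Prop :=
  ∀ P P' Q Q' : ℕ, (P, Q) ∈ E → (P, Q') ∈ E → (P', Q) ∈ E → (P', Q') ∈ E →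
    (N : ℤ) ∣ z P Q * z P' Q' - z P Q' * z P' Q

/-- the gcd of the four entries -/
def gc (z : ℕ → ℕ → ℤ) (P P' Q Q' : ℕ) : ℕ :=
  Nat.gcd (Int.gcd (z P Q) (z P Q')) (Int.gcd (z P' Q) (z P' Q'))

open scoped Classical in
/-- complete quadruples (opposite corners `t.1`, `t.2`) with large gcd -/
noncomputable def heavy (κ H : ℝ) (E : Finset (ℕ × ℕ)) (z : ℕ → ℕ → ℤ) : Finset ((ℕ × ℕ) × (ℕ × ℕ)) :=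
  (E ×ˢ E).filter (fun t => (t.1.1, t.2.2) ∈ E ∧ (t.2.1, t.1.2) ∈ E ∧ H ^ κ ≤ (gc z t.1.1 t.2.1 t.1.2 t.2.2 : ℝ))

open scoped Classical in
/-- bad pairs of columns: many rows on a line -/
def BadCol (c H : ℝ) (E : Finset (ℕ × ℕ)) (z : ℕ → ℕ → ℤ) (Q Q' : ℕ) : Prop :=
  ∃ α β : ℤ, (α ≠ 0 ∨ β ≠ 0) ∧
    H ^ (1 - c) ≤ (((E.image Prod.fst).filter (fun P => (P, Q) ∈ E ∧ (P, Q') ∈ E ∧ β * z P Q = α * z P Q')).card : ℝ)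

open scoped Classical in
/-- bad pairs of rows -/
def BadRow (c H : ℝ) (E : Finset (ℕ × ℕ)) (z : ℕ → ℕ → ℤ) (P P' : ℕ) : Prop :=
  ∃ α β : ℤ, (α ≠ 0 ∨ β ≠ 0) ∧
    H ^ (1 - c) ≤ (((E.image Prod.snd).filter (fun Q => (P, Q) ∈ E ∧ (P', Q) ∈ E ∧ β * z P Q = α * z P' Q)).card : ℝ)

open scoped Classical in
/-- rows adjacent to three columns -/
noncomputable def nb3 (E : Finset (ℕ × ℕ)) (Q1 Q2 Q3 : ℕ) : Finset ℕ :=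
  (E.image Prod.fst).filter (fun P => (P, Q1) ∈ E ∧ (P, Q2) ∈ E ∧ (P, Q3) ∈ E)

/-- The choice made in (2.5): two rows, two columns, a set `T` of third columns with relations
`ω₁ z(P,Q1) + ω₂ z(P,Q2) + D z(P,Q) = 0` on all rows adjacent to `Q1`, `Q2`, `Q`. -/
structure Choice (c κ c2 H : ℝ) (E : Finset (ℕ × ℕ)) (z : ℕ → ℕ → ℤ) (P1 P2 Q1 Q2 D : ℕ) (T : Finset ℕ)
    (ω : ℕ → ℤ × ℤ) : Prop where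
  m11 : (P1, Q1) ∈ E
  m12 : (P1, Q2) ∈ E
  m21 : (P2, Q1) ∈ E
  m22 : (P2, Q2) ∈ E
  D1 : 1 ≤ D
  det : z P1 Q1 * z P2 Q2 - z P1 Q2 * z P2 Q1 ≠ 0
  light : (gc z P1 P2 Q1 Q2 : ℝ) < H ^ κ
  nrow : ¬ BadRow c2 H E z P1 P2
  ncol : ¬ BadCol c2 H E z Q1 Q2
  cT : H ^ (1 - c) ≤ (T.card : ℝ)
  m1 : ∀ Q ∈ T, (P1, Q) ∈ E
  m2 : ∀ Q ∈ T, (P2, Q) ∈ E
  nb : ∀ Q ∈ T, H ^ (1 - c) ≤ ((nb3 E Q1 Q2 Q).card : ℝ)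
  om1 : ∀ Q ∈ T, |(ω Q).1| ≤ D
  om2 : ∀ Q ∈ T, |(ω Q).2| ≤ D
  prim : ∀ Q ∈ T, ∃ u1 u2 u3 : ℤ, u1 * (ω Q).1 + u2 * (ω Q).2 + u3 * (D : ℤ) = 1
  rel : ∀ Q ∈ T, ∀ P ∈ nb3 E Q1 Q2 Q, (ω Q).1 * z P Q1 + (ω Q).2 * z P Q2 + (D : ℤ) * z P Q = 0

/-- complete `K_{2,3}`: two rows `(t.1.1, t.1.2)`, three columns `(t.2.1, t.2.2.1, t.2.2.2)` -/
def K23 (E : Finset (ℕ × ℕ)) : Finset ((ℕ × ℕ) × (ℕ × ℕ × ℕ)) :=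
  ((E.image Prod.fst ×ˢ E.image Prod.fst) ×ˢ (E.image Prod.snd ×ˢ E.image Prod.snd ×ˢ E.image Prod.snd)).filter (fun t =>
    (t.1.1, t.2.1) ∈ E ∧ (t.1.1, t.2.2.1) ∈ E ∧ (t.1.1, t.2.2.2) ∈ E ∧
    (t.1.2, t.2.1) ∈ E ∧ (t.1.2, t.2.2.1) ∈ E ∧ (t.1.2, t.2.2.2) ∈ E)

/-- the tie: `t = (p, q, P, Q)`, `x = v p^a q^b`, `y = w P^e Q^f`, `x + y = z^3`, `|y| ≤ |x|`, dyadic sizes -/
structure Tie (K δ H : ℝ) (a b e f : ℕ) (v w : ℤ) (X Y Z : ℝ) (F : Finset (ℕ × ℕ × ℕ × ℕ))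
    (z : ℕ × ℕ × ℕ × ℕ → ℤ) : Prop where
  prp : ∀ t ∈ F, PrH δ H t.1
  prq : ∀ t ∈ F, PrH δ H t.2.1
  prP : ∀ t ∈ F, PrH δ H t.2.2.1
  prQ : ∀ t ∈ F, PrH δ H t.2.2.2
  v0 : v ≠ 0
  w0 : w ≠ 0
  vK : |(v : ℝ)| ≤ H ^ K
  wK : |(w : ℝ)| ≤ H ^ K
  cop : ∀ t ∈ F, IsCoprime (v * t.1 ^ a * t.2.1 ^ b) (w * t.2.2.1 ^ e * t.2.2.2 ^ f)
  eq : ∀ t ∈ F, v * t.1 ^ a * t.2.1 ^ b + w * t.2.2.1 ^ e * t.2.2.2 ^ f = z t ^ 3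
  xlo : ∀ t ∈ F, X / 2 ≤ |(v : ℝ)| * t.1 ^ a * t.2.1 ^ b
  xhi : ∀ t ∈ F, |(v : ℝ)| * t.1 ^ a * t.2.1 ^ b ≤ X
  ylo : ∀ t ∈ F, Y / 2 ≤ |(w : ℝ)| * t.2.2.1 ^ e * t.2.2.2 ^ f
  yhi : ∀ t ∈ F, |(w : ℝ)| * t.2.2.1 ^ e * t.2.2.2 ^ f ≤ Y
  yx : ∀ t ∈ F, |(w : ℝ)| * t.2.2.1 ^ e * t.2.2.2 ^ f ≤ |(v : ℝ)| * t.1 ^ a * t.2.1 ^ b
  zlo : ∀ t ∈ F, Z / 2 ≤ |(z t : ℝ)|
  zhi : ∀ t ∈ F, |(z t : ℝ)| ≤ Z

end O3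

end T3

end Pool.Agent.Lib.MP_d8bd92_nt
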